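import Mathlib
import Pool.Agent.Lib.MP_0a1b52_lc_FP.Defs

/-!
# Reading more than `c log² n` times, module Place: a system of constraints as a clique problem
-/

set_option autoImplicit false

namespace Pool.Agent.LS

open Finset Pool.Agent.FP

/-- Vertices `w`, put at the place `u w` into the cell `cell w`; together with the vertices in `R`
there are as many cells as a clique must have vertices. -/
structure Sys (n : ℕ) (W Y : Type) [Fintype Y] where
  u : W → Fin n
  inj : Function.Injective u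
  cell : W → Y
  R : Finset (Fin n)
  hR : ∀ w, u w ∉ R
  card : R.card + Fintype.card Y = Nat.sqrt n + 1

variable {n : ℕ} {W Y : Type} [Fintype Y]

/-- adjacency: all vertices of `R` are joined to everything, vertices in different cells are
joined if `P` says so -/
def Sys.Adj (Z : Sys n W Y) (P : W → W → Prop) (x x' : Fin n) : Prop :=
  x ∈ Z.R ∨ x' ∈ Z.R ∨ ∃ w w', Z.cell w ≠ Z.cell w' ∧ x = Z.u w ∧ x' = Z.u w' ∧ P w w'

open Classical in
/-- the graph -/
noncomputable def Sys.gr (Z : Sys n W Y) (P : W → W → Prop) : EdgeVar n → Bool :=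
  fun e => decide (Z.Adj P e.1.1 e.1.2)

private theorem Sys.symm (Z : Sys n W Y) {P : W → W → Prop} (hP : ∀ w w', P w w' → P w' w)
    {x x' : Fin n} (h : Z.Adj P x x') : Z.Adj P x' x := by
  rcases h with h | h | ⟨w, w', h1, h2, h3, h4⟩
  · exact Or.inr (Or.inl h)
  · exact Or.inl h
  · exact Or.inr (Or.inr ⟨w', w, h1.symm, h3, h2, hP _ _ h4⟩)

private theorem Sys.adj (Z : Sys n W Y) {P : W → W → Prop} (hP : ∀ w w', P w w' → P w' w)
    (x x' : Fin n) (h : x ≠ x') : (graphOf (Z.gr P)).Adj x x' ↔ Z.Adj P x x' := by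
  constructor
  · rintro ⟨e, h, h1⟩
    have h2 : Z.Adj P e.1.1 e.1.2 := by simpa [Sys.gr] using h
    rcases h1 with h1 | h1
    · rw [h1] at h2
      exact h2
    · rw [h1] at h2
      exact Z.symm hP h2
  · intro h2
    rcases lt_or_gt_of_ne h with h1 | h1
    · exact ⟨⟨(x, x'), h1⟩, by simpa [Sys.gr] using h2, Or.inl rfl⟩
    · exact ⟨⟨(x', x), h1⟩, by simpa [Sys.gr] using Z.symm hP h2, Or.inr rfl⟩

private theorem Sys.clq_of (Z : Sys n W Y) {P : W → W → Prop} (hP : ∀ w w', P w w' → P w' w)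
    (s : Y → W) (hs : ∀ k, Z.cell (s k) = k) (h : ∀ k k', k ≠ k' → P (s k) (s k')) :
    Clq (Z.gr P) := by
  classical
  have hinj : Function.Injective fun k => Z.u (s k) := fun k k' h => by
    have h1 := Z.inj h
    rw [← hs k, ← hs k', h1]
  refine ⟨Z.R ∪ univ.image fun k => Z.u (s k), ?_, ?_⟩
  · intro x hx x' hx' hne
    rw [Z.adj hP x x' hne]
    simp only [coe_union, Set.mem_union, mem_coe, mem_image, mem_univ, true_and] at hx hx'
    rcases hx with hx | ⟨k, rfl⟩
    · exact Or.inl hx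
    · rcases hx' with hx' | ⟨k', rfl⟩
      · exact Or.inr (Or.inl hx')
      · have hk : k ≠ k' := by
          rintro rfl
          exact hne rfl
        refine Or.inr (Or.inr ⟨s k, s k', ?_, rfl, rfl, h k k' hk⟩)
        rw [hs, hs]
        exact hk
  · have hdisj : Disjoint Z.R (univ.image fun k => Z.u (s k)) := by
      rw [disjoint_left]
      intro x hx hx'
      obtain ⟨k, -, rfl⟩ := mem_image.1 hx'
      exact Z.hR _ hx
    rw [card_union_of_disjoint hdisj, card_image_of_injective _ hinj, card_univ, Z.card]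
    push_cast
    exact Real.real_sqrt_lt_nat_sqrt_succ

private theorem Sys.of_clq (Z : Sys n W Y) {P : W → W → Prop} (hP : ∀ w w', P w w' → P w' w)
    (hK : 2 ≤ Fintype.card Y) (h : Clq (Z.gr P)) :
    ∃ s : Y → W, (∀ k, Z.cell (s k) = k) ∧ ∀ k k', k ≠ k' → P (s k) (s k') := by
  classical
  obtain ⟨Q, hQ, hcard⟩ := h
  have h1 : Nat.sqrt n + 1 ≤ Q.card := by
    have h2 : ((Nat.sqrt n : ℕ) : ℝ) < Q.card := lt_of_le_of_lt (Real.nat_sqrt_le_real_sqrt) hcard
    exact_mod_cast h2
  have h2 : Fintype.card Y ≤ (Q \ Z.R).card := by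
    have h3 := le_card_sdiff Z.R Q
    have h4 := Z.card
    omega
  have hadj : ∀ x ∈ Q \ Z.R, ∀ x' ∈ Q \ Z.R, x ≠ x' →
      ∃ w w', Z.cell w ≠ Z.cell w' ∧ x = Z.u w ∧ x' = Z.u w' ∧ P w w' := by
    intro x hx x' hx' hne
    obtain ⟨hx1, hx2⟩ := mem_sdiff.1 hx
    obtain ⟨hx3, hx4⟩ := mem_sdiff.1 hx'
    rcases (Z.adj hP x x' hne).1 (hQ (by exact_mod_cast hx1) (by exact_mod_cast hx3) hne) with
      h | h | h
    · exact absurd h hx2
    · exact absurd h hx4
    · exact h
  have hcell : ∀ x : ↥(Q \ Z.R), ∃ w, x.1 = Z.u w := by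
    intro x
    obtain ⟨y, hy, hyx⟩ := exists_mem_ne (show 1 < (Q \ Z.R).card by omega) x.1
    obtain ⟨w, w', -, h3, -, -⟩ := hadj x.1 x.2 y hy hyx.symm
    exact ⟨w, h3⟩
  choose g hg using hcell
  have key : ∀ x x' : ↥(Q \ Z.R), x ≠ x' → Z.cell (g x) ≠ Z.cell (g x') ∧ P (g x) (g x') := by
    intro x x' hne
    have hne2 : x.1 ≠ x'.1 := fun h => hne (Subtype.ext h)
    obtain ⟨w, w', h4, h5, h6, h7⟩ := hadj x.1 x.2 x'.1 x'.2 hne2
    have h8 : g x = w := Z.inj ((hg x).symm.trans h5)
    have h9 : g x' = w' := Z.inj ((hg x').symm.trans h6)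
    rw [h8, h9]
    exact ⟨h4, h7⟩
  have hinj : Function.Injective fun x => Z.cell (g x) := by
    intro x x' h
    by_contra hne
    exact (key x x' hne).1 h
  have hbij : Function.Bijective fun x => Z.cell (g x) := by
    refine (Fintype.bijective_iff_injective_and_card _).2 ⟨hinj, ?_⟩
    refine le_antisymm (Fintype.card_le_of_injective _ hinj) ?_
    rw [Fintype.card_coe]
    exact h2
  choose p hp using hbij.2
  refine ⟨fun k => g (p k), hp, fun k k' hk => (key _ _ ?_).2⟩
  intro h
  apply hk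
  rw [← hp k, ← hp k', h]

private theorem Sys.indep (Z : Sys n W Y) (P P' : W → W → Prop) (f : EdgeVar n)
    (h : Z.gr P f ≠ Z.gr P' f) :
    ∃ w w', Z.cell w ≠ Z.cell w' ∧ f.1 = (Z.u w, Z.u w') ∧ ¬ (P w w' ↔ P' w w') := by
  classical
  have key : ∀ P P' : W → W → Prop, Z.Adj P f.1.1 f.1.2 → ¬ Z.Adj P' f.1.1 f.1.2 →
      ∃ w w', Z.cell w ≠ Z.cell w' ∧ f.1 = (Z.u w, Z.u w') ∧ ¬ (P w w' ↔ P' w w') := by
    intro P P' h1 h2
    rcases h1 with h1 | h1 | ⟨w, w', h3, h4, h5, h6⟩
    · exact (h2 (Or.inl h1)).elim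
    · exact (h2 (Or.inr (Or.inl h1))).elim
    · refine ⟨w, w', h3, Prod.ext h4 h5, fun h7 => ?_⟩
      exact h2 (Or.inr (Or.inr ⟨w, w', h3, h4, h5, h7.1 h6⟩))
  unfold Sys.gr at h
  by_cases h1 : Z.Adj P f.1.1 f.1.2
  · by_cases h2 : Z.Adj P' f.1.1 f.1.2
    · simp [h1, h2] at h
    · exact key P P' h1 h2
  · by_cases h2 : Z.Adj P' f.1.1 f.1.2
    · obtain ⟨w, w', h3, h4, h5⟩ := key P' P h2 h1
      exact ⟨w, w', h3, h4, fun h6 => h5 h6.symm⟩
    · simp [h1, h2] at h

/-- places for the nodes and for `R` outside the set `D` -/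
private theorem rest (D : Finset (Fin n)) (N : Type) [Fintype N] (r : ℕ)
    (h : D.card + 4 * Fintype.card N + r ≤ n) :
    ∃ (p : N × (Bool × Bool) → Fin n) (R : Finset (Fin n)), Function.Injective p ∧
      (∀ z, p z ∉ D) ∧ R.card = r ∧ (∀ x ∈ D, x ∉ R) ∧ ∀ z, p z ∉ R := by
  classical
  have hc : Fintype.card (N × (Bool × Bool)) = 4 * Fintype.card N := by
    rw [Fintype.card_prod, Fintype.card_prod, Fintype.card_bool, mul_comm]
  obtain ⟨e⟩ := Function.Embedding.nonempty_of_card_le (α := N × (Bool × Bool)) (β := ↥Dᶜ) (by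
    rw [hc, Fintype.card_coe, card_compl, Fintype.card_fin]
    omega)
  obtain ⟨R, hR, hr⟩ := exists_subset_card_eq (s := (D ∪ univ.image fun z => (e z).1)ᶜ) (n := r)
    (by
      have h1 := card_union_le D (univ.image fun z => (e z).1)
      have h2 := card_image_le (s := (univ : Finset (N × (Bool × Bool)))) (f := fun z => (e z).1)
      rw [card_univ, hc] at h2
      rw [card_compl, Fintype.card_fin]
      omega)
  refine ⟨fun z => (e z).1, R, fun z z' h => e.injective (Subtype.ext h),
    fun z => mem_compl.1 (e z).2, hr, fun x hx hxR => mem_compl.1 (hR hxR) (mem_union_left _ hx),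
    fun z hz => mem_compl.1 (hR hz) (mem_union_right _ (mem_image.2 ⟨z, mem_univ _, rfl⟩))⟩

/-- the `b`-th vertex of an edge -/
private def vx (e : EdgeVar n) (b : Bool) : Fin n := if b then e.1.2 else e.1.1

/-- the conclusion of `place` for given variables `e` -/
private def Good (n M S : ℕ) (e : Fin M → Bool → EdgeVar n) : Prop :=
  ∀ (N : Type) [Fintype N] (C : Fin M → Bool → N → Bool × Bool → Prop)
    (B : N → Bool × Bool → N → Bool × Bool → Prop), Fintype.card N ≤ S →
    (∀ c a c' a', B c a c' a' → B c' a' c a) →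
    ∃ H : (Fin M → Bool) → EdgeVar n → Bool,
      (∀ x, Clq (H x) ↔ ∃ r : N → Bool × Bool, (∀ i c, C i (x i) c (r c)) ∧
        ∀ c c', c ≠ c' → B c (r c) c' (r c')) ∧
      ∀ x x' f, H x f ≠ H x' f → ∃ i t, x i ≠ x' i ∧ f = e i t

/-- compatibility in the case of a matching -/
private def PM {M : ℕ} {N : Type} (C : Fin M → Bool → N → Bool × Bool → Prop)
    (B : N → Bool × Bool → N → Bool × Bool → Prop) (x : Fin M → Bool) :
    (Fin M × Bool) × Bool ⊕ N × (Bool × Bool) → (Fin M × Bool) × Bool ⊕ N × (Bool × Bool) → Prop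
  | .inl w, .inl w' => w.1.1 ≠ w'.1.1 ∨ (w.2 = w'.2 ∧ x w.1.1 = w.2)
  | .inl w, .inr z => C w.1.1 w.2 z.1 z.2
  | .inr z, .inl w => C w.1.1 w.2 z.1 z.2
  | .inr z, .inr z' => B z.1 z.2 z'.1 z'.2

private theorem good_mat (n M S : ℕ) (hM : 1 ≤ M) (hn : 4 * M + 4 * S + Nat.sqrt n + 1 ≤ n)
    (hM2 : 2 * M + S ≤ Nat.sqrt n) (e : Fin M → Bool → EdgeVar n)
    (he : ∀ i i' t t' b b', vx (e i t) b = vx (e i' t') b' → i = i' ∧ t = t' ∧ b = b') :
    Good n M S e := by
  classical
  intro N _ C B hN hB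
  let D : Finset (Fin n) := (univ : Finset ((Fin M × Bool) × Bool)).image
    fun w => vx (e w.1.1 w.2) w.1.2
  have hD : D.card ≤ 4 * M := by
    have h1 := card_image_le (s := (univ : Finset ((Fin M × Bool) × Bool)))
      (f := fun w => vx (e w.1.1 w.2) w.1.2)
    rw [card_univ, Fintype.card_prod, Fintype.card_prod, Fintype.card_bool, Fintype.card_fin] at h1
    have h2 : D.card ≤ M * 2 * 2 := h1
    omega
  obtain ⟨p, R, hp1, hp2, hR1, hR2, hR3⟩ := rest D N (Nat.sqrt n + 1 - (2 * M + Fintype.card N))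
    (by omega)
  have hDm : ∀ w : (Fin M × Bool) × Bool, vx (e w.1.1 w.2) w.1.2 ∈ D := fun w =>
    mem_image.2 ⟨w, mem_univ _, rfl⟩
  have hY : Fintype.card (Fin M × Bool ⊕ N) = 2 * M + Fintype.card N := by
    rw [Fintype.card_sum, Fintype.card_prod, Fintype.card_fin, Fintype.card_bool]
    omega
  let Z : Sys n ((Fin M × Bool) × Bool ⊕ N × (Bool × Bool)) (Fin M × Bool ⊕ N) :=
    { u := Sum.elim (fun w => vx (e w.1.1 w.2) w.1.2) p
      inj := by
        rintro (w | z) (w' | z') h
        · obtain ⟨h1, h2, h3⟩ := he _ _ _ _ _ _ h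
          exact congrArg Sum.inl (Prod.ext (Prod.ext h1 h3) h2)
        · have h1 : vx (e w.1.1 w.2) w.1.2 = p z' := h
          exact (hp2 z' (h1 ▸ hDm w)).elim
        · have h1 : p z = vx (e w'.1.1 w'.2) w'.1.2 := h
          exact (hp2 z (h1 ▸ hDm w')).elim
        · exact congrArg Sum.inr (hp1 h)
      cell := Sum.map Prod.fst Prod.fst
      R := R
      hR := by
        rintro (w | z)
        · exact hR2 _ (hDm w)
        · exact hR3 z
      card := by
        rw [hR1, hY]
        omega }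
  have hsymm : ∀ x w w', PM C B x w w' → PM C B x w' w := by
    rintro x (w | z) (w' | z') h
    · rcases h with h | ⟨h1, h2⟩
      · exact Or.inl h.symm
      · by_cases h3 : w.1.1 = w'.1.1
        · exact Or.inr ⟨h1.symm, h3 ▸ h1 ▸ h2⟩
        · exact Or.inl fun h4 => h3 h4.symm
    · exact h
    · exact h
    · exact hB _ _ _ _ h
  refine ⟨fun x => Z.gr (PM C B x), fun x => ⟨fun h => ?_, ?_⟩, ?_⟩
  · obtain ⟨s, hs1, hs2⟩ := Z.of_clq (hsymm x) (by rw [hY]; omega) h
    have h1 : ∀ c, ∃ a, s (.inr c) = .inr (c, a) := by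
      intro c
      have h2 := hs1 (.inr c)
      rcases h3 : s (.inr c) with w | z
      · rw [h3] at h2
        exact (Sum.inl_ne_inr h2).elim
      · rw [h3] at h2
        have h4 : z.1 = c := Sum.inr_injective h2
        exact ⟨z.2, congrArg Sum.inr (Prod.ext h4 rfl)⟩
    have h2 : ∀ k, ∃ t, s (.inl k) = .inl (k, t) := by
      intro k
      have h2 := hs1 (.inl k)
      rcases h3 : s (.inl k) with w | z
      · rw [h3] at h2
        have h4 : w.1 = k := Sum.inl_injective h2
        exact ⟨w.2, congrArg Sum.inl (Prod.ext h4 rfl)⟩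
      · rw [h3] at h2
        exact (Sum.inr_ne_inl h2).elim
    choose r hr using h1
    choose t ht using h2
    have h3 : ∀ i, x i = t (i, false) := by
      intro i
      have h4 := hs2 (.inl (i, false)) (.inl (i, true)) (by simp)
      rw [ht, ht] at h4
      rcases h4 with h4 | ⟨-, h4⟩
      · exact (h4 rfl).elim
      · exact h4
    refine ⟨r, fun i c => ?_, fun c c' hc => ?_⟩
    · have h4 := hs2 (.inl (i, false)) (.inr c) (by simp)
      rw [ht, hr] at h4
      rw [h3 i]
      exact h4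
    · have h4 := hs2 (.inr c) (.inr c') (by simpa using hc)
      rw [hr, hr] at h4
      exact h4
  · rintro ⟨r, hr1, hr2⟩
    refine Z.clq_of (hsymm x) (Sum.elim (fun k => .inl (k, x k.1)) fun c => .inr (c, r c)) ?_ ?_
    · rintro (k | c) <;> rfl
    · rintro (k | c) (k' | c') hk
      · by_cases h : k.1 = k'.1
        · refine Or.inr ⟨?_, rfl⟩
          change x k.1 = x k'.1
          rw [h]
        · exact Or.inl h
      · exact hr1 _ _
      · exact hr1 _ _
      · exact hr2 _ _ fun h => hk (congrArg Sum.inr h)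
  · intro x x' f h
    obtain ⟨w, w', h1, h2, h3⟩ := Z.indep _ _ f h
    rcases w with w | z <;> rcases w' with w' | z'
    · have h4 : w.1.1 = w'.1.1 := by
        by_contra h5
        exact h3 ⟨fun _ => Or.inl h5, fun _ => Or.inl h5⟩
      have h5 : w.2 = w'.2 := by
        by_contra h6
        refine h3 ⟨fun h7 => ?_, fun h7 => ?_⟩
        · rcases h7 with h7 | ⟨h7, -⟩
          · exact (h7 h4).elim
          · exact (h6 h7).elim
        · rcases h7 with h7 | ⟨h7, -⟩
          · exact (h7 h4).elim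
          · exact (h6 h7).elim
      have h6 : x w.1.1 ≠ x' w.1.1 := by
        intro h7
        apply h3
        change (_ ∨ (_ ∧ x w.1.1 = _)) ↔ (_ ∨ (_ ∧ x' w.1.1 = _))
        rw [h7]
      have h7 : w.1.2 ≠ w'.1.2 := by
        intro h8
        exact h1 (congrArg Sum.inl (Prod.ext h4 h8))
      refine ⟨w.1.1, w.2, h6, ?_⟩
      have h8 : f.1 = (vx (e w.1.1 w.2) w.1.2, vx (e w.1.1 w.2) w'.1.2) := by
        rw [h2]
        change (vx (e w.1.1 w.2) w.1.2, vx (e w'.1.1 w'.2) w'.1.2) = _
        rw [← h4, ← h5]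
      have h9 := f.2
      rw [h8] at h9
      have h10 := (e w.1.1 w.2).2
      apply Subtype.ext
      rw [h8]
      rcases h11 : w.1.2 with _ | _ <;> rcases h12 : w'.1.2 with _ | _
      · exact (h7 (h11.trans h12.symm)).elim
      · rfl
      · rw [h11, h12] at h9
        exact (lt_asymm h9 h10).elim
      · exact (h7 (h11.trans h12.symm)).elim
    · exact (h3 Iff.rfl).elim
    · exact (h3 Iff.rfl).elim
    · exact (h3 Iff.rfl).elim

/-- compatibility in the case of a star -/
private def PS {M : ℕ} {N : Type} (C : Fin M → Bool → N → Bool × Bool → Prop)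
    (B : N → Bool × Bool → N → Bool × Bool → Prop) (x : Fin M → Bool) :
    Option (Fin M × Bool) ⊕ N × (Bool × Bool) → Option (Fin M × Bool) ⊕ N × (Bool × Bool) → Prop
  | .inl none, .inl none => True
  | .inl none, .inl (some w) => x w.1 = w.2
  | .inl (some w), .inl none => x w.1 = w.2
  | .inl (some _), .inl (some _) => True
  | .inl none, .inr _ => True
  | .inr _, .inl none => True
  | .inl (some w), .inr z => C w.1 w.2 z.1 z.2
  | .inr z, .inl (some w) => C w.1 w.2 z.1 z.2
  | .inr z, .inr z' => B z.1 z.2 z'.1 z'.2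

private theorem good_star (n M S : ℕ) (hM : 1 ≤ M) (hn : 4 * M + 4 * S + Nat.sqrt n + 1 ≤ n)
    (hM2 : 2 * M + S ≤ Nat.sqrt n) (e : Fin M → Bool → EdgeVar n) (v : Fin n)
    (l : Fin M × Bool → Fin n) (hl : Function.Injective l) (hlv : ∀ p, l p ≠ v)
    (he : ∀ p, (e p.1 p.2).1 = (v, l p) ∨ (e p.1 p.2).1 = (l p, v)) :
    Good n M S e := by
  classical
  intro N _ C B hN hB
  let D : Finset (Fin n) := (univ : Finset (Option (Fin M × Bool))).image fun w => w.elim v l
  have hD : D.card ≤ 4 * M := by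
    have h1 := card_image_le (s := (univ : Finset (Option (Fin M × Bool))))
      (f := fun w => w.elim v l)
    rw [card_univ, Fintype.card_option, Fintype.card_prod, Fintype.card_bool,
      Fintype.card_fin] at h1
    have h2 : D.card ≤ M * 2 + 1 := h1
    omega
  obtain ⟨p, R, hp1, hp2, hR1, hR2, hR3⟩ := rest D N (Nat.sqrt n + 1 - (M + 1 + Fintype.card N))
    (by omega)
  have hDm : ∀ w : Option (Fin M × Bool), w.elim v l ∈ D := fun w =>
    mem_image.2 ⟨w, mem_univ _, rfl⟩
  have hY : Fintype.card (Option (Fin M) ⊕ N) = M + 1 + Fintype.card N := by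
    rw [Fintype.card_sum, Fintype.card_option, Fintype.card_fin]
  let Z : Sys n (Option (Fin M × Bool) ⊕ N × (Bool × Bool)) (Option (Fin M) ⊕ N) :=
    { u := Sum.elim (fun w => w.elim v l) p
      inj := by
        rintro (w | z) (w' | z') h
        · refine congrArg Sum.inl ?_
          rcases w with _ | w <;> rcases w' with _ | w'
          · rfl
          · exact (hlv w' (Eq.symm h)).elim
          · exact (hlv w h).elim
          · exact congrArg some (hl h)
        · have h1 : w.elim v l = p z' := h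
          exact (hp2 z' (h1 ▸ hDm w)).elim
        · have h1 : p z = w'.elim v l := h
          exact (hp2 z (h1 ▸ hDm w')).elim
        · exact congrArg Sum.inr (hp1 h)
      cell := Sum.map (Option.map Prod.fst) Prod.fst
      R := R
      hR := by
        rintro (w | z)
        · exact hR2 _ (hDm w)
        · exact hR3 z
      card := by
        rw [hR1, hY]
        omega }
  have hsymm : ∀ x w w', PS C B x w w' → PS C B x w' w := by
    rintro x ((_ | w) | z) ((_ | w') | z') h
    all_goals first | exact h | exact hB _ _ _ _ h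
  refine ⟨fun x => Z.gr (PS C B x), fun x => ⟨fun h => ?_, ?_⟩, ?_⟩
  · obtain ⟨s, hs1, hs2⟩ := Z.of_clq (hsymm x) (by rw [hY]; omega) h
    have h1 : ∀ c, ∃ a, s (.inr c) = .inr (c, a) := by
      intro c
      have h2 := hs1 (.inr c)
      rcases h3 : s (.inr c) with w | z
      · rw [h3] at h2
        exact (Sum.inl_ne_inr h2).elim
      · rw [h3] at h2
        have h4 : z.1 = c := Sum.inr_injective h2
        exact ⟨z.2, congrArg Sum.inr (Prod.ext h4 rfl)⟩
    have h2 : s (.inl none) = .inl none := by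
      have h2 := hs1 (.inl none)
      rcases h3 : s (.inl none) with (_ | w) | z
      · rfl
      · rw [h3] at h2
        have h4 : some w.1 = none := Sum.inl_injective h2
        exact (Option.some_ne_none _ h4).elim
      · rw [h3] at h2
        exact (Sum.inr_ne_inl h2).elim
    have h5 : ∀ i, ∃ t, s (.inl (some i)) = .inl (some (i, t)) := by
      intro i
      have h2 := hs1 (.inl (some i))
      rcases h3 : s (.inl (some i)) with (_ | w) | z
      · rw [h3] at h2
        have h4 : none = some i := Sum.inl_injective h2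
        exact (Option.some_ne_none _ h4.symm).elim
      · rw [h3] at h2
        have h4 : some w.1 = some i := Sum.inl_injective h2
        exact ⟨w.2, congrArg (fun z => Sum.inl (some z)) (Prod.ext (Option.some.inj h4) rfl)⟩
      · rw [h3] at h2
        exact (Sum.inr_ne_inl h2).elim
    choose r hr using h1
    choose t ht using h5
    have h3 : ∀ i, x i = t i := by
      intro i
      have h4 := hs2 (.inl none) (.inl (some i)) (by simp)
      rw [h2, ht] at h4
      exact h4
    refine ⟨r, fun i c => ?_, fun c c' hc => ?_⟩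
    · have h4 := hs2 (.inl (some i)) (.inr c) (by simp)
      rw [ht, hr] at h4
      rw [h3 i]
      exact h4
    · have h4 := hs2 (.inr c) (.inr c') (by simpa using hc)
      rw [hr, hr] at h4
      exact h4
  · rintro ⟨r, hr1, hr2⟩
    refine Z.clq_of (hsymm x) (Sum.elim (fun k => .inl (k.map fun i => (i, x i)))
      fun c => .inr (c, r c)) ?_ ?_
    · rintro ((_ | k) | c) <;> rfl
    · rintro ((_ | k) | c) ((_ | k') | c') hk
      · exact (hk rfl).elim
      · rfl
      · exact trivial
      · rfl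
      · exact trivial
      · exact hr1 _ _
      · exact trivial
      · exact hr1 _ _
      · exact hr2 _ _ fun h => hk (congrArg Sum.inr h)
  · intro x x' f h
    obtain ⟨w, w', h1, h2, h3⟩ := Z.indep _ _ f h
    have h6 : ∀ w : Fin M × Bool, ¬ (x w.1 = w.2 ↔ x' w.1 = w.2) → x w.1 ≠ x' w.1 := by
      intro w h4 h5
      exact h4 (by rw [h5])
    have hf : ∀ w : Fin M × Bool, (f.1 = (v, l w) ∨ f.1 = (l w, v)) → f = e w.1 w.2 := by
      intro w h4
      apply Subtype.ext
      have h5 := f.2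
      have h7 := (e w.1 w.2).2
      rcases he w with h8 | h8 <;> rcases h4 with h9 | h9
      · rw [h8, h9]
      · rw [h9] at h5
        rw [h8] at h7
        exact (lt_asymm h5 h7).elim
      · rw [h9] at h5
        rw [h8] at h7
        exact (lt_asymm h5 h7).elim
      · rw [h8, h9]
    rcases w with (_ | w) | z <;> rcases w' with (_ | w') | z'
    · exact (h3 Iff.rfl).elim
    · exact ⟨w'.1, w'.2, h6 w' h3, hf w' (Or.inl h2)⟩
    · exact (h3 Iff.rfl).elim
    · exact ⟨w.1, w.2, h6 w h3, hf w (Or.inr h2)⟩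
    · exact (h3 Iff.rfl).elim
    · exact (h3 Iff.rfl).elim
    · exact (h3 Iff.rfl).elim
    · exact (h3 Iff.rfl).elim
    · exact (h3 Iff.rfl).elim

private theorem pick {A : Type} (S : Finset A) (M : ℕ) (h : 2 * M ≤ S.card) :
    ∃ e : Fin M × Bool → A, Function.Injective e ∧ ∀ p, e p ∈ S := by
  obtain ⟨e⟩ := Function.Embedding.nonempty_of_card_le (α := Fin M × Bool) (β := ↥S) (by
    rw [Fintype.card_prod, Fintype.card_fin, Fintype.card_bool, Fintype.card_coe]
    omega)
  exact ⟨fun p => (e p).1, fun p p' h => e.injective (Subtype.ext h), fun p => (e p).2⟩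

/-- `w` is a vertex of `e` -/
private def Tc (w : Fin n) (e : EdgeVar n) : Prop := w = e.1.1 ∨ w = e.1.2

open Classical in
private theorem big_deg {M : ℕ} (hM : 1 ≤ M) (E : Finset (EdgeVar n)) (hE : 8 * M ^ 2 ≤ E.card)
    (F : Finset (EdgeVar n)) (hF : F.card < 2 * M)
    (hmax : ∀ e ∈ E, ∃ f ∈ F, ∃ w, Tc w e ∧ Tc w f) :
    ∃ w, 2 * M ≤ (E.filter fun e => Tc w e).card := by
  by_contra hc
  have hc2 : ∀ w, (E.filter fun e => Tc w e).card ≤ 2 * M - 1 := by
    intro w
    by_contra h
    exact hc ⟨w, by omega⟩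
  have h1 : E ⊆ (F.image (fun f => f.1.1) ∪ F.image fun f => f.1.2).biUnion
      fun w => E.filter fun e => Tc w e := by
    intro e he
    obtain ⟨f, hf, w, h2, h3⟩ := hmax e he
    refine mem_biUnion.2 ⟨w, ?_, mem_filter.2 ⟨he, h2⟩⟩
    rcases h3 with rfl | rfl
    · exact mem_union_left _ (mem_image.2 ⟨f, hf, rfl⟩)
    · exact mem_union_right _ (mem_image.2 ⟨f, hf, rfl⟩)
  have h2 : (F.image (fun f => f.1.1) ∪ F.image fun f => f.1.2).card ≤ 2 * (2 * M - 1) := by
    have h3 := card_union_le (F.image fun f => f.1.1) (F.image fun f => f.1.2)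
    have h4 := card_image_le (s := F) (f := fun f => f.1.1)
    have h5 := card_image_le (s := F) (f := fun f => f.1.2)
    omega
  have h3 : E.card ≤ 2 * (2 * M - 1) * (2 * M - 1) := by
    refine (card_le_card h1).trans (card_biUnion_le.trans ?_)
    calc ∑ w ∈ F.image (fun f => f.1.1) ∪ F.image fun f => f.1.2, (E.filter fun e => Tc w e).card
        ≤ ∑ _w ∈ F.image (fun f => f.1.1) ∪ F.image fun f => f.1.2, (2 * M - 1) :=
          sum_le_sum fun w _ => hc2 w
      _ = (F.image (fun f => f.1.1) ∪ F.image fun f => f.1.2).card * (2 * M - 1) := by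
          rw [sum_const, smul_eq_mul]
      _ ≤ _ := Nat.mul_le_mul_right _ h2
  obtain ⟨k, rfl⟩ : ∃ k, M = k + 1 := ⟨M - 1, by omega⟩
  have h4 : 2 * (k + 1) - 1 = 2 * k + 1 := by omega
  rw [h4] at h3
  nlinarith

/-- The bit `i` of the input `x` is given by two variables `e i false`, `e i true` of the set `E`:
exactly the variable `e i (x i)` is on. -/
theorem place (n M S : ℕ) (hM : 1 ≤ M) (hn : 4 * M + 4 * S + Nat.sqrt n + 1 ≤ n)
    (hM2 : 2 * M + S ≤ Nat.sqrt n) (E : Finset (EdgeVar n)) (hE : 8 * M ^ 2 ≤ E.card) :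
    ∃ e : Fin M → Bool → EdgeVar n, (∀ i t, e i t ∈ E) ∧
      (∀ i i' t t', e i t = e i' t' → i = i' ∧ t = t') ∧
      ∀ (N : Type) [Fintype N] (C : Fin M → Bool → N → Bool × Bool → Prop)
        (B : N → Bool × Bool → N → Bool × Bool → Prop), Fintype.card N ≤ S →
        (∀ c a c' a', B c a c' a' → B c' a' c a) →
        ∃ H : (Fin M → Bool) → EdgeVar n → Bool,
          (∀ x, Clq (H x) ↔ ∃ r : N → Bool × Bool, (∀ i c, C i (x i) c (r c)) ∧
            ∀ c c', c ≠ c' → B c (r c) c' (r c')) ∧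
          ∀ x x' f, H x f ≠ H x' f → ∃ i t, x i ≠ x' i ∧ f = e i t := by
  classical
  let F0 : Finset (Finset (EdgeVar n)) := E.powerset.filter fun F =>
    ∀ e ∈ F, ∀ f ∈ F, e ≠ f → ∀ w, Tc w e → Tc w f → False
  have hF0 : F0.Nonempty := ⟨∅, mem_filter.2 ⟨mem_powerset.2 (empty_subset _), by simp⟩⟩
  obtain ⟨F, hF, hFmax⟩ := exists_max_image F0 card hF0
  obtain ⟨hF1, hF2⟩ := mem_filter.1 hF
  have hF1 := mem_powerset.1 hF1
  by_cases hc : 2 * M ≤ F.card
  · obtain ⟨e, he1, he2⟩ := pick F M hc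
    refine ⟨fun i t => e (i, t), fun i t => hF1 (he2 _), fun i i' t t' h => by
      have h1 := he1 h
      exact ⟨congrArg Prod.fst h1, congrArg Prod.snd h1⟩,
      good_mat n M S hM hn hM2 (fun i t => e (i, t)) ?_⟩
    intro i i' t t' b b' h
    have hT : ∀ p b, Tc (vx (e p) b) (e p) := by
      intro p b
      cases b
      · exact Or.inl rfl
      · exact Or.inr rfl
    have hp : (i, t) = (i', t') := by
      by_contra hne
      exact hF2 (e (i, t)) (he2 _) (e (i', t')) (he2 _) (fun h1 => hne (he1 h1)) _ (hT _ b)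
        (h ▸ hT _ b')
    have hi : i = i' := congrArg Prod.fst hp
    have ht : t = t' := congrArg Prod.snd hp
    subst hi
    subst ht
    refine ⟨rfl, rfl, ?_⟩
    have h1 := (e (i, t)).2
    rcases b with _ | _ <;> rcases b' with _ | _
    · rfl
    · exact (h1.ne h).elim
    · exact (h1.ne h.symm).elim
    · rfl
  · obtain ⟨v, hv⟩ := big_deg hM E hE F (by omega) (by
      intro e he
      by_contra hno
      have hno2 : ∀ f ∈ F, ∀ w, Tc w e → Tc w f → False := fun f hf w h1 h2 =>
        hno ⟨f, hf, w, h1, h2⟩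
      have heF : e ∉ F := fun h => hno2 e h e.1.1 (Or.inl rfl) (Or.inl rfl)
      have h1 : insert e F ∈ F0 := by
        refine mem_filter.2 ⟨mem_powerset.2 (insert_subset he hF1), ?_⟩
        intro a ha b hb hab w h2 h3
        rcases mem_insert.1 ha with ha2 | ha2
        · rcases mem_insert.1 hb with hb2 | hb2
          · exact hab (ha2.trans hb2.symm)
          · exact hno2 b hb2 w (ha2 ▸ h2) h3
        · rcases mem_insert.1 hb with hb2 | hb2
          · exact hno2 a ha2 w (hb2 ▸ h3) h2
          · exact hF2 a ha2 b hb2 hab w h2 h3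
      have h2 := hFmax _ h1
      rw [card_insert_of_notMem heF] at h2
      omega)
    obtain ⟨e, he1, he2⟩ := pick _ M hv
    have he3 : ∀ p, e p ∈ E := fun p => (mem_filter.1 (he2 p)).1
    have he4 : ∀ p, Tc v (e p) := fun p => (mem_filter.1 (he2 p)).2
    have hoth : ∀ p, ∃ w, w ≠ v ∧ ((e p).1 = (v, w) ∨ (e p).1 = (w, v)) := by
      intro p
      have h1 := (e p).2
      rcases he4 p with h2 | h2
      · exact ⟨(e p).1.2, fun h => h1.ne' (h.trans h2), Or.inl (by rw [h2])⟩
      · exact ⟨(e p).1.1, fun h => h1.ne (h.trans h2), Or.inr (by rw [h2])⟩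
    choose l hl1 hl2 using hoth
    refine ⟨fun i t => e (i, t), fun i t => he3 _, fun i i' t t' h => by
      have h1 := he1 h
      exact ⟨congrArg Prod.fst h1, congrArg Prod.snd h1⟩,
      good_star n M S hM hn hM2 (fun i t => e (i, t)) v l ?_ hl1 hl2⟩
    intro p p' h
    apply he1
    apply Subtype.ext
    have h1 := (e p).2
    have h2 := (e p').2
    rcases hl2 p with h3 | h3 <;> rcases hl2 p' with h4 | h4
    · rw [h3, h4, h]
    · rw [h3] at h1
      rw [h4, ← h] at h2
      exact (lt_asymm h1 h2).elim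
    · rw [h3] at h1
      rw [h4, ← h] at h2
      exact (lt_asymm h1 h2).elim
    · rw [h3, h4, h]

end Pool.Agent.LS
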