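import Mathlib

/-!
# Reading more than `c log² n` times: the functions
-/

set_option autoImplicit false

namespace Pool.Agent.LS

open Finset

/-- the parity of the number of `i` with `f i` -/
def par {n : ℕ} (f : Fin n → Bool) : Bool :=
  decide ((univ.filter fun i => f i = true).card % 2 = 1)

/-- the generalised inner product of the words `A k (x k)`: the parity over `i` of the conjunction
over `k` of the parity over `j` of `A k i j && x k j` -/
def val {K N₁ N₂ : ℕ} (A : Fin K → Fin N₂ → Fin N₁ → Bool) (x : Fin K → Fin N₁ → Bool) : Bool :=
  par fun i => decide (∀ k, (par fun j => A k i j && x k j) = true)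

end Pool.Agent.LS
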