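import Mathlib
import Pool.Agent.Lib.MP_0a1b52_lc_LS.Defs

/-!
# Reading more than `c log² n` times, module Csp: `val A` as a system of constraints for two cells
-/

set_option autoImplicit false

namespace Pool.Agent.LS

open Finset

namespace Csp

theorem par_zero (f : Fin 0 → Bool) : par f = false := by
  simp [par]

theorem par_succ {n : ℕ} (f : Fin (n + 1) → Bool) :
    par f = xor (par fun i => f i.castSucc) (f (Fin.last n)) := by
  have h : (univ.filter fun i => f i = true).card
      = (univ.filter fun i : Fin n => f i.castSucc = true).card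
        + (if f (Fin.last n) = true then 1 else 0) := by
    rw [Finset.card_filter, Finset.card_filter, Fin.sum_univ_castSucc]
  unfold par
  rw [h]
  cases hf : f (Fin.last n)
  · simp
  · simp only [if_true, Bool.xor_true]
    rcases Nat.mod_two_eq_zero_or_one (univ.filter fun i : Fin n => f i.castSucc = true).card with
      h0 | h1
    · have : ((univ.filter fun i : Fin n => f i.castSucc = true).card + 1) % 2 = 1 := by omega
      simp [h0, this]
    · have : ((univ.filter fun i : Fin n => f i.castSucc = true).card + 1) % 2 = 0 := by omega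
      simp [h1, this]

theorem chain_par : ∀ (n : ℕ) (f : Fin n → Bool) (s : Fin (n + 1) → Bool), s 0 = false →
    (∀ j : Fin n, s j.succ = xor (s j.castSucc) (f j)) → s (Fin.last n) = par f := by
  intro n
  induction n with
  | zero =>
    intro f s h0 _
    rw [par_zero]
    exact h0
  | succ n ih =>
    intro f s h0 h
    have h1 := ih (fun i => f i.castSucc) (fun i => s i.castSucc) h0 (by
      intro j
      have := h j.castSucc
      rw [Fin.succ_castSucc] at this
      exact this)
    rw [par_succ, ← h1, ← h (Fin.last n), Fin.succ_last]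

theorem chain_all : ∀ (n : ℕ) (f : Fin n → Bool) (s : Fin (n + 1) → Bool), s 0 = true →
    (∀ j : Fin n, s j.succ = (s j.castSucc && f j)) →
      s (Fin.last n) = decide (∀ k, f k = true) := by
  intro n
  induction n with
  | zero =>
    intro f s h0 _
    have : s (Fin.last 0) = true := h0
    rw [this]
    simp
  | succ n ih =>
    intro f s h0 h
    have h1 := ih (fun i => f i.castSucc) (fun i => s i.castSucc) h0 (by
      intro j
      have := h j.castSucc
      rw [Fin.succ_castSucc] at this
      exact this)
    have h2 : s (Fin.last (n + 1)) = (s (Fin.last n).castSucc && f (Fin.last n)) := by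
      rw [← h (Fin.last n), Fin.succ_last]
    rw [h2]
    have h3 : s (Fin.last n).castSucc = decide (∀ k : Fin n, f k.castSucc = true) := h1
    rw [h3]
    rw [Bool.eq_iff_iff]
    simp only [Bool.and_eq_true, decide_eq_true_eq]
    constructor
    · rintro ⟨ha, hb⟩ k
      induction k using Fin.lastCases with
      | last => exact hb
      | cast k => exact ha k
    · intro ha
      exact ⟨fun k => ha _, ha _⟩

/-- the running values of a chain -/
def run {n : ℕ} (e : Bool) (op : Bool → Bool → Bool) (f : Fin n → Bool) : Fin (n + 1) → Bool :=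
  Fin.induction (motive := fun _ => Bool) e (fun j acc => op acc (f j))

theorem run_zero {n : ℕ} (e : Bool) (op : Bool → Bool → Bool) (f : Fin n → Bool) :
    run e op f 0 = e := rfl

theorem run_succ {n : ℕ} (e : Bool) (op : Bool → Bool → Bool) (f : Fin n → Bool) (j : Fin n) :
    run e op f j.succ = op (run e op f j.castSucc) (f j) := by
  unfold run
  rw [Fin.induction_succ]

abbrev Node (K N₁ N₂ : ℕ) : Type :=
  (Fin K × Fin N₂ × Fin (N₁ + 1)) ⊕ ((Fin N₂ × Fin (K + 1)) ⊕ (Fin (N₂ + 1) ⊕ Unit))

def U {K N₁ N₂ : ℕ} (β : Bool) : Node K N₁ N₂ → Bool × Bool → Prop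
  | .inl (_, _, j), a => j = 0 → a.1 = false
  | .inr (.inl (_, k)), a => k = 0 → a.1 = true
  | .inr (.inr (.inl i)), a => (i = 0 → a.1 = false) ∧ (i = Fin.last N₂ → (a.1 != β) = true)
  | .inr (.inr (.inr _)), _ => True

def W {K N₁ N₂ : ℕ} (A : Fin K → Fin N₂ → Fin N₁ → Bool) :
    Node K N₁ N₂ → Bool × Bool → Node K N₁ N₂ → Bool × Bool → Prop
  | .inl (k, i, j), a, .inl (k', i', j'), a' => k = k' → i = i' → ∀ j0 : Fin N₁,
      j = j0.castSucc → j' = j0.succ → a'.1 = xor a.1 (A k i j0 && a.2)
  | .inl (k, i, j), a, .inr (.inl (i', k')), a' =>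
      j = Fin.last N₁ → i = i' → k' = k.castSucc → a.1 = a'.2
  | .inr (.inl (i, k)), a, .inr (.inl (i', k')), a' => i = i' → ∀ k0 : Fin K,
      k = k0.castSucc → k' = k0.succ → a'.1 = (a.1 && a.2)
  | .inr (.inl (i, k)), a, .inr (.inr (.inl i')), a' =>
      k = Fin.last K → i' = i.castSucc → a.1 = a'.2
  | .inr (.inr (.inl i)), a, .inr (.inr (.inl i')), a' => ∀ i0 : Fin N₂,
      i = i0.castSucc → i' = i0.succ → a'.1 = xor a.1 a.2
  | _, _, _, _ => True

def Cc {K N₁ N₂ : ℕ} : Fin K × Fin N₁ → Bool → Node K N₁ N₂ → Bool × Bool → Prop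
  | (k, j), t, .inl (k', _, j'), a => k' = k → j' = j.castSucc → a.2 = t
  | _, _, _, _ => True

end Csp

open Csp in
/-- The cells `c` choose an alternative `r c`; `C i t c a` says that the alternative `a` of the cell
`c` is compatible with the value `t` of the bit `i`, and `B c a c' a'` that the alternatives `a` of
`c` and `a'` of `c'` are compatible. -/
theorem csp {K N₁ N₂ : ℕ} (A : Fin K → Fin N₂ → Fin N₁ → Bool) (β : Bool) :
    ∃ (N : Type) (_ : Fintype N) (C : Fin K × Fin N₁ → Bool → N → Bool × Bool → Prop)
      (B : N → Bool × Bool → N → Bool × Bool → Prop),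
      Fintype.card N ≤ 8 * (K + 1) * (N₁ + 1) * (N₂ + 1) ∧
      (∀ c a c' a', B c a c' a' → B c' a' c a) ∧
      ∀ x : Fin K → Fin N₁ → Bool,
        (∃ r : N → Bool × Bool, (∀ i c, C i (x i.1 i.2) c (r c)) ∧
          ∀ c c', c ≠ c' → B c (r c) c' (r c')) ↔ (val A x != β) = true := by
  refine ⟨Node K N₁ N₂, inferInstance, Cc,
    fun c a c' a' => U β c a ∧ U β c' a' ∧ W A c a c' a' ∧ W A c' a' c a, ?_, ?_, ?_⟩
  · simp only [Fintype.card_sum, Fintype.card_prod, Fintype.card_fin, Fintype.card_unit]
    have h1 := Nat.zero_le (K * N₁ * N₂)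
    have h2 := Nat.zero_le (K * N₁)
    have h3 := Nat.zero_le (K * N₂)
    have h4 := Nat.zero_le (N₁ * N₂)
    nlinarith
  · rintro c a c' a' ⟨h1, h2, h3, h4⟩
    exact ⟨h2, h1, h4, h3⟩
  · intro x
    constructor
    · rintro ⟨r, hC, hB⟩
      have hU : ∀ c, c ≠ Sum.inr (Sum.inr (Sum.inr ())) → U β c (r c) :=
        fun c hc => (hB c _ hc).1
      have hW : ∀ c c', c ≠ c' → W A c (r c) c' (r c') := fun c c' h => (hB c c' h).2.2.1
      have s1 : ∀ k i, (r (Sum.inl (k, i, Fin.last N₁))).1 =
          par (fun j => A k i j && x k j) := by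
        intro k i
        refine chain_par N₁ _ (fun j => (r (Sum.inl (k, i, j))).1) ?_ ?_
        · exact hU (Sum.inl (k, i, 0)) (by simp) rfl
        · intro j
          have h1 := hW (Sum.inl (k, i, j.castSucc)) (Sum.inl (k, i, j.succ)) (by
            simp only [ne_eq, Sum.inl.injEq, Prod.mk.injEq, true_and]
            intro h
            have := congrArg Fin.val h
            simp at this)
          have h2 := h1 rfl rfl j rfl rfl
          have h3 : (r (Sum.inl (k, i, j.castSucc))).2 = x k j :=
            hC (k, j) (Sum.inl (k, i, j.castSucc)) rfl rfl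
          rw [h3] at h2
          exact h2
      have s2 : ∀ i, (r (Sum.inr (Sum.inl (i, Fin.last K)))).1 =
          decide (∀ k, (par (fun j => A k i j && x k j)) = true) := by
        intro i
        refine chain_all K (fun k => par (fun j => A k i j && x k j))
          (fun k => (r (Sum.inr (Sum.inl (i, k)))).1) ?_ ?_
        · exact hU (Sum.inr (Sum.inl (i, 0))) (by simp) rfl
        · intro k
          have h1 := hW (Sum.inr (Sum.inl (i, k.castSucc))) (Sum.inr (Sum.inl (i, k.succ))) (by
            simp only [ne_eq, Sum.inr.injEq, Sum.inl.injEq, Prod.mk.injEq, true_and]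
            intro h
            have := congrArg Fin.val h
            simp at this)
          have h2 := h1 rfl k rfl rfl
          have h3 := hW (Sum.inl (k, i, Fin.last N₁)) (Sum.inr (Sum.inl (i, k.castSucc)))
            (by simp)
          have h4 : (r (Sum.inl (k, i, Fin.last N₁))).1 =
            (r (Sum.inr (Sum.inl (i, k.castSucc)))).2 := h3 rfl rfl rfl
          rw [← h4, s1] at h2
          exact h2
      have s3 : (r (Sum.inr (Sum.inr (Sum.inl (Fin.last N₂))))).1 = val A x := by
        refine chain_par N₂ _ (fun i => (r (Sum.inr (Sum.inr (Sum.inl i)))).1) ?_ ?_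
        · exact (hU (Sum.inr (Sum.inr (Sum.inl 0))) (by simp)).1 rfl
        · intro i
          have h1 := hW (Sum.inr (Sum.inr (Sum.inl i.castSucc)))
            (Sum.inr (Sum.inr (Sum.inl i.succ))) (by
            simp only [ne_eq, Sum.inr.injEq, Sum.inl.injEq]
            intro h
            have := congrArg Fin.val h
            simp at this)
          have h2 := h1 i rfl rfl
          have h3 := hW (Sum.inr (Sum.inl (i, Fin.last K)))
            (Sum.inr (Sum.inr (Sum.inl i.castSucc))) (by simp)
          have h4 : (r (Sum.inr (Sum.inl (i, Fin.last K)))).1 =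
            (r (Sum.inr (Sum.inr (Sum.inl i.castSucc)))).2 := h3 rfl rfl
          rw [← h4, s2] at h2
          exact h2
      have h5 := (hU (Sum.inr (Sum.inr (Sum.inl (Fin.last N₂)))) (by simp)).2 rfl
      rw [s3] at h5
      exact h5
    · intro hv
      set P : Fin K → Fin N₂ → Bool := fun k i => par (fun j => A k i j && x k j) with hP
      set Q : Fin N₂ → Bool := fun i => decide (∀ k, P k i = true) with hQ
      set S1 : Fin K → Fin N₂ → Fin (N₁ + 1) → Bool :=
        fun k i => run false xor (fun j => A k i j && x k j) with hS1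
      set S2 : Fin N₂ → Fin (K + 1) → Bool := fun i => run true and (fun k => P k i) with hS2
      set S3 : Fin (N₂ + 1) → Bool := run false xor Q with hS3
      have e1 : ∀ k i, S1 k i (Fin.last N₁) = P k i := fun k i =>
        chain_par _ _ _ (run_zero _ _ _) (fun j => run_succ _ _ _ j)
      have e2 : ∀ i, S2 i (Fin.last K) = Q i := fun i =>
        chain_all _ _ _ (run_zero _ _ _) (fun j => run_succ _ _ _ j)
      have e3 : S3 (Fin.last N₂) = val A x :=
        chain_par _ _ _ (run_zero _ _ _) (fun j => run_succ _ _ _ j)
      let r : Node K N₁ N₂ → Bool × Bool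
        | .inl (k, i, j) => (S1 k i j, Fin.lastCases (motive := fun _ => Bool) false (fun j => x k j) j)
        | .inr (.inl (i, k)) => (S2 i k, Fin.lastCases (motive := fun _ => Bool) false (fun k => P k i) k)
        | .inr (.inr (.inl i)) => (S3 i, Fin.lastCases (motive := fun _ => Bool) false (fun i => Q i) i)
        | .inr (.inr (.inr _)) => (false, false)
      have hU : ∀ c, U β c (r c) := by
        rintro (⟨k, i, j⟩ | ⟨i, k⟩ | i | u)
        · rintro rfl
          show S1 k i 0 = false
          exact run_zero _ _ _
        · rintro rfl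
          show S2 i 0 = true
          exact run_zero _ _ _
        · constructor
          · rintro rfl
            show S3 0 = false
            exact run_zero _ _ _
          · rintro rfl
            show (S3 (Fin.last N₂) != β) = true
            rw [e3]
            exact hv
        · trivial
      have hW : ∀ c c', W A c (r c) c' (r c') := by
        rintro (⟨k, i, j⟩ | ⟨i, k⟩ | i | u) (⟨k', i', j'⟩ | ⟨i', k'⟩ | i' | u')
        · rintro rfl rfl j0 rfl rfl
          show S1 k i j0.succ = xor (S1 k i j0.castSucc) (A k i j0 &&
            Fin.lastCases (motive := fun _ => Bool) false (fun j => x k j) j0.castSucc)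
          rw [Fin.lastCases_castSucc]
          exact run_succ _ _ _ _
        · rintro rfl rfl rfl
          show S1 k i (Fin.last N₁) =
            Fin.lastCases (motive := fun _ => Bool) false (fun k => P k i) k.castSucc
          rw [Fin.lastCases_castSucc, e1]
        · trivial
        · trivial
        · trivial
        · rintro rfl k0 rfl rfl
          show S2 i k0.succ = (S2 i k0.castSucc &&
            Fin.lastCases (motive := fun _ => Bool) false (fun k => P k i) k0.castSucc)
          rw [Fin.lastCases_castSucc]
          exact run_succ _ _ _ _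
        · rintro rfl rfl
          show S2 i (Fin.last K) =
            Fin.lastCases (motive := fun _ => Bool) false (fun i => Q i) i.castSucc
          rw [Fin.lastCases_castSucc, e2]
        · trivial
        · trivial
        · trivial
        · rintro i0 rfl rfl
          show S3 i0.succ = xor (S3 i0.castSucc)
            (Fin.lastCases (motive := fun _ => Bool) false (fun i => Q i) i0.castSucc)
          rw [Fin.lastCases_castSucc]
          exact run_succ _ _ _ _
        · trivial
        · trivial
        · trivial
        · trivial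
        · trivial
      refine ⟨r, ?_, fun c c' _ => ⟨hU c, hU c', hW c c', hW c' c⟩⟩
      rintro ⟨k, j⟩ (⟨k', i', j'⟩ | ⟨i', k'⟩ | i' | u')
      · rintro rfl rfl
        show Fin.lastCases (motive := fun _ => Bool) false (fun j => x k' j) j.castSucc = x k' j
        rw [Fin.lastCases_castSucc]
      · trivial
      · trivial
      · trivial

end Pool.Agent.LS
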