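import Mathlib
import Pool.Agent.Lib.MP_0a1b52_lc_LS.Defs

/-!
# Reading more than `c log² n` times: tables given by partitions
-/

set_option autoImplicit false

namespace Pool.Agent.LS

/-- the tables given by partitions: the `j`-th letter of the word `k` belongs to the block
`q k j` -/
def tab {K N₁ N₂ : ℕ} (q : Fin K → Fin N₁ → Fin N₂) (k : Fin K) (i : Fin N₂) (j : Fin N₁) : Bool :=
  decide (q k j = i)

end Pool.Agent.LS
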