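import Mathlib
import Pool.Agent.Lib.MP_0a1b52_lc_LS.DefsQ
import Pool.Agent.Lib.MP_0a1b52_lc_LS.Csp

/-!
# Reading more than `c log² n` times, module CspQ: few cells suffice if the tables are partitions
-/

set_option autoImplicit false

namespace Pool.Agent.LS

open Finset

namespace CspQ

open Csp

variable {K N₁ N₂ : ℕ}

/-- parity of the letters up to `j` in the block of `j` -/
def P (q : Fin K → Fin N₁ → Fin N₂) (x : Fin K → Fin N₁ → Bool) (k : Fin K) (j : Fin N₁) : Bool :=
  decide ((univ.filter fun a => (a ≤ j ∧ q k a = q k j) ∧ x k a = true).card % 2 = 1)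

theorem dec_succ (c : ℕ) : decide ((c + 1) % 2 = 1) = !decide (c % 2 = 1) := by
  rcases Nat.mod_two_eq_zero_or_one c with h | h
  · have : (c + 1) % 2 = 1 := by omega
    simp [h, this]
  · have : (c + 1) % 2 = 0 := by omega
    simp [h, this]

/-- `j'` is the previous letter of the block of `j` -/
def Prev (q : Fin K → Fin N₁ → Fin N₂) (k : Fin K) (j' j : Fin N₁) : Prop :=
  j' < j ∧ q k j' = q k j ∧ ∀ a, j' < a → a < j → q k a ≠ q k j

theorem P_first (q : Fin K → Fin N₁ → Fin N₂) (x : Fin K → Fin N₁ → Bool) (k : Fin K) (j : Fin N₁)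
    (h : ∀ a, a < j → q k a ≠ q k j) : P q x k j = x k j := by
  unfold P
  cases hx : x k j
  · have : (univ.filter fun a => (a ≤ j ∧ q k a = q k j) ∧ x k a = true) = ∅ := by
      ext a
      simp only [mem_filter, mem_univ, true_and, notMem_empty, iff_false]
      rintro ⟨⟨h1, h2⟩, h3⟩
      rcases h1.lt_or_eq with h4 | h4
      · exact h a h4 h2
      · rw [h4, hx] at h3
        exact Bool.false_ne_true h3
    rw [this]
    simp
  · have : (univ.filter fun a => (a ≤ j ∧ q k a = q k j) ∧ x k a = true) = {j} := by
      ext a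
      simp only [mem_filter, mem_univ, true_and, mem_singleton]
      constructor
      · rintro ⟨⟨h1, h2⟩, -⟩
        rcases h1.lt_or_eq with h4 | h4
        · exact absurd h2 (h a h4)
        · exact h4
      · rintro rfl
        exact ⟨⟨le_refl _, rfl⟩, hx⟩
    rw [this]
    simp

theorem P_prev (q : Fin K → Fin N₁ → Fin N₂) (x : Fin K → Fin N₁ → Bool) (k : Fin K)
    (j' j : Fin N₁) (h : Prev q k j' j) : P q x k j = xor (P q x k j') (x k j) := by
  obtain ⟨h1, h2, h3⟩ := h
  have key : ∀ a, a ≠ j → (((a ≤ j ∧ q k a = q k j) ∧ x k a = true) ↔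
      ((a ≤ j' ∧ q k a = q k j') ∧ x k a = true)) := by
    intro a ha
    rw [h2]
    constructor
    · rintro ⟨⟨h4, h5⟩, h6⟩
      refine ⟨⟨?_, h5⟩, h6⟩
      by_contra hlt
      exact h3 a (not_le.1 hlt) (lt_of_le_of_ne h4 ha) h5
    · rintro ⟨⟨h4, h5⟩, h6⟩
      exact ⟨⟨h4.trans h1.le, h5⟩, h6⟩
  unfold P
  cases hx : x k j
  · have : (univ.filter fun a => (a ≤ j ∧ q k a = q k j) ∧ x k a = true) =
        univ.filter fun a => (a ≤ j' ∧ q k a = q k j') ∧ x k a = true := by
      ext a
      simp only [mem_filter, mem_univ, true_and]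
      by_cases ha : a = j
      · subst ha
        constructor
        · rintro ⟨-, h4⟩
          rw [hx] at h4
          exact absurd h4 Bool.false_ne_true
        · rintro ⟨-, h4⟩
          rw [hx] at h4
          exact absurd h4 Bool.false_ne_true
      · exact key a ha
    rw [this]
    simp
  · have hj : j ∉ univ.filter fun a => (a ≤ j' ∧ q k a = q k j') ∧ x k a = true := by
      simp only [mem_filter, mem_univ, true_and]
      rintro ⟨⟨h4, -⟩, -⟩
      exact absurd h1 (not_lt.2 h4)
    have : (univ.filter fun a => (a ≤ j ∧ q k a = q k j) ∧ x k a = true) =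
        insert j (univ.filter fun a => (a ≤ j' ∧ q k a = q k j') ∧ x k a = true) := by
      ext a
      simp only [mem_filter, mem_univ, true_and, mem_insert]
      by_cases ha : a = j
      · subst ha
        simp [hx]
      · rw [key a ha]
        simp [ha]
    rw [this, card_insert_of_notMem hj, dec_succ]
    simp

theorem P_last (q : Fin K → Fin N₁ → Fin N₂) (x : Fin K → Fin N₁ → Bool) (k : Fin K) (j : Fin N₁)
    (h : ∀ a, j < a → q k a ≠ q k j) :
    P q x k j = par (fun a => tab q k (q k j) a && x k a) := by
  unfold P par tab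
  have : (univ.filter fun a => (a ≤ j ∧ q k a = q k j) ∧ x k a = true) =
      univ.filter fun a => (decide (q k a = q k j) && x k a) = true := by
    ext a
    simp only [mem_filter, mem_univ, true_and, Bool.and_eq_true, decide_eq_true_eq]
    constructor
    · rintro ⟨⟨-, h2⟩, h3⟩
      exact ⟨h2, h3⟩
    · rintro ⟨h2, h3⟩
      refine ⟨⟨?_, h2⟩, h3⟩
      by_contra hlt
      exact h a (not_le.1 hlt) h2
  rw [this]

theorem par_empty (q : Fin K → Fin N₁ → Fin N₂) (x : Fin K → Fin N₁ → Bool) (k : Fin K)
    (i : Fin N₂) (h : ∀ a, q k a ≠ i) : par (fun a => tab q k i a && x k a) = false := by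
  unfold par tab
  have : (univ.filter fun a => (decide (q k a = i) && x k a) = true) = ∅ := by
    ext a
    simp [h a]
  rw [this]
  simp

abbrev Node (K N₁ N₂ : ℕ) : Type :=
  (Fin K × Fin N₁) ⊕ ((Fin N₂ × Fin (K + 1)) ⊕ (Fin (N₂ + 1) ⊕ Unit))

def U (q : Fin K → Fin N₁ → Fin N₂) (β : Bool) : Node K N₁ N₂ → Bool × Bool → Prop
  | .inl (k, j), a => (∀ j', j' < j → q k j' ≠ q k j) → a.1 = a.2
  | .inr (.inl (i, k)), a => (k = 0 → a.1 = true) ∧
      ∀ k0 : Fin K, k = k0.castSucc → (∀ j, q k0 j ≠ i) → a.2 = false
  | .inr (.inr (.inl i)), a => (i = 0 → a.1 = false) ∧ (i = Fin.last N₂ → (a.1 != β) = true)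
  | .inr (.inr (.inr _)), _ => True

def W (q : Fin K → Fin N₁ → Fin N₂) :
    Node K N₁ N₂ → Bool × Bool → Node K N₁ N₂ → Bool × Bool → Prop
  | .inl (k, j), a, .inl (k', j'), a' => k = k' → Prev q k j j' → a'.1 = xor a.1 a'.2
  | .inl (k, j), a, .inr (.inl (i', k')), a' =>
      (∀ b, j < b → q k b ≠ q k j) → q k j = i' → k' = k.castSucc → a.1 = a'.2
  | .inr (.inl (i, k)), a, .inr (.inl (i', k')), a' => i = i' → ∀ k0 : Fin K,
      k = k0.castSucc → k' = k0.succ → a'.1 = (a.1 && a.2)
  | .inr (.inl (i, k)), a, .inr (.inr (.inl i')), a' =>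
      k = Fin.last K → i' = i.castSucc → a.1 = a'.2
  | .inr (.inr (.inl i)), a, .inr (.inr (.inl i')), a' => ∀ i0 : Fin N₂,
      i = i0.castSucc → i' = i0.succ → a'.1 = xor a.1 a.2
  | _, _, _, _ => True

def Cc : Fin K × Fin N₁ → Bool → Node K N₁ N₂ → Bool × Bool → Prop
  | (k, j), t, .inl (k', j'), a => k' = k → j' = j → a.2 = t
  | _, _, _, _ => True

end CspQ

open Csp CspQ in
/-- As `csp`, for the tables given by a partition of the letters of each word. -/
theorem cspq {K N₁ N₂ : ℕ} (q : Fin K → Fin N₁ → Fin N₂) (β : Bool) :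
    ∃ (N : Type) (_ : Fintype N) (C : Fin K × Fin N₁ → Bool → N → Bool × Bool → Prop)
      (B : N → Bool × Bool → N → Bool × Bool → Prop),
      Fintype.card N ≤ 8 * (K + 1) * (N₁ + N₂ + 1) ∧
      (∀ c a c' a', B c a c' a' → B c' a' c a) ∧
      ∀ x : Fin K → Fin N₁ → Bool,
        (∃ r : N → Bool × Bool, (∀ i c, C i (x i.1 i.2) c (r c)) ∧
          ∀ c c', c ≠ c' → B c (r c) c' (r c')) ↔ (val (tab q) x != β) = true := by
  refine ⟨CspQ.Node K N₁ N₂, inferInstance, CspQ.Cc,
    fun c a c' a' => CspQ.U q β c a ∧ CspQ.U q β c' a' ∧ CspQ.W q c a c' a' ∧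
      CspQ.W q c' a' c a, ?_, ?_, ?_⟩
  · simp only [Fintype.card_sum, Fintype.card_prod, Fintype.card_fin, Fintype.card_unit]
    have h2 := Nat.zero_le (K * N₁)
    have h3 := Nat.zero_le (K * N₂)
    nlinarith
  · rintro c a c' a' ⟨h1, h2, h3, h4⟩
    exact ⟨h2, h1, h4, h3⟩
  · intro x
    constructor
    · rintro ⟨r, hC, hB⟩
      have hU : ∀ c, c ≠ Sum.inr (Sum.inr (Sum.inr ())) → CspQ.U q β c (r c) :=
        fun c hc => (hB c _ hc).1
      have hW : ∀ c c', c ≠ c' → CspQ.W q c (r c) c' (r c') := fun c c' h => (hB c c' h).2.2.1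
      have hx : ∀ k j, (r (Sum.inl (k, j))).2 = x k j := fun k j =>
        hC (k, j) (Sum.inl (k, j)) rfl rfl
      have s0 : ∀ k j, (r (Sum.inl (k, j))).1 = P q x k j := by
        intro k j
        induction j using WellFoundedLT.induction with
        | _ j ih =>
          by_cases hf : ∀ j', j' < j → q k j' ≠ q k j
          · rw [P_first q x k j hf, ← hx k j]
            exact hU (Sum.inl (k, j)) (by simp) hf
          · push Not at hf
            obtain ⟨j1, hj1, hj2⟩ := hf
            obtain ⟨j', hj', hmax⟩ := exists_max_image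
              (univ.filter fun a => a < j ∧ q k a = q k j) id
              ⟨j1, mem_filter.2 ⟨mem_univ _, hj1, hj2⟩⟩
            obtain ⟨-, h1, h2⟩ := mem_filter.1 hj'
            have hp : Prev q k j' j := by
              refine ⟨h1, h2, fun a ha1 ha2 ha3 => ?_⟩
              have h4 := hmax a (mem_filter.2 ⟨mem_univ _, ha2, ha3⟩)
              exact absurd ha1 (not_lt.2 h4)
            rw [P_prev q x k j' j hp, ← ih j' h1, ← hx k j]
            refine hW (Sum.inl (k, j')) (Sum.inl (k, j)) ?_ rfl hp
            intro h
            have h5 : j' = j := (Prod.ext_iff.1 (Sum.inl_injective h)).2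
            exact absurd h1 (h5 ▸ lt_irrefl _)
      have s1 : ∀ k i, (r (Sum.inr (Sum.inl (i, k.castSucc)))).2 =
          par (fun j => tab q k i j && x k j) := by
        intro k i
        by_cases he : ∀ j, q k j ≠ i
        · rw [par_empty q x k i he]
          exact (hU (Sum.inr (Sum.inl (i, k.castSucc))) (by simp)).2 k rfl he
        · push Not at he
          obtain ⟨j1, hj1⟩ := he
          obtain ⟨j, hj, hmax⟩ := exists_max_image
            (univ.filter fun a => q k a = i) id ⟨j1, mem_filter.2 ⟨mem_univ _, hj1⟩⟩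
          obtain ⟨-, rfl⟩ := mem_filter.1 hj
          have hl : ∀ a, j < a → q k a ≠ q k j := by
            intro a ha1 ha2
            have h4 := hmax a (mem_filter.2 ⟨mem_univ _, ha2⟩)
            exact absurd ha1 (not_lt.2 h4)
          rw [← P_last q x k j hl, ← s0]
          exact (hW (Sum.inl (k, j)) (Sum.inr (Sum.inl (q k j, k.castSucc))) (by simp)
            hl rfl rfl).symm
      have s2 : ∀ i, (r (Sum.inr (Sum.inl (i, Fin.last K)))).1 =
          decide (∀ k, (par (fun j => tab q k i j && x k j)) = true) := by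
        intro i
        refine chain_all K (fun k => par (fun j => tab q k i j && x k j))
          (fun k => (r (Sum.inr (Sum.inl (i, k)))).1) ?_ ?_
        · exact (hU (Sum.inr (Sum.inl (i, 0))) (by simp)).1 rfl
        · intro k
          have h1 := hW (Sum.inr (Sum.inl (i, k.castSucc))) (Sum.inr (Sum.inl (i, k.succ))) (by
            simp only [ne_eq, Sum.inr.injEq, Sum.inl.injEq, Prod.mk.injEq, true_and]
            intro h
            have := congrArg Fin.val h
            simp at this)
          have h2 := h1 rfl k rfl rfl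
          rw [s1] at h2
          exact h2
      have s3 : (r (Sum.inr (Sum.inr (Sum.inl (Fin.last N₂))))).1 = val (tab q) x := by
        refine chain_par N₂ _ (fun i => (r (Sum.inr (Sum.inr (Sum.inl i)))).1) ?_ ?_
        · exact (hU (Sum.inr (Sum.inr (Sum.inl 0))) (by simp)).1 rfl
        · intro i
          have h1 := hW (Sum.inr (Sum.inr (Sum.inl i.castSucc)))
            (Sum.inr (Sum.inr (Sum.inl i.succ))) (by
            simp only [ne_eq, Sum.inr.injEq, Sum.inl.injEq]
            intro h
            have := congrArg Fin.val h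
            simp at this)
          have h2 := h1 i rfl rfl
          have h3 := hW (Sum.inr (Sum.inl (i, Fin.last K)))
            (Sum.inr (Sum.inr (Sum.inl i.castSucc))) (by simp)
          have h4 : (r (Sum.inr (Sum.inl (i, Fin.last K)))).1 =
            (r (Sum.inr (Sum.inr (Sum.inl i.castSucc)))).2 := h3 rfl rfl
          rw [← h4, s2] at h2
          exact h2
      have h5 := (hU (Sum.inr (Sum.inr (Sum.inl (Fin.last N₂)))) (by simp)).2 rfl
      rw [s3] at h5
      exact h5
    · intro hv
      set Pb : Fin K → Fin N₂ → Bool := fun k i => par (fun j => tab q k i j && x k j) with hP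
      set Q : Fin N₂ → Bool := fun i => decide (∀ k, Pb k i = true) with hQ
      set S2 : Fin N₂ → Fin (K + 1) → Bool := fun i => run true and (fun k => Pb k i) with hS2
      set S3 : Fin (N₂ + 1) → Bool := run false xor Q with hS3
      have e2 : ∀ i, S2 i (Fin.last K) = Q i := fun i =>
        chain_all _ _ _ (run_zero _ _ _) (fun j => run_succ _ _ _ j)
      have e3 : S3 (Fin.last N₂) = val (tab q) x :=
        chain_par _ _ _ (run_zero _ _ _) (fun j => run_succ _ _ _ j)
      let r : CspQ.Node K N₁ N₂ → Bool × Bool
        | .inl (k, j) => (P q x k j, x k j)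
        | .inr (.inl (i, k)) =>
          (S2 i k, Fin.lastCases (motive := fun _ => Bool) false (fun k => Pb k i) k)
        | .inr (.inr (.inl i)) =>
          (S3 i, Fin.lastCases (motive := fun _ => Bool) false (fun i => Q i) i)
        | .inr (.inr (.inr _)) => (false, false)
      have hU : ∀ c, CspQ.U q β c (r c) := by
        rintro (⟨k, j⟩ | ⟨i, k⟩ | i | u)
        · intro h
          exact P_first q x k j h
        · constructor
          · rintro rfl
            show S2 i 0 = true
            exact run_zero _ _ _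
          · rintro k0 rfl h
            show Fin.lastCases (motive := fun _ => Bool) false (fun k => Pb k i) k0.castSucc = false
            rw [Fin.lastCases_castSucc]
            exact par_empty q x k0 i h
        · constructor
          · rintro rfl
            show S3 0 = false
            exact run_zero _ _ _
          · rintro rfl
            show (S3 (Fin.last N₂) != β) = true
            rw [e3]
            exact hv
        · trivial
      have hW : ∀ c c', CspQ.W q c (r c) c' (r c') := by
        rintro (⟨k, j⟩ | ⟨i, k⟩ | i | u) (⟨k', j'⟩ | ⟨i', k'⟩ | i' | u')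
        · rintro rfl h
          exact P_prev q x k j j' h
        · rintro h rfl rfl
          show P q x k j =
            Fin.lastCases (motive := fun _ => Bool) false (fun k' => Pb k' (q k j)) k.castSucc
          rw [Fin.lastCases_castSucc]
          exact P_last q x k j h
        · trivial
        · trivial
        · trivial
        · rintro rfl k0 rfl rfl
          show S2 i k0.succ = (S2 i k0.castSucc &&
            Fin.lastCases (motive := fun _ => Bool) false (fun k => Pb k i) k0.castSucc)
          rw [Fin.lastCases_castSucc]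
          exact run_succ _ _ _ _
        · rintro rfl rfl
          show S2 i (Fin.last K) =
            Fin.lastCases (motive := fun _ => Bool) false (fun i => Q i) i.castSucc
          rw [Fin.lastCases_castSucc, e2]
        · trivial
        · trivial
        · trivial
        · rintro i0 rfl rfl
          show S3 i0.succ = xor (S3 i0.castSucc)
            (Fin.lastCases (motive := fun _ => Bool) false (fun i => Q i) i0.castSucc)
          rw [Fin.lastCases_castSucc]
          exact run_succ _ _ _ _
        · trivial
        · trivial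
        · trivial
        · trivial
        · trivial
      refine ⟨r, ?_, fun c c' _ => ⟨hU c, hU c', hW c c', hW c' c⟩⟩
      rintro ⟨k, j⟩ (⟨k', j'⟩ | ⟨i', k'⟩ | i' | u')
      · rintro rfl rfl
        rfl
      · trivial
      · trivial
      · trivial

end Pool.Agent.LS
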