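import Mathlib
import Pool.Agent.Lib.MP_0a1b52_lc_LS.DefsQ

/-!
# Reading more than `c log² n` times, module DiscQ: tables given by random partitions
-/

set_option autoImplicit false

namespace Pool.Agent.LS

open Finset

/-! ## Averages -/

/-- the average of `f` -/
private noncomputable def av {α : Type} [Fintype α] (f : α → ℝ) : ℝ :=
  (∑ a, f a) / Fintype.card α

section average

variable {α β : Type} [Fintype α] [Fintype β]

private theorem av_mono {f g : α → ℝ} (h : ∀ a, f a ≤ g a) : av f ≤ av g :=
  div_le_div_of_nonneg_right (sum_le_sum fun a _ => h a) (Nat.cast_nonneg _)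

private theorem av_congr {f g : α → ℝ} (h : ∀ a, f a = g a) : av f = av g := by
  rw [funext h]

private theorem av_nonneg {f : α → ℝ} (h : ∀ a, 0 ≤ f a) : 0 ≤ av f :=
  div_nonneg (sum_nonneg fun a _ => h a) (Nat.cast_nonneg _)

private theorem av_const [Nonempty α] (c : ℝ) : av (fun _ : α => c) = c := by
  have h : (Fintype.card α : ℝ) ≠ 0 := Nat.cast_ne_zero.2 Fintype.card_ne_zero
  rw [av, sum_const, card_univ, nsmul_eq_mul]
  field_simp

private theorem av_mul (c : ℝ) (f : α → ℝ) : av (fun a => c * f a) = c * av f := by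
  rw [av, av, ← mul_sum, mul_div_assoc]

private theorem av_add (f g : α → ℝ) : av (fun a => f a + g a) = av f + av g := by
  rw [av, av, av, sum_add_distrib, add_div]

private theorem av_sum {γ : Type} (s : Finset γ) (f : γ → α → ℝ) :
    av (fun a => ∑ c ∈ s, f c a) = ∑ c ∈ s, av (f c) := by
  simp only [av]
  rw [sum_comm, sum_div]

private theorem av_comm (f : α → β → ℝ) :
    av (fun a => av fun b => f a b) = av fun b => av fun a => f a b := by
  simp only [av]
  rw [← sum_div, ← sum_div, sum_comm, div_div, div_div, mul_comm (Fintype.card β : ℝ)]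

private theorem av_prod (f : α × β → ℝ) : av f = av fun a => av fun b => f (a, b) := by
  simp only [av]
  rw [← sum_div, div_div, Fintype.card_prod, Fintype.sum_prod_type, Nat.cast_mul, mul_comm]

private theorem av_inv (s : α → α) (hs : ∀ a, s (s a) = a) (f : α → ℝ) :
    av (fun a => f (s a)) = av f := by
  rw [av, av]
  congr 1
  exact Equiv.sum_comp (Function.Involutive.toPerm s hs) f

private theorem abs_av (f : α → ℝ) : |av f| ≤ av fun a => |f a| := by
  rw [av, av, abs_div, Nat.abs_cast]
  exact div_le_div_of_nonneg_right (abs_sum_le_sum_abs _ _) (Nat.cast_nonneg _)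

private theorem av_pow [Nonempty α] {f : α → ℝ} (h : ∀ a, 0 ≤ f a) (n : ℕ) :
    av f ^ n ≤ av fun a => f a ^ n := by
  have h0 : (0 : ℝ) < Fintype.card α := Nat.cast_pos.2 Fintype.card_pos
  have h1 := Real.pow_arith_mean_le_arith_mean_pow univ
    (fun _ : α => ((Fintype.card α : ℝ))⁻¹) f (fun _ _ => inv_nonneg.2 h0.le) (by
      rw [sum_const, card_univ, nsmul_eq_mul, mul_inv_cancel₀ h0.ne']) (fun a _ => h a) n
  rw [← mul_sum, ← mul_sum] at h1
  rw [av, av, div_eq_inv_mul, div_eq_inv_mul]
  exact h1

private theorem av_cs [Nonempty α] (t g : α → ℝ) (ht : ∀ a, |t a| ≤ 1) :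
    av (fun a => t a * g a) ^ 2 ≤ av fun a => g a ^ 2 := by
  have h1 : |av fun a => t a * g a| ≤ av fun a => |g a| := by
    refine (abs_av _).trans (av_mono fun a => ?_)
    rw [abs_mul]
    exact mul_le_of_le_one_left (abs_nonneg _) (ht a)
  have h2 := av_pow (f := fun a => |g a|) (fun a => abs_nonneg _) 2
  calc av (fun a => t a * g a) ^ 2 = |av fun a => t a * g a| ^ 2 := (sq_abs _).symm
    _ ≤ (av fun a => |g a|) ^ 2 := pow_le_pow_left₀ (abs_nonneg _) h1 2
    _ ≤ av fun a => |g a| ^ 2 := h2
    _ = av fun a => g a ^ 2 := av_congr fun a => sq_abs _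

private theorem av_prod_fun {ι Z : Type} [Fintype ι] [DecidableEq ι] [Fintype Z]
    (h : ι → Z → ℝ) : av (fun y : ι → Z => ∏ i, h i (y i)) = ∏ i, av (h i) := by
  simp only [av]
  rw [prod_div_distrib, prod_univ_sum, Fintype.piFinset_univ, prod_const, card_univ,
    Fintype.card_fun, Nat.cast_pow]

end average

open Classical in
/-- the indicator of a proposition -/
private noncomputable def ind (p : Prop) : ℝ := if p then 1 else 0

private theorem ind_of {p : Prop} (h : p) : ind p = 1 := if_pos h

private theorem ind_not {p : Prop} (h : ¬ p) : ind p = 0 := if_neg h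

private theorem ind_nonneg (p : Prop) : 0 ≤ ind p := by
  by_cases h : p
  · rw [ind_of h]
    exact zero_le_one
  · rw [ind_not h]

private theorem ind_le_one (p : Prop) : ind p ≤ 1 := by
  by_cases h : p
  · rw [ind_of h]
  · rw [ind_not h]
    exact zero_le_one

private theorem ind_mono {p p' : Prop} (h : p → p') : ind p ≤ ind p' := by
  by_cases h1 : p
  · rw [ind_of h1, ind_of (h h1)]
  · rw [ind_not h1]
    exact ind_nonneg _

private theorem ind_congr {p p' : Prop} (h : p ↔ p') : ind p = ind p' := by
  rw [propext h]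

private theorem ind_and (p p' : Prop) : ind (p ∧ p') = ind p * ind p' := by
  by_cases h : p
  · by_cases h' : p'
    · rw [ind_of h, ind_of h', ind_of ⟨h, h'⟩, one_mul]
    · rw [ind_not h', ind_not fun h1 => h' h1.2, mul_zero]
  · rw [ind_not h, ind_not fun h1 => h h1.1, zero_mul]

private theorem ind_not' (p : Prop) : ind (¬ p) = 1 - ind p := by
  by_cases h : p
  · rw [ind_of h, ind_not (not_not.2 h), sub_self]
  · rw [ind_not h, ind_of h, sub_zero]

private theorem ind_forall {ι : Type} [Fintype ι] (p : ι → Prop) :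
    ind (∀ i, p i) = ∏ i, ind (p i) := by
  by_cases h : ∀ i, p i
  · rw [ind_of h, prod_eq_one fun i _ => ind_of (h i)]
  · obtain ⟨i, hi⟩ := not_forall.1 h
    rw [ind_not h, prod_eq_zero (mem_univ i) (ind_not hi)]

/-! ## Signs and parities -/

/-- the sign of a bit -/
private def sg (b : Bool) : ℝ := if b = true then -1 else 1

private theorem sg_xor (a b : Bool) : sg (xor a b) = sg a * sg b := by
  cases a <;> cases b <;> simp [sg]

private theorem sg_abs (a : Bool) : |sg a| = 1 := by
  cases a <;> simp [sg]

private theorem sg_sq (a : Bool) : sg a * sg a = 1 := by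
  cases a <;> simp [sg]

private theorem sg_inj {a b : Bool} (h : sg a = sg b) : a = b := by
  cases a <;> cases b <;> first | rfl | (exfalso; simp [sg] at h; linarith)

private theorem sg_par {n : ℕ} (f : Fin n → Bool) : sg (par f) = ∏ i, sg (f i) := by
  have h1 : ∏ i, sg (f i) = (-1 : ℝ) ^ (univ.filter fun i => f i = true).card := by
    simp only [sg]
    rw [prod_ite, prod_const, prod_const, one_pow, mul_one]
  rw [h1, par]
  rcases Nat.mod_two_eq_zero_or_one (univ.filter fun i => f i = true).card with h | h
  · rw [h, Even.neg_one_pow (Nat.even_iff.2 h)]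
    simp [sg]
  · rw [h, Odd.neg_one_pow (Nat.odd_iff.2 h)]
    simp [sg]

private theorem par_xor {n : ℕ} (f g : Fin n → Bool) :
    par (fun i => xor (f i) (g i)) = xor (par f) (par g) := by
  apply sg_inj
  rw [sg_xor, sg_par, sg_par, sg_par, ← prod_mul_distrib]
  exact prod_congr rfl fun i _ => sg_xor _ _

private theorem par_single {n : ℕ} (f : Fin n → Bool) (a : Fin n) :
    par (fun i => f i && decide (a = i)) = f a := by
  apply sg_inj
  rw [sg_par, prod_eq_single a]
  · simp
  · intro b _ hb
    have h : decide (a = b) = false := decide_eq_false hb.symm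
    simp [sg, h]
  · intro h
    exact (h (mem_univ a)).elim

private theorem and_xor (a b c : Bool) : (a && xor b c) = xor (a && b) (a && c) := by
  cases a <;> cases b <;> cases c <;> rfl

/-! ## Shifts of the hidden letters -/

section cube

variable {K N₁ N₂ : ℕ}

/-- the hidden letters of the word `k` are changed where `d` says so -/
private def sh (J : Fin K → Finset (Fin N₁)) (k : Fin K) (d : Fin N₁ → Bool)
    (x : Fin K → Fin N₁ → Bool) : Fin K → Fin N₁ → Bool :=
  Function.update x k fun j => xor (x k j) (d j && decide (j ∈ J k))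

private theorem sh_same (J : Fin K → Finset (Fin N₁)) (k : Fin K) (d : Fin N₁ → Bool)
    (x : Fin K → Fin N₁ → Bool) (j : Fin N₁) :
    sh J k d x k j = xor (x k j) (d j && decide (j ∈ J k)) := by
  simp [sh]

private theorem sh_ne (J : Fin K → Finset (Fin N₁)) {k l : Fin K} (h : l ≠ k)
    (d : Fin N₁ → Bool) (x : Fin K → Fin N₁ → Bool) : sh J k d x l = x l := by
  simp [sh, h]

private theorem sh_add (J : Fin K → Finset (Fin N₁)) (k : Fin K) (d d' : Fin N₁ → Bool)
    (x : Fin K → Fin N₁ → Bool) :
    sh J k d' (sh J k d x) = sh J k (fun j => xor (d j) (d' j)) x := by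
  funext l
  by_cases h : l = k
  · subst h
    funext j
    rw [sh_same, sh_same, sh_same]
    cases x l j <;> cases d j <;> cases d' j <;> cases decide (j ∈ J l) <;> rfl
  · rw [sh_ne J h, sh_ne J h, sh_ne J h]

private theorem sh_sh (J : Fin K → Finset (Fin N₁)) (k : Fin K) (d : Fin N₁ → Bool)
    (x : Fin K → Fin N₁ → Bool) : sh J k d (sh J k d x) = x := by
  rw [sh_add]
  funext l
  by_cases h : l = k
  · subst h
    funext j
    rw [sh_same]
    cases x l j <;> cases d j <;> rfl
  · rw [sh_ne J h]

private theorem sh_comm (J : Fin K → Finset (Fin N₁)) (k l : Fin K) (d d' : Fin N₁ → Bool)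
    (x : Fin K → Fin N₁ → Bool) : sh J k d (sh J l d' x) = sh J l d' (sh J k d x) := by
  by_cases h : k = l
  · subst h
    rw [sh_add, sh_add]
    congr 1
    funext j
    exact Bool.xor_comm _ _
  · funext m
    by_cases h1 : m = k
    · subst h1
      rw [sh_ne J h]
      funext j
      rw [sh_same, sh_same, sh_ne J h]
    · rw [sh_ne J h1]
      by_cases h2 : m = l
      · subst h2
        funext j
        rw [sh_same, sh_same, sh_ne J h1]
      · rw [sh_ne J h2, sh_ne J h2, sh_ne J h1]

private theorem step (J : Fin K → Finset (Fin N₁)) (k : Fin K)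
    (t g : (Fin K → Fin N₁ → Bool) → ℝ) (ht : ∀ x, |t x| ≤ 1)
    (hs : ∀ x d, t (sh J k d x) = t x) :
    av (fun x => t x * g x) ^ 2 ≤ av fun d => av fun x => g x * g (sh J k d x) := by
  have h1 : av (fun x => t x * g x) = av fun x => t x * av fun d => g (sh J k d x) := by
    have h2 : ∀ d, av (fun x => t x * g x) = av fun x => t x * g (sh J k d x) := by
      intro d
      rw [← av_inv (sh J k d) (sh_sh J k d) fun x => t x * g x]
      exact av_congr fun x => by rw [hs]
    calc av (fun x => t x * g x)
        = av fun _ : Fin N₁ → Bool => av fun x => t x * g x := (av_const _).symm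
      _ = av fun d => av fun x => t x * g (sh J k d x) := av_congr h2
      _ = av fun x => av fun d => t x * g (sh J k d x) := av_comm _
      _ = _ := av_congr fun x => av_mul _ _
  rw [h1]
  refine (av_cs _ _ ht).trans (le_of_eq ?_)
  have h3 : ∀ x, (av fun d => g (sh J k d x)) ^ 2 =
      av fun d => av fun d' => g (sh J k d x) * g (sh J k d' x) := by
    intro x
    rw [sq, ← av_mul]
    refine av_congr fun d => ?_
    rw [mul_comm, ← av_mul]
  have h4 : ∀ d, av (fun x => av fun d' => g (sh J k d x) * g (sh J k d' x)) =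
      av fun d' => av fun x => g x * g (sh J k d' x) := by
    intro d
    calc av (fun x => av fun d' => g (sh J k d x) * g (sh J k d' x))
        = av fun x => av fun d' => g (sh J k d (sh J k d x)) * g (sh J k d' (sh J k d x)) :=
          (av_inv (sh J k d) (sh_sh J k d)
            fun x => av fun d' => g (sh J k d x) * g (sh J k d' x)).symm
      _ = av fun x => av fun d' => g x * g (sh J k d' x) := by
          refine av_congr fun x => ?_
          rw [sh_sh]
          have h5 := av_inv (fun d' : Fin N₁ → Bool => fun j => xor (d j) (d' j))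
            (fun d' => funext fun j => by
              change xor (d j) (xor (d j) (d' j)) = d' j
              cases d j <;> cases d' j <;> rfl)
            fun d' => g x * g (sh J k d' x)
          rw [← h5]
          exact av_congr fun d' => by rw [sh_add]
      _ = _ := av_comm _
  calc av (fun x => (av fun d => g (sh J k d x)) ^ 2)
      = av fun x => av fun d => av fun d' => g (sh J k d x) * g (sh J k d' x) := av_congr h3
    _ = av fun d => av fun x => av fun d' => g (sh J k d x) * g (sh J k d' x) := av_comm _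
    _ = av fun _ : Fin N₁ → Bool => av fun d' => av fun x => g x * g (sh J k d' x) := av_congr h4
    _ = _ := av_const _

/-! ## The cube bound for fixed tables -/

/-- the sign of the parity of the `i` with `c i` for which the words in `S` have the parity `1` -/
private def ph (A : Fin K → Fin N₂ → Fin N₁ → Bool) (c : Fin N₂ → Bool) (S : Finset (Fin K))
    (x : Fin K → Fin N₁ → Bool) : ℝ :=
  ∏ i, sg (c i && decide (∀ k ∈ S, par (fun j => A k i j && x k j) = true))

private theorem ph_abs (A : Fin K → Fin N₂ → Fin N₁ → Bool) (c : Fin N₂ → Bool)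
    (S : Finset (Fin K)) (x : Fin K → Fin N₁ → Bool) : |ph A c S x| = 1 := by
  rw [ph, abs_prod]
  exact prod_eq_one fun i _ => sg_abs _

private theorem ph_sh (A : Fin K → Fin N₂ → Fin N₁ → Bool) (J : Fin K → Finset (Fin N₁))
    (c : Fin N₂ → Bool) (S : Finset (Fin K)) (k : Fin K) (hk : k ∉ S) (d : Fin N₁ → Bool)
    (x : Fin K → Fin N₁ → Bool) :
    ph A c (insert k S) x * ph A c (insert k S) (sh J k d x) =
      ph A (fun i => c i && par fun j => A k i j && (d j && decide (j ∈ J k))) S x := by
  unfold ph
  rw [← prod_mul_distrib]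
  refine prod_congr rfl fun i _ => ?_
  have h1 : ∀ y : Fin K → Fin N₁ → Bool,
      decide (∀ l ∈ insert k S, par (fun j => A l i j && y l j) = true) =
        (par (fun j => A k i j && y k j) &&
          decide (∀ l ∈ S, par (fun j => A l i j && y l j) = true)) := by
    intro y
    rw [Bool.eq_iff_iff]
    simp only [decide_eq_true_eq, Bool.and_eq_true, mem_insert, forall_eq_or_imp]
  have h2 : par (fun j => A k i j && sh J k d x k j) =
      xor (par fun j => A k i j && x k j)
        (par fun j => A k i j && (d j && decide (j ∈ J k))) := by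
    rw [← par_xor]
    congr 1
    funext j
    rw [sh_same, and_xor]
  have h3 : (∀ l ∈ S, par (fun j => A l i j && sh J k d x l j) = true) ↔
      ∀ l ∈ S, par (fun j => A l i j && x l j) = true := by
    refine forall₂_congr fun l hl => ?_
    rw [sh_ne J (fun h : l = k => hk (h ▸ hl))]
  rw [h1, h1, h2]
  simp only [h3]
  rw [← sg_xor]
  congr 1
  generalize c i = a
  generalize (par fun j => A k i j && x k j) = b
  generalize (par fun j => A k i j && (d j && decide (j ∈ J k))) = e
  generalize decide (∀ l ∈ S, par (fun j => A l i j && x l j) = true) = f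
  cases a <;> cases b <;> cases e <;> cases f <;> rfl

/-- the coefficients after the words in `S` have been replaced by differences -/
private def zz (A : Fin K → Fin N₂ → Fin N₁ → Bool) (J : Fin K → Finset (Fin N₁))
    (S : Finset (Fin K)) (c : Fin N₂ → Bool) (d : Fin K → Fin N₁ → Bool) (i : Fin N₂) : Bool :=
  c i && decide (∀ k ∈ S, par (fun j => A k i j && (d k j && decide (j ∈ J k))) = true)

private theorem av_mix (k : Fin K) (F : (Fin N₁ → Bool) → (Fin K → Fin N₁ → Bool) → ℝ)
    (hF : ∀ d d' e, F d (Function.update d' k e) = F d d') :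
    av (fun d => av fun d' => F d d') = av fun d' => F (d' k) d' := by
  rw [← av_prod fun p => F p.1 p.2,
    ← av_inv (fun p : (Fin N₁ → Bool) × (Fin K → Fin N₁ → Bool) =>
      (p.2 k, Function.update p.2 k p.1)) (by
        rintro ⟨d, d'⟩
        simp) fun p => F p.1 p.2]
  rw [av_prod, ← av_const (α := Fin N₁ → Bool) (av fun d' => F (d' k) d')]
  exact av_congr fun d => av_congr fun d' => hF _ _ _

private theorem cube (A : Fin K → Fin N₂ → Fin N₁ → Bool) (J : Fin K → Finset (Fin N₁))
    (ks : Fin K) (S : Finset (Fin K)) : ∀ (c : Fin N₂ → Bool)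
    (T : Fin K → (Fin K → Fin N₁ → Bool) → ℝ), ks ∉ S → (∀ k x, |T k x| ≤ 1) →
    (∀ k x d, T k (sh J k d x) = T k x) →
    |av fun x => ph A c (insert ks S) x * ∏ k ∈ insert ks S, T k x| ^ 2 ^ S.card ≤
      av fun d => ind (∀ j ∈ J ks, par (fun i => zz A J S c d i && A ks i j) = false) := by
  classical
  induction S using Finset.induction_on with
  | empty =>
    intro c T _ hT hs
    rw [card_empty, pow_zero, pow_one]
    have h0 : ∀ d : Fin K → Fin N₁ → Bool,
        ind (∀ j ∈ J ks, par (fun i => zz A J ∅ c d i && A ks i j) = false) =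
          ind (∀ j ∈ J ks, par (fun i => c i && A ks i j) = false) := by
      intro d
      simp [zz]
    rw [av_congr h0, av_const]
    by_cases h : ∀ j ∈ J ks, par (fun i => c i && A ks i j) = false
    · rw [ind_of h]
      refine (abs_av _).trans ?_
      rw [← av_const (α := Fin K → Fin N₁ → Bool) (1 : ℝ)]
      refine av_mono fun x => ?_
      rw [abs_mul, ph_abs, one_mul, abs_prod]
      exact prod_le_one (fun k _ => abs_nonneg _) fun k _ => hT k x
    · rw [ind_not h]
      obtain ⟨j, hj⟩ := not_forall.1 h
      obtain ⟨hj1, hj2⟩ := Classical.not_imp.1 hj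
      have hj3 : par (fun i => c i && A ks i j) = true := by
        cases h3 : par (fun i => c i && A ks i j)
        · exact (hj2 h3).elim
        · rfl
      have h1 : ∀ x, ph A c (insert ks ∅) (sh J ks (fun j' => decide (j = j')) x) =
          -ph A c (insert ks ∅) x := by
        intro x
        have h2 := ph_sh A J c ∅ ks (notMem_empty _) (fun j' => decide (j = j')) x
        have h3 : ph A (fun i => c i && par fun j' => A ks i j' &&
            (decide (j = j') && decide (j' ∈ J ks))) ∅ x = -1 := by
          have h4 : ∀ i, (par fun j' => A ks i j' && (decide (j = j') && decide (j' ∈ J ks))) =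
              A ks i j := by
            intro i
            rw [← par_single (A ks i) j]
            congr 1
            funext j'
            by_cases h5 : j = j'
            · subst h5
              simp [hj1]
            · simp [h5]
          simp only [h4, ph]
          have h6 : ∏ i, sg (c i && A ks i j) = -1 := by
            rw [← sg_par, hj3]
            simp [sg]
          rw [← h6]
          refine prod_congr rfl fun i _ => ?_
          simp
        rw [h3] at h2
        have h7 : ph A c (insert ks ∅) x * ph A c (insert ks ∅) x = 1 := by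
          rw [← abs_mul_abs_self, ph_abs, one_mul]
        calc ph A c (insert ks ∅) (sh J ks (fun j' => decide (j = j')) x)
            = (ph A c (insert ks ∅) x * ph A c (insert ks ∅) x) *
              ph A c (insert ks ∅) (sh J ks (fun j' => decide (j = j')) x) := by
                rw [h7, one_mul]
          _ = ph A c (insert ks ∅) x * (ph A c (insert ks ∅) x *
              ph A c (insert ks ∅) (sh J ks (fun j' => decide (j = j')) x)) := by ring
          _ = _ := by rw [h2]; ring
      have h2 : av (fun x => ph A c (insert ks ∅) x * ∏ k ∈ insert ks ∅, T k x) =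
          -av fun x => ph A c (insert ks ∅) x * ∏ k ∈ insert ks ∅, T k x := by
        rw [← neg_one_mul, ← av_mul,
          ← av_inv (sh J ks fun j' => decide (j = j')) (sh_sh J ks _)]
        refine av_congr fun x => ?_
        rw [h1]
        have h3 : ∏ k ∈ insert ks ∅, T k (sh J ks (fun j' => decide (j = j')) x) =
            ∏ k ∈ insert ks ∅, T k x := by
          refine prod_congr rfl fun k hk => ?_
          have h4 : k = ks := by simpa using hk
          rw [h4, hs]
        rw [h3]
        ring
      have h3 : av (fun x => ph A c (insert ks ∅) x * ∏ k ∈ insert ks ∅, T k x) = 0 := by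
        linarith
      rw [h3, abs_zero]
  | insert k₀ S' hk₀ ih =>
    intro c T hks hT hs
    have hne : ks ≠ k₀ := fun h => hks (h ▸ mem_insert_self _ _)
    have hks' : ks ∉ S' := fun h => hks (mem_insert_of_mem h)
    have hk₀' : k₀ ∉ insert ks S' := by
      rw [mem_insert]
      rintro (h | h)
      · exact hne h.symm
      · exact hk₀ h
    have hsw : insert ks (insert k₀ S') = insert k₀ (insert ks S') := by
      ext a
      simp only [mem_insert]
      tauto
    rw [hsw, card_insert_of_notMem hk₀]
    let E := av fun x => ph A c (insert k₀ (insert ks S')) x *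
      ∏ k ∈ insert k₀ (insert ks S'), T k x
    let c' : (Fin N₁ → Bool) → Fin N₂ → Bool := fun d i =>
      c i && par fun j => A k₀ i j && (d j && decide (j ∈ J k₀))
    let T' : (Fin N₁ → Bool) → Fin K → (Fin K → Fin N₁ → Bool) → ℝ := fun d k x =>
      T k x * T k (sh J k₀ d x)
    let E' : (Fin N₁ → Bool) → ℝ := fun d =>
      av fun x => ph A (c' d) (insert ks S') x * ∏ k ∈ insert ks S', T' d k x
    have h1 : E ^ 2 ≤ av fun d => |E' d| := by
      have h2 := step J k₀ (T k₀) (fun x => ph A c (insert k₀ (insert ks S')) x *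
        ∏ k ∈ insert ks S', T k x) (hT k₀) (hs k₀)
      have h3 : E = av fun x => T k₀ x * (ph A c (insert k₀ (insert ks S')) x *
          ∏ k ∈ insert ks S', T k x) := by
        refine av_congr fun x => ?_
        rw [prod_insert hk₀']
        ring
      rw [h3]
      refine h2.trans (av_mono fun d => ?_)
      refine le_trans (le_of_eq ?_) (le_abs_self _)
      refine av_congr fun x => ?_
      have h4 := ph_sh A J c (insert ks S') k₀ hk₀' d x
      change _ = ph A (c' d) (insert ks S') x * ∏ k ∈ insert ks S', T' d k x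
      rw [← h4]
      change _ = _ * ∏ k ∈ insert ks S', (T k x * T k (sh J k₀ d x))
      rw [prod_mul_distrib]
      ring
    have h5 : ∀ d, |E' d| ^ 2 ^ S'.card ≤ av fun d' => ind (∀ j ∈ J ks,
        par (fun i => zz A J S' (c' d) d' i && A ks i j) = false) := by
      intro d
      refine ih (c' d) (T' d) hks' (fun k x => ?_) fun k x e => ?_
      · change |T k x * T k (sh J k₀ d x)| ≤ 1
        rw [abs_mul]
        exact mul_le_one₀ (hT _ _) (abs_nonneg _) (hT _ _)
      · change T k (sh J k e x) * T k (sh J k₀ d (sh J k e x)) = T k x * T k (sh J k₀ d x)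
        rw [hs, sh_comm, hs]
    have h6 : ∀ d d' e, ind (∀ j ∈ J ks, par (fun i => zz A J S' (c' d)
        (Function.update d' k₀ e) i && A ks i j) = false) = ind (∀ j ∈ J ks,
        par (fun i => zz A J S' (c' d) d' i && A ks i j) = false) := by
      intro d d' e
      have h7 : ∀ i, zz A J S' (c' d) (Function.update d' k₀ e) i = zz A J S' (c' d) d' i := by
        intro i
        have h8 : (∀ k ∈ S', par (fun j => A k i j &&
            (Function.update d' k₀ e k j && decide (j ∈ J k))) = true) ↔
            ∀ k ∈ S', par (fun j => A k i j && (d' k j && decide (j ∈ J k))) = true := by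
          refine forall₂_congr fun k hk => ?_
          rw [Function.update_of_ne (fun h : k = k₀ => hk₀ (h ▸ hk))]
        simp only [zz, h8]
      simp only [h7]
    calc |E| ^ 2 ^ (S'.card + 1) = (E ^ 2) ^ 2 ^ S'.card := by
          rw [pow_succ, mul_comm, pow_mul, sq_abs]
      _ ≤ (av fun d => |E' d|) ^ 2 ^ S'.card := pow_le_pow_left₀ (sq_nonneg _) h1 _
      _ ≤ av fun d => |E' d| ^ 2 ^ S'.card := av_pow (fun d => abs_nonneg _) _
      _ ≤ av fun d => av fun d' => ind (∀ j ∈ J ks,
          par (fun i => zz A J S' (c' d) d' i && A ks i j) = false) := av_mono h5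
      _ = av fun d' => ind (∀ j ∈ J ks,
          par (fun i => zz A J S' (c' (d' k₀)) d' i && A ks i j) = false) := av_mix k₀ _ h6
      _ = _ := by
          refine av_congr fun d => ?_
          have h9 : ∀ i, zz A J S' (c' (d k₀)) d i = zz A J (insert k₀ S') c d i := by
            intro i
            have h10 : (∀ k ∈ insert k₀ S', par (fun j => A k i j &&
                (d k j && decide (j ∈ J k))) = true) ↔
                (par fun j => A k₀ i j && (d k₀ j && decide (j ∈ J k₀))) = true ∧
                ∀ k ∈ S', par (fun j => A k i j && (d k j && decide (j ∈ J k))) = true := by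
              simp only [mem_insert, forall_eq_or_imp]
            simp only [zz, c', h10, Bool.decide_and, Bool.decide_eq_true, Bool.and_assoc]
          simp only [h9]

/-- the cube bound for fixed tables -/
private theorem disc_fix (A : Fin K → Fin N₂ → Fin N₁ → Bool) (J : Fin K → Finset (Fin N₁))
    (ks : Fin K) (T : (Fin K → Fin N₁ → Bool) → Prop)
    (hT : ∀ (u : Fin K → Fin N₁ → Bool) (v : Fin K → Fin K → Fin N₁ → Bool),
      (∀ k l, l ≠ k → v k l = u l) → (∀ k j, j ∉ J k → v k k j = u k j) →
      (∀ k, T (v k)) → T u)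
    (b : Bool) (hb : ∀ x, T x → val A x = b) :
    (av fun x => ind (T x)) ^ 2 ^ (K - 1) ≤ av fun d => ind (∀ j ∈ J ks,
      par (fun i => zz A J (univ.erase ks) (fun _ => true) d i && A ks i j) = false) := by
  classical
  let P : Fin K → (Fin K → Fin N₁ → Bool) → Prop := fun k x =>
    ∃ v, T v ∧ (∀ l, l ≠ k → v l = x l) ∧ ∀ j, j ∉ J k → v k j = x k j
  have h1 : ∀ x, T x ↔ ∀ k, P k x := by
    intro x
    constructor
    · intro h k
      exact ⟨x, h, fun _ _ => rfl, fun _ _ => rfl⟩
    · intro h
      choose v hv1 hv2 hv3 using h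
      exact hT x v hv2 hv3 hv1
  have h2 : ∀ k x d, P k (sh J k d x) → P k x := by
    rintro k x d ⟨v, hv1, hv2, hv3⟩
    refine ⟨v, hv1, fun l hl => ?_, fun j hj => ?_⟩
    · rw [hv2 l hl, sh_ne J hl]
    · rw [hv3 j hj, sh_same]
      simp [hj]
  have h3 : ∀ k x d, P k (sh J k d x) ↔ P k x := fun k x d =>
    ⟨h2 k x d, fun h => h2 k (sh J k d x) d (by rw [sh_sh]; exact h)⟩
  have h4 := cube A J ks (univ.erase ks) (fun _ => true) (fun k x => ind (P k x))
    (notMem_erase _ _) (fun k x => by
      rw [abs_of_nonneg (ind_nonneg _)]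
      exact ind_le_one _) fun k x d => ind_congr (h3 k x d)
  rw [insert_erase (mem_univ ks), card_erase_of_mem (mem_univ ks), card_univ,
    Fintype.card_fin] at h4
  have h5 : (av fun x => ph A (fun _ => true) univ x * ∏ k, ind (P k x)) =
      sg b * av fun x => ind (T x) := by
    rw [← av_mul]
    refine av_congr fun x => ?_
    rw [← ind_forall, ← ind_congr (h1 x)]
    by_cases h6 : T x
    · rw [← hb x h6]
      congr 1
      rw [val, sg_par, ph]
      refine prod_congr rfl fun i _ => ?_
      simp
    · rw [ind_not h6, mul_zero, mul_zero]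
  rw [h5, abs_mul, sg_abs, one_mul, abs_of_nonneg (av_nonneg fun x => ind_nonneg _)] at h4
  exact h4

/-! ## Independent blocks -/

open Classical in
private theorem av_bits (S : Finset (Fin K)) (b : Fin K → Bool) :
    av (fun R : Fin K → Bool => ind (∀ k ∈ S, R k = b k)) = (1 / 2 : ℝ) ^ S.card := by
  have h1 : ∀ R : Fin K → Bool, ind (∀ k ∈ S, R k = b k) =
      ∏ k, (fun (k : Fin K) (r : Bool) => ind (k ∈ S → r = b k)) k (R k) := by
    intro R
    exact ind_forall fun k => k ∈ S → R k = b k
  rw [av_congr h1]
  refine (av_prod_fun fun (k : Fin K) (r : Bool) => ind (k ∈ S → r = b k)).trans ?_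
  have h2 : ∀ k, av (fun r : Bool => ind (k ∈ S → r = b k)) =
      if k ∈ S then (1 / 2 : ℝ) else 1 := by
    intro k
    by_cases hk : k ∈ S
    · rw [if_pos hk, av, Fintype.sum_bool, Fintype.card_bool]
      cases b k <;> simp [ind, hk]
    · rw [if_neg hk, ← av_const (α := Bool) (1 : ℝ)]
      exact av_congr fun r => ind_of fun h => (hk h).elim
  rw [prod_congr rfl fun k _ => h2 k, prod_ite, prod_const_one, mul_one, prod_const,
    filter_mem_eq_inter, univ_inter]

private theorem blk (q : Fin K → Fin N₁ → Fin N₂) (J : Fin K → Finset (Fin N₁))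
    (S : Finset (Fin K)) (I : Finset (Fin N₂)) (hI : ∀ i ∈ I, ∀ k ∈ S, ∃ j ∈ J k, q k j = i) :
    av (fun d => ind (∀ i ∈ I, zz (tab q) J S (fun _ => true) d i = false)) ≤
      (1 - (1 / 2 : ℝ) ^ S.card) ^ I.card := by
  classical
  induction I using Finset.induction_on with
  | empty =>
    rw [card_empty, pow_zero, ← av_const (α := Fin K → Fin N₁ → Bool) (1 : ℝ)]
    exact av_mono fun d => ind_le_one _
  | insert i₀ I hi₀ ih =>
    have ih1 := ih fun i hi => hI i (mem_insert_of_mem hi)
    by_cases hS : S = ∅
    · subst hS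
      rw [card_insert_of_notMem hi₀, card_empty, pow_zero, sub_self]
      have h0 : ∀ d : Fin K → Fin N₁ → Bool,
          ind (∀ i ∈ insert i₀ I, zz (tab q) J ∅ (fun _ => true) d i = false) = 0 := by
        intro d
        refine ind_not fun h => ?_
        have h1 := h i₀ (mem_insert_self _ _)
        simp [zz] at h1
      rw [av_congr h0, av_const, zero_pow (Nat.succ_ne_zero _)]
    obtain ⟨k₁, hk₁⟩ := nonempty_iff_ne_empty.2 hS
    obtain ⟨j₁, -, -⟩ := hI i₀ (mem_insert_self _ _) k₁ hk₁
    have hrep : ∀ k, ∃ j, k ∈ S → j ∈ J k ∧ q k j = i₀ := by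
      intro k
      by_cases hk : k ∈ S
      · obtain ⟨j, hj, hj'⟩ := hI i₀ (mem_insert_self _ _) k hk
        exact ⟨j, fun _ => ⟨hj, hj'⟩⟩
      · exact ⟨j₁, fun h => (hk h).elim⟩
    choose rep hrep using hrep
    let tog : (Fin K → Bool) → (Fin K → Fin N₁ → Bool) → Fin K → Fin N₁ → Bool :=
      fun R d k j => xor (d k j) (R k && decide (rep k = j))
    have htog : ∀ R d, tog R (tog R d) = d := by
      intro R d
      funext k j
      change xor (xor (d k j) (R k && decide (rep k = j))) (R k && decide (rep k = j)) = d k j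
      cases d k j <;> cases (R k && decide (rep k = j)) <;> rfl
    have hz : ∀ (R : Fin K → Bool) (d : Fin K → Fin N₁ → Bool) (i : Fin N₂) (k : Fin K), k ∈ S →
        par (fun j => tab q k i j && (tog R d k j && decide (j ∈ J k))) =
          xor (par fun j => tab q k i j && (d k j && decide (j ∈ J k)))
            (R k && decide (i₀ = i)) := by
      intro R d i k hk
      obtain ⟨h1, h2⟩ := hrep k hk
      rw [← par_single (fun _ => R k && decide (i₀ = i)) (rep k), ← par_xor]
      congr 1
      funext j
      change (tab q k i j && (xor (d k j) (R k && decide (rep k = j)) && decide (j ∈ J k))) =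
        xor (tab q k i j && (d k j && decide (j ∈ J k)))
          ((R k && decide (i₀ = i)) && decide (rep k = j))
      by_cases h3 : rep k = j
      · subst h3
        simp only [tab, h2, h1, decide_true, Bool.and_true]
        cases decide (i₀ = i) <;> cases d k (rep k) <;> cases R k <;> rfl
      · simp only [h3, decide_false, Bool.and_false, Bool.xor_false]
    have h1 : ∀ R d, ind (∀ i ∈ insert i₀ I, zz (tab q) J S (fun _ => true) (tog R d) i = false) =
        ind (∀ i ∈ I, zz (tab q) J S (fun _ => true) d i = false) *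
          (1 - ind (∀ k ∈ S, R k =
            !(par fun j => tab q k i₀ j && (d k j && decide (j ∈ J k))))) := by
      intro R d
      rw [← ind_not', ← ind_and]
      refine ind_congr ?_
      rw [forall_mem_insert, and_comm]
      refine and_congr ?_ ?_
      · refine forall₂_congr fun i hi => ?_
        have hne : i₀ ≠ i := fun h => hi₀ (h ▸ hi)
        have h2 : (∀ k ∈ S, par (fun j => tab q k i j &&
            (tog R d k j && decide (j ∈ J k))) = true) ↔
            ∀ k ∈ S, par (fun j => tab q k i j && (d k j && decide (j ∈ J k))) = true := by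
          refine forall₂_congr fun k hk => ?_
          rw [hz R d i k hk]
          simp [hne]
        simp only [zz, h2]
      · have h2 : (∀ k ∈ S, par (fun j => tab q k i₀ j &&
            (tog R d k j && decide (j ∈ J k))) = true) ↔
            ∀ k ∈ S, R k = !(par fun j => tab q k i₀ j && (d k j && decide (j ∈ J k))) := by
          refine forall₂_congr fun k hk => ?_
          rw [hz R d i₀ k hk]
          generalize (par fun j => tab q k i₀ j && (d k j && decide (j ∈ J k))) = a
          cases a <;> cases R k <;> simp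
        simp only [zz, h2, Bool.true_and, decide_eq_false_iff_not]
    have h3 : av (fun d => ind (∀ i ∈ insert i₀ I, zz (tab q) J S (fun _ => true) d i = false)) =
        av (fun d => ind (∀ i ∈ I, zz (tab q) J S (fun _ => true) d i = false)) *
          (1 - (1 / 2 : ℝ) ^ S.card) := by
      calc av (fun d => ind (∀ i ∈ insert i₀ I, zz (tab q) J S (fun _ => true) d i = false))
          = av fun _ : Fin K → Bool => av fun d =>
            ind (∀ i ∈ insert i₀ I, zz (tab q) J S (fun _ => true) d i = false) :=
            (av_const _).symm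
        _ = av fun R => av fun d =>
            ind (∀ i ∈ insert i₀ I, zz (tab q) J S (fun _ => true) (tog R d) i = false) :=
            av_congr fun R => (av_inv (tog R) (htog R) fun d =>
              ind (∀ i ∈ insert i₀ I, zz (tab q) J S (fun _ => true) d i = false)).symm
        _ = av fun d => av fun R =>
            ind (∀ i ∈ insert i₀ I, zz (tab q) J S (fun _ => true) (tog R d) i = false) :=
            av_comm _
        _ = av fun d => (1 - (1 / 2 : ℝ) ^ S.card) *
            ind (∀ i ∈ I, zz (tab q) J S (fun _ => true) d i = false) := by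
            refine av_congr fun d => ?_
            rw [av_congr fun R => h1 R d, av_mul, mul_comm]
            congr 1
            have h4 : ∀ R : Fin K → Bool, 1 - ind (∀ k ∈ S, R k =
                !(par fun j => tab q k i₀ j && (d k j && decide (j ∈ J k)))) =
                1 + (-1) * ind (∀ k ∈ S, R k =
                !(par fun j => tab q k i₀ j && (d k j && decide (j ∈ J k)))) := fun R => by ring
            rw [av_congr h4, av_add, av_mul, av_const, av_bits]
            ring
        _ = _ := by rw [av_mul, mul_comm]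
    rw [h3, card_insert_of_notMem hi₀, pow_succ]
    refine mul_le_mul_of_nonneg_right ih1 ?_
    have h5 : (1 / 2 : ℝ) ^ S.card ≤ 1 := pow_le_one₀ (by norm_num) (by norm_num)
    linarith

/-! ## Random partitions -/

/-- a word `k` whose hidden letters miss many blocks -/
private def Bad (J : Fin K → Finset (Fin N₁)) (q : Fin K → Fin N₁ → Fin N₂) : Prop :=
  ∃ k, ∃ R : Finset (Fin N₂), N₂ < 2 * K * R.card ∧ ∀ j ∈ J k, q k j ∉ R

private theorem good (hK : 1 ≤ K) (J : Fin K → Finset (Fin N₁)) (q : Fin K → Fin N₁ → Fin N₂)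
    (ks : Fin K) (hq : ¬ Bad J q) :
    av (fun d => ind (∀ j ∈ J ks, par (fun i =>
      zz (tab q) J (univ.erase ks) (fun _ => true) d i && tab q ks i j) = false)) ≤
      (1 - (1 / 2 : ℝ) ^ (K - 1)) ^ (N₂ / 2) := by
  classical
  let I : Finset (Fin N₂) := univ.filter fun i => ∀ k, ∃ j ∈ J k, q k j = i
  have h1 := blk q J (univ.erase ks) I fun i hi k _ => (mem_filter.1 hi).2 k
  rw [card_erase_of_mem (mem_univ ks), card_univ, Fintype.card_fin] at h1
  have h2 : N₂ / 2 ≤ I.card := by
    let M : Fin K → Finset (Fin N₂) := fun k => univ.filter fun i => ¬ ∃ j ∈ J k, q k j = i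
    have h3 : Iᶜ ⊆ univ.biUnion M := by
      intro i hi
      have h4 : ¬ ∀ k, ∃ j ∈ J k, q k j = i := fun h =>
        mem_compl.1 hi (mem_filter.2 ⟨mem_univ _, h⟩)
      obtain ⟨k, hk⟩ := not_forall.1 h4
      exact mem_biUnion.2 ⟨k, mem_univ _, mem_filter.2 ⟨mem_univ _, hk⟩⟩
    have h4 : ∀ k, 2 * K * (M k).card ≤ N₂ := by
      intro k
      by_contra hc
      exact hq ⟨k, M k, not_le.1 hc, fun j hj h => (mem_filter.1 h).2 ⟨j, hj, rfl⟩⟩
    have h5 : 2 * K * Iᶜ.card ≤ K * N₂ := by
      calc 2 * K * Iᶜ.card ≤ 2 * K * ∑ k, (M k).card :=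
            Nat.mul_le_mul_left _ ((card_le_card h3).trans card_biUnion_le)
        _ = ∑ k, 2 * K * (M k).card := mul_sum _ _ _
        _ ≤ ∑ _k : Fin K, N₂ := sum_le_sum fun k _ => h4 k
        _ = K * N₂ := by rw [sum_const, card_univ, Fintype.card_fin, smul_eq_mul]
    have h6 : 2 * Iᶜ.card ≤ N₂ := by
      have h6 : K * (2 * Iᶜ.card) ≤ K * N₂ := by
        calc K * (2 * Iᶜ.card) = 2 * K * Iᶜ.card := by ring
          _ ≤ K * N₂ := h5
      exact Nat.le_of_mul_le_mul_left h6 hK
    rw [card_compl, Fintype.card_fin] at h6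
    have h7 : I.card ≤ N₂ := by
      have := card_le_univ I
      rwa [Fintype.card_fin] at this
    omega
  have h8 : (0 : ℝ) ≤ 1 - (1 / 2 : ℝ) ^ (K - 1) := by
    have h5 : (1 / 2 : ℝ) ^ (K - 1) ≤ 1 := pow_le_one₀ (by norm_num) (by norm_num)
    linarith
  have h9 : 1 - (1 / 2 : ℝ) ^ (K - 1) ≤ 1 := by
    have h5 : (0 : ℝ) ≤ (1 / 2 : ℝ) ^ (K - 1) := pow_nonneg (by norm_num) _
    linarith
  refine le_trans (av_mono fun d => ind_mono ?_) (h1.trans (pow_le_pow_of_le_one h8 h9 h2))
  intro h i hi
  obtain ⟨j, hj, hji⟩ := (mem_filter.1 hi).2 ks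
  have h10 := h j hj
  rw [← hji]
  rw [← h10]
  exact (par_single (fun i => zz (tab q) J (univ.erase ks) (fun _ => true) d i) (q ks j)).symm

private theorem bad (hK : 1 ≤ K) (X : ℕ) (J : Fin K → Finset (Fin N₁))
    (hJ : ∀ k, X ≤ (J k).card) (hN : N₂ ≠ 0) :
    av (fun q : Fin K → Fin N₁ → Fin N₂ => ind (Bad J q)) ≤
      K * 2 ^ N₂ * (1 - 1 / (2 * K : ℝ)) ^ X := by
  classical
  have hK0 : (0 : ℝ) < K := Nat.cast_pos.2 hK
  have hN0 : (0 : ℝ) < N₂ := Nat.cast_pos.2 (Nat.pos_of_ne_zero hN)
  have : Nonempty (Fin N₂) := ⟨⟨0, Nat.pos_of_ne_zero hN⟩⟩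
  have hp0 : (0 : ℝ) ≤ 1 - 1 / (2 * K : ℝ) := by
    have h1 : 1 / (2 * K : ℝ) ≤ 1 := by
      rw [div_le_one (by positivity)]
      have : (1 : ℝ) ≤ K := by exact_mod_cast hK
      linarith
    linarith
  have hp1 : 1 - 1 / (2 * K : ℝ) ≤ 1 := by
    have h1 : (0 : ℝ) ≤ 1 / (2 * K : ℝ) := by positivity
    linarith
  have h1 : ∀ (k : Fin K) (R : Finset (Fin N₂)),
      av (fun q : Fin K → Fin N₁ → Fin N₂ => ind (N₂ < 2 * K * R.card ∧ ∀ j ∈ J k, q k j ∉ R)) ≤
        (1 - 1 / (2 * K : ℝ)) ^ X := by
    intro k R
    by_cases hR : N₂ < 2 * K * R.card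
    · have h2 : ∀ q : Fin K → Fin N₁ → Fin N₂,
          ind (N₂ < 2 * K * R.card ∧ ∀ j ∈ J k, q k j ∉ R) =
            ∏ l, (fun (l : Fin K) (y : Fin N₁ → Fin N₂) =>
              ind (l = k → ∀ j ∈ J l, y j ∉ R)) l (q l) := by
        intro q
        rw [← ind_forall]
        refine ind_congr ⟨fun h l hl => ?_, fun h => ⟨hR, h k rfl⟩⟩
        subst hl
        exact h.2
      rw [av_congr h2]
      refine (le_of_eq (av_prod_fun fun (l : Fin K) (y : Fin N₁ → Fin N₂) =>
        ind (l = k → ∀ j ∈ J l, y j ∉ R))).trans ?_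
      rw [prod_eq_single k]
      · have h3 : ∀ y : Fin N₁ → Fin N₂, ind (k = k → ∀ j ∈ J k, y j ∉ R) =
            ∏ j, (fun (j : Fin N₁) (z : Fin N₂) => ind (j ∈ J k → z ∉ R)) j (y j) := by
          intro y
          rw [← ind_forall]
          exact ind_congr ⟨fun h => h rfl, fun h _ => h⟩
        rw [av_congr h3]
        refine (le_of_eq (av_prod_fun fun (j : Fin N₁) (z : Fin N₂) =>
          ind (j ∈ J k → z ∉ R))).trans ?_
        have h4 : ∀ j, av (fun z : Fin N₂ => ind (j ∈ J k → z ∉ R)) ≤
            if j ∈ J k then 1 - 1 / (2 * K : ℝ) else 1 := by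
          intro j
          by_cases hj : j ∈ J k
          · rw [if_pos hj]
            have h5 : av (fun z : Fin N₂ => ind (j ∈ J k → z ∉ R)) =
                (N₂ - R.card) / (N₂ : ℝ) := by
              rw [av, Fintype.card_fin]
              congr 1
              have h6 : ∀ z : Fin N₂, ind (j ∈ J k → z ∉ R) = if z ∈ Rᶜ then (1 : ℝ) else 0 := by
                intro z
                by_cases hz : z ∈ R
                · rw [if_neg fun h => mem_compl.1 h hz, ind_not fun h => h hj hz]
                · rw [if_pos (mem_compl.2 hz), ind_of fun _ => hz]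
              rw [sum_congr rfl fun z _ => h6 z, sum_boole, filter_mem_eq_inter, univ_inter,
                card_compl, Fintype.card_fin, Nat.cast_sub (by
                  have := card_le_univ R
                  rwa [Fintype.card_fin] at this)]
            rw [h5, sub_div, div_self hN0.ne']
            have h6 : 1 / (2 * K : ℝ) ≤ R.card / (N₂ : ℝ) := by
              rw [div_le_div_iff₀ (by positivity) hN0]
              have : (N₂ : ℝ) < 2 * K * R.card := by exact_mod_cast hR
              linarith
            linarith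
          · rw [if_neg hj, ← av_const (α := Fin N₂) (1 : ℝ)]
            exact av_mono fun z => ind_le_one _
        calc ∏ j, av (fun z : Fin N₂ => ind (j ∈ J k → z ∉ R))
            ≤ ∏ j, (if j ∈ J k then 1 - 1 / (2 * K : ℝ) else 1) :=
              prod_le_prod (fun j _ => av_nonneg fun z => ind_nonneg _) fun j _ => h4 j
          _ = (1 - 1 / (2 * K : ℝ)) ^ (J k).card := by
              rw [prod_ite, prod_const_one, mul_one, prod_const, filter_mem_eq_inter, univ_inter]
          _ ≤ _ := pow_le_pow_of_le_one hp0 hp1 (hJ k)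
      · intro l _ hl
        rw [← av_const (α := Fin N₁ → Fin N₂) (1 : ℝ)]
        exact av_congr fun y => ind_of fun h => (hl h).elim
      · intro h
        exact (h (mem_univ k)).elim
    · rw [av_congr fun q => ind_not fun h => hR h.1, av_const]
      exact pow_nonneg hp0 _
  have h2 : ∀ q : Fin K → Fin N₁ → Fin N₂, ind (Bad J q) ≤
      ∑ p : Fin K × Finset (Fin N₂), ind (N₂ < 2 * K * p.2.card ∧ ∀ j ∈ J p.1, q p.1 j ∉ p.2) := by
    intro q
    by_cases h : Bad J q
    · obtain ⟨k, R, h3⟩ := h
      rw [ind_of ⟨k, R, h3⟩, ← ind_of h3]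
      exact single_le_sum (f := fun p : Fin K × Finset (Fin N₂) =>
        ind (N₂ < 2 * K * p.2.card ∧ ∀ j ∈ J p.1, q p.1 j ∉ p.2))
        (fun p _ => ind_nonneg _) (mem_univ (k, R))
    · rw [ind_not h]
      exact sum_nonneg fun p _ => ind_nonneg _
  refine (av_mono h2).trans ?_
  rw [av_sum]
  refine (sum_le_sum fun p _ => h1 p.1 p.2).trans (le_of_eq ?_)
  rw [sum_const, card_univ, Fintype.card_prod, Fintype.card_fin, Fintype.card_finset,
    Fintype.card_fin, nsmul_eq_mul]
  push_cast
  ring

end cube

open Classical in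
/-- The players `k` have the words `x k`, of which the letters in `J k` are hidden; the partitions
`q k` are random and visible.  The set `T q` is closed under stars and `val (tab q)` is constant on
it. -/
theorem discq {K N₁ N₂ : ℕ} (hK : 1 ≤ K) (X : ℕ) (J : Fin K → Finset (Fin N₁))
    (hJ : ∀ k, X ≤ (J k).card)
    (T : (Fin K → Fin N₁ → Fin N₂) → (Fin K → Fin N₁ → Bool) → Prop)
    (hT : ∀ (q : Fin K → Fin N₁ → Fin N₂) (u : Fin K → Fin N₁ → Bool)
      (v : Fin K → Fin K → Fin N₁ → Bool), (∀ k l, l ≠ k → v k l = u l) →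
      (∀ k j, j ∉ J k → v k k j = u k j) → (∀ k, T q (v k)) → T q u)
    (b : Bool) (hb : ∀ q x, T q x → val (tab q) x = b) :
    (((univ.filter fun p : (Fin K → Fin N₁ → Fin N₂) × (Fin K → Fin N₁ → Bool) =>
        T p.1 p.2).card : ℝ) /
      Fintype.card ((Fin K → Fin N₁ → Fin N₂) × (Fin K → Fin N₁ → Bool))) ^ 2 ^ (K - 1) ≤
      K * 2 ^ N₂ * (1 - 1 / (2 * K : ℝ)) ^ X + (1 - (1 / 2 : ℝ) ^ (K - 1)) ^ (N₂ / 2) := by
  have hK0 : (0 : ℝ) < K := Nat.cast_pos.2 hK
  have hp0 : (0 : ℝ) ≤ 1 - 1 / (2 * K : ℝ) := by
    have h1 : 1 / (2 * K : ℝ) ≤ 1 := by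
      rw [div_le_one (by positivity)]
      have : (1 : ℝ) ≤ K := by exact_mod_cast hK
      linarith
    linarith
  have hg0 : (0 : ℝ) ≤ (1 - (1 / 2 : ℝ) ^ (K - 1)) ^ (N₂ / 2) := by
    have h5 : (1 / 2 : ℝ) ^ (K - 1) ≤ 1 := pow_le_one₀ (by norm_num) (by norm_num)
    exact pow_nonneg (by linarith) _
  have hR0 : (0 : ℝ) ≤ K * 2 ^ N₂ * (1 - 1 / (2 * K : ℝ)) ^ X :=
    mul_nonneg (by positivity) (pow_nonneg hp0 _)
  have h1 : (((univ.filter fun p : (Fin K → Fin N₁ → Fin N₂) × (Fin K → Fin N₁ → Bool) =>
        T p.1 p.2).card : ℝ) /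
      Fintype.card ((Fin K → Fin N₁ → Fin N₂) × (Fin K → Fin N₁ → Bool))) =
      av fun q => av fun x => ind (T q x) := by
    rw [← av_prod fun p : (Fin K → Fin N₁ → Fin N₂) × (Fin K → Fin N₁ → Bool) =>
      ind (T p.1 p.2), av]
    congr 1
    rw [← sum_boole]
    refine sum_congr rfl fun p _ => ?_
    by_cases h : T p.1 p.2
    · rw [if_pos h, ind_of h]
    · rw [if_neg h, ind_not h]
  rw [h1]
  by_cases hQ : Nonempty (Fin K → Fin N₁ → Fin N₂)
  · let ks : Fin K := ⟨0, hK⟩
    have h2 : ∀ q, (av fun x => ind (T q x)) ^ 2 ^ (K - 1) ≤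
        ind (Bad J q) + (1 - (1 / 2 : ℝ) ^ (K - 1)) ^ (N₂ / 2) := by
      intro q
      have h3 := disc_fix (tab q) J ks (T q) (hT q) b (hb q)
      by_cases h4 : Bad J q
      · rw [ind_of h4]
        refine h3.trans (le_trans ?_ (le_add_of_nonneg_right hg0))
        rw [← av_const (α := Fin K → Fin N₁ → Bool) (1 : ℝ)]
        exact av_mono fun d => ind_le_one _
      · rw [ind_not h4, zero_add]
        exact h3.trans (good hK J q ks h4)
    refine (av_pow (fun q => av_nonneg fun x => ind_nonneg _) _).trans ((av_mono h2).trans ?_)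
    rw [av_add, av_const]
    refine add_le_add ?_ le_rfl
    by_cases hN : N₂ = 0
    · have h5 : ∀ q : Fin K → Fin N₁ → Fin N₂, ind (Bad J q) = 0 := by
        intro q
        refine ind_not ?_
        rintro ⟨k, R, h6, -⟩
        have h7 : R.card ≤ N₂ := by
          have := card_le_univ R
          rwa [Fintype.card_fin] at this
        have h8 : R.card = 0 := by omega
        rw [h8, mul_zero] at h6
        exact Nat.not_lt_zero _ h6
      rw [av_congr h5, av_const]
      exact hR0
    · exact bad hK X J hJ hN
  · have h2 : (av fun q => av fun x => ind (T q x)) = 0 := by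
      have : IsEmpty (Fin K → Fin N₁ → Fin N₂) := not_nonempty_iff.1 hQ
      rw [av, Fintype.card_eq_zero, Nat.cast_zero, div_zero]
    rw [h2, zero_pow (by positivity)]
    exact add_nonneg hR0 hg0

end Pool.Agent.LS
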