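import Mathlib
import Pool.Agent.Lib.MP_0a1b52_lc_LS.DiscQ
import Pool.Agent.Lib.MP_0a1b52_lc_LS.CspQ
import Pool.Agent.Lib.MP_0a1b52_lc_LS.Place
import Pool.Agent.Lib.MP_0a1b52_lc_RK.Defs

/-!
# Reading more than `c log² n` times, module FamQ: the family of graphs
-/

set_option autoImplicit false

namespace Pool.Agent.LS

open Finset Pool.Agent.FP Pool.Agent.RK

/-- the partitions -/
abbrev TabQ (K N₁ N₂ : ℕ) : Type := Fin K → Fin N₁ → Fin N₂

/-- the words -/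
abbrev WdQ (K N₁ : ℕ) : Type := Fin K → Fin N₁ → Bool

private theorem graphsQ (n K N₁ N₂ : ℕ) (hK : 1 ≤ K) (hN : 1 ≤ N₁)
    (hn : 4 * (K * N₁) + 4 * (8 * (K + 1) * (N₁ + N₂ + 1)) + Nat.sqrt n + 1 ≤ n)
    (hM2 : 2 * (K * N₁) + 8 * (K + 1) * (N₁ + N₂ + 1) ≤ Nat.sqrt n)
    (E : Finset (EdgeVar n)) (hE : 8 * (K * N₁) ^ 2 ≤ E.card) :
    ∃ e : Fin K → Fin N₁ → Bool → EdgeVar n, (∀ k j t, e k j t ∈ E) ∧
      (∀ k j t k' j' t', e k j t = e k' j' t' → k = k' ∧ j = j' ∧ t = t') ∧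
      ∃ G : TabQ K N₁ N₂ → Bool → WdQ K N₁ → EdgeVar n → Bool,
        (∀ A β x, Clq (G A β x) ↔ (val (tab A) x != β) = true) ∧
        ∀ A β x x' f, G A β x f ≠ G A β x' f → ∃ k j t, x k j ≠ x' k j ∧ f = e k j t := by
  obtain ⟨e, he1, he2, he3⟩ := place n (K * N₁) (8 * (K + 1) * (N₁ + N₂ + 1))
    (Nat.mul_pos hK hN) hn hM2 E hE
  refine ⟨fun k j t => e (finProdFinEquiv (k, j)) t, fun k j t => he1 _ _, ?_, ?_⟩
  · intro k j t k' j' t' h
    obtain ⟨h1, h2⟩ := he2 _ _ _ _ h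
    have h3 := finProdFinEquiv.injective h1
    exact ⟨congrArg Prod.fst h3, congrArg Prod.snd h3, h2⟩
  · have key : ∀ (A : TabQ K N₁ N₂) (β : Bool), ∃ G : WdQ K N₁ → EdgeVar n → Bool,
        (∀ x, Clq (G x) ↔ (val (tab A) x != β) = true) ∧
        ∀ x x' f, G x f ≠ G x' f → ∃ k j t, x k j ≠ x' k j ∧ f = e (finProdFinEquiv (k, j)) t := by
      intro A β
      obtain ⟨N, hN, C, B, h1, h2, h3⟩ := cspq A β
      obtain ⟨H, h4, h5⟩ := he3 N (fun i => C (finProdFinEquiv.symm i)) B h1 h2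
      refine ⟨fun x => H fun i => x (finProdFinEquiv.symm i).1 (finProdFinEquiv.symm i).2,
        fun x => ?_, fun x x' f h => ?_⟩
      · rw [h4, ← h3]
        constructor
        · rintro ⟨r, h6, h7⟩
          refine ⟨r, fun i c => ?_, h7⟩
          have h8 := h6 (finProdFinEquiv i) c
          rwa [Equiv.symm_apply_apply] at h8
        · rintro ⟨r, h6, h7⟩
          exact ⟨r, fun i c => h6 _ c, h7⟩
      · obtain ⟨i, t, h6, h7⟩ := h5 _ _ f h
        refine ⟨(finProdFinEquiv.symm i).1, (finProdFinEquiv.symm i).2, t, h6, ?_⟩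
        rw [h7]
        congr 1
        exact (Equiv.apply_symm_apply _ _).symm
    choose G hG1 hG2 using key
    exact ⟨G, hG1, hG2⟩

/-- the family of cliques (`ty = true`) or of non-cliques (`ty = false`) -/
theorem famQ (n K N₁ N₂ : ℕ) (hK : 1 ≤ K) (hN : 1 ≤ N₁) (hN2 : 1 ≤ N₂)
    (hn : 4 * (K * N₁) + 4 * (8 * (K + 1) * (N₁ + N₂ + 1)) + Nat.sqrt n + 1 ≤ n)
    (hM2 : 2 * (K * N₁) + 8 * (K + 1) * (N₁ + N₂ + 1) ≤ Nat.sqrt n)
    (E : Finset (EdgeVar n)) (hE : 8 * (K * N₁) ^ 2 ≤ E.card) :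
    ∃ e : Fin K → Fin N₁ → Bool → EdgeVar n, (∀ k j t, e k j t ∈ E) ∧
      (∀ k j t k' j' t', e k j t = e k' j' t' → k = k' ∧ j = j' ∧ t = t') ∧
      ∀ ty : Bool, ∃ Q : TabQ K N₁ N₂ × WdQ K N₁ → EdgeVar n → Bool,
        (∀ i, Clq (Q i) ↔ ty = true) ∧
        ∀ (X : Fin K → Finset (EdgeVar n)) (J : Fin K → Finset (Fin N₁)) (Y : ℕ),
          (∀ k, Y ≤ (J k).card) → (∀ k, ∀ j ∈ J k, ∀ t, e k j t ∈ X k) →
          ∀ T : (EdgeVar n → Bool) → Prop, StarK X T → (∀ x, T x → (Clq x ↔ ty = true)) →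
            ((Nat.card {i // T (Q i)} : ℝ) /
              (2 * Fintype.card (TabQ K N₁ N₂ × WdQ K N₁))) ^ 2 ^ (K - 1) ≤
                K * 2 ^ N₂ * (1 - 1 / (2 * K : ℝ)) ^ Y +
                  (1 - (1 / 2 : ℝ) ^ (K - 1)) ^ (N₂ / 2) := by
  classical
  obtain ⟨e, he1, he2, G, hG1, hG2⟩ := graphsQ n K N₁ N₂ hK hN hn hM2 E hE
  refine ⟨e, he1, he2, fun ty => ⟨fun i => G i.1 (val (tab i.1) i.2 != ty) i.2, ?_, ?_⟩⟩
  · intro i
    rw [hG1]
    cases val (tab i.1) i.2 <;> cases ty <;> simp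
  intro X J Y hJ hJX T hT hTy
  set Z : Type := TabQ K N₁ N₂ × WdQ K N₁
  have key : ∀ β : Bool, (((univ.filter fun p : Z => T (G p.1 β p.2)).card : ℝ) /
      Fintype.card Z) ^ 2 ^ (K - 1) ≤
        K * 2 ^ N₂ * (1 - 1 / (2 * K : ℝ)) ^ Y +
                  (1 - (1 / 2 : ℝ) ^ (K - 1)) ^ (N₂ / 2) := by
    intro β
    refine discq hK Y J hJ (fun A x => T (G A β x)) ?_ (β != ty) ?_
    · intro A u v h1 h2 h3
      refine hT (G A β u) (fun k => G A β (v k)) ?_ h3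
      intro k f hf
      by_contra h4
      obtain ⟨k', j, t, h5, h6⟩ := hG2 A β (v k) u f h4
      by_cases h7 : k' = k
      · subst h7
        by_cases h8 : j ∈ J k'
        · exact hf (h6 ▸ hJX k' j h8 t)
        · exact h5 (h2 k' j h8)
      · exact h5 (congrFun (h1 k k' h7) j)
    · intro A x h1
      have h2 := hTy _ h1
      rw [hG1] at h2
      revert h2
      cases val (tab A) x <;> cases β <;> cases ty <;> simp
  have h1 : Nat.card {i : Z // T (G i.1 (val (tab i.1) i.2 != ty) i.2)} ≤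
      (univ.filter fun p : Z => T (G p.1 false p.2)).card +
        (univ.filter fun p : Z => T (G p.1 true p.2)).card := by
    rw [Nat.card_eq_fintype_card, Fintype.card_subtype]
    refine le_trans (card_le_card ?_) (card_union_le _ _)
    intro i hi
    have h2 := (mem_filter.1 hi).2
    rw [mem_union, mem_filter, mem_filter]
    cases h3 : (val (tab i.1) i.2 != ty)
    · rw [h3] at h2
      exact Or.inl ⟨mem_univ _, h2⟩
    · rw [h3] at h2
      exact Or.inr ⟨mem_univ _, h2⟩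
  have hZ : (0 : ℝ) < Fintype.card Z := by
    have : 0 < Fintype.card Z := Fintype.card_pos_iff.2 ⟨(fun _ _ => ⟨0, hN2⟩, fun _ _ => false)⟩
    exact_mod_cast this
  obtain ⟨β, hβ⟩ : ∃ β : Bool, (Nat.card {i : Z // T (G i.1 (val (tab i.1) i.2 != ty) i.2)} : ℝ) ≤
      2 * (univ.filter fun p : Z => T (G p.1 β p.2)).card := by
    rcases le_total (univ.filter fun p : Z => T (G p.1 false p.2)).card
      (univ.filter fun p : Z => T (G p.1 true p.2)).card with h2 | h2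
    · refine ⟨true, ?_⟩
      have : Nat.card {i : Z // T (G i.1 (val (tab i.1) i.2 != ty) i.2)} ≤
          2 * (univ.filter fun p : Z => T (G p.1 true p.2)).card := by omega
      exact_mod_cast this
    · refine ⟨false, ?_⟩
      have : Nat.card {i : Z // T (G i.1 (val (tab i.1) i.2 != ty) i.2)} ≤
          2 * (univ.filter fun p : Z => T (G p.1 false p.2)).card := by omega
      exact_mod_cast this
  refine le_trans ?_ (key β)
  refine pow_le_pow_left₀ (by positivity) ?_ _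
  rw [div_le_div_iff₀ (by positivity) hZ]
  nlinarith

end Pool.Agent.LS
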