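import Mathlib
import Pool.Agent.Lib.MP_0a1b52_lc_EX.PlaceM

/-!
# Reading more than `r` times, module PlaceV: letters on the edges of a star forest

The edges come in pairs; exactly one edge of each pair is on.
-/

set_option autoImplicit false

namespace Pool.Agent.LS

open Finset Pool.Agent.FP

/-- the bit `i` of the input `x` is given by two edges `e (i, false)`, `e (i, true)` of a star
forest: exactly the edge `e (i, x i)` is on -/
theorem placeV {n M S : ℕ} (u z : Fin M × Bool → Fin n)
    (hu : Function.Injective u) (hz : ∀ i j, z i ≠ u j) (e : Fin M × Bool → EdgeVar n)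
    (he : ∀ i, (e i).1 = (z i, u i) ∨ (e i).1 = (u i, z i))
    (h1 : 5 * M + S ≤ Nat.sqrt n + 1) (h2 : 10 * M + 4 * S + Nat.sqrt n + 1 ≤ n)
    (N : Type) [Fintype N] (C : Fin M → Bool → N → Bool × Bool → Prop)
    (B : N → Bool × Bool → N → Bool × Bool → Prop) (hN : Fintype.card N ≤ S)
    (hB : ∀ c a c' a', B c a c' a' → B c' a' c a) :
    ∃ H : (Fin M → Bool) → EdgeVar n → Bool,
      (∀ x, Clq (H x) ↔ ∃ r : N → Bool × Bool, (∀ i c, C i (x i) c (r c)) ∧
        ∀ c c', c ≠ c' → B c (r c) c' (r c')) ∧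
      ∀ x x' f, H x f ≠ H x' f → ∃ i t, x i ≠ x' i ∧ f = e (i, t) := by
  classical
  obtain ⟨φ⟩ : Nonempty (Fin (2 * M) ≃ Fin M × Bool) := by
    refine ⟨(Fintype.equivFinOfCardEq ?_).symm⟩
    rw [Fintype.card_prod, Fintype.card_fin, Fintype.card_bool, mul_comm]
  have hν : Fintype.card (N ⊕ Fin M) ≤ S + M := by
    rw [Fintype.card_sum, Fintype.card_fin]
    omega
  have hΛ : Fintype.card (Bool × Bool) = 4 := rfl
  let C' : Fin (2 * M) → Bool → N ⊕ Fin M → Bool × Bool → Prop := fun i b c a =>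
    ∀ j, c = Sum.inr j → (φ i).1 = j → (b = true ↔ a.1 = (φ i).2)
  let D' : N ⊕ Fin M → Bool × Bool → N ⊕ Fin M → Bool × Bool → Prop := fun c a c' a' =>
    (∀ c₀ c₁, c = Sum.inl c₀ → c' = Sum.inl c₁ → B c₀ a c₁ a') ∧
    (∀ j c₁, c = Sum.inr j → c' = Sum.inl c₁ → C j a.1 c₁ a') ∧
    (∀ j c₀, c' = Sum.inr j → c = Sum.inl c₀ → C j a'.1 c₀ a)
  have hD' : ∀ c a c' a', D' c a c' a' → D' c' a' c a := by
    rintro c a c' a' ⟨k1, k2, k3⟩
    exact ⟨fun c₀ c₁ k4 k5 => hB _ _ _ _ (k1 c₁ c₀ k5 k4), fun j c₁ k4 k5 => k3 j c₁ k4 k5,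
      fun j c₀ k4 k5 => k2 j c₀ k4 k5⟩
  obtain ⟨H, hH1, hH2⟩ := Pool.Agent.EX.placeM (n := n) (m := 2 * M) (ν := N ⊕ Fin M)
    (Λ := Bool × Bool) (fun i => u (φ i)) (fun i => z (φ i)) (hu.comp φ.injective)
    (fun i j => hz _ _) (fun i => e (φ i)) (fun i => he _) (by omega) (by
      rw [hΛ]
      have := Nat.mul_le_mul_right 4 hν
      omega) C' D' hD'
  refine ⟨fun x => H (univ.filter fun i => x (φ i).1 = (φ i).2), fun x => ?_,
    fun x x' f hf => ?_⟩
  · rw [hH1]
    constructor
    · rintro ⟨R, hR, r, k1, k2⟩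
      have key : ∀ j, (r (Sum.inr j)).1 = x j := by
        intro j
        have k3 := (k1 (φ.symm (j, (r (Sum.inr j)).1)) (Sum.inr j) j rfl (by simp)).2 (by simp)
        have k4 := hR (of_decide_eq_true k3)
        have k5 := (mem_filter.1 k4).2
        simpa using k5.symm
      refine ⟨fun c => r (Sum.inl c), fun j c => ?_, fun c c' hc => ?_⟩
      · have k3 := (k2 (Sum.inr j) (Sum.inl c) (by simp)).2.1 j c rfl rfl
        rwa [key] at k3
      · exact (k2 (Sum.inl c) (Sum.inl c') (fun h => hc (Sum.inl.inj h))).1 c c' rfl rfl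
    · rintro ⟨r, k1, k2⟩
      refine ⟨univ.filter fun i => x (φ i).1 = (φ i).2, subset_rfl,
        Sum.elim r (fun j => (x j, false)), ?_, ?_⟩
      · rintro i c j rfl k3
        rw [decide_eq_true_eq, mem_filter]
        simp [k3]
      · rintro (c | j) (c' | j') hc
        · refine ⟨?_, ?_, ?_⟩
          · rintro c₀ c₁ k3 k4
            obtain rfl := Sum.inl.inj k3
            obtain rfl := Sum.inl.inj k4
            exact k2 _ _ fun h => hc (congrArg _ h)
          · rintro j c₁ k3
            exact absurd k3 (by simp)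
          · rintro j c₁ k3
            exact absurd k3 (by simp)
        · refine ⟨?_, ?_, ?_⟩
          · rintro c₀ c₁ k3 k4
            exact absurd k4 (by simp)
          · rintro j c₁ k3
            exact absurd k3 (by simp)
          · rintro j₁ c₁ k3 k4
            obtain rfl := Sum.inr.inj k3
            obtain rfl := Sum.inl.inj k4
            exact k1 _ _
        · refine ⟨?_, ?_, ?_⟩
          · rintro c₀ c₁ k3
            exact absurd k3 (by simp)
          · rintro j₁ c₁ k3 k4
            obtain rfl := Sum.inr.inj k3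
            obtain rfl := Sum.inl.inj k4
            exact k1 _ _
          · rintro j₁ c₁ k3
            exact absurd k3 (by simp)
        · refine ⟨?_, ?_, ?_⟩
          · rintro c₀ c₁ k3
            exact absurd k3 (by simp)
          · rintro j₁ c₁ k3 k4
            exact absurd k4 (by simp)
          · rintro j₁ c₁ k3 k4
            exact absurd k4 (by simp)
  · obtain ⟨i, k1, k2⟩ := hH2 _ _ _ hf
    refine ⟨(φ i).1, (φ i).2, fun h => k2 ?_, k1⟩
    rw [mem_filter, mem_filter, h]

/-- a set of variables which touches `2 m` vertices contains a star forest with `m` edges -/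
theorem forestV {n m : ℕ} (E : Finset (EdgeVar n)) (W : Finset (Fin n)) (hW : 2 * m ≤ W.card)
    (hE : ∀ v ∈ W, ∃ e ∈ E, e.1.1 = v ∨ e.1.2 = v) :
    ∃ (u z : Fin m → Fin n) (e : Fin m → EdgeVar n), Function.Injective u ∧
      (∀ i j, z i ≠ u j) ∧ (∀ i, (e i).1 = (z i, u i) ∨ (e i).1 = (u i, z i)) ∧ ∀ i, e i ∈ E := by
  classical
  let P : Finset (Finset (EdgeVar n)) := E.powerset.filter fun F =>
    ∀ v ∈ W, ∃ e ∈ F, e.1.1 = v ∨ e.1.2 = v
  obtain ⟨F, hF, hmin⟩ := exists_min_image P card ⟨E, mem_filter.2 ⟨mem_powerset_self E, hE⟩⟩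
  obtain ⟨hFE, hFW⟩ := mem_filter.1 hF
  have hFE := mem_powerset.1 hFE
  -- the private ends
  have hpr : ∀ e ∈ F, ∃ v ∈ W, (e.1.1 = v ∨ e.1.2 = v) ∧
      ∀ f ∈ F, (f.1.1 = v ∨ f.1.2 = v) → f = e := by
    intro e he
    by_contra hcon
    push Not at hcon
    have h1 : F.erase e ∈ P := by
      refine mem_filter.2 ⟨mem_powerset.2 ((erase_subset _ _).trans hFE), fun v hv => ?_⟩
      obtain ⟨f, hf, hfv⟩ := hFW v hv
      by_cases hfe : f = e
      · obtain ⟨f', hf', k1, k2⟩ := hcon v hv (hfe ▸ hfv)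
        exact ⟨f', mem_erase.2 ⟨k2, hf'⟩, k1⟩
      · exact ⟨f, mem_erase.2 ⟨hfe, hf⟩, hfv⟩
    have h2 := hmin _ h1
    rw [card_erase_of_mem he] at h2
    have h3 : 0 < F.card := card_pos.2 ⟨e, he⟩
    omega
  choose pv hpv1 hpv2 hpv3 using hpr
  have hcard : m ≤ F.card := by
    have h1 : W ⊆ F.image (fun e => e.1.1) ∪ F.image fun e => e.1.2 := by
      intro v hv
      obtain ⟨e, he, h⟩ := hFW v hv
      rw [mem_union, mem_image, mem_image]
      rcases h with h | h
      · exact Or.inl ⟨e, he, h⟩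
      · exact Or.inr ⟨e, he, h⟩
    have h2 := (card_le_card h1).trans (card_union_le _ _)
    have h3 : (F.image fun e => e.1.1).card ≤ F.card := card_image_le
    have h4 : (F.image fun e => e.1.2).card ≤ F.card := card_image_le
    omega
  let e : Fin m → EdgeVar n := fun i => (F.equivFin.symm (Fin.castLE hcard i)).1
  have he : ∀ i, e i ∈ F := fun i => (F.equivFin.symm (Fin.castLE hcard i)).2
  have hei : Function.Injective e := by
    intro i j h
    have h1 := F.equivFin.symm.injective (Subtype.ext h)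
    exact Fin.castLE_injective hcard h1
  refine ⟨fun i => pv (e i) (he i),
    fun i => if (e i).1.1 = pv (e i) (he i) then (e i).1.2 else (e i).1.1, e,
    ?_, ?_, ?_, fun i => hFE (he i)⟩
  · intro i j h
    have h1 : pv (e i) (he i) = pv (e j) (he j) := h
    refine hei ?_
    exact hpv3 (e j) (he j) (e i) (he i) (h1 ▸ hpv2 (e i) (he i))
  · intro i j h
    have h1 : (e i).1.1 = pv (e j) (he j) ∨ (e i).1.2 = pv (e j) (he j) := by
      dsimp only at h
      split_ifs at h with h2
      · exact Or.inr h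
      · exact Or.inl h
    have h3 := hei (hpv3 (e j) (he j) (e i) (he i) h1)
    have h4 := ne_of_lt (e i).2
    subst h3
    dsimp only at h
    split_ifs at h with h2
    · exact h4 (h2.trans h.symm)
    · exact h2 h
  · intro i
    dsimp only
    split_ifs with h
    · right
      exact Prod.ext h rfl
    · left
      rcases hpv2 (e i) (he i) with h1 | h1
      · exact absurd h1 h
      · exact Prod.ext rfl h1

end Pool.Agent.LS
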