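import Mathlib
import Pool.Agent.Lib.MP_0a1b52_lc_LS.DiscQ
import Pool.Agent.Lib.MP_0a1b52_lc_LS.CspQ
import Pool.Agent.Lib.MP_0a1b52_lc_LS.PlaceV
import Pool.Agent.Lib.MP_0a1b52_lc_LS.FamQ
import Pool.Agent.Lib.MP_0a1b52_lc_RK.Defs

/-!
# Reading more than `r` times, module FamV: the family of graphs, letters on a star forest
-/

set_option autoImplicit false

namespace Pool.Agent.LS

open Finset Pool.Agent.FP Pool.Agent.RK

private theorem graphsV (n K N₁ N₂ : ℕ)
    (h1 : 5 * (K * N₁) + 8 * (K + 1) * (N₁ + N₂ + 1) ≤ Nat.sqrt n + 1)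
    (h2 : 10 * (K * N₁) + 4 * (8 * (K + 1) * (N₁ + N₂ + 1)) + Nat.sqrt n + 1 ≤ n)
    (u z : Fin (K * N₁) × Bool → Fin n)
    (hu : Function.Injective u) (hz : ∀ i j, z i ≠ u j) (e : Fin (K * N₁) × Bool → EdgeVar n)
    (he : ∀ i, (e i).1 = (z i, u i) ∨ (e i).1 = (u i, z i)) :
      ∃ G : TabQ K N₁ N₂ → Bool → WdQ K N₁ → EdgeVar n → Bool,
        (∀ A β x, Clq (G A β x) ↔ (val (tab A) x != β) = true) ∧
        ∀ A β x x' f, G A β x f ≠ G A β x' f →
          ∃ k j t, x k j ≠ x' k j ∧ f = e (finProdFinEquiv (k, j), t) := by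
  have key : ∀ (A : TabQ K N₁ N₂) (β : Bool), ∃ G : WdQ K N₁ → EdgeVar n → Bool,
      (∀ x, Clq (G x) ↔ (val (tab A) x != β) = true) ∧
      ∀ x x' f, G x f ≠ G x' f →
        ∃ k j t, x k j ≠ x' k j ∧ f = e (finProdFinEquiv (k, j), t) := by
    intro A β
    obtain ⟨N, hN, C, B, h3, h4, h5⟩ := cspq A β
    obtain ⟨H, h6, h7⟩ := placeV u z hu hz e he h1 h2 N (fun i => C (finProdFinEquiv.symm i)) B
      h3 h4
    refine ⟨fun x => H fun i => x (finProdFinEquiv.symm i).1 (finProdFinEquiv.symm i).2,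
      fun x => ?_, fun x x' f h => ?_⟩
    · rw [h6, ← h5]
      constructor
      · rintro ⟨r, h8, h9⟩
        refine ⟨r, fun i c => ?_, h9⟩
        have h10 := h8 (finProdFinEquiv i) c
        rwa [Equiv.symm_apply_apply] at h10
      · rintro ⟨r, h8, h9⟩
        exact ⟨r, fun i c => h8 _ c, h9⟩
    · obtain ⟨i, t, h8, h9⟩ := h7 _ _ f h
      refine ⟨(finProdFinEquiv.symm i).1, (finProdFinEquiv.symm i).2, t, h8, ?_⟩
      rw [h9]
      congr 2
      exact (Equiv.apply_symm_apply _ _).symm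
  choose G hG1 hG2 using key
  exact ⟨G, hG1, hG2⟩

/-- the family of cliques (`ty = true`) or of non-cliques (`ty = false`) -/
theorem famV (n K N₁ N₂ : ℕ) (hK : 1 ≤ K) (hN2 : 1 ≤ N₂)
    (h1 : 5 * (K * N₁) + 8 * (K + 1) * (N₁ + N₂ + 1) ≤ Nat.sqrt n + 1)
    (h2 : 10 * (K * N₁) + 4 * (8 * (K + 1) * (N₁ + N₂ + 1)) + Nat.sqrt n + 1 ≤ n)
    (u z : Fin (K * N₁) × Bool → Fin n)
    (hu : Function.Injective u) (hz : ∀ i j, z i ≠ u j) (e : Fin (K * N₁) × Bool → EdgeVar n)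
    (he : ∀ i, (e i).1 = (z i, u i) ∨ (e i).1 = (u i, z i)) :
      ∀ ty : Bool, ∃ Q : TabQ K N₁ N₂ × WdQ K N₁ → EdgeVar n → Bool,
        (∀ i, Clq (Q i) ↔ ty = true) ∧
        ∀ (X : Fin K → Finset (EdgeVar n)) (J : Fin K → Finset (Fin N₁)) (Y : ℕ),
          (∀ k, Y ≤ (J k).card) → (∀ k, ∀ j ∈ J k, ∀ t, e (finProdFinEquiv (k, j), t) ∈ X k) →
          ∀ T : (EdgeVar n → Bool) → Prop, StarK X T → (∀ x, T x → (Clq x ↔ ty = true)) →
            ((Nat.card {i // T (Q i)} : ℝ) /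
              (2 * Fintype.card (TabQ K N₁ N₂ × WdQ K N₁))) ^ 2 ^ (K - 1) ≤
                K * 2 ^ N₂ * (1 - 1 / (2 * K : ℝ)) ^ Y +
                  (1 - (1 / 2 : ℝ) ^ (K - 1)) ^ (N₂ / 2) := by
  classical
  obtain ⟨G, hG1, hG2⟩ := graphsV n K N₁ N₂ h1 h2 u z hu hz e he
  refine fun ty => ⟨fun i => G i.1 (val (tab i.1) i.2 != ty) i.2, ?_, ?_⟩
  · intro i
    rw [hG1]
    cases val (tab i.1) i.2 <;> cases ty <;> simp
  intro X J Y hJ hJX T hT hTy
  set Z : Type := TabQ K N₁ N₂ × WdQ K N₁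
  have key : ∀ β : Bool, (((univ.filter fun p : Z => T (G p.1 β p.2)).card : ℝ) /
      Fintype.card Z) ^ 2 ^ (K - 1) ≤
        K * 2 ^ N₂ * (1 - 1 / (2 * K : ℝ)) ^ Y +
                  (1 - (1 / 2 : ℝ) ^ (K - 1)) ^ (N₂ / 2) := by
    intro β
    refine discq hK Y J hJ (fun A x => T (G A β x)) ?_ (β != ty) ?_
    · intro A u v h1 h2 h3
      refine hT (G A β u) (fun k => G A β (v k)) ?_ h3
      intro k f hf
      by_contra h4
      obtain ⟨k', j, t, h5, h6⟩ := hG2 A β (v k) u f h4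
      by_cases h7 : k' = k
      · subst h7
        by_cases h8 : j ∈ J k'
        · exact hf (h6 ▸ hJX k' j h8 t)
        · exact h5 (h2 k' j h8)
      · exact h5 (congrFun (h1 k k' h7) j)
    · intro A x h1
      have h2 := hTy _ h1
      rw [hG1] at h2
      revert h2
      cases val (tab A) x <;> cases β <;> cases ty <;> simp
  have h1 : Nat.card {i : Z // T (G i.1 (val (tab i.1) i.2 != ty) i.2)} ≤
      (univ.filter fun p : Z => T (G p.1 false p.2)).card +
        (univ.filter fun p : Z => T (G p.1 true p.2)).card := by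
    rw [Nat.card_eq_fintype_card, Fintype.card_subtype]
    refine le_trans (card_le_card ?_) (card_union_le _ _)
    intro i hi
    have h2 := (mem_filter.1 hi).2
    rw [mem_union, mem_filter, mem_filter]
    cases h3 : (val (tab i.1) i.2 != ty)
    · rw [h3] at h2
      exact Or.inl ⟨mem_univ _, h2⟩
    · rw [h3] at h2
      exact Or.inr ⟨mem_univ _, h2⟩
  have hZ : (0 : ℝ) < Fintype.card Z := by
    have : 0 < Fintype.card Z := Fintype.card_pos_iff.2 ⟨(fun _ _ => ⟨0, hN2⟩, fun _ _ => false)⟩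
    exact_mod_cast this
  obtain ⟨β, hβ⟩ : ∃ β : Bool, (Nat.card {i : Z // T (G i.1 (val (tab i.1) i.2 != ty) i.2)} : ℝ) ≤
      2 * (univ.filter fun p : Z => T (G p.1 β p.2)).card := by
    rcases le_total (univ.filter fun p : Z => T (G p.1 false p.2)).card
      (univ.filter fun p : Z => T (G p.1 true p.2)).card with h2 | h2
    · refine ⟨true, ?_⟩
      have : Nat.card {i : Z // T (G i.1 (val (tab i.1) i.2 != ty) i.2)} ≤
          2 * (univ.filter fun p : Z => T (G p.1 true p.2)).card := by omega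
      exact_mod_cast this
    · refine ⟨false, ?_⟩
      have : Nat.card {i : Z // T (G i.1 (val (tab i.1) i.2 != ty) i.2)} ≤
          2 * (univ.filter fun p : Z => T (G p.1 false p.2)).card := by omega
      exact_mod_cast this
  refine le_trans ?_ (key β)
  refine pow_le_pow_left₀ (by positivity) ?_ _
  rw [div_le_div_iff₀ (by positivity) hZ]
  nlinarith

end Pool.Agent.LS
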