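import Mathlib

/-!
# Reading more than `c log² n` times, module ColK: a colouring of the pieces with `K` colours
-/

set_option autoImplicit false

namespace Pool.Agent.LS

open Finset

/-- the weight of a set of pieces: `r` to the number of its pieces if none has the colour `k` -/
noncomputable def wtK {A : Type} [Fintype A] [DecidableEq A] {K : ℕ} (k : Fin K) (r : ℝ)
    (T : Finset A) (κ : A → Fin K) : ℝ :=
  ∏ a, if a ∈ T then (if κ a = k then 0 else r) else 1

theorem sum_ite_K {K : ℕ} (k : Fin K) (x : ℝ) :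
    ∑ c : Fin K, (if c = k then (0 : ℝ) else x) = ((K : ℝ) - 1) * x := by
  have h1 : ∀ c : Fin K, (if c = k then (0 : ℝ) else x) = x - (if c = k then x else 0) := by
    intro c
    split_ifs
    · ring
    · ring
  rw [sum_congr rfl (fun c _ => h1 c), sum_sub_distrib, sum_const, card_univ, Fintype.card_fin,
    nsmul_eq_mul, sum_ite_eq' univ k (fun _ => x), if_pos (mem_univ k)]
  ring

theorem sum_wtK {A : Type} [Fintype A] [DecidableEq A] {K : ℕ} (k : Fin K) {r : ℝ}
    (hr : ((K : ℝ) - 1) * r = K) (T T' : Finset A) :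
    ∑ κ : A → Fin K, wtK k r T κ * wtK k r T' κ =
      (K : ℝ) ^ Fintype.card A * r ^ (T ∩ T').card := by
  obtain ⟨g, hg⟩ : ∃ g : A → Fin K → ℝ, g = fun a c =>
      (if a ∈ T then (if c = k then 0 else r) else 1) *
        (if a ∈ T' then (if c = k then 0 else r) else 1) := ⟨_, rfl⟩
  have h1 : ∀ κ : A → Fin K, wtK k r T κ * wtK k r T' κ = ∏ a, g a (κ a) := by
    intro κ
    rw [wtK, wtK, ← prod_mul_distrib, hg]
  have h2 : ∏ a, ∑ c, g a c = ∑ κ : A → Fin K, ∏ a, g a (κ a) := by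
    rw [prod_univ_sum, Fintype.piFinset_univ]
  rw [sum_congr rfl (fun κ _ => h1 κ), ← h2]
  have h3 : ∀ a, ∑ c, g a c = (K : ℝ) * (if a ∈ T ∩ T' then r else 1) := by
    intro a
    rw [hg]
    by_cases ha : a ∈ T <;> by_cases ha' : a ∈ T'
    · have h4 : ∀ c : Fin K, (if c = k then (0 : ℝ) else r) * (if c = k then 0 else r) =
          if c = k then 0 else r * r := by
        intro c
        split_ifs
        · ring
        · ring
      simp only [ha, ha', if_true, mem_inter, and_self]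
      rw [sum_congr rfl (fun c _ => h4 c), sum_ite_K, ← mul_assoc, hr]
    · simp only [ha, ha', if_true, if_false, mem_inter, and_false, mul_one]
      rw [sum_ite_K, hr]
    · simp only [ha, ha', if_true, if_false, mem_inter, false_and, mul_one, one_mul]
      rw [sum_ite_K, hr]
    · simp only [ha, ha', if_false, mem_inter, false_and, mul_one, sum_const, card_univ,
        Fintype.card_fin, nsmul_eq_mul]
  rw [prod_congr rfl (fun a _ => h3 a), prod_mul_distrib, prod_const, card_univ,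
    prod_ite_mem, univ_inter, prod_const]

theorem wtK_empty {A : Type} [Fintype A] [DecidableEq A] {K : ℕ} (k : Fin K) (r : ℝ)
    (κ : A → Fin K) : wtK k r ∅ κ = 1 := by
  unfold wtK
  apply prod_eq_one
  intro a _
  simp

theorem sum_wtK_one {A : Type} [Fintype A] [DecidableEq A] {K : ℕ} (k : Fin K) {r : ℝ}
    (hr : ((K : ℝ) - 1) * r = K) (T : Finset A) :
    ∑ κ : A → Fin K, wtK k r T κ = (K : ℝ) ^ Fintype.card A := by
  have h1 := sum_wtK k hr T ∅
  simp only [wtK_empty, mul_one, inter_empty, card_empty, pow_zero] at h1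
  exact h1

theorem wtK_le {A : Type} [Fintype A] [DecidableEq A] {K : ℕ} (k : Fin K) {r : ℝ} (hr1 : 1 ≤ r)
    {D : ℕ} {Θ : ℝ} (hΘ : r ^ D ≤ Θ) (T : Finset A) (hT : T.card ≤ D) (κ : A → Fin K) :
    wtK k r T κ ≤ Θ * (if ∀ a ∈ T, κ a ≠ k then 1 else 0) := by
  by_cases hg : ∀ a ∈ T, κ a ≠ k
  · rw [if_pos hg, mul_one]
    have h1 : wtK k r T κ = r ^ T.card := by
      have h2 : wtK k r T κ = ∏ a, if a ∈ T then r else 1 := by
        unfold wtK
        apply prod_congr rfl
        intro a _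
        by_cases ha : a ∈ T
        · rw [if_pos ha, if_pos ha, if_neg (hg a ha)]
        · rw [if_neg ha, if_neg ha]
      rw [h2, prod_ite_mem, univ_inter, prod_const]
    rw [h1]
    exact (pow_le_pow_right₀ hr1 hT).trans hΘ
  · rw [if_neg hg, mul_zero]
    push Not at hg
    obtain ⟨a, ha, hk⟩ := hg
    apply le_of_eq
    unfold wtK
    apply prod_eq_zero (mem_univ a)
    rw [if_pos ha, if_pos hk]

/-- the second moment -/
theorem varK {A I : Type} [Fintype A] [DecidableEq A] [Fintype I] [DecidableEq I] {K : ℕ}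
    (k : Fin K) {r : ℝ} (hr : ((K : ℝ) - 1) * r = K) (hr1 : 1 ≤ r) (S : I → Finset A)
    {D τ N₁ : ℕ} {Θ : ℝ} (hΘ : r ^ D ≤ Θ) (hS : ∀ i, (S i).card ≤ D)
    (hτ : ∀ a, (univ.filter fun i => a ∈ S i).card ≤ τ) (C : Finset I) (hC : C.card = N₁) :
    ∑ κ : A → Fin K, (∑ i ∈ C, wtK k r (S i) κ - N₁) ^ 2 ≤
      (K : ℝ) ^ Fintype.card A * (N₁ * (D * (τ * Θ))) := by
  obtain ⟨M, hM⟩ : ∃ M : ℝ, M = (K : ℝ) ^ Fintype.card A := ⟨_, rfl⟩
  have hM0 : 0 ≤ M := by rw [hM]; positivity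
  have hΘ0 : 0 ≤ Θ := le_trans (by positivity) hΘ
  have hcard : ∑ κ : A → Fin K, (1 : ℝ) = M := by
    rw [sum_const, card_univ, Fintype.card_fun, Fintype.card_fin, nsmul_eq_mul, mul_one, hM]
    push_cast
    rfl
  have h1 : ∑ κ : A → Fin K, ∑ i ∈ C, wtK k r (S i) κ = M * N₁ := by
    rw [sum_comm, sum_congr rfl (fun i _ => sum_wtK_one k hr (S i)), sum_const, hC, nsmul_eq_mul,
      hM]
    ring
  have h2 : ∑ κ : A → Fin K, (∑ i ∈ C, wtK k r (S i) κ) ^ 2 =
      ∑ i ∈ C, ∑ j ∈ C, M * r ^ (S i ∩ S j).card := by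
    have h3 : ∀ κ : A → Fin K, (∑ i ∈ C, wtK k r (S i) κ) ^ 2 =
        ∑ i ∈ C, ∑ j ∈ C, wtK k r (S i) κ * wtK k r (S j) κ := by
      intro κ
      rw [pow_two, sum_mul_sum]
    rw [sum_congr rfl (fun κ _ => h3 κ), sum_comm]
    apply sum_congr rfl
    intro i _
    rw [sum_comm]
    apply sum_congr rfl
    intro j _
    rw [sum_wtK k hr, hM]
  have h4 : ∑ κ : A → Fin K, (∑ i ∈ C, wtK k r (S i) κ - N₁) ^ 2 =
      (∑ i ∈ C, ∑ j ∈ C, M * r ^ (S i ∩ S j).card) - M * (N₁ * N₁) := by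
    have h5 : ∀ κ : A → Fin K, (∑ i ∈ C, wtK k r (S i) κ - N₁) ^ 2 =
        (∑ i ∈ C, wtK k r (S i) κ) ^ 2 - (2 * N₁) * (∑ i ∈ C, wtK k r (S i) κ) +
          (N₁ * N₁ : ℝ) * 1 := by
      intro κ
      ring
    rw [sum_congr rfl (fun κ _ => h5 κ), sum_add_distrib, sum_sub_distrib, h2, ← mul_sum, h1,
      ← mul_sum, hcard]
    ring
  have h6 : ∀ i ∈ C, ∑ j ∈ C, M * r ^ (S i ∩ S j).card ≤ M * N₁ + M * (D * (τ * Θ)) := by
    intro i _
    have h7 : ∀ j ∈ C, M * r ^ (S i ∩ S j).card ≤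
        M * 1 + M * ∑ a ∈ S i, (if a ∈ S j then Θ else 0) := by
      intro j _
      rw [← mul_add]
      apply mul_le_mul_of_nonneg_left _ hM0
      rcases Finset.eq_empty_or_nonempty (S i ∩ S j) with he | ⟨a, ha⟩
      · rw [he, card_empty, pow_zero]
        have : 0 ≤ ∑ a ∈ S i, (if a ∈ S j then Θ else 0) := by
          apply sum_nonneg
          intro a _
          split_ifs
          · exact hΘ0
          · exact le_refl _
        linarith
      · have h8 : r ^ (S i ∩ S j).card ≤ Θ :=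
          (pow_le_pow_right₀ hr1 ((card_le_card inter_subset_left).trans (hS i))).trans hΘ
        have h9 : Θ ≤ ∑ a ∈ S i, (if a ∈ S j then Θ else 0) := by
          have h10 := single_le_sum (f := fun a => (if a ∈ S j then Θ else 0)) (s := S i)
            (fun a _ => by
              split_ifs
              · exact hΘ0
              · exact le_refl _) (mem_inter.1 ha).1
          rwa [if_pos (mem_inter.1 ha).2] at h10
        linarith
    refine (sum_le_sum h7).trans ?_
    rw [sum_add_distrib, sum_const, hC, nsmul_eq_mul, ← mul_sum, sum_comm]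
    have h11 : ∀ a ∈ S i, ∑ j ∈ C, (if a ∈ S j then Θ else 0) ≤ τ * Θ := by
      intro a _
      rw [← sum_filter, sum_const, nsmul_eq_mul]
      apply mul_le_mul_of_nonneg_right _ hΘ0
      have h12 : (C.filter fun j => a ∈ S j).card ≤ τ :=
        (card_le_card (filter_subset_filter _ (subset_univ C))).trans (hτ a)
      exact_mod_cast h12
    have h13 : ∑ a ∈ S i, ∑ j ∈ C, (if a ∈ S j then Θ else 0) ≤ D * (τ * Θ) := by
      refine (sum_le_sum h11).trans ?_
      rw [sum_const, nsmul_eq_mul]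
      apply mul_le_mul_of_nonneg_right _ (by positivity)
      exact_mod_cast hS i
    have h14 := mul_le_mul_of_nonneg_left h13 hM0
    linarith
  rw [h4]
  have h15 := sum_le_sum h6
  rw [sum_const, hC, nsmul_eq_mul] at h15
  rw [← hM]
  linarith

/-- `i` runs through the units, `cl i` is the class of `i`, `S i` the set of the pieces which read
the unit `i` -/
theorem colourK {A I : Type} [Fintype A] [DecidableEq A] [Fintype I] [DecidableEq I] (K : ℕ)
    (hK : 2 ≤ K) (cl : I → Fin K) (S : I → Finset A) (D τ N₁ Θ : ℕ)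
    (hΘ : K ^ D ≤ Θ * (K - 1) ^ D) (hS : ∀ i, (S i).card ≤ D)
    (hτ : ∀ a, (univ.filter fun i => a ∈ S i).card ≤ τ)
    (hN : ∀ k, (univ.filter fun i => cl i = k).card = N₁) (h : 4 * K * D * τ * Θ < N₁) :
    ∃ κ : A → Fin K, ∀ k, N₁ ≤
      2 * Θ * (univ.filter fun i => cl i = k ∧ ∀ a ∈ S i, κ a ≠ k).card := by
  by_contra hcon
  push Not at hcon
  have hK1 : (0 : ℝ) < (K : ℝ) - 1 := by
    have : (2 : ℝ) ≤ K := by exact_mod_cast hK
    linarith
  obtain ⟨r, hrd⟩ : ∃ r : ℝ, r = K / ((K : ℝ) - 1) := ⟨_, rfl⟩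
  have hr : ((K : ℝ) - 1) * r = K := by
    rw [hrd]
    field_simp
  have hr1 : 1 ≤ r := by
    rw [hrd, le_div_iff₀ hK1]
    linarith
  have hΘr : r ^ D ≤ (Θ : ℝ) := by
    rw [hrd, div_pow, div_le_iff₀ (by positivity)]
    have h1 : ((K ^ D : ℕ) : ℝ) ≤ ((Θ * (K - 1) ^ D : ℕ) : ℝ) := by exact_mod_cast hΘ
    push_cast [Nat.cast_sub (show 1 ≤ K by omega)] at h1
    exact h1
  have hM0 : (0 : ℝ) < (K : ℝ) ^ Fintype.card A := by
    have : (0 : ℝ) < K := by linarith
    positivity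
  have hN0 : (0 : ℝ) < N₁ := by
    have : 0 < N₁ := by omega
    exact_mod_cast this
  -- upper bound
  have hup : ∑ k : Fin K, ∑ κ : A → Fin K,
      (∑ i ∈ univ.filter (fun i => cl i = k), wtK k r (S i) κ - N₁) ^ 2 ≤
      (K : ℝ) * ((K : ℝ) ^ Fintype.card A * (N₁ * (D * (τ * Θ)))) := by
    refine (sum_le_sum (fun k _ => varK k hr hr1 S hΘr hS hτ
      (univ.filter (fun i => cl i = k)) (hN k))).trans ?_
    rw [sum_const, card_univ, Fintype.card_fin, nsmul_eq_mul]
  -- lower bound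
  have hlow : (K : ℝ) ^ Fintype.card A * ((N₁ : ℝ) ^ 2 / 4) ≤ ∑ k : Fin K, ∑ κ : A → Fin K,
      (∑ i ∈ univ.filter (fun i => cl i = k), wtK k r (S i) κ - N₁) ^ 2 := by
    rw [sum_comm]
    have h1 : ∀ κ : A → Fin K, (N₁ : ℝ) ^ 2 / 4 ≤ ∑ k : Fin K,
        (∑ i ∈ univ.filter (fun i => cl i = k), wtK k r (S i) κ - N₁) ^ 2 := by
      intro κ
      obtain ⟨k, hk⟩ := hcon κ
      have h2 := single_le_sum (f := fun k : Fin K =>
        (∑ i ∈ univ.filter (fun i => cl i = k), wtK k r (S i) κ - N₁) ^ 2) (s := univ)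
        (fun k _ => sq_nonneg _) (mem_univ k)
      refine le_trans ?_ h2
      have h3 : ∑ i ∈ univ.filter (fun i => cl i = k), wtK k r (S i) κ ≤
          Θ * ((univ.filter fun i => cl i = k ∧ ∀ a ∈ S i, κ a ≠ k).card : ℝ) := by
        refine (sum_le_sum (fun i _ => wtK_le k hr1 hΘr (S i) (hS i) κ)).trans ?_
        rw [← mul_sum, ← filter_filter, card_filter]
        push_cast
        exact le_refl _
      have h4 : (2 : ℝ) * Θ * ((univ.filter fun i => cl i = k ∧ ∀ a ∈ S i, κ a ≠ k).card : ℝ) <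
          N₁ := by exact_mod_cast hk
      nlinarith
    have h5 := sum_le_sum (s := (univ : Finset (A → Fin K))) (fun κ _ => h1 κ)
    rw [sum_const, card_univ, Fintype.card_fun, Fintype.card_fin, nsmul_eq_mul] at h5
    push_cast at h5
    exact h5
  have h6 := hlow.trans hup
  have h7 : (K : ℝ) ^ Fintype.card A * ((N₁ : ℝ) ^ 2 / 4) ≤
      (K : ℝ) ^ Fintype.card A * ((K : ℝ) * (N₁ * (D * (τ * Θ)))) := by
    refine h6.trans (le_of_eq ?_)
    ring
  have h8 := le_of_mul_le_mul_left h7 hM0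
  have h9 : (N₁ : ℝ) * N₁ ≤ N₁ * (4 * K * D * τ * Θ) := by
    nlinarith
  have h10 := le_of_mul_le_mul_left h9 hN0
  have h11 : ((4 * K * D * τ * Θ : ℕ) : ℝ) < N₁ := by exact_mod_cast h
  push_cast at h11
  linarith

end Pool.Agent.LS
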