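import Mathlib
import Pool.Agent.Lib.MP_0a1b52_lc_RT.Cut

/-!
# Reading more than `c log² n` times, module Dec1: each variable is in few pieces
-/

set_option autoImplicit false

namespace Pool.Agent.LS

open Finset Pool.Agent.FP Pool.Agent.RK Pool.Agent.RT

variable {V : Type} {s : ℕ} [Fintype V] [DecidableEq V]

private theorem mem_one' {p q : Fin s × Option (Fin s)} (h : p ∈ [q]) : p = q :=
  List.mem_singleton.1 h

private theorem av_cons' {K : ℕ} {D : Circuit V s} {p : Fin s × Option (Fin s)}
    {P : List (Fin s × Option (Fin s))} {X : Fin K → Finset V}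
    {κ : Fin s × Option (Fin s) → Fin K} (h : Av D (p :: P) X κ) :
    (∀ v ∈ vars D p, v ∉ X (κ p)) ∧ Av D P X κ :=
  ⟨h p List.mem_cons_self, fun q hq => h q (List.mem_cons_of_mem _ hq)⟩

private theorem str_one {D : Circuit V s} {g : Fin s} {P : List (Fin s × Option (Fin s))}
    (h : Str D g P) {m : ℕ} {e : V} (hm : ∀ L, Tree D g L → L.count e ≤ m) :
    (P.toFinset.filter fun p => e ∈ vars D p).card ≤ m := by
  classical
  obtain ⟨L, hL, h1⟩ := h.count e
  refine le_trans ?_ (h1.trans (hm L hL))
  have h2 : P.toFinset.filter (fun p => e ∈ vars D p) =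
      (P.filter fun p => decide (e ∈ vars D p)).toFinset := by
    ext p
    simp
  rw [h2, List.countP_eq_length_filter]
  exact List.toFinset_card_le _

/-- the decomposition: a circuit reads no variable of `E` more than `m` times in a tree; a rejected
input has a refutation with at most `R` cuts and at most `R` types of pieces; these pieces contain
at most `τ` elements of `E` each, and each element of `E` is in at most `m` of them -/
theorem decompK {D : Circuit V s} {x : V → Bool} (E : Finset V) {m τ R : ℕ} (hτ : 1 ≤ τ)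
    (hm : ∀ e ∈ E, ∀ L, Tree D D.out L → L.count e ≤ m)
    (hR : 4 * (m * E.card) ≤ R * (τ + 1)) (hR1 : 1 ≤ R) (hx : ¬ D.Accepts x) :
    ∃ P : List (Fin s × Option (Fin s)), P.length ≤ R ∧
      (∀ (K : ℕ) (X : Fin K → Finset V) (κ : Fin s × Option (Fin s) → Fin K), Av D P X κ →
        ∃ k, Cuts D x X k D.out R) ∧
      (∀ p ∈ P, (vars D p ∩ E).card ≤ τ) ∧
      ∀ e ∈ E, (P.toFinset.filter fun p => e ∈ vars D p).card ≤ m := by
  obtain ⟨L, hL⟩ := rejects D x hx
  rcases decC E hτ hL with h | ⟨h, L₁, L₂, c, hcard, n, P, P', h2, h3, h4, h5, h6, h7, h8⟩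
  · refine ⟨[(D.out, none)], by simpa using hR1, ?_, fun p hp => mem_one' hp ▸ h,
      fun e he => str_one (Str.tree D.out ⟨L, tree_of_refutes hL⟩) (hm e he)⟩
    intro K X κ hav
    exact ⟨κ (D.out, none), cuts_pad (cuts_of_refutes X _ hL fun v hv =>
      (av_cons' hav).1 v (mem_vars_none.2 ⟨L, tree_of_refutes hL, hv⟩)) R (Nat.zero_le _)⟩
  · have hs : ∀ P : List (Fin s × Option (Fin s)), (∀ p ∈ P, τ < (vars D p ∩ E).card) →
        P.length * (τ + 1) ≤ (P.map fun p => (vars D p ∩ E).card).sum := by
      intro P hP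
      induction P with
      | nil => simp
      | cons p P ih =>
        rw [List.map_cons, List.sum_cons, List.length_cons, add_mul, one_mul, add_comm]
        exact add_le_add (hP p (by simp)) (ih fun q hq => hP q (by simp [hq]))
    have h9 : P'.length * (τ + 1) ≤ m * E.card :=
      (hs P' h5).trans ((Str.skip D.out h P' ⟨_, _, c.ctx⟩ h3).sum E m hm)
    have h10 : 4 * P'.length ≤ R := by
      have : 4 * P'.length * (τ + 1) ≤ R * (τ + 1) := by
        calc 4 * P'.length * (τ + 1) = 4 * (P'.length * (τ + 1)) := by ring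
          _ ≤ 4 * (m * E.card) := Nat.mul_le_mul_left _ h9
          _ ≤ R * (τ + 1) := hR
      exact Nat.le_of_mul_le_mul_right this (Nat.succ_pos τ)
    refine ⟨(D.out, some h) :: P, ?_, ?_, ?_,
      fun e he => str_one (Str.ctx D.out h P ⟨_, _, c.ctx⟩ h2) (hm e he)⟩
    · simp only [List.length_cons]
      omega
    · intro K X κ hav
      have h11 := av_cons' hav
      refine ⟨κ (D.out, some h), cuts_pad (c.cuts X _ (fun v hv => h11.1 v
        (mem_vars_some.2 ⟨_, _, c.ctx, Or.inl hv⟩)) (fun v hv => h11.1 v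
        (mem_vars_some.2 ⟨_, _, c.ctx, Or.inr hv⟩)) (h6 K X κ h11.2 _)) R (by omega)⟩
    · intro p hp
      rcases List.mem_cons.1 hp with rfl | hp
      · exact hcard
      · exact h4 p hp

end Pool.Agent.LS
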