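import Mathlib
import Pool.Agent.Lib.MP_0a1b52_lc_LS.Dec1
import Pool.Agent.Lib.MP_0a1b52_lc_LS.ColK

/-!
# Reading more than `c log² n` times, module CoreK: the union bound for `K` classes
-/

set_option autoImplicit false

namespace Pool.Agent.LS

open Finset Pool.Agent.FP Pool.Agent.RK Pool.Agent.RT

private theorem exists_codeK {α : Type} : ∀ (P : List α) (R : ℕ), P.length ≤ R →
    ∃ f : Fin R → Option α, (List.ofFn f).reduceOption = P
  | [], R, _ => ⟨fun _ => none, by
      rw [List.ofFn_const]
      induction R with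
      | zero => rfl
      | succ R ih => simp⟩
  | a :: P, 0, h => absurd h (by simp)
  | a :: P, R + 1, h => by
      obtain ⟨f, hf⟩ := exists_codeK P R (by simpa using h)
      refine ⟨Fin.cons (some a) f, ?_⟩
      rw [List.ofFn_succ]
      simp only [Fin.cons_zero, Fin.cons_succ]
      rw [List.reduceOption_cons_of_some, hf]

/-- the bit `j` of the word `k` is given by the variables `e k j false`, `e k j true` -/
theorem core_boundK {V : Type} [Fintype V] [DecidableEq V] {s K N₁ : ℕ} (hK : 2 ≤ K)
    (D : Circuit V s) (e : Fin K → Fin N₁ → Bool → V)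
    (he : ∀ k j t k' j' t', e k j t = e k' j' t' → k = k' ∧ j = j' ∧ t = t')
    (m τ R Θ : ℕ) (hτ : 1 ≤ τ)
    (hm : ∀ k j t L, Tree D D.out L → L.count (e k j t) ≤ m)
    (hR : 8 * (m * (K * N₁)) ≤ R * (τ + 1)) (hR1 : 1 ≤ R)
    (hΘ : K ^ (2 * m) ≤ Θ * (K - 1) ^ (2 * m)) (h3 : 4 * K * (2 * m) * τ * Θ < N₁)
    {ι : Type} [Fintype ι] (Q : ι → V → Bool) (b : ℝ) (hb : 0 ≤ b)
    (hE : ∀ (X : Fin K → Finset V) (J : Fin K → Finset (Fin N₁)),
      (∀ k, N₁ ≤ 2 * Θ * (J k).card) → (∀ k, ∀ j ∈ J k, ∀ t, e k j t ∈ X k) →
      ∀ T : (V → Bool) → Prop, StarK X T → (∀ x, T x → ¬ D.Accepts x) →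
        (Nat.card {i // T (Q i)} : ℝ) ≤ b) :
    (Nat.card {i // ¬ D.Accepts (Q i)} : ℝ) ≤
      (((s * (s + 1) + 1) ^ R * (K * s) ^ (R + 1) : ℕ) : ℝ) * b := by
  classical
  set E : Finset V := (univ : Finset (Fin K × Fin N₁ × Bool)).image fun p => e p.1 p.2.1 p.2.2
    with hEdef
  have hmE : ∀ v ∈ E, ∀ L, Tree D D.out L → L.count v ≤ m := by
    intro v hv L hL
    obtain ⟨p, -, rfl⟩ := mem_image.1 hv
    exact hm _ _ _ L hL
  have hmemE : ∀ k j t, e k j t ∈ E := fun k j t => mem_image.2 ⟨(k, j, t), mem_univ _, rfl⟩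
  have hcE : E.card ≤ 2 * (K * N₁) := by
    refine card_image_le.trans (le_of_eq ?_)
    rw [card_univ, Fintype.card_prod, Fintype.card_prod, Fintype.card_fin, Fintype.card_fin,
      Fintype.card_bool]
    ring
  let Pf : (Fin R → Option (Fin s × Option (Fin s))) → List (Fin s × Option (Fin s)) :=
    fun f => (List.ofFn f).reduceOption
  let good : (Fin R → Option (Fin s × Option (Fin s))) → Prop := fun f =>
    (∀ p ∈ Pf f, (vars D p ∩ E).card ≤ τ) ∧
      ∀ v ∈ E, ((Pf f).toFinset.filter fun p => v ∈ vars D p).card ≤ m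
  let A : (Fin R → Option (Fin s × Option (Fin s))) → Finset ι := fun f =>
    univ.filter fun i => good f ∧ ∀ (K : ℕ) (X : Fin K → Finset V)
      (κ : Fin s × Option (Fin s) → Fin K), Av D (Pf f) X κ → ∃ k, Cuts D (Q i) X k D.out R
  have hsub : (univ.filter fun i => ¬ D.Accepts (Q i)) ⊆ univ.biUnion A := by
    intro i hi
    obtain ⟨P, h4, h5, h6, h7⟩ := decompK E hτ hmE
      (by
        calc 4 * (m * E.card) ≤ 4 * (m * (2 * (K * N₁))) := by gcongr
          _ = 8 * (m * (K * N₁)) := by ring
          _ ≤ _ := hR) hR1 (mem_filter.1 hi).2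
    obtain ⟨f, hf⟩ := exists_codeK P R h4
    refine mem_biUnion.2 ⟨f, mem_univ _, mem_filter.2 ⟨mem_univ _, ?_, ?_⟩⟩
    · simp only [good, Pf, hf]
      exact ⟨h6, h7⟩
    · simp only [Pf, hf]
      exact h5
  have hA : ∀ f, ((A f).card : ℝ) ≤ (((K * s) ^ (R + 1) : ℕ) : ℝ) * b := by
    intro f
    by_cases hg : good f
    · let S : Fin K × Fin N₁ → Finset (Fin s × Option (Fin s)) := fun i =>
        (Pf f).toFinset.filter fun p => e i.1 i.2 false ∈ vars D p ∨ e i.1 i.2 true ∈ vars D p
      obtain ⟨κ, hκ⟩ := colourK K hK (fun i : Fin K × Fin N₁ => i.1) S (2 * m) τ N₁ Θ hΘ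
        (by
          intro i
          have h1 := card_union_le ((Pf f).toFinset.filter fun p => e i.1 i.2 false ∈ vars D p)
            ((Pf f).toFinset.filter fun p => e i.1 i.2 true ∈ vars D p)
          rw [← filter_or] at h1
          have h2 := hg.2 _ (hmemE i.1 i.2 false)
          have h4 := hg.2 _ (hmemE i.1 i.2 true)
          refine h1.trans ?_
          omega)
        (by
          intro a
          by_cases ha : a ∈ Pf f
          · refine le_trans ?_ (hg.1 a ha)
            refine card_le_card_of_injOn (fun i => if e i.1 i.2 false ∈ vars D a then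
              e i.1 i.2 false else e i.1 i.2 true) ?_ ?_
            · intro i hi
              have h1 := (mem_filter.1 (mem_filter.1 hi).2).2
              by_cases h2 : e i.1 i.2 false ∈ vars D a
              · simp only [h2, if_true]
                exact mem_coe.2 (mem_inter.2 ⟨h2, hmemE _ _ _⟩)
              · simp only [h2, if_false]
                exact mem_coe.2 (mem_inter.2 ⟨h1.resolve_left h2, hmemE _ _ _⟩)
            · intro i _ i' _ h
              have h4 : ∀ i : Fin K × Fin N₁, ∃ t, (if e i.1 i.2 false ∈ vars D a then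
                  e i.1 i.2 false else e i.1 i.2 true) = e i.1 i.2 t := by
                intro i
                split_ifs
                · exact ⟨_, rfl⟩
                · exact ⟨_, rfl⟩
              obtain ⟨t, ht⟩ := h4 i
              obtain ⟨t', ht'⟩ := h4 i'
              simp only at h
              rw [ht, ht'] at h
              obtain ⟨h5, h6, -⟩ := he _ _ _ _ _ _ h
              exact Prod.ext h5 h6
          · have : (univ.filter fun i => a ∈ S i) = ∅ := by
              rw [filter_eq_empty_iff]
              intro i _ hi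
              exact ha (List.mem_toFinset.1 (mem_filter.1 hi).1)
            rw [this, card_empty]
            exact Nat.zero_le _)
        (by
          intro k
          have h1 : (univ.filter fun i : Fin K × Fin N₁ => i.1 = k) =
              (univ : Finset (Fin N₁)).map ⟨fun j => (k, j), fun j j' h => congrArg Prod.snd h⟩ := by
            ext i
            simp only [mem_filter, mem_univ, true_and, mem_map, Function.Embedding.coeFn_mk]
            constructor
            · intro h
              exact ⟨i.2, Prod.ext h.symm rfl⟩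
            · rintro ⟨j, rfl⟩
              rfl
          rw [h1, card_map, card_univ, Fintype.card_fin]) h3
      let X : Fin K → Finset V := fun k => univ.filter fun v =>
        ∀ p ∈ (Pf f).toFinset, v ∈ vars D p → κ p ≠ k
      let J : Fin K → Finset (Fin N₁) := fun k => univ.filter fun j => ∀ a ∈ S (k, j), κ a ≠ k
      have hJ : ∀ k, N₁ ≤ 2 * Θ * (J k).card := by
        intro k
        refine (hκ k).trans (Nat.mul_le_mul_left _ (le_of_eq ?_))
        have h1 : (univ.filter fun i : Fin K × Fin N₁ => i.1 = k ∧ ∀ a ∈ S i, κ a ≠ k) =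
            (J k).map ⟨fun j => (k, j), fun j j' h => congrArg Prod.snd h⟩ := by
          ext i
          simp only [J, mem_filter, mem_univ, true_and, mem_map, Function.Embedding.coeFn_mk]
          constructor
          · rintro ⟨h, h2⟩
            have h4 : i = (k, i.2) := Prod.ext h rfl
            exact ⟨i.2, by rw [← h4]; exact h2, h4.symm⟩
          · rintro ⟨j, h, rfl⟩
            exact ⟨rfl, h⟩
        rw [h1, card_map]
      have hJX : ∀ k, ∀ j ∈ J k, ∀ t, e k j t ∈ X k := by
        intro k j hj t
        refine mem_filter.2 ⟨mem_univ _, fun p hp hv => ?_⟩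
        refine (mem_filter.1 hj).2 p (mem_filter.2 ⟨hp, ?_⟩)
        cases t
        · exact Or.inl hv
        · exact Or.inr hv
      have hav : Av D (Pf f) X κ := by
        intro p hp v hv hvX
        exact (mem_filter.1 hvX).2 p (List.mem_toFinset.2 hp) hv rfl
      obtain ⟨M, T, hM, hT1, hT2, hT3⟩ := cover (by omega : 0 < K) D X (R + 1)
      have hAT : A f ⊆ univ.biUnion fun θ : Fin M => univ.filter fun i => T θ (Q i) := by
        intro i hi
        obtain ⟨-, -, hcut⟩ := mem_filter.1 hi
        obtain ⟨k, hk⟩ := hcut K X _ hav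
        obtain ⟨θ, hθ⟩ := hT3 (Q i) hk.lemmas
        exact mem_biUnion.2 ⟨θ, mem_univ _, mem_filter.2 ⟨mem_univ _, hθ⟩⟩
      have h9 : ((A f).card : ℝ) ≤ ∑ θ : Fin M, ((univ.filter fun i => T θ (Q i)).card : ℝ) := by
        have := (card_le_card hAT).trans card_biUnion_le
        exact_mod_cast this
      refine h9.trans ?_
      calc ∑ θ : Fin M, ((univ.filter fun i => T θ (Q i)).card : ℝ) ≤ ∑ _θ : Fin M, b := by
            refine sum_le_sum fun θ _ => ?_
            have := hE X J hJ hJX (T θ) (hT1 θ) (hT2 θ)
            rwa [Nat.card_eq_fintype_card, Fintype.card_subtype] at this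
        _ = M * b := by rw [sum_const, card_univ, Fintype.card_fin, nsmul_eq_mul]
        _ = _ := by rw [hM]
    · have : A f = ∅ := by
        rw [filter_eq_empty_iff]
        rintro i - ⟨h, -⟩
        exact hg h
      rw [this, card_empty, Nat.cast_zero]
      positivity
  have hcard : Fintype.card (Fin R → Option (Fin s × Option (Fin s))) = (s * (s + 1) + 1) ^ R := by
    simp
  rw [Nat.card_eq_fintype_card, Fintype.card_subtype]
  have h10 : ((univ.filter fun i => ¬ D.Accepts (Q i)).card : ℝ) ≤
      ∑ f, ((A f).card : ℝ) := by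
    have := (card_le_card hsub).trans card_biUnion_le
    exact_mod_cast this
  refine h10.trans ((sum_le_sum fun f _ => hA f).trans (le_of_eq ?_))
  rw [sum_const, card_univ, hcard, nsmul_eq_mul]
  push_cast
  ring

end Pool.Agent.LS
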