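import Mathlib

/-!
# Reading more than `r` times, module ParS: explicit parameters for many gadgets
-/

set_option autoImplicit false

namespace Pool.Agent.LS

open Finset

theorem thetaS (K r : ℕ) (hK : 2 ≤ K) (hr : r ≤ K ^ 2) :
    K ^ (2 * r) ≤ 8 ^ (2 * K + 1) * (K - 1) ^ (2 * r) := by
  obtain ⟨j, rfl⟩ : ∃ j, K = j + 1 := ⟨K - 1, by omega⟩
  have hj : 1 ≤ j := by omega
  have hj1 : (1 : ℝ) ≤ j := by exact_mod_cast hj
  have hj0 : (0 : ℝ) < j := by linarith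
  have h2 : ((j + 1 : ℕ) : ℝ) ≤ j * Real.exp (1 / j) := by
    have := Real.add_one_le_exp (1 / (j : ℝ))
    calc ((j + 1 : ℕ) : ℝ) = j * (1 / j + 1) := by
          push_cast
          field_simp
          ring
      _ ≤ _ := mul_le_mul_of_nonneg_left this hj0.le
  have h3 : Real.exp (1 / j) ^ (2 * r) ≤ 8 ^ (2 * (j + 1) + 1) := by
    rw [← Real.exp_nat_mul]
    calc Real.exp (((2 * r : ℕ) : ℝ) * (1 / (j : ℝ))) ≤
          Real.exp (((2 * (j + 1) + 1 : ℕ) : ℝ) * (2 * 1)) := by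
          apply Real.exp_le_exp.2
          rw [mul_one_div, div_le_iff₀ hj0]
          have h5 : ((r : ℕ) : ℝ) ≤ (((j + 1) ^ 2 : ℕ) : ℝ) := Nat.cast_le.2 hr
          push_cast at h5 ⊢
          nlinarith
      _ = (Real.exp 1 ^ 2) ^ (2 * (j + 1) + 1) := by
          rw [Real.exp_nat_mul]
          congr 1
          rw [← Real.exp_nat_mul]
          norm_num
      _ ≤ 8 ^ (2 * (j + 1) + 1) := by
          apply pow_le_pow_left₀ (by positivity)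
          have h6 := Real.exp_one_lt_d9
          nlinarith [Real.exp_pos 1]
  have h4 : (((j + 1) ^ (2 * r) : ℕ) : ℝ) ≤
      ((8 ^ (2 * (j + 1) + 1) * (j + 1 - 1) ^ (2 * r) : ℕ) : ℝ) := by
    calc (((j + 1) ^ (2 * r) : ℕ) : ℝ) = ((j + 1 : ℕ) : ℝ) ^ (2 * r) := by push_cast; ring
      _ ≤ (j * Real.exp (1 / j)) ^ (2 * r) := by gcongr
      _ = j ^ (2 * r) * Real.exp (1 / j) ^ (2 * r) := mul_pow _ _ _
      _ ≤ j ^ (2 * r) * 8 ^ (2 * (j + 1) + 1) := by gcongr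
      _ = _ := by
          rw [Nat.add_sub_cancel]
          push_cast
          ring
  exact_mod_cast h4

theorem expS (t w : ℝ) (hw : 0 ≤ w) (htw : w ≤ t) : Real.exp (-t) ≤ (2 : ℝ) ^ (-w) := by
  rw [Real.rpow_def_of_pos (by norm_num)]
  apply Real.exp_le_exp.2
  have h5 : Real.log 2 ≤ 1 := by
    have := Real.log_two_lt_d9
    linarith
  nlinarith

/-- the measure -/
theorem rhoS (K G : ℕ) (hK : 3 ≤ K) (hG : 1 ≤ G) :
    (K : ℝ) * 2 ^ (G * (8 * (2 ^ K) ^ 2)) * (1 - 1 / (4 * K : ℝ)) ^ (2 ^ 7 * K * (2 ^ K) ^ 2 * G) +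
      (1 - (1 / 2 : ℝ) ^ (K - 1)) ^ (4 * (2 ^ K) ^ 2 * G) ≤
      (2 : ℝ) ^ (-(8 * (G : ℝ) * 2 ^ (K - 1))) := by
  have hK1 : (1 : ℝ) ≤ K := by
    have : 1 ≤ K := by omega
    exact_mod_cast this
  have hG1 : (1 : ℝ) ≤ G := by exact_mod_cast hG
  have hKp : (2 : ℝ) ^ K = 2 * 2 ^ (K - 1) := by
    rw [← pow_succ']
    congr 1
    omega
  set w : ℝ := 2 ^ (K - 1) with hw
  have hw1 : 1 ≤ w := one_le_pow₀ (by norm_num)
  have hKL : (K : ℝ) ≤ 2 * w := by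
    rw [← hKp]
    exact_mod_cast Nat.lt_two_pow_self.le
  have h1 : (K : ℝ) * 2 ^ (G * (8 * (2 ^ K) ^ 2)) *
      (1 - 1 / (4 * K : ℝ)) ^ (2 ^ 7 * K * (2 ^ K) ^ 2 * G) ≤ (2 : ℝ) ^ (-(16 * (G * w))) := by
    have h2 : (K : ℝ) ≤ (2 : ℝ) ^ (2 * w) := by
      calc (K : ℝ) ≤ (2 : ℝ) ^ K := by exact_mod_cast Nat.lt_two_pow_self.le
        _ = (2 : ℝ) ^ (K : ℝ) := (Real.rpow_natCast _ _).symm
        _ ≤ (2 : ℝ) ^ (2 * w) := Real.rpow_le_rpow_of_exponent_le (by norm_num) hKL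
    have h3 : (2 : ℝ) ^ (G * (8 * (2 ^ K) ^ 2)) = (2 : ℝ) ^ (32 * (G * w ^ 2)) := by
      rw [← Real.rpow_natCast]
      congr 1
      push_cast
      rw [hKp]
      ring
    have h6 : (0 : ℝ) ≤ 1 - 1 / (4 * K : ℝ) := by
      have : 1 / (4 * K : ℝ) ≤ 1 := by
        rw [div_le_one (by positivity)]
        linarith
      linarith
    have h7 : (1 - 1 / (4 * K : ℝ)) ^ (2 ^ 7 * K * (2 ^ K) ^ 2 * G) ≤
        (2 : ℝ) ^ (-(128 * (G * w ^ 2))) := by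
      calc (1 - 1 / (4 * K : ℝ)) ^ (2 ^ 7 * K * (2 ^ K) ^ 2 * G)
          ≤ Real.exp (-(1 / (4 * K : ℝ))) ^ (2 ^ 7 * K * (2 ^ K) ^ 2 * G) := by
            apply pow_le_pow_left₀ h6
            have := Real.add_one_le_exp (-(1 / (4 * K : ℝ)))
            linarith
        _ = Real.exp (-(128 * (G * w ^ 2))) := by
            rw [← Real.exp_nat_mul]
            congr 1
            push_cast
            rw [hKp]
            field_simp
            ring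
        _ ≤ _ := expS _ _ (by positivity) le_rfl
    calc (K : ℝ) * 2 ^ (G * (8 * (2 ^ K) ^ 2)) *
          (1 - 1 / (4 * K : ℝ)) ^ (2 ^ 7 * K * (2 ^ K) ^ 2 * G)
        ≤ (2 : ℝ) ^ (2 * w) * (2 : ℝ) ^ (32 * (G * w ^ 2)) *
            (2 : ℝ) ^ (-(128 * (G * w ^ 2))) := by
          rw [h3]
          gcongr
      _ = (2 : ℝ) ^ (2 * w + 32 * (G * w ^ 2) + -(128 * (G * w ^ 2))) := by
          rw [Real.rpow_add (by norm_num : (0 : ℝ) < 2) (2 * w + 32 * (G * w ^ 2)),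
            Real.rpow_add (by norm_num : (0 : ℝ) < 2) (2 * w)]
      _ ≤ _ := by
          apply Real.rpow_le_rpow_of_exponent_le (by norm_num)
          have h8 : w ≤ G * w := le_mul_of_one_le_left (by positivity) hG1
          have h9 : (G : ℝ) * w ≤ G * w ^ 2 := by
            have : w ≤ w ^ 2 := by nlinarith
            gcongr
          nlinarith
  have h3 : (1 - (1 / 2 : ℝ) ^ (K - 1)) ^ (4 * (2 ^ K) ^ 2 * G) ≤ (2 : ℝ) ^ (-(16 * (G * w))) := by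
    have h4 : (1 / 2 : ℝ) ^ (K - 1) ≤ 1 := pow_le_one₀ (by norm_num) (by norm_num)
    have h5 : (1 / 2 : ℝ) ^ (K - 1) = 1 / w := by
      rw [hw, one_div_pow]
    calc (1 - (1 / 2 : ℝ) ^ (K - 1)) ^ (4 * (2 ^ K) ^ 2 * G)
        ≤ Real.exp (-(1 / 2 : ℝ) ^ (K - 1)) ^ (4 * (2 ^ K) ^ 2 * G) := by
          apply pow_le_pow_left₀ (by linarith)
          have := Real.add_one_le_exp (-(1 / 2 : ℝ) ^ (K - 1))
          linarith
      _ = Real.exp (-(16 * (G * w))) := by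
          rw [← Real.exp_nat_mul, h5]
          congr 1
          push_cast
          rw [hKp]
          field_simp
          ring
      _ ≤ _ := expS _ _ (by positivity) le_rfl
  calc (K : ℝ) * 2 ^ (G * (8 * (2 ^ K) ^ 2)) *
        (1 - 1 / (4 * K : ℝ)) ^ (2 ^ 7 * K * (2 ^ K) ^ 2 * G) +
        (1 - (1 / 2 : ℝ) ^ (K - 1)) ^ (4 * (2 ^ K) ^ 2 * G)
      ≤ (2 : ℝ) ^ (1 : ℝ) * (2 : ℝ) ^ (-(16 * (G * w))) := by
        rw [Real.rpow_one]
        linarith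
    _ = (2 : ℝ) ^ (1 + -(16 * (G * w))) := by rw [← Real.rpow_add (by norm_num)]
    _ ≤ _ := by
        apply Real.rpow_le_rpow_of_exponent_le (by norm_num)
        have h8 : 1 ≤ G * w := by nlinarith
        nlinarith

/-- the size of the circuits -/
theorem finS (K G R s : ℕ) (y : ℝ) (hs1 : 1 ≤ s) (hs : (s : ℝ) ≤ 2 ^ y)
    (h : (2 + 2 * y) * R + (K + y) * (R + 1) + G + y ≤ 8 * G) :
    (((s * (s + 1) + 1) ^ R * (K * s) ^ (R + 1) : ℕ) : ℝ) * (2 ^ G * (2 : ℝ) ^ (-(8 * (G : ℝ)))) ≤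
      (2 : ℝ) ^ (-y) := by
  have hs0 : (1 : ℝ) ≤ s := by exact_mod_cast hs1
  have q1 : ((s * (s + 1) + 1 : ℕ) : ℝ) ≤ (2 : ℝ) ^ (2 + 2 * y) := by
    have : (s : ℝ) * (s + 1) + 1 ≤ 4 * ((s : ℝ) * s) := by nlinarith
    calc ((s * (s + 1) + 1 : ℕ) : ℝ) = (s : ℝ) * (s + 1) + 1 := by push_cast; ring
      _ ≤ 4 * ((s : ℝ) * s) := this
      _ ≤ 4 * ((2 : ℝ) ^ y * (2 : ℝ) ^ y) := by gcongr
      _ = (2 : ℝ) ^ (2 + 2 * y) := by
          rw [← Real.rpow_add (by norm_num), show (4 : ℝ) = (2 : ℝ) ^ (2 : ℝ) by norm_num,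
            ← Real.rpow_add (by norm_num)]
          congr 1
          ring
  have q2 : ((K * s : ℕ) : ℝ) ≤ (2 : ℝ) ^ (K + y) := by
    calc ((K * s : ℕ) : ℝ) = K * s := by push_cast; ring
      _ ≤ (2 : ℝ) ^ (K : ℝ) * (2 : ℝ) ^ y := by
          apply mul_le_mul _ hs (by positivity) (by positivity)
          rw [Real.rpow_natCast]
          exact_mod_cast Nat.lt_two_pow_self.le
      _ = (2 : ℝ) ^ (K + y) := by
          rw [Real.rpow_add (by norm_num)]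
  calc (((s * (s + 1) + 1) ^ R * (K * s) ^ (R + 1) : ℕ) : ℝ) *
        (2 ^ G * (2 : ℝ) ^ (-(8 * (G : ℝ))))
      = ((s * (s + 1) + 1 : ℕ) : ℝ) ^ R * ((K * s : ℕ) : ℝ) ^ (R + 1) *
          (2 ^ G * (2 : ℝ) ^ (-(8 * (G : ℝ)))) := by push_cast; ring
    _ ≤ ((2 : ℝ) ^ (2 + 2 * y)) ^ R * ((2 : ℝ) ^ (K + y)) ^ (R + 1) *
          (2 ^ G * (2 : ℝ) ^ (-(8 * (G : ℝ)))) := by gcongr
    _ = (2 : ℝ) ^ ((2 + 2 * y) * R + (K + y) * (R + 1) + G + -(8 * (G : ℝ))) := by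
        rw [← Real.rpow_mul_natCast (by norm_num), ← Real.rpow_mul_natCast (by norm_num),
          Real.rpow_add (by norm_num : (0 : ℝ) < 2) ((2 + 2 * y) * R + (K + y) * (R + 1) + G),
          Real.rpow_add (by norm_num : (0 : ℝ) < 2) ((2 + 2 * y) * R + (K + y) * (R + 1)),
          Real.rpow_add (by norm_num : (0 : ℝ) < 2) ((2 + 2 * y) * R), Real.rpow_natCast 2 G]
        push_cast
        ring
    _ ≤ (2 : ℝ) ^ (-y) := by
        apply Real.rpow_le_rpow_of_exponent_le (by norm_num)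
        linarith

/-- the parameters -/
theorem paramsS (r m : ℕ) (hr : 1 ≤ r) (hm : (2 : ℝ) ^ (256 * Real.sqrt r) ≤ m) :
    ∃ K P G B τ R Θ : ℕ, 2 ≤ K ∧ 1 ≤ P ∧ 1 ≤ G ∧ 1 ≤ B ∧ 8 * K ≤ G ∧
      2048 * (K * P) ^ 4 * G ≤ m ∧
      (∀ n ≥ m, 4 * (G * (8 * (K + 1) * (P + B + 1))) + Nat.sqrt n + 1 ≤ n / 4 ∧
        2 * (K * P) + 1 + 8 * (K + 1) * (P + B + 1) ≤ Nat.sqrt n + 1) ∧
      1 ≤ τ ∧ 8 * (r * (K * (P * G))) ≤ R * (τ + 1) ∧ 1 ≤ R ∧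
      K ^ (2 * r) ≤ Θ * (K - 1) ^ (2 * r) ∧ 4 * K * (2 * r) * τ * Θ < P * G ∧ 1 ≤ Θ ∧
      ∃ z : ℝ, K * 2 ^ (G * B) * (1 - 1 / (4 * K : ℝ)) ^ (P * G / (2 * Θ) / (16 * K)) +
          (1 - (1 / 2 : ℝ) ^ (K - 1)) ^ (G * B / 2) ≤ (2 : ℝ) ^ (-(z * 2 ^ (K - 1))) ∧
        ∀ s : ℕ, 1 ≤ s → (s : ℝ) ≤ (2 : ℝ) ^ (m / (2 : ℝ) ^ (256 * Real.sqrt r)) →
          (((s * (s + 1) + 1) ^ R * (K * s) ^ (R + 1) : ℕ) : ℝ) * (2 ^ G * (2 : ℝ) ^ (-z)) ≤
            (2 : ℝ) ^ (-(m / (2 : ℝ) ^ (256 * Real.sqrt r))) := by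
  have hr1 : (1 : ℝ) ≤ r := by exact_mod_cast hr
  have hsr : 1 ≤ Real.sqrt r := Real.one_le_sqrt.2 hr1
  obtain ⟨K, hK⟩ : ∃ K, K = Nat.sqrt r + 2 := ⟨_, rfl⟩
  have hs1 : 1 ≤ Nat.sqrt r := Nat.le_sqrt'.2 (by simpa using hr)
  have hK3 : 3 ≤ K := by omega
  have hrK : r ≤ K ^ 2 := by
    have h1 := Nat.lt_succ_sqrt' r
    have h2 : (Nat.sqrt r).succ ^ 2 ≤ K ^ 2 := Nat.pow_le_pow_left (by omega) 2
    omega
  have hKr : (K : ℝ) ≤ Real.sqrt r + 2 := by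
    rw [hK]
    push_cast
    linarith [Real.nat_sqrt_le_real_sqrt (a := r)]
  obtain ⟨L, hL⟩ : ∃ L : ℕ, L = 2 ^ K := ⟨_, rfl⟩
  have hKL : K + 1 ≤ L := by
    rw [hL]
    exact Nat.lt_two_pow_self
  have hL1 : 1 ≤ L := by omega
  have hKL' : K ≤ L := by omega
  have hLR : (L : ℝ) = 2 ^ K := by
    rw [hL]
    push_cast
    rfl
  -- the number of the variables
  have hexp : (2 : ℝ) ^ 84 * (L : ℝ) ^ 57 ≤ (2 : ℝ) ^ (256 * Real.sqrt r) := by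
    calc (2 : ℝ) ^ 84 * (L : ℝ) ^ 57 = (2 : ℝ) ^ (((84 + K * 57 : ℕ)) : ℝ) := by
          rw [hLR, Real.rpow_natCast, pow_add, pow_mul]
      _ ≤ _ := Real.rpow_le_rpow_of_exponent_le (by norm_num) (by push_cast; linarith)
  have hmN : 2 ^ 84 * L ^ 57 ≤ m := by
    have h0 := hexp.trans hm
    have h1 : ((2 ^ 84 * L ^ 57 : ℕ) : ℝ) ≤ m := by
      norm_num at h0 ⊢
      exact h0
    exact_mod_cast h1
  obtain ⟨G, hG⟩ : ∃ G, G = m / (2 ^ 71 * L ^ 44) := ⟨_, rfl⟩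
  have hden0 : 0 < 2 ^ 71 * L ^ 44 := by positivity
  have hG1 : 2 ^ 71 * L ^ 44 * G ≤ m := by
    rw [hG]
    exact Nat.mul_div_le _ _
  have hG2 : m < 2 ^ 71 * L ^ 44 * (G + 1) := by
    rw [hG]
    exact Nat.lt_mul_div_succ _ hden0
  have hGb : 2 ^ 13 * L ^ 13 ≤ G := by
    rw [hG, Nat.le_div_iff_mul_le hden0]
    calc 2 ^ 13 * L ^ 13 * (2 ^ 71 * L ^ 44) = 2 ^ 84 * L ^ 57 := by ring
      _ ≤ m := hmN
  have hLp : ∀ i j : ℕ, i ≤ j → L ^ i ≤ L ^ j := fun i j h => Nat.pow_le_pow_right hL1 h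
  have hKp : ∀ i : ℕ, K ^ i ≤ L ^ i := fun i => Nat.pow_le_pow_left hKL' i
  have hGL : 8 * L ≤ G := by
    have h1 := hLp 1 13 (by norm_num)
    rw [pow_one] at h1
    omega
  have hG0 : 1 ≤ G := by omega
  obtain ⟨P, hP⟩ : ∃ P, P = 2 ^ 15 * K ^ 2 * L ^ 8 := ⟨_, rfl⟩
  have hP1 : 1 ≤ P := by
    rw [hP]
    exact Nat.succ_le_of_lt (by positivity)
  have hPL : P ≤ 2 ^ 15 * L ^ 10 := by
    calc P = 2 ^ 15 * K ^ 2 * L ^ 8 := hP
      _ ≤ 2 ^ 15 * L ^ 2 * L ^ 8 := by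
          have := hKp 2
          gcongr
      _ = _ := by ring
  have hKP : K * P ≤ 2 ^ 15 * L ^ 11 := by
    calc K * P ≤ L * (2 ^ 15 * L ^ 10) := Nat.mul_le_mul hKL' hPL
      _ = _ := by ring
  have hEc : 2048 * (K * P) ^ 4 * G ≤ m := by
    calc 2048 * (K * P) ^ 4 * G ≤ 2048 * (2 ^ 15 * L ^ 11) ^ 4 * G := by gcongr
      _ = 2 ^ 71 * L ^ 44 * G := by ring
      _ ≤ m := hG1
  obtain ⟨B, hB⟩ : ∃ B, B = 8 * L ^ 2 := ⟨_, rfl⟩
  have hB1 : 1 ≤ B := by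
    rw [hB]
    exact Nat.succ_le_of_lt (by positivity)
  have hS : 8 * (K + 1) * (P + B + 1) ≤ 2 ^ 19 * L ^ 11 := by
    have h1 : P + B + 1 ≤ 2 ^ 16 * L ^ 10 := by
      have h2 := hLp 2 10 (by norm_num)
      have h3 := hLp 0 10 (by norm_num)
      rw [pow_zero] at h3
      omega
    calc 8 * (K + 1) * (P + B + 1) ≤ 8 * L * (2 ^ 16 * L ^ 10) := by gcongr
      _ = _ := by ring
  have hcells : ∀ n ≥ m, 4 * (G * (8 * (K + 1) * (P + B + 1))) + Nat.sqrt n + 1 ≤ n / 4 ∧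
      2 * (K * P) + 1 + 8 * (K + 1) * (P + B + 1) ≤ Nat.sqrt n + 1 := by
    intro n hn
    have hsq : 2 ^ 40 * L ^ 28 ≤ Nat.sqrt n := by
      rw [Nat.le_sqrt']
      calc (2 ^ 40 * L ^ 28) ^ 2 = 2 ^ 80 * L ^ 56 := by ring
        _ ≤ 2 ^ 84 * L ^ 57 := Nat.mul_le_mul (by norm_num) (hLp 56 57 (by norm_num))
        _ ≤ m := hmN
        _ ≤ n := hn
    have hs2 : Nat.sqrt n * Nat.sqrt n ≤ n := Nat.sqrt_le n
    have hL28 := hLp 11 28 (by norm_num)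
    have hL11 : 1 ≤ L ^ 11 := Nat.one_le_pow _ _ (by omega)
    have hs64 : 64 ≤ Nat.sqrt n := by omega
    have h3 : 64 * Nat.sqrt n ≤ n := le_trans (Nat.mul_le_mul_right _ hs64) hs2
    constructor
    · have h4 : 8 * (4 * (G * (8 * (K + 1) * (P + B + 1)))) ≤ n := by
        calc 8 * (4 * (G * (8 * (K + 1) * (P + B + 1)))) ≤ 8 * (4 * (G * (2 ^ 19 * L ^ 11))) := by
              gcongr
          _ = 2 ^ 24 * L ^ 11 * G := by ring
          _ ≤ 2 ^ 71 * L ^ 44 * G := by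
              have := hLp 11 44 (by norm_num)
              gcongr
              · norm_num
              · norm_num
          _ ≤ m := hG1
          _ ≤ n := hn
      omega
    · omega
  obtain ⟨Θ, hΘ⟩ : ∃ Θ, Θ = 8 * L ^ 6 := ⟨_, rfl⟩
  have hΘ1 : 1 ≤ Θ := by
    rw [hΘ]
    exact Nat.succ_le_of_lt (by positivity)
  have hΘ2 : Θ = 8 ^ (2 * K + 1) := by
    rw [hΘ, hL, ← pow_mul, show (8 : ℕ) = 2 ^ 3 by norm_num, ← pow_mul, ← pow_add]
    congr 1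
    ring
  have hrΘ : 8 * K * r * Θ + 1 ≤ P * G := by
    calc 8 * K * r * Θ + 1 ≤ 8 * K * K ^ 2 * (8 * L ^ 6) + 1 := by
          rw [hΘ]
          gcongr
      _ ≤ 128 * (K * K ^ 2 * L ^ 8) := by
          have h1 := hLp 6 8 (by norm_num)
          have h2 : K * K ^ 2 * L ^ 6 ≤ K * K ^ 2 * L ^ 8 := Nat.mul_le_mul_left _ h1
          have h3 : 1 ≤ K * K ^ 2 * L ^ 8 := Nat.succ_le_of_lt (by positivity)
          have h4 : 8 * K * K ^ 2 * (8 * L ^ 6) = 64 * (K * K ^ 2 * L ^ 6) := by ring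
          omega
      _ = K * (128 * (K ^ 2 * L ^ 8)) := by ring
      _ ≤ G * (2 ^ 15 * (K ^ 2 * L ^ 8)) := by
          apply Nat.mul_le_mul (by omega)
          exact Nat.mul_le_mul_right _ (by norm_num)
      _ = P * G := by
          rw [hP]
          ring
  have hden : 0 < 8 * K * r * Θ := by positivity
  obtain ⟨τ, hτ⟩ : ∃ τ, τ = (P * G - 1) / (8 * K * r * Θ) := ⟨_, rfl⟩
  have hτ1 : 1 ≤ τ := by
    rw [hτ]
    exact (Nat.one_le_div_iff hden).2 (by omega)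
  have hτ2 : 8 * K * r * Θ * τ ≤ P * G - 1 := by
    rw [hτ]
    exact Nat.mul_div_le _ _
  have hτ3 : P * G - 1 < 8 * K * r * Θ * (τ + 1) := by
    rw [hτ]
    exact Nat.lt_mul_div_succ _ hden
  obtain ⟨R, hRd⟩ : ∃ R, R = 64 * r ^ 2 * K ^ 2 * Θ := ⟨_, rfl⟩
  have hR : 8 * (r * (K * (P * G))) ≤ R * (τ + 1) := by
    have h1 : P * G ≤ 8 * K * r * Θ * (τ + 1) := by omega
    calc 8 * (r * (K * (P * G))) ≤ 8 * (r * (K * (8 * K * r * Θ * (τ + 1)))) := by gcongr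
      _ = _ := by
          rw [hRd]
          ring
  have hR1 : 1 ≤ R := by
    rw [hRd]
    exact Nat.succ_le_of_lt (by positivity)
  have hRL : R ≤ 512 * L ^ 12 := by
    calc R = 64 * r ^ 2 * K ^ 2 * (8 * L ^ 6) := by rw [hRd, hΘ]
      _ ≤ 64 * (K ^ 2) ^ 2 * K ^ 2 * (8 * L ^ 6) := by gcongr
      _ = 512 * K ^ 6 * L ^ 6 := by ring
      _ ≤ 512 * L ^ 6 * L ^ 6 := by
          have := hKp 6
          gcongr
      _ = _ := by ring
  have hGB2 : G * B / 2 = 4 * (2 ^ K) ^ 2 * G := by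
    rw [hB, ← hL, show G * (8 * L ^ 2) = 2 * (4 * L ^ 2 * G) by ring]
    exact Nat.mul_div_cancel_left _ (by norm_num)
  have hX : P * G / (2 * Θ) / (16 * K) = 2 ^ 7 * K * (2 ^ K) ^ 2 * G := by
    have h1 : P * G = 2 * Θ * (16 * K * (2 ^ 7 * K * (2 ^ K) ^ 2 * G)) := by
      rw [hP, hΘ, ← hL]
      ring
    rw [h1, Nat.mul_div_cancel_left _ (by positivity), Nat.mul_div_cancel_left _ (by positivity)]
  refine ⟨K, P, G, B, τ, R, Θ, by omega, hP1, hG0, hB1, by omega, hEc, hcells, hτ1, hR, hR1,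
    by rw [hΘ2]; exact thetaS K r (by omega) hrK, ?_, hΘ1, 8 * G, ?_, ?_⟩
  · have h1 : 4 * K * (2 * r) * τ * Θ = 8 * K * r * Θ * τ := by ring
    omega
  · rw [hGB2, hX, hB, hL]
    exact rhoS K G hK3 hG0
  · intro s hs1 hs
    set y : ℝ := m / (2 : ℝ) ^ (256 * Real.sqrt r) with hy
    have hy0 : 0 ≤ y := by positivity
    refine finS K G R s y hs1 hs ?_
    have hLr1 : (1 : ℝ) ≤ L := by exact_mod_cast hL1
    have hLr0 : (0 : ℝ) < L := by linarith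
    have hRr : (R : ℝ) ≤ 512 * (L : ℝ) ^ 12 := by exact_mod_cast hRL
    have hR1r : (1 : ℝ) ≤ R := by exact_mod_cast hR1
    have hGr : (2 : ℝ) ^ 13 * (L : ℝ) ^ 13 ≤ G := by exact_mod_cast hGb
    have hL13 : (L : ℝ) ^ 12 ≤ (L : ℝ) ^ 13 := pow_le_pow_right₀ hLr1 (by norm_num)
    have hG0r : (1 : ℝ) ≤ G := by exact_mod_cast hG0
    have hyG : y * (2 ^ 11 * (L : ℝ) ^ 12) ≤ G := by
      have h1 : (m : ℝ) ≤ 2 ^ 71 * (L : ℝ) ^ 44 * (2 * G) := by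
        have h2 : (m : ℝ) < 2 ^ 71 * (L : ℝ) ^ 44 * (G + 1) := by exact_mod_cast hG2
        refine h2.le.trans ?_
        gcongr
        linarith
      have h2 : y ≤ m / (2 ^ 84 * (L : ℝ) ^ 56) := by
        rw [hy]
        have h3 : (2 : ℝ) ^ 84 * (L : ℝ) ^ 56 ≤ (2 : ℝ) ^ 84 * (L : ℝ) ^ 57 :=
          mul_le_mul_of_nonneg_left (pow_le_pow_right₀ hLr1 (by norm_num)) (by positivity)
        exact div_le_div_of_nonneg_left (by positivity) (by positivity) (h3.trans hexp)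
      calc y * (2 ^ 11 * (L : ℝ) ^ 12) ≤ m / (2 ^ 84 * (L : ℝ) ^ 56) * (2 ^ 11 * (L : ℝ) ^ 12) := by
            gcongr
        _ ≤ 2 ^ 71 * (L : ℝ) ^ 44 * (2 * G) / (2 ^ 84 * (L : ℝ) ^ 56) *
            (2 ^ 11 * (L : ℝ) ^ 12) := by gcongr
        _ = G / 2 := by
            field_simp
        _ ≤ G := by linarith
    have hKr2 : (K : ℝ) ≤ L := by exact_mod_cast hKL'
    have h1 : 2 * (y * R) ≤ G / 2 := by
      calc 2 * (y * R) ≤ 2 * (y * (512 * (L : ℝ) ^ 12)) := by gcongr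
        _ = y * (2 ^ 11 * (L : ℝ) ^ 12) / 2 := by ring
        _ ≤ G / 2 := by linarith
    have h2 : 2 * (R : ℝ) ≤ G := by
      have h3 : (0 : ℝ) ≤ (L : ℝ) ^ 12 := by positivity
      linarith
    have h3 : y ≤ G := by
      have h4 : y * 1 ≤ y * (2 ^ 11 * (L : ℝ) ^ 12) := by
        apply mul_le_mul_of_nonneg_left _ hy0
        have : 1 ≤ (L : ℝ) ^ 12 := one_le_pow₀ hLr1
        linarith
      linarith
    have h4 : (K : ℝ) * R ≤ G := by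
      calc (K : ℝ) * R ≤ L * (512 * (L : ℝ) ^ 12) := by gcongr
        _ = 512 * (L : ℝ) ^ 13 := by ring
        _ ≤ G := by
            have : 0 ≤ (L : ℝ) ^ 13 := by positivity
            linarith
    have h5 : (K : ℝ) ≤ G := by
      have h6 : (K : ℝ) * 1 ≤ K * R := mul_le_mul_of_nonneg_left hR1r (by positivity)
      linarith
    have h6 : (2 + 2 * y) * R + (K + y) * (R + 1) + G + y =
        2 * (R : ℝ) + 3 * (y * R) + K * R + K + 2 * y + G := by ring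
    rw [h6]
    linarith

end Pool.Agent.LS
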