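import Mathlib
import Pool.Agent.Lib.MP_0a1b52_lc_LS.ParS

/-!
# Reading more than `r` times, module ParT: explicit parameters for one gadget
-/

set_option autoImplicit false

namespace Pool.Agent.LS

open Finset

/-- the parameters -/
theorem paramsT (r m : ℕ) (hr : 1 ≤ r) (hm : (2 : ℝ) ^ (256 * Real.sqrt r) ≤ m) :
    ∃ K N₁ N₂ τ R Θ : ℕ, 2 ≤ K ∧ 1 ≤ N₁ ∧ 1 ≤ N₂ ∧
      (∀ n ≥ m, 4 * (K * N₁) + 4 * (8 * (K + 1) * (N₁ + N₂ + 1)) + Nat.sqrt n + 1 ≤ n ∧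
        2 * (K * N₁) + 8 * (K + 1) * (N₁ + N₂ + 1) ≤ Nat.sqrt n) ∧
      8 * (K * N₁) ^ 2 ≤ m ∧
      1 ≤ τ ∧ 8 * (r * (K * N₁)) ≤ R * (τ + 1) ∧ 1 ≤ R ∧
      K ^ (2 * r) ≤ Θ * (K - 1) ^ (2 * r) ∧ 4 * K * (2 * r) * τ * Θ < N₁ ∧ 1 ≤ Θ ∧
      ∃ z : ℝ, K * 2 ^ N₂ * (1 - 1 / (2 * K : ℝ)) ^ (N₁ / (2 * Θ)) +
          (1 - (1 / 2 : ℝ) ^ (K - 1)) ^ (N₂ / 2) ≤ (2 : ℝ) ^ (-(z * 2 ^ (K - 1))) ∧
        ∀ s : ℕ, 1 ≤ s → (s : ℝ) ≤ (2 : ℝ) ^ Real.sqrt (m / (2 : ℝ) ^ (256 * Real.sqrt r)) →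
          (((s * (s + 1) + 1) ^ R * (K * s) ^ (R + 1) : ℕ) : ℝ) * (2 * (2 : ℝ) ^ (-z)) ≤
            (2 : ℝ) ^ (-Real.sqrt (m / (2 : ℝ) ^ (256 * Real.sqrt r))) := by
  have hr1 : (1 : ℝ) ≤ r := by exact_mod_cast hr
  have hsr : 1 ≤ Real.sqrt r := Real.one_le_sqrt.2 hr1
  obtain ⟨K, hK⟩ : ∃ K, K = Nat.sqrt r + 2 := ⟨_, rfl⟩
  have hs1 : 1 ≤ Nat.sqrt r := Nat.le_sqrt'.2 (by simpa using hr)
  have hK3 : 3 ≤ K := by omega
  have hrK : r ≤ K ^ 2 := by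
    have h1 := Nat.lt_succ_sqrt' r
    have h2 : (Nat.sqrt r).succ ^ 2 ≤ K ^ 2 := Nat.pow_le_pow_left (by omega) 2
    omega
  have hKr : (K : ℝ) ≤ Real.sqrt r + 2 := by
    rw [hK]
    push_cast
    linarith [Real.nat_sqrt_le_real_sqrt (a := r)]
  obtain ⟨L, hL⟩ : ∃ L : ℕ, L = 2 ^ K := ⟨_, rfl⟩
  have hKL : K + 1 ≤ L := by
    rw [hL]
    exact Nat.lt_two_pow_self
  have hL1 : 1 ≤ L := by omega
  have hKL' : K ≤ L := by omega
  have hLR : (L : ℝ) = 2 ^ K := by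
    rw [hL]
    push_cast
    rfl
  have hLr1 : (1 : ℝ) ≤ L := by exact_mod_cast hL1
  have hLr0 : (0 : ℝ) < L := by linarith
  -- the number of the variables
  have hexp : ((2 : ℝ) ^ 31 * (L : ℝ) ^ 23) ^ 2 ≤ (2 : ℝ) ^ (256 * Real.sqrt r) := by
    calc ((2 : ℝ) ^ 31 * (L : ℝ) ^ 23) ^ 2 = (2 : ℝ) ^ (((62 + K * 46 : ℕ)) : ℝ) := by
          rw [hLR, Real.rpow_natCast, pow_add, pow_mul]
          ring
      _ ≤ _ := Real.rpow_le_rpow_of_exponent_le (by norm_num) (by push_cast; linarith)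
  have hmN : (2 ^ 31 * L ^ 23) ^ 2 ≤ m := by
    have h0 := hexp.trans hm
    have h1 : (((2 ^ 31 * L ^ 23) ^ 2 : ℕ) : ℝ) ≤ m := by
      norm_num at h0 ⊢
      exact h0
    exact_mod_cast h1
  obtain ⟨σ, hσ⟩ : ∃ σ, σ = Nat.sqrt m := ⟨_, rfl⟩
  have hσ1 : 2 ^ 31 * L ^ 23 ≤ σ := by
    rw [hσ, Nat.le_sqrt']
    exact hmN
  have hσ2 : σ * σ ≤ m := by
    rw [hσ]
    exact Nat.sqrt_le m
  obtain ⟨g, hg⟩ : ∃ g, g = σ / (2 ^ 17 * L ^ 10) := ⟨_, rfl⟩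
  have hden0 : 0 < 2 ^ 17 * L ^ 10 := by positivity
  have hg1 : 2 ^ 17 * L ^ 10 * g ≤ σ := by
    rw [hg]
    exact Nat.mul_div_le _ _
  have hg2 : σ < 2 ^ 17 * L ^ 10 * (g + 1) := by
    rw [hg]
    exact Nat.lt_mul_div_succ _ hden0
  have hgb : 2 ^ 13 * L ^ 13 ≤ g := by
    rw [hg, Nat.le_div_iff_mul_le hden0]
    calc 2 ^ 13 * L ^ 13 * (2 ^ 17 * L ^ 10) = 2 ^ 30 * L ^ 23 := by ring
      _ ≤ 2 ^ 31 * L ^ 23 := Nat.mul_le_mul_right _ (by norm_num)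
      _ ≤ σ := hσ1
  have hLp : ∀ i j : ℕ, i ≤ j → L ^ i ≤ L ^ j := fun i j h => Nat.pow_le_pow_right hL1 h
  have hKp : ∀ i : ℕ, K ^ i ≤ L ^ i := fun i => Nat.pow_le_pow_left hKL' i
  have hgL : 8 * L ≤ g := by
    have h1 := hLp 1 13 (by norm_num)
    rw [pow_one] at h1
    omega
  have hg0 : 1 ≤ g := by omega
  obtain ⟨P, hP⟩ : ∃ P, P = 2 ^ 11 * K * L ^ 8 * g := ⟨_, rfl⟩
  have hP1 : 1 ≤ P := by
    rw [hP]
    exact Nat.succ_le_of_lt (by positivity)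
  have hPL : P ≤ 2 ^ 11 * L ^ 9 * g := by
    calc P = 2 ^ 11 * K * L ^ 8 * g := hP
      _ ≤ 2 ^ 11 * L * L ^ 8 * g := by gcongr
      _ = _ := by ring
  have hKP : K * P ≤ 2 ^ 11 * L ^ 10 * g := by
    calc K * P ≤ L * (2 ^ 11 * L ^ 9 * g) := Nat.mul_le_mul hKL' hPL
      _ = _ := by ring
  obtain ⟨B, hB⟩ : ∃ B, B = g * (8 * L ^ 2) := ⟨_, rfl⟩
  have hB1 : 1 ≤ B := by
    rw [hB]
    exact Nat.succ_le_of_lt (by positivity)
  have hS : 8 * (K + 1) * (P + B + 1) ≤ 2 ^ 15 * L ^ 10 * g := by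
    have h1 : P + B + 1 ≤ 2 ^ 12 * L ^ 9 * g := by
      have h2 : B ≤ 8 * (L ^ 9 * g) := by
        calc B = 8 * (L ^ 2 * g) := by rw [hB]; ring
          _ ≤ 8 * (L ^ 9 * g) := by
              have := hLp 2 9 (by norm_num)
              gcongr
      have h3 : 1 ≤ L ^ 9 * g := Nat.succ_le_of_lt (by positivity)
      have h4 : 2 ^ 11 * L ^ 9 * g = 2 ^ 11 * (L ^ 9 * g) := by ring
      have h5 : 2 ^ 12 * L ^ 9 * g = 2 ^ 12 * (L ^ 9 * g) := by ring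
      rw [h4] at hPL
      rw [h5]
      omega
    calc 8 * (K + 1) * (P + B + 1) ≤ 8 * L * (2 ^ 12 * L ^ 9 * g) := by gcongr
      _ = _ := by ring
  have hEc : 8 * (K * P) ^ 2 ≤ m := by
    calc 8 * (K * P) ^ 2 ≤ 8 * (2 ^ 11 * L ^ 10 * g) ^ 2 := by gcongr
      _ = 2 ^ 25 * (L ^ 10 * g) ^ 2 := by ring
      _ ≤ 2 ^ 34 * (L ^ 10 * g) ^ 2 := Nat.mul_le_mul_right _ (by norm_num)
      _ = (2 ^ 17 * L ^ 10 * g) * (2 ^ 17 * L ^ 10 * g) := by ring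
      _ ≤ σ * σ := Nat.mul_le_mul hg1 hg1
      _ ≤ m := hσ2
  have hcells : ∀ n ≥ m, 4 * (K * P) + 4 * (8 * (K + 1) * (P + B + 1)) + Nat.sqrt n + 1 ≤ n ∧
      2 * (K * P) + 8 * (K + 1) * (P + B + 1) ≤ Nat.sqrt n := by
    intro n hn
    have hsn : σ ≤ Nat.sqrt n := by
      rw [hσ]
      exact Nat.sqrt_le_sqrt hn
    have h0 : 2 ^ 17 * L ^ 10 * g = 2 ^ 17 * (L ^ 10 * g) := by ring
    have h1 : 2 ^ 11 * L ^ 10 * g = 2 ^ 11 * (L ^ 10 * g) := by ring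
    have h2 : 2 ^ 15 * L ^ 10 * g = 2 ^ 15 * (L ^ 10 * g) := by ring
    rw [h0] at hg1
    rw [h1] at hKP
    rw [h2] at hS
    have h3 : 1 ≤ L ^ 10 * g := Nat.succ_le_of_lt (by positivity)
    have h4 : 2 * (K * P) + 8 * (K + 1) * (P + B + 1) ≤ Nat.sqrt n := by omega
    refine ⟨?_, h4⟩
    have h5 : 8 ≤ Nat.sqrt n := by omega
    have h6 : 8 * Nat.sqrt n ≤ n := le_trans (Nat.mul_le_mul_right _ h5) (Nat.sqrt_le n)
    omega
  obtain ⟨Θ, hΘ⟩ : ∃ Θ, Θ = 8 * L ^ 6 := ⟨_, rfl⟩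
  have hΘ1 : 1 ≤ Θ := by
    rw [hΘ]
    exact Nat.succ_le_of_lt (by positivity)
  have hΘ2 : Θ = 8 ^ (2 * K + 1) := by
    rw [hΘ, hL, ← pow_mul, show (8 : ℕ) = 2 ^ 3 by norm_num, ← pow_mul, ← pow_add]
    congr 1
    ring
  have hrΘ : 8 * K * r * Θ + 1 ≤ P := by
    calc 8 * K * r * Θ + 1 ≤ 8 * K * K ^ 2 * (8 * L ^ 6) + 1 := by
          rw [hΘ]
          gcongr
      _ ≤ 128 * (K * K ^ 2 * L ^ 6) := by
          have h3 : 1 ≤ K * K ^ 2 * L ^ 6 := Nat.succ_le_of_lt (by positivity)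
          have h4 : 8 * K * K ^ 2 * (8 * L ^ 6) = 64 * (K * K ^ 2 * L ^ 6) := by ring
          omega
      _ ≤ 2 ^ 11 * (K * L ^ 2 * L ^ 6) := by
          have := hKp 2
          gcongr
          norm_num
      _ = 2 ^ 11 * K * L ^ 8 * 1 := by ring
      _ ≤ 2 ^ 11 * K * L ^ 8 * g := Nat.mul_le_mul_left _ hg0
      _ = P := hP.symm
  have hden : 0 < 8 * K * r * Θ := by positivity
  obtain ⟨τ, hτ⟩ : ∃ τ, τ = (P - 1) / (8 * K * r * Θ) := ⟨_, rfl⟩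
  have hτ1 : 1 ≤ τ := by
    rw [hτ]
    exact (Nat.one_le_div_iff hden).2 (by omega)
  have hτ2 : 8 * K * r * Θ * τ ≤ P - 1 := by
    rw [hτ]
    exact Nat.mul_div_le _ _
  have hτ3 : P - 1 < 8 * K * r * Θ * (τ + 1) := by
    rw [hτ]
    exact Nat.lt_mul_div_succ _ hden
  obtain ⟨R, hRd⟩ : ∃ R, R = 64 * r ^ 2 * K ^ 2 * Θ := ⟨_, rfl⟩
  have hR : 8 * (r * (K * P)) ≤ R * (τ + 1) := by
    have h1 : P ≤ 8 * K * r * Θ * (τ + 1) := by omega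
    calc 8 * (r * (K * P)) ≤ 8 * (r * (K * (8 * K * r * Θ * (τ + 1)))) := by gcongr
      _ = _ := by
          rw [hRd]
          ring
  have hR1 : 1 ≤ R := by
    rw [hRd]
    exact Nat.succ_le_of_lt (by positivity)
  have hRL : R ≤ 512 * L ^ 12 := by
    calc R = 64 * r ^ 2 * K ^ 2 * (8 * L ^ 6) := by rw [hRd, hΘ]
      _ ≤ 64 * (K ^ 2) ^ 2 * K ^ 2 * (8 * L ^ 6) := by gcongr
      _ = 512 * K ^ 6 * L ^ 6 := by ring
      _ ≤ 512 * L ^ 6 * L ^ 6 := by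
          have := hKp 6
          gcongr
      _ = _ := by ring
  have hGB2 : B / 2 = 4 * (2 ^ K) ^ 2 * g := by
    rw [hB, ← hL, show g * (8 * L ^ 2) = 2 * (4 * L ^ 2 * g) by ring]
    exact Nat.mul_div_cancel_left _ (by norm_num)
  have hX : P / (2 * Θ) = 2 ^ 7 * K * (2 ^ K) ^ 2 * g := by
    have h1 : P = 2 * Θ * (2 ^ 7 * K * (2 ^ K) ^ 2 * g) := by
      rw [hP, hΘ, ← hL]
      ring
    rw [h1, Nat.mul_div_cancel_left _ (by positivity)]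
  have hK1 : (1 : ℝ) ≤ K := by
    have : 1 ≤ K := by omega
    exact_mod_cast this
  refine ⟨K, P, B, τ, R, Θ, by omega, hP1, hB1, hcells, hEc, hτ1, hR, hR1,
    by rw [hΘ2]; exact thetaS K r (by omega) hrK, ?_, hΘ1, 8 * g, ?_, ?_⟩
  · have h1 : 4 * K * (2 * r) * τ * Θ = 8 * K * r * Θ * τ := by ring
    omega
  · rw [hGB2, hX, hB, hL]
    refine le_trans ?_ (rhoS K g hK3 hg0)
    have h1 : (0 : ℝ) ≤ 1 - 1 / (2 * K : ℝ) := by
      have : 1 / (2 * K : ℝ) ≤ 1 := by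
        rw [div_le_one (by positivity)]
        linarith
      linarith
    have h2 : 1 - 1 / (2 * K : ℝ) ≤ 1 - 1 / (4 * K : ℝ) := by
      have : 1 / (4 * K : ℝ) ≤ 1 / (2 * K : ℝ) :=
        one_div_le_one_div_of_le (by positivity) (by linarith)
      linarith
    gcongr
  · intro s hs1 hs
    set y : ℝ := Real.sqrt (m / (2 : ℝ) ^ (256 * Real.sqrt r)) with hy
    have hy0 : 0 ≤ y := Real.sqrt_nonneg _
    have hRr : (R : ℝ) ≤ 512 * (L : ℝ) ^ 12 := by exact_mod_cast hRL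
    have hR1r : (1 : ℝ) ≤ R := by exact_mod_cast hR1
    have hGr : (2 : ℝ) ^ 13 * (L : ℝ) ^ 13 ≤ g := by exact_mod_cast hgb
    have hL13 : (L : ℝ) ^ 12 ≤ (L : ℝ) ^ 13 := pow_le_pow_right₀ hLr1 (by norm_num)
    have hG0r : (1 : ℝ) ≤ g := by exact_mod_cast hg0
    have hyG : y * (2 ^ 11 * (L : ℝ) ^ 12) ≤ g := by
      have h1 : (σ : ℝ) ≤ 2 ^ 17 * (L : ℝ) ^ 10 * (2 * g) := by
        have h2 : (σ : ℝ) < 2 ^ 17 * (L : ℝ) ^ 10 * (g + 1) := by exact_mod_cast hg2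
        refine h2.le.trans ?_
        gcongr
        linarith
      have h3 : Real.sqrt m ≤ 2 * σ := by
        have h4 : Real.sqrt m < (Nat.sqrt m : ℝ) + 1 := by
          have := Real.real_sqrt_lt_nat_sqrt_succ (a := m)
          exact_mod_cast this
        rw [← hσ] at h4
        have h5 : (1 : ℝ) ≤ σ := by
          have h6 : 1 ≤ σ := le_trans (Nat.succ_le_of_lt (by positivity)) hσ1
          exact_mod_cast h6
        linarith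
      have h5 : y ≤ Real.sqrt m / (2 ^ 31 * (L : ℝ) ^ 22) := by
        rw [hy, Real.sqrt_div (by positivity)]
        apply div_le_div_of_nonneg_left (Real.sqrt_nonneg _) (by positivity)
        apply Real.le_sqrt_of_sq_le
        refine le_trans ?_ hexp
        have h6 : (L : ℝ) ^ 22 ≤ (L : ℝ) ^ 23 := pow_le_pow_right₀ hLr1 (by norm_num)
        gcongr
      calc y * (2 ^ 11 * (L : ℝ) ^ 12)
          ≤ Real.sqrt m / (2 ^ 31 * (L : ℝ) ^ 22) * (2 ^ 11 * (L : ℝ) ^ 12) := by gcongr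
        _ ≤ 2 * (2 ^ 17 * (L : ℝ) ^ 10 * (2 * g)) / (2 ^ 31 * (L : ℝ) ^ 22) *
            (2 ^ 11 * (L : ℝ) ^ 12) := by
            have h7 : Real.sqrt m ≤ 2 * (2 ^ 17 * (L : ℝ) ^ 10 * (2 * g)) := by linarith
            gcongr
        _ = g / 2 := by
            field_simp
        _ ≤ g := by linarith
    have hKr2 : (K : ℝ) ≤ L := by exact_mod_cast hKL'
    have h1 : 2 * (y * R) ≤ g / 2 := by
      calc 2 * (y * R) ≤ 2 * (y * (512 * (L : ℝ) ^ 12)) := by gcongr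
        _ = y * (2 ^ 11 * (L : ℝ) ^ 12) / 2 := by ring
        _ ≤ g / 2 := by linarith
    have h2 : 2 * (R : ℝ) ≤ g := by
      have h3 : (0 : ℝ) ≤ (L : ℝ) ^ 12 := by positivity
      linarith
    have h3 : y ≤ g := by
      have h4 : y * 1 ≤ y * (2 ^ 11 * (L : ℝ) ^ 12) := by
        apply mul_le_mul_of_nonneg_left _ hy0
        have : 1 ≤ (L : ℝ) ^ 12 := one_le_pow₀ hLr1
        linarith
      linarith
    have h4 : (K : ℝ) * R ≤ g := by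
      calc (K : ℝ) * R ≤ L * (512 * (L : ℝ) ^ 12) := by gcongr
        _ = 512 * (L : ℝ) ^ 13 := by ring
        _ ≤ g := by
            have : 0 ≤ (L : ℝ) ^ 13 := by positivity
            linarith
    have h5 : (K : ℝ) ≤ g := by
      have h6 : (K : ℝ) * 1 ≤ K * R := mul_le_mul_of_nonneg_left hR1r (by positivity)
      linarith
    refine le_trans ?_ (finS K g R s y hs1 hs ?_)
    · have h6 : (2 : ℝ) ≤ 2 ^ g := by
        calc (2 : ℝ) = 2 ^ 1 := by norm_num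
          _ ≤ 2 ^ g := pow_le_pow_right₀ (by norm_num) hg0
      gcongr
    · have h6 : (2 + 2 * y) * R + (K + y) * (R + 1) + g + y =
          2 * (R : ℝ) + 3 * (y * R) + K * R + K + 2 * y + g := by ring
      rw [h6]
      linarith

end Pool.Agent.LS
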