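import Mathlib
import Pool.Agent.Lib.MP_0a1b52_lc_LS.MainKT
import Pool.Agent.Lib.MP_0a1b52_lc_LS.FamV
import Pool.Agent.Lib.MP_0a1b52_lc_RT.DefsL
import Pool.Agent.Lib.MP_0a1b52_lc_RT.Dual

/-!
# Reading more than `r` times, module MainV: both answers, sets of edges which touch many vertices

The circuits have, besides the variables, `t` further inputs; the further input `w` has on the input
`x` the value `g w x`, where `g w` is any function of the variables outside `E`.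
-/

set_option autoImplicit false

namespace Pool.Agent.LS

open Finset Pool.Agent.FP Pool.Agent.RK Pool.Agent.RT

private theorem lawfulSum (α β : Type) [BEq α] [LawfulBEq α] [BEq β] [LawfulBEq β] :
    LawfulBEq (α ⊕ β) where
  eq_of_beq := by
    rintro (a | b) (a' | b') h
    · exact congrArg Sum.inl (eq_of_beq h)
    · exact absurd h Bool.false_ne_true
    · exact absurd h Bool.false_ne_true
    · exact congrArg Sum.inr (eq_of_beq h)
  rfl := by
    rintro (a | b)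
    · exact (beq_self_eq_true a : (a == a) = true)
    · exact (beq_self_eq_true b : (b == b) = true)

/-- passing from sets of long inputs to sets of inputs -/
private theorem freeK {n t K M : ℕ} (E : Finset (EdgeVar n)) (e : Fin K → Fin M → Bool → EdgeVar n)
    (he : ∀ k j b, e k j b ∈ E) (g : Fin t → (EdgeVar n → Bool) → Bool)
    (hg : ∀ w x y, (∀ f, f ∉ E → x f = y f) → g w x = g w y)
    (X : Fin K → Finset (EdgeVar n ⊕ Fin t)) (J : Fin K → Finset (Fin M))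
    (hJX : ∀ k, ∀ j ∈ J k, ∀ b, Sum.inl (e k j b) ∈ X k) (T : (EdgeVar n ⊕ Fin t → Bool) → Prop)
    (hT : StarK X T) :
    ∃ X' : Fin K → Finset (EdgeVar n), (∀ k, ∀ j ∈ J k, ∀ b, e k j b ∈ X' k) ∧
      StarK X' fun x => T (Sum.elim x fun w => g w x) := by
  classical
  refine ⟨fun k => (J k ×ˢ univ).image fun p => e k p.1 p.2, fun k j hj b =>
    mem_image.2 ⟨(j, b), mem_product.2 ⟨hj, mem_univ _⟩, rfl⟩, ?_⟩
  intro u v h1 h2
  refine hT _ (fun k => Sum.elim (v k) fun w => g w (v k)) ?_ h2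
  rintro k (f | w) hf
  · refine h1 k f fun h3 => ?_
    obtain ⟨⟨j, b⟩, h4, rfl⟩ := mem_image.1 h3
    exact hf (hJX k j (mem_product.1 h4).1 b)
  · refine hg w _ _ fun f hf => h1 k f fun h3 => ?_
    obtain ⟨⟨j, b⟩, h4, rfl⟩ := mem_image.1 h3
    exact hf (he k j b)

private theorem sqrtV (m r : ℕ) :
    Real.sqrt (((m ^ 2 : ℕ) : ℝ) / (2 : ℝ) ^ (256 * Real.sqrt r)) =
      m / (2 : ℝ) ^ (128 * Real.sqrt r) := by
  have h1 : ((m ^ 2 : ℕ) : ℝ) / (2 : ℝ) ^ (256 * Real.sqrt r) =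
      (m / (2 : ℝ) ^ (128 * Real.sqrt r)) ^ 2 := by
    have h2 : (2 : ℝ) ^ (256 * Real.sqrt r) = ((2 : ℝ) ^ (128 * Real.sqrt r)) ^ 2 := by
      rw [← Real.rpow_mul_natCast (by norm_num)]
      congr 1
      push_cast
      ring
    rw [h2, div_pow]
    push_cast
    ring
  rw [h1, Real.sqrt_sq (by positivity)]

private theorem arithV (m n a b : ℕ) (hn : 9 * m ^ 2 ≤ n)
    (hM1 : 4 * a + 4 * b + m + 1 ≤ m ^ 2) (hM2 : 2 * a + b ≤ m) :
    2 * a ≤ m ∧ 5 * a + b ≤ Nat.sqrt n + 1 ∧ 10 * a + 4 * b + Nat.sqrt n + 1 ≤ n := by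
  have h3 : m ≤ m ^ 2 := Nat.le_self_pow (by norm_num) m
  have hm1 : 1 ≤ m := by
    rcases Nat.eq_zero_or_pos m with h | h
    · subst h
      simp at hM1
    · exact h
  have hs3 : 3 * m ≤ Nat.sqrt n := by
    rw [Nat.le_sqrt]
    calc 3 * m * (3 * m) = 9 * m ^ 2 := by ring
      _ ≤ n := hn
  have hs4 : 3 * Nat.sqrt n ≤ n :=
    (Nat.mul_le_mul_right _ (by omega)).trans (Nat.sqrt_le n)
  refine ⟨by omega, by omega, ?_⟩
  generalize Nat.sqrt n = q at *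
  generalize m ^ 2 = c at *
  omega

open Classical in
/-- both answers, star forests -/
theorem mainVF (r m n : ℕ) (hr : 1 ≤ r) (hm : (2 : ℝ) ^ (128 * Real.sqrt r) ≤ m)
    (hn : 9 * m ^ 2 ≤ n) (z u : Fin m → Fin n) (hu : Function.Injective u)
    (hz : ∀ i j, z i ≠ u j) (e : Fin m → EdgeVar n)
    (he : ∀ i, (e i).1 = (z i, u i) ∨ (e i).1 = (u i, z i)) (E : Finset (EdgeVar n))
    (hE : ∀ i, e i ∈ E) (ty : Bool) :
      ∃ (N : ℕ) (Q : Fin N → EdgeVar n → Bool), 0 < N ∧ (∀ i, Clq (Q i) ↔ ty = true) ∧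
        ∀ (t : ℕ) (g : Fin t → (EdgeVar n → Bool) → Bool),
          (∀ w x y, (∀ f, f ∉ E → x f = y f) → g w x = g w y) →
        ∀ (s : ℕ) (D : Circuit (EdgeVar n ⊕ Fin t) s),
          (∀ x, ¬ D.Accepts (Sum.elim x fun w => g w x) → (Clq x ↔ ty = true)) →
          (s : ℝ) ≤ (2 : ℝ) ^ (m / (2 : ℝ) ^ (128 * Real.sqrt r)) →
          (∀ e ∈ E, ∀ L, Tree D D.out L → L.count (Sum.inl e) ≤ r) →
          ((univ.filter fun i => ¬ D.Accepts (Sum.elim (Q i) fun w => g w (Q i))).card : ℝ) ≤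
            N * (2 : ℝ) ^ (-(m / (2 : ℝ) ^ (128 * Real.sqrt r))) := by
  have hm2 : (2 : ℝ) ^ (256 * Real.sqrt r) ≤ ((m ^ 2 : ℕ) : ℝ) := by
    have h2 : (2 : ℝ) ^ (256 * Real.sqrt r) = ((2 : ℝ) ^ (128 * Real.sqrt r)) ^ 2 := by
      rw [← Real.rpow_mul_natCast (by norm_num)]
      congr 1
      push_cast
      ring
    rw [h2]
    push_cast
    exact pow_le_pow_left₀ (by positivity) hm 2
  obtain ⟨K, N₁, N₂, hK, hN, hN2, hcell, hEc, hmain⟩ := mainKT r (m ^ 2) hr hm2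
  rw [sqrtV] at hmain
  obtain ⟨hM1, hM2⟩ := hcell (m ^ 2) le_rfl
  have hsq : Nat.sqrt (m ^ 2) = m := by rw [pow_two, Nat.sqrt_eq]
  rw [hsq] at hM1 hM2
  obtain ⟨hM, h1, h2⟩ := arithV m n (K * N₁) (8 * (K + 1) * (N₁ + N₂ + 1)) hn hM1 hM2
  obtain ⟨ψ⟩ : Nonempty (Fin (K * N₁) × Bool ↪ Fin m) := by
    refine Function.Embedding.nonempty_of_card_le ?_
    rw [Fintype.card_prod, Fintype.card_fin, Fintype.card_bool, Fintype.card_fin]
    omega
  obtain ⟨Q, hQ1, hQ2⟩ := famV n K N₁ N₂ hK hN2 h1 h2 (fun i => u (ψ i)) (fun i => z (ψ i))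
    (hu.comp ψ.injective) (fun i j => hz _ _) (fun i => e (ψ i)) (fun i => he _) ty
  have he2 : ∀ i j, e i = e j → i = j := by
    intro i j hij
    have h3 : (e i).1 = (e j).1 := congrArg Subtype.val hij
    rcases he i with h4 | h4 <;> rcases he j with h5 | h5 <;> rw [h4, h5, Prod.mk.injEq] at h3
    · exact hu h3.2
    · exact absurd h3.1 (hz _ _)
    · exact absurd h3.2 (hz _ _)
    · exact hu h3.1
  obtain ⟨φ⟩ : Nonempty (TabQ K N₁ N₂ × WdQ K N₁ ≃ Fin (Fintype.card (TabQ K N₁ N₂ × WdQ K N₁))) :=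
    ⟨Fintype.equivFin _⟩
  refine ⟨Fintype.card (TabQ K N₁ N₂ × WdQ K N₁), fun i => Q (φ.symm i), ?_, fun i => hQ1 _, ?_⟩
  · exact Fintype.card_pos_iff.2 ⟨(fun _ _ => ⟨0, hN2⟩, fun _ _ => false)⟩
  intro t g hg s D hD hs hcnt
  have h1 := hmain (EdgeVar n ⊕ Fin t)
    (fun k j b => Sum.inl (e (ψ (finProdFinEquiv (k, j), b))))
    (fun k j b k' j' b' h => by
      have h3 := ψ.injective (he2 _ _ (Sum.inl.inj h))
      rw [Prod.mk.injEq] at h3
      have h4 := finProdFinEquiv.injective h3.1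
      rw [Prod.mk.injEq] at h4
      exact ⟨h4.1, h4.2, h3.2⟩) (TabQ K N₁ N₂ × WdQ K N₁)
    (fun i => Sum.elim (Q i) fun w => g w (Q i))
    (fun z => ∀ x, z = Sum.elim x (fun w => g w x) → (Clq x ↔ ty = true)) (by
      intro X J Y hJ hJX T hT hTC
      obtain ⟨X', h4, h5⟩ := freeK E (fun k j b => e (ψ (finProdFinEquiv (k, j), b)))
        (fun k j b => hE _) g hg X J hJX T hT
      have h6 := hQ2 X' J Y hJ h4 _ h5 fun x hx => hTC _ hx x rfl
      beta_reduce at h6 ⊢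
      exact h6) s D
    (by
      rintro z hz x rfl
      exact hD x hz) hs (by
    intro k j b L hL
    haveI := lawfulSum (EdgeVar n) (Fin t)
    refine le_trans (le_of_eq ?_) (hcnt _ (hE (ψ (finProdFinEquiv (k, j), b))) L hL)
    rw [lawful_beq_subsingleton (instBEqOfDecidableEq : BEq (EdgeVar n ⊕ Fin t)) Sum.instBEq])
  refine le_trans (le_of_eq ?_) h1
  rw [Nat.card_eq_fintype_card, Fintype.card_subtype, Nat.cast_inj]
  refine card_bij (fun i _ => φ.symm i) ?_ ?_ ?_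
  · intro i hi
    exact mem_filter.2 ⟨mem_univ _, (mem_filter.1 hi).2⟩
  · intro i _ j _ h
    exact φ.symm.injective h
  · intro i hi
    refine ⟨φ i, mem_filter.2 ⟨mem_univ _, ?_⟩, φ.symm_apply_apply i⟩
    have h2 := (mem_filter.1 hi).2
    simpa only [φ.symm_apply_apply] using h2

open Classical in
/-- both answers, sets of edges which touch at least `2 * m` vertices -/
theorem mainV (r m n : ℕ) (hr : 1 ≤ r) (hm : (2 : ℝ) ^ (128 * Real.sqrt r) ≤ m)
    (hn : 9 * m ^ 2 ≤ n) (E : Finset (EdgeVar n)) (W : Finset (Fin n)) (hW : 2 * m ≤ W.card)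
    (hE : ∀ v ∈ W, ∃ e ∈ E, e.1.1 = v ∨ e.1.2 = v) (ty : Bool) :
      ∃ (N : ℕ) (Q : Fin N → EdgeVar n → Bool), 0 < N ∧ (∀ i, Clq (Q i) ↔ ty = true) ∧
        ∀ (t : ℕ) (g : Fin t → (EdgeVar n → Bool) → Bool),
          (∀ w x y, (∀ f, f ∉ E → x f = y f) → g w x = g w y) →
        ∀ (s : ℕ) (D : Circuit (EdgeVar n ⊕ Fin t) s),
          (∀ x, ¬ D.Accepts (Sum.elim x fun w => g w x) → (Clq x ↔ ty = true)) →
          (s : ℝ) ≤ (2 : ℝ) ^ (m / (2 : ℝ) ^ (128 * Real.sqrt r)) →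
          (∀ e ∈ E, ∀ L, Tree D D.out L → L.count (Sum.inl e) ≤ r) →
          ((univ.filter fun i => ¬ D.Accepts (Sum.elim (Q i) fun w => g w (Q i))).card : ℝ) ≤
            N * (2 : ℝ) ^ (-(m / (2 : ℝ) ^ (128 * Real.sqrt r))) := by
  obtain ⟨u, z, e, hu, hz, he, heE⟩ := forestV E W hW hE
  exact mainVF r m n hr hm hn z u hu hz e he E heE ty

open Classical in
/-- the answer yes -/
theorem mainVA (r m n : ℕ) (hr : 1 ≤ r) (hm : (2 : ℝ) ^ (128 * Real.sqrt r) ≤ m)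
    (hn : 9 * m ^ 2 ≤ n) (E : Finset (EdgeVar n)) (W : Finset (Fin n)) (hW : 2 * m ≤ W.card)
    (hE : ∀ v ∈ W, ∃ e ∈ E, e.1.1 = v ∨ e.1.2 = v) :
      ∃ (N : ℕ) (P : Fin N → EdgeVar n → Bool), 0 < N ∧ (∀ i, Clq (P i)) ∧
        ∀ (t : ℕ) (g : Fin t → (EdgeVar n → Bool) → Bool),
          (∀ w x y, (∀ f, f ∉ E → x f = y f) → g w x = g w y) →
        ∀ (s : ℕ) (D : Circuit (EdgeVar n ⊕ Fin t) s),
          (∀ x, ¬ Clq x → ¬ D.Accepts (Sum.elim x fun w => g w x)) →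
          (s : ℝ) ≤ (2 : ℝ) ^ (m / (2 : ℝ) ^ (128 * Real.sqrt r)) →
          (∀ e ∈ E, ∀ L, ATree D D.out L → L.count (Sum.inl e) ≤ r) →
          ((univ.filter fun i => D.Accepts (Sum.elim (P i) fun w => g w (P i))).card : ℝ) ≤
            N * (2 : ℝ) ^ (-(m / (2 : ℝ) ^ (128 * Real.sqrt r))) := by
  obtain ⟨N, Q, hN, hQ, h⟩ := mainV r m n hr hm hn E W hW hE true
  refine ⟨N, Q, hN, fun i => (hQ i).2 rfl, fun t g hg s D hD hs hcnt => ?_⟩
  have h3 := h t g hg s (dual D) (fun x hx => by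
      rw [dual_accepts, not_not] at hx
      refine ⟨fun _ => rfl, fun _ => ?_⟩
      by_contra hc
      exact hD x hc hx) hs (fun e he L hL => hcnt e he L (tree_dual hL))
  have h4 : (univ.filter fun i => ¬ (dual D).Accepts (Sum.elim (Q i) fun w => g w (Q i))) =
      univ.filter fun i => D.Accepts (Sum.elim (Q i) fun w => g w (Q i)) := by
    ext i
    rw [mem_filter, mem_filter, dual_accepts, not_not]
  rw [h4] at h3
  exact h3

end Pool.Agent.LS
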