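import Mathlib
import Pool.Agent.Lib.MP_0a1b52_lc_LS.DefsQ
import Pool.Agent.Lib.MP_0a1b52_lc_FP.Defs

/-!
# Reading more than `c log² n` times: many gadgets

There are `G` gadgets; the player `k` has at the position `p` the letters `x k p g`, `g < G`; the
gadget `i` gets the letter `q.1 k p i` of each position, and this letter belongs to the block
`q.2 k p i` of the gadget.
-/

set_option autoImplicit false

namespace Pool.Agent.LS

open Finset Pool.Agent.FP

/-- the random tables -/
abbrev QR (K P G B : ℕ) : Type :=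
  (Fin K → Fin P → Equiv.Perm (Fin G)) × (Fin K → Fin P → Fin G → Fin B)

/-- the words -/
abbrev WR (K P G : ℕ) : Type := Fin K → Fin P → Fin G → Bool

/-- the value of the gadget `i` -/
def valR {K P G B : ℕ} (q : QR K P G B) (x : WR K P G) (i : Fin G) : Bool :=
  val (tab fun k p => q.2 k p i) fun k p => x k p (q.1 k p i)

/-- A frame: the places for the letters of the gadgets.  The letter `g` at the position `π` is given
by two edges `e π g false`, `e π g true`; the edge `e π g t` joins the vertices `vF π g t` (in the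
cell `F π`) and `vB π g t` (in the cell `B π`). -/
structure Frm (n K P G : ℕ) (𝒦 : Type) where
  /-- the cells of the vertices -/
  cl : Fin n → Option 𝒦
  F : Fin K × Fin P → 𝒦
  B : Fin K × Fin P → 𝒦
  vF : Fin K × Fin P → Fin G → Bool → Fin n
  vB : Fin K × Fin P → Fin G → Bool → Fin n
  e : Fin K × Fin P → Fin G → Bool → EdgeVar n
  he : ∀ π g t, (e π g t).1 = (vF π g t, vB π g t) ∨ (e π g t).1 = (vB π g t, vF π g t)
  inj : ∀ π g t π' g' t', e π g t = e π' g' t' → π = π' ∧ g = g' ∧ t = t'
  clF : ∀ π g t, cl (vF π g t) = some (F π)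
  clB : ∀ π g t, cl (vB π g t) = some (B π)
  FB : ∀ π π', F π ≠ B π'
  Binj : ∀ π π', B π = B π' → π = π'
  surj : ∀ κ, ∃ π, κ = F π ∨ κ = B π
  Bt : ∀ π g t t', vB π g t = vB π g t' → t = t'
  pin : ∀ π g g' t t' t'', vF π g' t' = vF π g t'' → vB π g' t' = vB π g t → g' = g ∧ t' = t
  com : ∀ π π', F π = F π' → π ≠ π' → ∀ g g' t t', vF π g t = vF π' g' t'

end Pool.Agent.LS
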