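import Mathlib
import Pool.Agent.Lib.MP_0a1b52_lc_LS.DefsR

/-!
# Reading more than `c log² n` times, module CountR: many words have the value `false` everywhere

For fixed letters of the players `k ≥ 1` the values of the `G` gadgets are linear forms in the
letters of the player `0`, so at least the part `2 ^ (- G)` of the letters of the player `0` has the
values `false`.
-/

set_option autoImplicit false

namespace Pool.Agent.LS

open Finset

/-! ## Parities -/

private def sgr (b : Bool) : ℝ := if b = true then -1 else 1

private theorem sgr_xor (a b : Bool) : sgr (xor a b) = sgr a * sgr b := by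
  cases a <;> cases b <;> simp [sgr]

private theorem sgr_inj {a b : Bool} (h : sgr a = sgr b) : a = b := by
  cases a <;> cases b <;> first | rfl | (exfalso; simp [sgr] at h; linarith)

private theorem sgr_par {n : ℕ} (f : Fin n → Bool) : sgr (par f) = ∏ i, sgr (f i) := by
  have h1 : ∏ i, sgr (f i) = (-1 : ℝ) ^ (univ.filter fun i => f i = true).card := by
    simp only [sgr]
    rw [prod_ite, prod_const, prod_const, one_pow, mul_one]
  rw [h1, par]
  rcases Nat.mod_two_eq_zero_or_one (univ.filter fun i => f i = true).card with h | h
  · rw [h, Even.neg_one_pow (Nat.even_iff.2 h)]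
    simp [sgr]
  · rw [h, Odd.neg_one_pow (Nat.odd_iff.2 h)]
    simp [sgr]

private theorem par_xor_r {n : ℕ} (f g : Fin n → Bool) :
    par (fun i => xor (f i) (g i)) = xor (par f) (par g) := by
  apply sgr_inj
  rw [sgr_xor, sgr_par, sgr_par, sgr_par, ← prod_mul_distrib]
  exact prod_congr rfl fun i _ => sgr_xor _ _

/-! ## The value is linear in the letters of one player -/

private theorem dec_xor {K : ℕ} (k₀ : Fin K) (a b c : Fin K → Bool)
    (h0 : c k₀ = xor (a k₀) (b k₀)) (h : ∀ k, k ≠ k₀ → c k = a k ∧ b k = a k) :
    decide (∀ k, c k = true) = xor (decide (∀ k, a k = true)) (decide (∀ k, b k = true)) := by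
  by_cases hr : ∀ k, k ≠ k₀ → a k = true
  · have e1 : (∀ k, a k = true) ↔ a k₀ = true :=
      ⟨fun H => H k₀, fun H k => by
        by_cases hk : k = k₀
        · rw [hk]; exact H
        · exact hr k hk⟩
    have e2 : (∀ k, b k = true) ↔ b k₀ = true :=
      ⟨fun H => H k₀, fun H k => by
        by_cases hk : k = k₀
        · rw [hk]; exact H
        · rw [(h k hk).2]; exact hr k hk⟩
    have e3 : (∀ k, c k = true) ↔ c k₀ = true :=
      ⟨fun H => H k₀, fun H k => by
        by_cases hk : k = k₀
        · rw [hk]; exact H
        · rw [(h k hk).1]; exact hr k hk⟩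
    have f1 : decide (∀ k, a k = true) = a k₀ := by rw [Bool.eq_iff_iff, decide_eq_true_iff, e1]
    have f2 : decide (∀ k, b k = true) = b k₀ := by rw [Bool.eq_iff_iff, decide_eq_true_iff, e2]
    have f3 : decide (∀ k, c k = true) = c k₀ := by rw [Bool.eq_iff_iff, decide_eq_true_iff, e3]
    rw [f1, f2, f3, h0]
  · push Not at hr
    obtain ⟨k, hk, hak⟩ := hr
    have e1 : ¬ ∀ k, a k = true := fun H => hak (H k)
    have e2 : ¬ ∀ k, b k = true := fun H => hak (by rw [← (h k hk).2]; exact H k)
    have e3 : ¬ ∀ k, c k = true := fun H => hak (by rw [← (h k hk).1]; exact H k)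
    rw [decide_eq_false e1, decide_eq_false e2, decide_eq_false e3]
    rfl

private theorem and_xor' (a b c : Bool) : (a && xor b c) = xor (a && b) (a && c) := by
  cases a <;> cases b <;> cases c <;> rfl

private theorem valR_xor {K P G B : ℕ} (q : QR K P G B) (k₀ : Fin K) (x y z : WR K P G)
    (h0 : ∀ p g, z k₀ p g = xor (x k₀ p g) (y k₀ p g))
    (h : ∀ k, k ≠ k₀ → z k = x k ∧ y k = x k) (i : Fin G) :
    valR q z i = xor (valR q x i) (valR q y i) := by
  unfold valR val
  rw [← par_xor_r]
  congr 1
  funext b
  refine dec_xor k₀ _ _ _ ?_ fun k hk => ?_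
  · rw [← par_xor_r]
    congr 1
    funext p
    simp only [h0, and_xor']
  · simp only [(h k hk).1, (h k hk).2, and_self]

/-! ## The count -/

open Classical in
theorem countR {K P G B : ℕ} (hK : 1 ≤ K) (q : QR K P G B) :
    Fintype.card (WR K P G) ≤
      2 ^ G * (univ.filter fun x : WR K P G => ∀ i, valR q x i = false).card := by
  obtain ⟨k₀⟩ : Nonempty (Fin K) := ⟨⟨0, hK⟩⟩
  -- the fibres of the vector of the values
  have fib : ∀ v : Fin G → Bool,
      (univ.filter fun x : WR K P G => (fun i => valR q x i) = v).card ≤
        (univ.filter fun x : WR K P G => ∀ i, valR q x i = false).card := by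
    intro v
    let r : WR K P G → WR K P G := fun x => Function.update x k₀ fun _ _ => false
    let c : WR K P G → WR K P G := fun ρ =>
      if h : ∃ y : WR K P G, r y = ρ ∧ (fun i => valR q y i) = v then Classical.choose h else ρ
    let f : WR K P G → WR K P G := fun x =>
      Function.update x k₀ fun p g => xor (x k₀ p g) (c (r x) k₀ p g)
    have hr : ∀ x, r (f x) = r x := by
      intro x
      simp only [r, f, Function.update_idem]
    have hc : ∀ x, (fun i => valR q x i) = v →
        r (c (r x)) = r x ∧ (fun i => valR q (c (r x)) i) = v := by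
      intro x hx
      have h : ∃ y : WR K P G, r y = r x ∧ (fun i => valR q y i) = v := ⟨x, rfl, hx⟩
      have e : c (r x) = Classical.choose h := dif_pos h
      rw [e]
      exact Classical.choose_spec h
    refine card_le_card_of_injOn f ?_ ?_
    · intro x hx
      simp only [coe_filter, mem_univ, true_and, Set.mem_ofPred_eq] at hx ⊢
      intro i
      obtain ⟨h1, h2⟩ := hc x hx
      have h3 := valR_xor q k₀ x (c (r x)) (f x) (fun p g => by
        simp only [f, Function.update_self]) (fun k hk => ⟨by
        simp only [f, Function.update_of_ne hk], by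
        have h4 := congrFun h1 k
        simp only [r, Function.update_of_ne hk] at h4
        exact h4⟩) i
      have h5 : valR q x i = v i := congrFun hx i
      have h6 : valR q (c (r x)) i = v i := congrFun h2 i
      rw [h3, h5, h6, Bool.xor_self]
    · intro x _ x' _ hxx
      have h1 : r x = r x' := by rw [← hr x, ← hr x', hxx]
      have hk : ∀ k, k ≠ k₀ → x k = x' k := by
        intro k hk
        have h4 := congrFun h1 k
        simp only [r, Function.update_of_ne hk] at h4
        exact h4
      funext k
      by_cases h : k = k₀
      · rw [h]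
        funext p g
        have h2 := congrFun (congrFun (congrFun hxx k₀) p) g
        simp only [f, Function.update_self, h1] at h2
        revert h2
        cases x k₀ p g <;> cases x' k₀ p g <;> cases c (r x') k₀ p g <;> simp
      · exact hk k h
  -- the sum over the fibres
  have hsum : Fintype.card (WR K P G) = ∑ v : Fin G → Bool,
      (univ.filter fun x : WR K P G => (fun i => valR q x i) = v).card := by
    rw [← card_univ]
    exact card_eq_sum_card_fiberwise fun x _ => mem_coe.2 (mem_univ _)
  rw [hsum]
  calc _ ≤ ∑ _v : Fin G → Bool,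
        (univ.filter fun x : WR K P G => ∀ i, valR q x i = false).card :=
        sum_le_sum fun v _ => fib v
    _ = _ := by
        rw [sum_const, card_univ, smul_eq_mul]
        congr 1
        simp

end Pool.Agent.LS
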