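import Mathlib
import Pool.Agent.Lib.MP_0a1b52_lc_LS.DefsQ

/-!
# Reading more than `c log² n` times, module Cube: the bound for one partition
-/

set_option autoImplicit false

namespace Pool.Agent.LS

open Finset
open scoped BigOperators

/-! ## Signs and parities -/

private def sgn (b : Bool) : ℝ := if b then -1 else 1

private theorem sgn_xor (a b : Bool) : sgn (xor a b) = sgn a * sgn b := by
  cases a <;> cases b <;> simp [sgn]

private theorem sgn_par {n : ℕ} (f : Fin n → Bool) : sgn (par f) = ∏ i, sgn (f i) := by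
  have h1 : ∏ i, sgn (f i) = (-1 : ℝ) ^ (univ.filter fun i => f i = true).card := by
    unfold sgn
    rw [prod_ite]
    simp
  rw [h1, par, sgn]
  rcases Nat.even_or_odd (univ.filter fun i => f i = true).card with h | h
  · rw [h.neg_one_pow]
    have h2 := Nat.even_iff.1 h
    simp [h2]
  · rw [h.neg_one_pow]
    have h2 := Nat.odd_iff.1 h
    simp [h2]

private theorem sgn_inj {a b : Bool} (h : sgn a = sgn b) : a = b := by
  cases a <;> cases b <;> simp [sgn] at h ⊢ <;> norm_num at h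

private theorem sgn_sq (a : Bool) : sgn a * sgn a = 1 := by
  cases a <;> simp [sgn]

private theorem abs_sgn (a : Bool) : |sgn a| = 1 := by
  cases a <;> simp [sgn]

/-- the letters of `d` outside `J` are erased -/
private def mk {N : ℕ} (J : Finset (Fin N)) (d : Fin N → Bool) : Fin N → Bool :=
  fun j => decide (j ∈ J) && d j

/-- the letters in `J` are changed by `d` -/
private def sh {N : ℕ} (J : Finset (Fin N)) (x d : Fin N → Bool) : Fin N → Bool :=
  fun j => xor (x j) (decide (j ∈ J) && d j)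

private theorem sh_sh {N : ℕ} (J : Finset (Fin N)) (x d : Fin N → Bool) :
    sh J (sh J x d) d = x := by
  funext j
  simp [sh]

private theorem sh_sh' {N : ℕ} (J : Finset (Fin N)) (x d d' : Fin N → Bool) :
    sh J (sh J x d) d' = sh J x fun j => xor (d j) (d' j) := by
  funext j
  simp only [sh]
  cases decide (j ∈ J) <;> simp

/-- the inner product of two words -/
private def ip {N : ℕ} (a x : Fin N → Bool) : Bool := par fun j => a j && x j

private theorem ip_sh {N : ℕ} (J : Finset (Fin N)) (a x d : Fin N → Bool) :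
    ip a (sh J x d) = xor (ip a x) (ip a (mk J d)) := by
  refine sgn_inj ?_
  rw [sgn_xor, ip, ip, ip, sgn_par, sgn_par, sgn_par, ← prod_mul_distrib]
  refine prod_congr rfl fun j _ => ?_
  rw [← sgn_xor]
  congr 1
  simp only [sh, mk]
  cases a j <;> simp

/-! ## The signed generalised inner product -/

private def S {K N₁ N₂ : ℕ} (b : Fin N₂ → Bool) (A : Fin K → Fin N₂ → Fin N₁ → Bool)
    (x : Fin K → Fin N₁ → Bool) : ℝ :=
  ∏ i, sgn (b i && decide (∀ k, ip (A k i) (x k) = true))

private theorem S_val {K N₁ N₂ : ℕ} (A : Fin K → Fin N₂ → Fin N₁ → Bool)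
    (x : Fin K → Fin N₁ → Bool) : S (fun _ => true) A x = sgn (val A x) := by
  rw [val, sgn_par, S]
  refine prod_congr rfl fun i _ => ?_
  congr 1

private theorem abs_S {K N₁ N₂ : ℕ} (b : Fin N₂ → Bool) (A : Fin K → Fin N₂ → Fin N₁ → Bool)
    (x : Fin K → Fin N₁ → Bool) : |S b A x| = 1 := by
  rw [S, abs_prod]
  exact prod_eq_one fun i _ => abs_sgn _

private theorem S_step {K N₁ N₂ : ℕ} (b : Fin N₂ → Bool) (A₀ : Fin N₂ → Fin N₁ → Bool)
    (A : Fin K → Fin N₂ → Fin N₁ → Bool) (J : Finset (Fin N₁)) (x₀ d : Fin N₁ → Bool)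
    (x : Fin K → Fin N₁ → Bool) :
    S b (Fin.cons A₀ A : Fin (K + 1) → Fin N₂ → Fin N₁ → Bool)
        (Fin.cons x₀ x : Fin (K + 1) → Fin N₁ → Bool) *
      S b (Fin.cons A₀ A : Fin (K + 1) → Fin N₂ → Fin N₁ → Bool)
        (Fin.cons (sh J x₀ d) x : Fin (K + 1) → Fin N₁ → Bool) =
      S (fun i => b i && ip (A₀ i) (mk J d)) A x := by
  rw [S, S, S, ← prod_mul_distrib]
  refine prod_congr rfl fun i _ => ?_
  rw [← sgn_xor]
  congr 1
  simp only [Fin.forall_fin_succ, Fin.cons_zero, Fin.cons_succ, ip_sh]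
  by_cases h : ∀ k, ip (A k i) (x k) = true
  · simp only [h, and_true, implies_true]
    cases b i <;> cases ip (A₀ i) x₀ <;> cases ip (A₀ i) (mk J d) <;> simp
  · simp [h]

/-! ## Means -/

private theorem jensen {Ω : Type} [Fintype Ω] [Nonempty Ω] (g : Ω → ℝ) (K : ℕ) :
    |𝔼 p, g p| ^ 2 ^ K ≤ 𝔼 p, |g p| ^ 2 ^ K := by
  induction K with
  | zero => simpa using abs_expect_le univ g
  | succ K ih =>
    have h1 := expect_mul_sq_le_sq_mul_sq univ (fun p => |g p| ^ 2 ^ K) fun _ => (1 : ℝ)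
    simp only [mul_one, one_pow] at h1
    rw [expect_const univ_nonempty, mul_one] at h1
    calc |𝔼 p, g p| ^ 2 ^ (K + 1) = (|𝔼 p, g p| ^ 2 ^ K) ^ 2 := by rw [← pow_mul, pow_succ]
      _ ≤ (𝔼 p, |g p| ^ 2 ^ K) ^ 2 := pow_le_pow_left₀ (by positivity) ih 2
      _ ≤ 𝔼 p, (|g p| ^ 2 ^ K) ^ 2 := h1
      _ = _ := by
          refine expect_congr rfl fun p _ => ?_
          rw [← pow_mul, pow_succ]

private theorem vdc {Ω : Type} [Fintype Ω] [Nonempty Ω] {N : ℕ} (τ : (Fin N → Bool) → Ω → Ω)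
    (h1 : ∀ d p, τ d (τ d p) = p)
    (h2 : ∀ d d' p, τ d' (τ d p) = τ (fun j => xor (d j) (d' j)) p) (φ F : Ω → ℝ)
    (hφ : ∀ p, |φ p| ≤ 1) (hφ' : ∀ d p, φ (τ d p) = φ p) :
    (𝔼 p, φ p * F p) ^ 2 ≤ 𝔼 p, 𝔼 d, F p * F (τ d p) := by
  have hτ : ∀ (d : Fin N → Bool) (f : Ω → ℝ), 𝔼 p, f (τ d p) = 𝔼 p, f p := by
    intro d f
    exact Fintype.expect_equiv ⟨τ d, τ d, h1 d, h1 d⟩ _ _ fun p => rfl
  have e1 : 𝔼 p, φ p * F p = 𝔼 p, φ p * 𝔼 d, F (τ d p) := by
    have h3 : ∀ d : Fin N → Bool, 𝔼 p, φ p * F p = 𝔼 p, φ p * F (τ d p) := by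
      intro d
      rw [← hτ d fun p => φ p * F p]
      refine expect_congr rfl fun p _ => ?_
      rw [hφ']
    calc 𝔼 p, φ p * F p = 𝔼 _d : Fin N → Bool, 𝔼 p, φ p * F p := (Fintype.expect_const _).symm
      _ = 𝔼 d : Fin N → Bool, 𝔼 p, φ p * F (τ d p) := expect_congr rfl fun d _ => h3 d
      _ = 𝔼 p, 𝔼 d, φ p * F (τ d p) := expect_comm _ _ _
      _ = _ := expect_congr rfl fun p _ => (mul_expect _ _ _).symm
  have e2 : 𝔼 p, (𝔼 d, F (τ d p)) ^ 2 = 𝔼 p, 𝔼 d, F p * F (τ d p) := by
    calc 𝔼 p, (𝔼 d, F (τ d p)) ^ 2 = 𝔼 p, 𝔼 d, 𝔼 d', F (τ d p) * F (τ d' p) := by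
          refine expect_congr rfl fun p _ => ?_
          rw [sq, expect_mul_expect]
      _ = 𝔼 d, 𝔼 p, 𝔼 d', F (τ d p) * F (τ d' p) := expect_comm _ _ _
      _ = 𝔼 d : Fin N → Bool, 𝔼 p, 𝔼 d', F p * F (τ d' p) := by
          refine expect_congr rfl fun d _ => ?_
          rw [← hτ d fun p => 𝔼 d', F p * F (τ d' p)]
          refine expect_congr rfl fun p _ => ?_
          refine Fintype.expect_equiv ⟨fun d' j => xor (d j) (d' j), fun d' j => xor (d j) (d' j),
            fun d' => by funext j; simp, fun d' => by funext j; simp⟩ _ _ fun d' => ?_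
          dsimp only [Equiv.coe_fn_mk]
          rw [h2]
          congr 3
          funext j
          simp
      _ = _ := Fintype.expect_const _
  rw [e1]
  refine (expect_mul_sq_le_sq_mul_sq univ _ _).trans ?_
  rw [e2]
  have h4 : 𝔼 p, φ p ^ 2 ≤ 1 := by
    refine expect_le univ_nonempty fun p _ => ?_
    rw [sq_le_one_iff_abs_le_one]
    exact hφ p
  have h5 : 0 ≤ 𝔼 p, 𝔼 d, F p * F (τ d p) := by
    rw [← e2]
    exact expect_nonneg fun p _ => sq_nonneg _
  calc (𝔼 p, φ p ^ 2) * 𝔼 p, 𝔼 d, F p * F (τ d p) ≤ 1 * 𝔼 p, 𝔼 d, F p * F (τ d p) :=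
        mul_le_mul_of_nonneg_right h4 h5
    _ = _ := one_mul _

private theorem expect_pair {α β : Type} [Fintype α] [Fintype β] (f : α × β → ℝ) :
    𝔼 z, f z = 𝔼 a, 𝔼 b, f (a, b) := by
  rw [← univ_product_univ, expect_product]

private theorem expect_cons {α : Type} [Fintype α] (n : ℕ) (f : (Fin (n + 1) → α) → ℝ) :
    𝔼 g, f g = 𝔼 a : α, 𝔼 g : Fin n → α, f (Fin.cons a g) := by
  have h1 : 𝔼 g, f g = 𝔼 p : α × (Fin n → α), f (Fin.cons p.1 p.2) :=
    (Fintype.expect_equiv (Fin.consEquiv fun _ : Fin (n + 1) => α) _ _ fun p => rfl).symm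
  rw [h1, ← univ_product_univ, expect_product]

/-! ## Blocks -/

private theorem ip_flip {N : ℕ} (J : Finset (Fin N)) (a d : Fin N → Bool) (j : Fin N)
    (hj : j ∈ J) : ip a (mk J (Function.update d j (!(d j)))) = xor (ip a (mk J d)) (a j) := by
  refine sgn_inj ?_
  rw [sgn_xor, ip, ip, sgn_par, sgn_par, ← mul_prod_erase univ _ (mem_univ j),
    ← mul_prod_erase univ (fun i => sgn (a i && mk J d i)) (mem_univ j)]
  have h2 : ∏ x ∈ univ.erase j, sgn (a x && mk J (Function.update d j (!(d j))) x) =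
      ∏ x ∈ univ.erase j, sgn (a x && mk J d x) := by
    refine prod_congr rfl fun x hx => ?_
    simp only [mk]
    rw [Function.update_of_ne (ne_of_mem_erase hx)]
  rw [h2]
  simp only [mk, Function.update_self, hj, decide_true, Bool.true_and]
  cases a j <;> cases d j <;> simp [sgn]

/-- the parities of the blocks are independent -/
private theorem blocks {N₁ N₂ : ℕ} (J : Finset (Fin N₁)) (q : Fin N₁ → Fin N₂)
    (f : Fin N₂ → Bool → ℝ) (s : Finset (Fin N₂)) :
    𝔼 d : Fin N₁ → Bool, ∏ i ∈ s, f i (ip (fun j => decide (q j = i)) (mk J d)) =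
      ∏ i ∈ s, if ∃ j ∈ J, q j = i then (f i true + f i false) / 2 else f i false := by
  classical
  induction s using Finset.induction_on with
  | empty => simp
  | insert i s hi ih =>
    simp only [prod_insert hi]
    by_cases h : ∃ j ∈ J, q j = i
    · rw [if_pos h]
      obtain ⟨j, hj, hji⟩ := h
      let fl : (Fin N₁ → Bool) → Fin N₁ → Bool := fun d => Function.update d j (!(d j))
      have hfl : ∀ d, fl (fl d) = d := by
        intro d
        simp [fl]
      have h1 : 𝔼 d : Fin N₁ → Bool, f i (ip (fun j => decide (q j = i)) (mk J d)) *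
          ∏ i ∈ s, f i (ip (fun j => decide (q j = i)) (mk J d)) =
          𝔼 d : Fin N₁ → Bool, f i (!(ip (fun j => decide (q j = i)) (mk J d))) *
          ∏ i ∈ s, f i (ip (fun j => decide (q j = i)) (mk J d)) := by
        refine Fintype.expect_equiv ⟨fl, fl, hfl, hfl⟩ _ _ fun d => ?_
        show _ = f i (!(ip (fun j => decide (q j = i)) (mk J (Function.update d j (!(d j)))))) *
          ∏ i ∈ s, f i (ip (fun j => decide (q j = i)) (mk J (Function.update d j (!(d j)))))
        rw [ip_flip J _ d j hj]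
        congr 1
        · simp [hji]
        · refine prod_congr rfl fun i' hi' => ?_
          rw [ip_flip J _ d j hj]
          have : q j ≠ i' := by
            rintro rfl
            exact hi (hji ▸ hi')
          simp [this]
      have h2 : 𝔼 d : Fin N₁ → Bool, f i (ip (fun j => decide (q j = i)) (mk J d)) *
          ∏ i ∈ s, f i (ip (fun j => decide (q j = i)) (mk J d)) +
          𝔼 d : Fin N₁ → Bool, f i (!(ip (fun j => decide (q j = i)) (mk J d))) *
          ∏ i ∈ s, f i (ip (fun j => decide (q j = i)) (mk J d)) =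
          (f i true + f i false) *
            𝔼 d : Fin N₁ → Bool, ∏ i ∈ s, f i (ip (fun j => decide (q j = i)) (mk J d)) := by
        rw [← expect_add_distrib, mul_expect]
        refine expect_congr rfl fun d _ => ?_
        rw [← add_mul]
        congr 1
        cases ip (fun j => decide (q j = i)) (mk J d)
        · exact add_comm _ _
        · rfl
      rw [← h1, ih] at h2
      linarith
    · rw [if_neg h, ← ih, mul_expect]
      refine expect_congr rfl fun d _ => ?_
      congr 2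
      refine sgn_inj ?_
      rw [ip, sgn_par]
      refine (prod_eq_one fun j _ => ?_).trans (by simp [sgn])
      by_cases hj : j ∈ J
      · have : q j ≠ i := fun h' => h ⟨j, hj, h'⟩
        simp [this, sgn]
      · simp [mk, hj, sgn]

open Classical in
private theorem baseQ {N₁ N₂ : ℕ} (J : Finset (Fin N₁)) (q : Fin 1 → Fin N₁ → Fin N₂)
    (b : Fin N₂ → Bool) (φ : (Fin 1 → Fin N₁ → Bool) → ℝ) (hφ1 : ∀ x, |φ x| ≤ 1)
    (hφ2 : ∀ x d, φ (Function.update x 0 (sh J (x 0) d)) = φ x) :
    |𝔼 x, S b (tab q) x * φ x| ≤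
      ∏ i : Fin N₂, if b i = true ∧ ∃ j ∈ J, q 0 j = i then (0 : ℝ) else 1 := by
  by_cases h : ∃ j ∈ J, b (q 0 j) = true
  · obtain ⟨j, hj, hb⟩ := h
    have h1 : ∏ i : Fin N₂, (if b i = true ∧ ∃ j ∈ J, q 0 j = i then (0 : ℝ) else 1) = 0 :=
      prod_eq_zero (mem_univ (q 0 j)) (if_pos ⟨hb, j, hj, rfl⟩)
    rw [h1]
    have hS : ∀ x : Fin 1 → Fin N₁ → Bool,
        S b (tab q) (Function.update x 0 (sh J (x 0) (Pi.single j true))) = -S b (tab q) x := by
      intro x
      have h2 : S b (tab q) (Function.update x 0 (sh J (x 0) (Pi.single j true))) =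
          S b (tab q) x * ∏ i, sgn (b i && ip (tab q 0 i) (mk J (Pi.single j true))) := by
        rw [S, S, ← prod_mul_distrib]
        refine prod_congr rfl fun i _ => ?_
        rw [← sgn_xor]
        congr 1
        simp only [Fin.forall_fin_one, Function.update_self, ip_sh]
        cases b i <;> cases ip (tab q 0 i) (x 0) <;>
          cases ip (tab q 0 i) (mk J (Pi.single j true)) <;> simp
      rw [h2]
      have h3 : ∀ i, ip (tab q 0 i) (mk J (Pi.single j true)) = decide (q 0 j = i) := by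
        intro i
        refine sgn_inj ?_
        rw [ip, sgn_par, prod_eq_single j]
        · simp [mk, hj, tab]
        · intro k _ hk
          simp [mk, Pi.single_eq_of_ne hk, sgn]
        · intro h
          exact absurd (mem_univ j) h
      have h4 : ∏ i, sgn (b i && ip (tab q 0 i) (mk J (Pi.single j true))) = -1 := by
        rw [prod_eq_single (q 0 j)]
        · rw [h3]
          simp [hb, sgn]
        · intro i _ hi
          rw [h3]
          have : ¬ q 0 j = i := fun h => hi h.symm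
          simp [this, sgn]
        · intro h
          exact absurd (mem_univ _) h
      rw [h4]
      ring
    have h2 : 𝔼 x, S b (tab q) x * φ x = 𝔼 x, -(S b (tab q) x * φ x) := by
      let fl : (Fin 1 → Fin N₁ → Bool) → (Fin 1 → Fin N₁ → Bool) := fun x =>
        Function.update x 0 (sh J (x 0) (Pi.single j true))
      have hfl : ∀ x, fl (fl x) = x := by
        intro x
        simp only [fl, Function.update_self, Function.update_idem, sh_sh]
        exact Function.update_eq_self 0 x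
      refine Fintype.expect_equiv ⟨fl, fl, hfl, hfl⟩ _ _ fun x => ?_
      show _ = -(S b (tab q) (Function.update x 0 (sh J (x 0) (Pi.single j true))) *
        φ (Function.update x 0 (sh J (x 0) (Pi.single j true))))
      rw [hφ2, hS]
      ring
    rw [expect_neg_distrib] at h2
    have h3 : 𝔼 x, S b (tab q) x * φ x = 0 := by linarith
    rw [h3, abs_zero]
  · have h1 : ∏ i : Fin N₂, (if b i = true ∧ ∃ j ∈ J, q 0 j = i then (0 : ℝ) else 1) = 1 := by
      refine prod_eq_one fun i _ => if_neg ?_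
      rintro ⟨h2, j, hj, rfl⟩
      exact h ⟨j, hj, h2⟩
    rw [h1]
    refine (abs_expect_le _ _).trans (expect_le univ_nonempty fun x _ => ?_)
    rw [abs_mul, abs_S, one_mul]
    exact hφ1 x

open Classical in
/-- several players -/
private theorem bnsQ {N₁ N₂ : ℕ} (K : ℕ) : ∀ (J : Fin (K + 1) → Finset (Fin N₁))
    (q : Fin (K + 1) → Fin N₁ → Fin N₂) (b : Fin N₂ → Bool)
    (φ : Fin (K + 1) → (Fin (K + 1) → Fin N₁ → Bool) → ℝ)
    (_ : ∀ k x, |φ k x| ≤ 1)
    (_ : ∀ k x d, φ k (Function.update x k (sh (J k) (x k) d)) = φ k x),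
    |𝔼 x, S b (tab q) x * ∏ k, φ k x| ^ 2 ^ K ≤
      ∏ i : Fin N₂, if b i = true ∧ ∀ k, ∃ j ∈ J k, q k j = i then 1 - (1 / 2 : ℝ) ^ K else 1 := by
  induction K with
  | zero =>
    intro J q b φ h1 h2
    have h := baseQ (J 0) q b (φ 0) (h1 0) (h2 0)
    simpa [Fin.forall_fin_one] using h
  | succ K ih =>
    intro J q b φ h1 h2
    let τ : (Fin N₁ → Bool) → (Fin (K + 2) → Fin N₁ → Bool) → (Fin (K + 2) → Fin N₁ → Bool) :=
      fun d x => Function.update x 0 (sh (J 0) (x 0) d)
    let F : (Fin (K + 2) → Fin N₁ → Bool) → ℝ :=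
      fun x => S b (tab q) x * ∏ k : Fin (K + 1), φ k.succ x
    have hv := vdc τ (fun d x => by
        simp only [τ, Function.update_self, Function.update_idem, sh_sh]
        rw [Function.update_eq_self])
      (fun d d' x => by
        simp only [τ, Function.update_self, Function.update_idem, sh_sh'])
      (φ 0) F (fun x => h1 0 _) (fun d x => h2 0 _ _)
    let φ' : (Fin N₁ → Bool) × (Fin N₁ → Bool) → Fin (K + 1) →
        (Fin (K + 1) → Fin N₁ → Bool) → ℝ :=
      fun z k x => φ k.succ (Fin.cons z.1 x) * φ k.succ (Fin.cons (sh (J 0) z.1 z.2) x)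
    let b' : (Fin N₁ → Bool) × (Fin N₁ → Bool) → Fin N₂ → Bool :=
      fun z i => b i && ip (tab q 0 i) (mk (J 0) z.2)
    let g : (Fin N₁ → Bool) × (Fin N₁ → Bool) → ℝ := fun z =>
      𝔼 x, S (b' z) (tab fun k => q k.succ) x * ∏ k, φ' z k x
    have htab : (tab q : Fin (K + 2) → Fin N₂ → Fin N₁ → Bool) =
        Fin.cons (tab q 0) (tab fun k => q k.succ) := by
      funext k
      refine Fin.cases ?_ (fun k => ?_) k
      · rw [Fin.cons_zero]
      · rw [Fin.cons_succ]
        rfl
    have hg : 𝔼 x, 𝔼 d, F x * F (τ d x) = 𝔼 z, g z := by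
      have e1 : 𝔼 x, 𝔼 d, F x * F (τ d x) =
          𝔼 z : (Fin (K + 2) → Fin N₁ → Bool) × (Fin N₁ → Bool), F z.1 * F (τ z.2 z.1) :=
        (expect_pair fun z : (Fin (K + 2) → Fin N₁ → Bool) × (Fin N₁ → Bool) =>
          F z.1 * F (τ z.2 z.1)).symm
      have e2 : 𝔼 z, g z = 𝔼 z : ((Fin N₁ → Bool) × (Fin N₁ → Bool)) ×
          (Fin (K + 1) → Fin N₁ → Bool),
          S (b' z.1) (tab fun k => q k.succ) z.2 * ∏ k, φ' z.1 k z.2 :=
        (expect_pair fun z : ((Fin N₁ → Bool) × (Fin N₁ → Bool)) ×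
          (Fin (K + 1) → Fin N₁ → Bool) =>
          S (b' z.1) (tab fun k => q k.succ) z.2 * ∏ k, φ' z.1 k z.2).symm
      rw [e1, e2]
      refine (Fintype.expect_equiv
        ⟨fun z => (Fin.cons z.1.1 z.2, z.1.2),
        fun z => ((z.1 0, z.2), Fin.tail z.1),
        fun z => by simp, fun z => by simp⟩ _ _ fun z => ?_).symm
      obtain ⟨⟨x₀, d⟩, x⟩ := z
      dsimp only [Equiv.coe_fn_mk]
      simp only [F, τ, b', φ', Fin.cons_zero, Fin.update_cons_zero]
      rw [← S_step, ← htab, prod_mul_distrib]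
      ring
    have hle : ∀ z, |g z| ^ 2 ^ K ≤ ∏ i : Fin N₂,
        if b' z i = true ∧ ∀ k : Fin (K + 1), ∃ j ∈ J k.succ, q k.succ j = i then
          1 - (1 / 2 : ℝ) ^ K else 1 := by
      intro z
      refine ih (fun k => J k.succ) (fun k => q k.succ) (b' z) (φ' z) ?_ ?_
      · intro k x
        simp only [φ', abs_mul]
        exact mul_le_one₀ (h1 _ _) (abs_nonneg _) (h1 _ _)
      · intro k x d
        simp only [φ']
        have e1 : ∀ x₀ : Fin N₁ → Bool,
            (Fin.cons x₀ (Function.update x k (sh (J k.succ) (x k) d)) :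
              Fin (K + 2) → Fin N₁ → Bool) =
            Function.update (Fin.cons x₀ x : Fin (K + 2) → Fin N₁ → Bool) k.succ
              (sh (J k.succ) ((Fin.cons x₀ x : Fin (K + 2) → Fin N₁ → Bool) k.succ) d) := by
          intro x₀
          rw [Fin.cons_succ, Fin.cons_update]
        rw [e1, e1, h2, h2]
    have hfin : 𝔼 z : (Fin N₁ → Bool) × (Fin N₁ → Bool), ∏ i : Fin N₂,
        (if b' z i = true ∧ ∀ k : Fin (K + 1), ∃ j ∈ J k.succ, q k.succ j = i then
          1 - (1 / 2 : ℝ) ^ K else 1) =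
        ∏ i : Fin N₂, if b i = true ∧ ∀ k, ∃ j ∈ J k, q k j = i then
          1 - (1 / 2 : ℝ) ^ (K + 1) else 1 := by
      rw [expect_pair]
      have e1 : ∀ x₀ : Fin N₁ → Bool, 𝔼 d : Fin N₁ → Bool, ∏ i : Fin N₂,
          (if b' (x₀, d) i = true ∧ ∀ k : Fin (K + 1), ∃ j ∈ J k.succ, q k.succ j = i then
            1 - (1 / 2 : ℝ) ^ K else 1) =
          ∏ i : Fin N₂, if b i = true ∧ ∀ k, ∃ j ∈ J k, q k j = i then
            1 - (1 / 2 : ℝ) ^ (K + 1) else 1 := by
        intro x₀
        have e2 := blocks (J 0) (q 0) (fun i p => if (b i && p) = true ∧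
          ∀ k : Fin (K + 1), ∃ j ∈ J k.succ, q k.succ j = i then 1 - (1 / 2 : ℝ) ^ K else 1) univ
        refine Eq.trans ?_ (e2.trans ?_)
        · rfl
        · refine prod_congr rfl fun i _ => ?_
          have e3 : (∀ k, ∃ j ∈ J k, q k j = i) ↔ (∃ j ∈ J 0, q 0 j = i) ∧
              ∀ k : Fin (K + 1), ∃ j ∈ J k.succ, q k.succ j = i := Fin.forall_fin_succ
          by_cases h3 : ∃ j ∈ J 0, q 0 j = i
          · rw [if_pos h3]
            by_cases h4 : ∀ k : Fin (K + 1), ∃ j ∈ J k.succ, q k.succ j = i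
            · cases hb : b i with
              | false => simp
              | true =>
                have h5 : (true = true ∧ ∀ k, ∃ j ∈ J k, q k j = i) := ⟨rfl, e3.2 ⟨h3, h4⟩⟩
                rw [if_pos h5, if_pos ⟨rfl, h4⟩, if_neg (by simp), pow_succ]
                ring
            · have h5 : ¬ (b i = true ∧ ∀ k, ∃ j ∈ J k, q k j = i) := fun h => h4 (e3.1 h.2).2
              rw [if_neg h5, if_neg fun h => h4 h.2, if_neg fun h => h4 h.2]
              norm_num
          · have h5 : ¬ (b i = true ∧ ∀ k, ∃ j ∈ J k, q k j = i) := fun h => h3 (e3.1 h.2).1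
            rw [if_neg h3, if_neg h5]
            simp
      rw [expect_congr rfl fun x₀ _ => e1 x₀]
      exact Fintype.expect_const _
    have e3 : 𝔼 x, S b (tab q) x * ∏ k, φ k x = 𝔼 x, φ 0 x * F x := by
      refine expect_congr rfl fun p _ => ?_
      rw [Fin.prod_univ_succ]
      simp only [F]
      ring
    rw [e3]
    calc |𝔼 x, φ 0 x * F x| ^ 2 ^ (K + 1) = ((𝔼 x, φ 0 x * F x) ^ 2) ^ 2 ^ K := by
          rw [← sq_abs, ← pow_mul, pow_succ, mul_comm]
      _ ≤ |𝔼 z, g z| ^ 2 ^ K := by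
          refine pow_le_pow_left₀ (sq_nonneg _) ?_ _
          rw [← hg]
          exact hv.trans (le_abs_self _)
      _ ≤ 𝔼 z, |g z| ^ 2 ^ K := jensen g K
      _ ≤ _ := expect_le_expect fun z _ => hle z
      _ = _ := hfin

open Classical in
/-- The players `k` have the words `x k`, of which the letters in `J k` are hidden, for one
partition `q`.  The set `T` is closed under stars and `val (tab q)` is constant on it. -/
theorem cubeQ {K N₁ N₂ : ℕ} (hK : 1 ≤ K) (J : Fin K → Finset (Fin N₁))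
    (q : Fin K → Fin N₁ → Fin N₂) (T : (Fin K → Fin N₁ → Bool) → Prop)
    (hT : ∀ (u : Fin K → Fin N₁ → Bool) (v : Fin K → Fin K → Fin N₁ → Bool),
      (∀ k l, l ≠ k → v k l = u l) → (∀ k j, j ∉ J k → v k k j = u k j) →
      (∀ k, T (v k)) → T u)
    (b : Bool) (hb : ∀ x, T x → val (tab q) x = b) :
    (((univ.filter T).card : ℝ) / Fintype.card (Fin K → Fin N₁ → Bool)) ^ 2 ^ (K - 1) ≤
      (1 - (1 / 2 : ℝ) ^ (K - 1)) ^
        (univ.filter fun i : Fin N₂ => ∀ k, ∃ j ∈ J k, q k j = i).card := by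
  obtain ⟨K, rfl⟩ : ∃ K', K = K' + 1 := ⟨K - 1, by omega⟩
  let φ : Fin (K + 1) → (Fin (K + 1) → Fin N₁ → Bool) → ℝ := fun k x =>
    if ∃ v : Fin (K + 1) → Fin N₁ → Bool, (∀ l, l ≠ k → v l = x l) ∧ (∀ j, j ∉ J k →
      v k j = x k j) ∧ T v then 1 else 0
  have hprod : ∀ x, ∏ k, φ k x = if T x then 1 else 0 := by
    intro x
    by_cases h : T x
    · rw [if_pos h]
      refine prod_eq_one fun k _ => if_pos ⟨x, fun _ _ => rfl, fun _ _ => rfl, h⟩
    · rw [if_neg h]
      by_contra hne
      refine h ?_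
      have h1 : ∀ k, ∃ v : Fin (K + 1) → Fin N₁ → Bool, (∀ l, l ≠ k → v l = x l) ∧
          (∀ j, j ∉ J k → v k j = x k j) ∧ T v := by
        intro k
        by_contra hk
        exact hne (prod_eq_zero (mem_univ k) (if_neg hk))
      choose v hv1 hv2 hv3 using h1
      exact hT x v hv1 hv2 hv3
  have h := bnsQ K J q (fun _ : Fin N₂ => true) φ (fun k x => by
      simp only [φ]
      split_ifs <;> simp) (fun k x d => by
      simp only [φ]
      congr 1
      refine propext (exists_congr fun v => and_congr ?_ (and_congr ?_ Iff.rfl))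
      · refine forall_congr' fun l => imp_congr_right fun hl => ?_
        rw [Function.update_of_ne hl]
      · refine forall_congr' fun j => imp_congr_right fun hj => ?_
        rw [Function.update_self]
        simp [sh, hj])
  have hw : (∏ i : Fin N₂, if true = true ∧ ∀ k, ∃ j ∈ J k, q k j = i then
      1 - (1 / 2 : ℝ) ^ K else 1) =
      (1 - (1 / 2 : ℝ) ^ K) ^ (univ.filter fun i : Fin N₂ => ∀ k, ∃ j ∈ J k, q k j = i).card := by
    rw [prod_ite, prod_const_one, mul_one, prod_const]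
    simp
  have he : |𝔼 x : Fin (K + 1) → Fin N₁ → Bool, S (fun _ => true) (tab q) x * ∏ k, φ k x| =
      ((univ.filter T).card : ℝ) / Fintype.card (Fin (K + 1) → Fin N₁ → Bool) := by
    have h1 : ∀ x : Fin (K + 1) → Fin N₁ → Bool,
        S (fun _ => true) (tab q) x * ∏ k, φ k x = sgn b * if T x then 1 else 0 := by
      intro x
      rw [hprod, S_val]
      by_cases h : T x
      · rw [hb _ h]
      · simp [h]
    rw [expect_congr rfl fun x _ => h1 x, ← mul_expect, abs_mul, abs_sgn, one_mul,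
      Fintype.expect_eq_sum_div_card, sum_boole, abs_of_nonneg (by positivity)]
  rw [he, hw] at h
  simpa using h

end Pool.Agent.LS
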