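import Mathlib
import Pool.Agent.Lib.MP_0a1b52_lc_LS.DefsR
import Pool.Agent.Lib.MP_0a1b52_lc_LS.Cube

/-!
# Reading more than `c log² n` times, module DiscR: star-closed sets for many gadgets
-/

set_option autoImplicit false

namespace Pool.Agent.LS

open Finset

/-! ## Averages -/

/-- the average of `f` -/
private noncomputable def av {α : Type} [Fintype α] (f : α → ℝ) : ℝ :=
  (∑ a, f a) / Fintype.card α

section average

variable {α β : Type} [Fintype α] [Fintype β]

private theorem av_mono {f g : α → ℝ} (h : ∀ a, f a ≤ g a) : av f ≤ av g :=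
  div_le_div_of_nonneg_right (sum_le_sum fun a _ => h a) (Nat.cast_nonneg _)

private theorem av_congr {f g : α → ℝ} (h : ∀ a, f a = g a) : av f = av g := by
  rw [funext h]

private theorem av_nonneg {f : α → ℝ} (h : ∀ a, 0 ≤ f a) : 0 ≤ av f :=
  div_nonneg (sum_nonneg fun a _ => h a) (Nat.cast_nonneg _)

private theorem av_const [Nonempty α] (c : ℝ) : av (fun _ : α => c) = c := by
  have h : (Fintype.card α : ℝ) ≠ 0 := Nat.cast_ne_zero.2 Fintype.card_ne_zero
  rw [av, sum_const, card_univ, nsmul_eq_mul]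
  field_simp

private theorem av_mul (c : ℝ) (f : α → ℝ) : av (fun a => c * f a) = c * av f := by
  rw [av, av, ← mul_sum, mul_div_assoc]

private theorem av_add (f g : α → ℝ) : av (fun a => f a + g a) = av f + av g := by
  rw [av, av, av, sum_add_distrib, add_div]

private theorem av_sum {γ : Type} (s : Finset γ) (f : γ → α → ℝ) :
    av (fun a => ∑ c ∈ s, f c a) = ∑ c ∈ s, av (f c) := by
  simp only [av]
  rw [sum_comm, sum_div]

private theorem av_prod (f : α × β → ℝ) : av f = av fun a => av fun b => f (a, b) := by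
  simp only [av]
  rw [← sum_div, div_div, Fintype.card_prod, Fintype.sum_prod_type, Nat.cast_mul, mul_comm]

private theorem av_equiv (e : α ≃ β) (f : β → ℝ) : av (fun a => f (e a)) = av f := by
  rw [av, av, Fintype.card_congr e, Equiv.sum_comp e f]

private theorem av_pow [Nonempty α] {f : α → ℝ} (h : ∀ a, 0 ≤ f a) (n : ℕ) :
    av f ^ n ≤ av fun a => f a ^ n := by
  have h0 : (0 : ℝ) < Fintype.card α := Nat.cast_pos.2 Fintype.card_pos
  have h1 := Real.pow_arith_mean_le_arith_mean_pow univ
    (fun _ : α => ((Fintype.card α : ℝ))⁻¹) f (fun _ _ => inv_nonneg.2 h0.le) (by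
      rw [sum_const, card_univ, nsmul_eq_mul, mul_inv_cancel₀ h0.ne']) (fun a _ => h a) n
  rw [← mul_sum, ← mul_sum] at h1
  rw [av, av, div_eq_inv_mul, div_eq_inv_mul]
  exact h1

private theorem av_prod_fun {ι Z : Type} [Fintype ι] [DecidableEq ι] [Fintype Z]
    (h : ι → Z → ℝ) : av (fun y : ι → Z => ∏ i, h i (y i)) = ∏ i, av (h i) := by
  simp only [av]
  rw [prod_div_distrib, prod_univ_sum, Fintype.piFinset_univ, prod_const, card_univ,
    Fintype.card_fun, Nat.cast_pow]

end average

open Classical in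
/-- the indicator of a proposition -/
private noncomputable def ind (p : Prop) : ℝ := if p then 1 else 0

private theorem ind_of {p : Prop} (h : p) : ind p = 1 := if_pos h

private theorem ind_not {p : Prop} (h : ¬ p) : ind p = 0 := if_neg h

private theorem ind_nonneg (p : Prop) : 0 ≤ ind p := by
  by_cases h : p
  · rw [ind_of h]
    exact zero_le_one
  · rw [ind_not h]

private theorem ind_le_one (p : Prop) : ind p ≤ 1 := by
  by_cases h : p
  · rw [ind_of h]
  · rw [ind_not h]
    exact zero_le_one

private theorem ind_mono {p p' : Prop} (h : p → p') : ind p ≤ ind p' := by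
  by_cases h1 : p
  · rw [ind_of h1, ind_of (h h1)]
  · rw [ind_not h1]
    exact ind_nonneg _

private theorem ind_congr {p p' : Prop} (h : p ↔ p') : ind p = ind p' := by
  rw [propext h]

private theorem ind_forall {ι : Type} [Fintype ι] (p : ι → Prop) :
    ind (∀ i, p i) = ∏ i, ind (p i) := by
  by_cases h : ∀ i, p i
  · rw [ind_of h, prod_eq_one fun i _ => ind_of (h i)]
  · obtain ⟨i, hi⟩ := not_forall.1 h
    rw [ind_not h, prod_eq_zero (mem_univ i) (ind_not hi)]

/-! ## Parities -/

/-- the sign of a bit -/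
private def sg (b : Bool) : ℝ := if b = true then -1 else 1

private theorem sg_inj {a b : Bool} (h : sg a = sg b) : a = b := by
  cases a <;> cases b <;> first | rfl | (exfalso; simp [sg] at h; linarith)

private theorem sg_par {n : ℕ} (f : Fin n → Bool) : sg (par f) = ∏ i, sg (f i) := by
  have h1 : ∏ i, sg (f i) = (-1 : ℝ) ^ (univ.filter fun i => f i = true).card := by
    simp only [sg]
    rw [prod_ite, prod_const, prod_const, one_pow, mul_one]
  rw [h1, par]
  rcases Nat.mod_two_eq_zero_or_one (univ.filter fun i => f i = true).card with h | h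
  · rw [h, Even.neg_one_pow (Nat.even_iff.2 h)]
    simp [sg]
  · rw [h, Odd.neg_one_pow (Nat.odd_iff.2 h)]
    simp [sg]

private theorem par_false {n : ℕ} : par (fun _ : Fin n => false) = false := by
  apply sg_inj
  rw [sg_par]
  simp [sg]

private theorem par_single {n : ℕ} (f : Fin n → Bool) (a : Fin n) (h : ∀ b, b ≠ a → f b = false) :
    par f = f a := by
  apply sg_inj
  rw [sg_par, prod_eq_single a]
  · intro b _ hb
    rw [h b hb]
    simp [sg]
  · intro h
    exact (h (mem_univ a)).elim

private theorem par_pair {a b : ℕ} (f : Fin (a * b) → Bool) :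
    par f = par fun i : Fin a => par fun j : Fin b => f (finProdFinEquiv (i, j)) := by
  apply sg_inj
  rw [sg_par, sg_par, ← Equiv.prod_comp finProdFinEquiv, Fintype.prod_prod_type]
  exact prod_congr rfl fun i _ => (sg_par _).symm

/-! ## One pair of tables -/

section

variable {K P G B : ℕ}

/-- the blocks of the letters -/
private def bl (q : QR K P G B) (k : Fin K) (j : Fin (P * G)) : Fin (G * B) :=
  finProdFinEquiv ((q.1 k (finProdFinEquiv.symm j).1).symm (finProdFinEquiv.symm j).2,
    q.2 k (finProdFinEquiv.symm j).1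
      ((q.1 k (finProdFinEquiv.symm j).1).symm (finProdFinEquiv.symm j).2))

private theorem bl_pair (q : QR K P G B) (k : Fin K) (p : Fin P) (g : Fin G) :
    bl q k (finProdFinEquiv (p, g)) =
      finProdFinEquiv ((q.1 k p).symm g, q.2 k p ((q.1 k p).symm g)) := by
  simp only [bl, Equiv.symm_apply_apply]

/-- the words as functions of one index -/
private def wd (P G : ℕ) : (Fin K → Fin (P * G) → Bool) ≃ WR K P G where
  toFun y := fun k p g => y k (finProdFinEquiv (p, g))
  invFun x := fun k j => x k (finProdFinEquiv.symm j).1 (finProdFinEquiv.symm j).2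
  left_inv y := by
    funext k j
    change y k (finProdFinEquiv (finProdFinEquiv.symm j)) = y k j
    rw [Equiv.apply_symm_apply]
  right_inv x := by
    funext k p g
    simp only [Equiv.symm_apply_apply]

private theorem val_bl (q : QR K P G B) (y : Fin K → Fin (P * G) → Bool)
    (h : ∀ i, valR q (wd P G y) i = false) : val (tab (bl q)) y = false := by
  rw [val, par_pair]
  have h1 : ∀ i : Fin G, (par fun b : Fin B => decide (∀ k, (par fun j =>
      tab (bl q) k (finProdFinEquiv (i, b)) j && y k j) = true)) = valR q (wd P G y) i := by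
    intro i
    rw [valR, val]
    congr 1
    funext b
    have h2 : ∀ k : Fin K, (par fun j => tab (bl q) k (finProdFinEquiv (i, b)) j && y k j) =
        par fun p : Fin P => tab (fun k p => q.2 k p i) k b p &&
          wd P G y k p (q.1 k p i) := by
      intro k
      rw [par_pair]
      congr 1
      funext p
      rw [par_single _ (q.1 k p i)]
      · simp only [tab, bl_pair, Equiv.symm_apply_apply]
        have h3 : (finProdFinEquiv (i, q.2 k p i) = finProdFinEquiv (i, b)) ↔
            q.2 k p i = b := by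
          constructor
          · intro h4
            exact congrArg Prod.snd (finProdFinEquiv.injective h4)
          · intro h4
            rw [h4]
        simp only [h3]
        rfl
      · intro g hg
        have h3 : ¬ bl q k (finProdFinEquiv (p, g)) = finProdFinEquiv (i, b) := by
          rw [bl_pair]
          intro h4
          have h5 : (q.1 k p).symm g = i := congrArg Prod.fst (finProdFinEquiv.injective h4)
          apply hg
          rw [← h5, Equiv.apply_symm_apply]
        simp only [tab, h3, decide_false, Bool.false_and]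
    simp only [h2]
  have h2 : (fun i : Fin G => par fun b : Fin B => decide (∀ k, (par fun j =>
      tab (bl q) k (finProdFinEquiv (i, b)) j && y k j) = true)) = fun _ => false :=
    funext fun i => (h1 i).trans (h i)
  rw [h2, par_false]

/-- a word `k` whose hidden letters miss many blocks -/
private def Bad (J : Fin K → Finset (Fin P × Fin G)) (q : QR K P G B) : Prop :=
  ∃ k, ∃ R : Finset (Fin (G * B)), G * B < 2 * K * R.card ∧
    ∀ p g, (p, g) ∈ J k → bl q k (finProdFinEquiv (p, g)) ∉ R

private theorem good (hK : 1 ≤ K) (J : Fin K → Finset (Fin P × Fin G)) (q : QR K P G B)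
    (hq : ¬ Bad J q) (T : WR K P G → Prop)
    (hT : ∀ (u : WR K P G) (v : Fin K → WR K P G), (∀ k l, l ≠ k → v k l = u l) →
      (∀ k p g, (p, g) ∉ J k → v k k p g = u k p g) → (∀ k, T (v k)) → T u)
    (hb : ∀ x, T x → ∀ i, valR q x i = false) :
    (av fun x => ind (T x)) ^ 2 ^ (K - 1) ≤ (1 - (1 / 2 : ℝ) ^ (K - 1)) ^ (G * B / 2) := by
  classical
  let J' : Fin K → Finset (Fin (P * G)) := fun k => (J k).map finProdFinEquiv.toEmbedding
  have hJ' : ∀ k p g, finProdFinEquiv (p, g) ∈ J' k ↔ (p, g) ∈ J k := by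
    intro k p g
    exact mem_map' finProdFinEquiv.toEmbedding
  have h0 := cubeQ hK J' (bl q) (fun y => T (wd P G y)) (by
    intro u v h1 h2 h3
    refine hT (wd P G u) (fun k => wd P G (v k)) (fun k l hl => ?_) (fun k p g hg => ?_) h3
    · change (fun p g => v k l (finProdFinEquiv (p, g))) = fun p g => u l (finProdFinEquiv (p, g))
      rw [h1 k l hl]
    · exact h2 k _ fun h4 => hg ((hJ' k p g).1 h4)) false (fun y hy => val_bl q y (hb _ hy))
  have h00 : (((univ.filter fun y : Fin K → Fin (P * G) → Bool => T (wd P G y)).card : ℝ) /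
      Fintype.card (Fin K → Fin (P * G) → Bool)) = av fun x => ind (T x) := by
    rw [← av_equiv (wd P G) fun x => ind (T x), av]
    congr 1
    rw [← sum_boole]
    refine sum_congr rfl fun y _ => ?_
    by_cases h : T (wd P G y)
    · rw [if_pos h, ind_of h]
    · rw [if_neg h, ind_not h]
  rw [← h00]
  refine le_trans (le_of_eq ?_) (h0.trans ?_)
  · congr 3
  let I : Finset (Fin (G * B)) := univ.filter fun i => ∀ k, ∃ j ∈ J' k, bl q k j = i
  have h2 : G * B / 2 ≤ I.card := by
    let M : Fin K → Finset (Fin (G * B)) := fun k =>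
      univ.filter fun i => ¬ ∃ j ∈ J' k, bl q k j = i
    have h3 : Iᶜ ⊆ univ.biUnion M := by
      intro i hi
      have h4 : ¬ ∀ k, ∃ j ∈ J' k, bl q k j = i := fun h =>
        mem_compl.1 hi (mem_filter.2 ⟨mem_univ _, h⟩)
      obtain ⟨k, hk⟩ := not_forall.1 h4
      exact mem_biUnion.2 ⟨k, mem_univ _, mem_filter.2 ⟨mem_univ _, hk⟩⟩
    have h4 : ∀ k, 2 * K * (M k).card ≤ G * B := by
      intro k
      by_contra hc
      exact hq ⟨k, M k, not_le.1 hc, fun p g hj h =>
        (mem_filter.1 h).2 ⟨_, (hJ' k p g).2 hj, rfl⟩⟩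
    have h5 : 2 * K * Iᶜ.card ≤ K * (G * B) := by
      calc 2 * K * Iᶜ.card ≤ 2 * K * ∑ k, (M k).card :=
            Nat.mul_le_mul_left _ ((card_le_card h3).trans card_biUnion_le)
        _ = ∑ k, 2 * K * (M k).card := mul_sum _ _ _
        _ ≤ ∑ _k : Fin K, G * B := sum_le_sum fun k _ => h4 k
        _ = K * (G * B) := by rw [sum_const, card_univ, Fintype.card_fin, smul_eq_mul]
    have h6 : 2 * Iᶜ.card ≤ G * B := by
      have h6 : K * (2 * Iᶜ.card) ≤ K * (G * B) := by
        calc K * (2 * Iᶜ.card) = 2 * K * Iᶜ.card := by ring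
          _ ≤ K * (G * B) := h5
      exact Nat.le_of_mul_le_mul_left h6 hK
    rw [card_compl, Fintype.card_fin] at h6
    have h7 : I.card ≤ G * B := by
      have := card_le_univ I
      rwa [Fintype.card_fin] at this
    omega
  have h8 : (0 : ℝ) ≤ 1 - (1 / 2 : ℝ) ^ (K - 1) := by
    have h5 : (1 / 2 : ℝ) ^ (K - 1) ≤ 1 := pow_le_one₀ (by norm_num) (by norm_num)
    linarith
  have h9 : 1 - (1 / 2 : ℝ) ^ (K - 1) ≤ 1 := by
    have h5 : (0 : ℝ) ≤ (1 / 2 : ℝ) ^ (K - 1) := pow_nonneg (by norm_num) _
    linarith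
  refine pow_le_pow_of_le_one h8 h9 (h2.trans (le_of_eq ?_))
  rfl

/-! ## The tail -/

private theorem perm_tail (hK : 1 ≤ K) (hG : 8 * K ≤ G) (a : Fin G → ℝ) (ha : ∀ i, 0 ≤ a i)
    (hs : ∑ i, a i ≤ G * (1 - 1 / (2 * K : ℝ))) (J : Finset (Fin G)) :
    8 * K * J.card ≤ G →
    av (fun σ : Equiv.Perm (Fin G) => ∏ g ∈ J, a (σ.symm g)) ≤
      (1 - 1 / (4 * K : ℝ)) ^ J.card := by
  classical
  have hK0 : (1 : ℝ) ≤ K := by exact_mod_cast hK
  have hG0 : (0 : ℝ) < G := by
    have : 0 < G := by omega
    exact_mod_cast this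
  have hk : (0 : ℝ) ≤ 1 / (8 * K : ℝ) ∧ 1 / (8 * K : ℝ) ≤ 1 / 8 := by
    refine ⟨by positivity, ?_⟩
    rw [div_le_div_iff₀ (by positivity) (by norm_num)]
    linarith
  obtain ⟨t, ht⟩ : ∃ t, t = 1 / (8 * K : ℝ) := ⟨_, rfl⟩
  have h2 : 1 / (2 * K : ℝ) = 4 * t := by
    rw [ht]
    field_simp
    norm_num
  have h4 : 1 / (4 * K : ℝ) = 2 * t := by
    rw [ht]
    field_simp
    norm_num
  rw [← ht] at hk
  rw [h2] at hs
  rw [h4]
  induction J using Finset.induction_on with
  | empty =>
    intro _
    simp only [prod_empty, card_empty, pow_zero]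
    rw [av_const]
  | insert g₀ J hg₀ ih =>
    intro hJ
    rw [card_insert_of_notMem hg₀] at hJ ⊢
    have hJ' : 8 * K * J.card ≤ G := le_trans (Nat.mul_le_mul_left _ (Nat.le_succ _)) hJ
    have ih' := ih hJ'
    have h5 : ∀ h, h ∉ J → av (fun σ : Equiv.Perm (Fin G) => ∏ g ∈ insert g₀ J, a (σ.symm g)) =
        av fun σ : Equiv.Perm (Fin G) => (∏ g ∈ J, a (σ.symm g)) * a (σ.symm h) := by
      intro h hh
      rw [← av_equiv (Equiv.mulLeft (Equiv.swap g₀ h))]
      refine av_congr fun σ => ?_
      have h6 : ∀ g, (Equiv.mulLeft (Equiv.swap g₀ h) σ).symm g =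
          σ.symm (Equiv.swap g₀ h g) := by
        intro g
        rw [Equiv.symm_apply_eq]
        change g = Equiv.swap g₀ h (σ (σ.symm (Equiv.swap g₀ h g)))
        rw [Equiv.apply_symm_apply, Equiv.swap_apply_self]
      rw [prod_insert hg₀, h6, Equiv.swap_apply_left, mul_comm]
      congr 1
      refine prod_congr rfl fun g hg => ?_
      rw [h6, Equiv.swap_apply_of_ne_of_ne (fun h7 : g = g₀ => hg₀ (h7 ▸ hg))
        (fun h7 : g = h => hh (h7 ▸ hg))]
    obtain ⟨y, hy⟩ : ∃ y, y = av (fun σ : Equiv.Perm (Fin G) =>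
        ∏ g ∈ insert g₀ J, a (σ.symm g)) := ⟨_, rfl⟩
    have hF : ∀ σ : Equiv.Perm (Fin G), 0 ≤ ∏ g ∈ J, a (σ.symm g) := fun σ =>
      prod_nonneg fun g _ => ha _
    have hy0 : 0 ≤ y := by
      rw [hy]
      exact av_nonneg fun σ => prod_nonneg fun g _ => ha _
    have h7 : (Jᶜ.card : ℝ) * y ≤ (G * (1 - 4 * t)) * (1 - 2 * t) ^ J.card := by
      calc (Jᶜ.card : ℝ) * y = ∑ h ∈ Jᶜ, y := by rw [sum_const, nsmul_eq_mul]
        _ = ∑ h ∈ Jᶜ, av fun σ : Equiv.Perm (Fin G) =>
              (∏ g ∈ J, a (σ.symm g)) * a (σ.symm h) := by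
            refine sum_congr rfl fun h hh => ?_
            rw [hy]
            exact h5 h (mem_compl.1 hh)
        _ = av fun σ : Equiv.Perm (Fin G) => ∑ h ∈ Jᶜ,
              (∏ g ∈ J, a (σ.symm g)) * a (σ.symm h) :=
            (av_sum Jᶜ fun h (σ : Equiv.Perm (Fin G)) =>
              (∏ g ∈ J, a (σ.symm g)) * a (σ.symm h)).symm
        _ ≤ av fun σ : Equiv.Perm (Fin G) =>
              (G * (1 - 4 * t)) * ∏ g ∈ J, a (σ.symm g) := by
            refine av_mono fun σ => ?_
            rw [← mul_sum, mul_comm]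
            refine mul_le_mul_of_nonneg_right (le_trans ?_ hs) (hF σ)
            calc ∑ h ∈ Jᶜ, a (σ.symm h) ≤ ∑ h, a (σ.symm h) :=
                  sum_le_sum_of_subset_of_nonneg (subset_univ _) fun h _ _ => ha _
              _ = ∑ i, a i := Equiv.sum_comp σ.symm a
        _ = (G * (1 - 4 * t)) * av fun σ : Equiv.Perm (Fin G) => ∏ g ∈ J, a (σ.symm g) :=
            av_mul _ _
        _ ≤ _ := by
            refine mul_le_mul_of_nonneg_left ih' ?_
            have : 0 ≤ 1 - 4 * t := by linarith
            positivity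
    have h8 : (G : ℝ) * (1 - t) ≤ (Jᶜ.card : ℝ) := by
      rw [card_compl, Fintype.card_fin, Nat.cast_sub (by nlinarith)]
      have h9 : (8 * K * J.card : ℝ) ≤ G := by exact_mod_cast hJ'
      have h10 : (J.card : ℝ) ≤ G * t := by
        rw [ht, mul_one_div, le_div_iff₀ (by positivity)]
        linarith
      linarith
    rw [← hy]
    have h9 : (0 : ℝ) < G * (1 - t) := mul_pos hG0 (by linarith)
    have h10 : (G * (1 - t)) * y ≤ (G * (1 - t)) * (1 - 2 * t) ^ (J.card + 1) := by
      have h11 : (0 : ℝ) ≤ (1 - 2 * t) ^ J.card := pow_nonneg (by linarith) _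
      calc (G * (1 - t)) * y ≤ (Jᶜ.card : ℝ) * y := mul_le_mul_of_nonneg_right h8 hy0
        _ ≤ (G * (1 - 4 * t)) * (1 - 2 * t) ^ J.card := h7
        _ ≤ (G * ((1 - t) * (1 - 2 * t))) * (1 - 2 * t) ^ J.card := by
            refine mul_le_mul_of_nonneg_right (mul_le_mul_of_nonneg_left ?_ hG0.le) h11
            nlinarith
        _ = _ := by rw [pow_succ]; ring
    exact le_of_mul_le_mul_left h10 h9

private theorem pos_tail (hK : 1 ≤ K) (hG : 8 * K ≤ G) (hB : 1 ≤ B) (R : Finset (Fin (G * B)))
    (hR : G * B < 2 * K * R.card) (J : Finset (Fin G)) (hJ : 8 * K * J.card ≤ G) :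
    av (fun z : Equiv.Perm (Fin G) × (Fin G → Fin B) =>
      ind (∀ g ∈ J, finProdFinEquiv (z.1.symm g, z.2 (z.1.symm g)) ∉ R)) ≤
      (1 - 1 / (4 * K : ℝ)) ^ J.card := by
  classical
  have hB0 : (0 : ℝ) < B := by exact_mod_cast hB
  have hK0 : (0 : ℝ) < K := by exact_mod_cast hK
  have : Nonempty (Fin B) := ⟨⟨0, hB⟩⟩
  let a : Fin G → ℝ := fun i => av fun b : Fin B => ind (finProdFinEquiv (i, b) ∉ R)
  have h1 : av (fun z : Equiv.Perm (Fin G) × (Fin G → Fin B) =>
      ind (∀ g ∈ J, finProdFinEquiv (z.1.symm g, z.2 (z.1.symm g)) ∉ R)) =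
      av fun σ : Equiv.Perm (Fin G) => ∏ g ∈ J, a (σ.symm g) := by
    rw [av_prod]
    refine av_congr fun σ => ?_
    have h2 : ∀ β : Fin G → Fin B,
        ind (∀ g ∈ J, finProdFinEquiv (σ.symm g, β (σ.symm g)) ∉ R) =
          ∏ i, (fun (i : Fin G) (b : Fin B) => ind (σ i ∈ J → finProdFinEquiv (i, b) ∉ R))
            i (β i) := by
      intro β
      rw [← ind_forall]
      refine ind_congr ⟨fun h i hi => ?_, fun h g hg => ?_⟩
      · have h3 := h _ hi
        rwa [Equiv.symm_apply_apply] at h3
      · exact h _ (by rw [Equiv.apply_symm_apply]; exact hg)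
    rw [av_congr h2]
    refine (av_prod_fun fun (i : Fin G) (b : Fin B) =>
      ind (σ i ∈ J → finProdFinEquiv (i, b) ∉ R)).trans ?_
    have h3 : ∀ i, av (fun b : Fin B => ind (σ i ∈ J → finProdFinEquiv (i, b) ∉ R)) =
        (fun g => if g ∈ J then a (σ.symm g) else 1) (σ i) := by
      intro i
      by_cases hi : σ i ∈ J
      · simp only [if_pos hi, Equiv.symm_apply_apply]
        exact av_congr fun b => ind_congr ⟨fun h => h hi, fun h _ => h⟩
      · simp only [if_neg hi]
        rw [← av_const (α := Fin B) (1 : ℝ)]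
        exact av_congr fun b => ind_of fun h => (hi h).elim
    rw [prod_congr rfl fun i _ => h3 i,
      Equiv.prod_comp σ fun g => if g ∈ J then a (σ.symm g) else 1, prod_ite_mem, univ_inter]
  rw [h1]
  refine perm_tail hK hG a (fun i => av_nonneg fun b => ind_nonneg _) ?_ J hJ
  have h2 : ∑ i, a i = ((G * B : ℕ) - R.card) / (B : ℝ) := by
    simp only [a, av, Fintype.card_fin]
    rw [← sum_div]
    congr 1
    have h3 : ∑ i : Fin G, ∑ b : Fin B, ind (finProdFinEquiv (i, b) ∉ R) =
        ∑ c : Fin (G * B), ind (c ∉ R) := by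
      rw [← Equiv.sum_comp finProdFinEquiv, Fintype.sum_prod_type]
    rw [h3]
    have h4 : ∀ c : Fin (G * B), ind (c ∉ R) = if c ∈ Rᶜ then (1 : ℝ) else 0 := by
      intro c
      by_cases hc : c ∈ R
      · rw [if_neg fun h => mem_compl.1 h hc, ind_not fun h => h hc]
      · rw [if_pos (mem_compl.2 hc), ind_of hc]
    rw [sum_congr rfl fun c _ => h4 c, sum_boole, filter_mem_eq_inter, univ_inter, card_compl,
      Fintype.card_fin, Nat.cast_sub (by
        have := card_le_univ R
        rwa [Fintype.card_fin] at this)]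
  rw [h2, div_le_iff₀ hB0]
  have h3 : ((G * B : ℕ) : ℝ) < 2 * K * R.card := by exact_mod_cast hR
  have h4 : (G : ℝ) * (1 - 1 / (2 * K : ℝ)) * B = ((G * B : ℕ) : ℝ) -
      ((G * B : ℕ) : ℝ) / (2 * K) := by
    push_cast
    ring
  rw [h4]
  have h5 : ((G * B : ℕ) : ℝ) / (2 * K) ≤ R.card := by
    rw [div_le_iff₀ (by positivity)]
    linarith
  linarith

/-- the tables as a function of the positions -/
private def qe (K P G B : ℕ) : (Fin K → Fin P → Equiv.Perm (Fin G) × (Fin G → Fin B)) ≃
    QR K P G B where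
  toFun z := (fun k p => (z k p).1, fun k p => (z k p).2)
  invFun q := fun k p => (q.1 k p, q.2 k p)
  left_inv _ := rfl
  right_inv _ := rfl

private theorem bad (hK : 1 ≤ K) (hG : 8 * K ≤ G) (X : ℕ) (J : Fin K → Finset (Fin P × Fin G))
    (hJ : ∀ k, X ≤ (J k).card) (hB : 1 ≤ B) :
    av (fun q : QR K P G B => ind (Bad J q)) ≤
      K * 2 ^ (G * B) * (1 - 1 / (4 * K : ℝ)) ^ (X / (16 * K)) := by
  classical
  have hK0 : (1 : ℝ) ≤ K := by exact_mod_cast hK
  have : Nonempty (Fin B) := ⟨⟨0, hB⟩⟩
  have hp0 : (0 : ℝ) ≤ 1 - 1 / (4 * K : ℝ) := by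
    have h1 : 1 / (4 * K : ℝ) ≤ 1 := by
      rw [div_le_one (by positivity)]
      linarith
    linarith
  have hp1 : 1 - 1 / (4 * K : ℝ) ≤ 1 := by
    have h1 : (0 : ℝ) ≤ 1 / (4 * K : ℝ) := by positivity
    linarith
  have h1 : ∀ (k : Fin K) (R : Finset (Fin (G * B))),
      av (fun q : QR K P G B => ind (G * B < 2 * K * R.card ∧
        ∀ p g, (p, g) ∈ J k → bl q k (finProdFinEquiv (p, g)) ∉ R)) ≤
        (1 - 1 / (4 * K : ℝ)) ^ (X / (16 * K)) := by
    intro k R
    by_cases hR : G * B < 2 * K * R.card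
    · have hex : ∀ p : Fin P, ∃ L : Finset (Fin G), (∀ g ∈ L, (p, g) ∈ J k) ∧
          8 * K * L.card ≤ G ∧ (univ.filter fun g => (p, g) ∈ J k).card ≤ 16 * K * L.card := by
        intro p
        have hle : min (univ.filter fun g => (p, g) ∈ J k).card (G / (8 * K)) ≤
            (univ.filter fun g => (p, g) ∈ J k).card := min_le_left _ _
        obtain ⟨L, hL, hLc⟩ := exists_subset_card_eq hle
        refine ⟨L, fun g hg => (mem_filter.1 (hL hg)).2, ?_, ?_⟩
        · rw [hLc]
          calc 8 * K * min (univ.filter fun g => (p, g) ∈ J k).card (G / (8 * K)) ≤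
              8 * K * (G / (8 * K)) := Nat.mul_le_mul_left _ (min_le_right _ _)
            _ ≤ G := Nat.mul_div_le _ _
        · rw [hLc]
          rcases min_choice (univ.filter fun g => (p, g) ∈ J k).card (G / (8 * K)) with h | h
          · rw [h]
            refine Nat.le_mul_of_pos_left _ (by omega)
          · rw [h]
            have h3 : (univ.filter fun g => (p, g) ∈ J k).card ≤ G := by
              have := card_le_univ (univ.filter fun g => (p, g) ∈ J k)
              rwa [Fintype.card_fin] at this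
            have h4 : G < 8 * K * (G / (8 * K) + 1) := Nat.lt_mul_div_succ _ (by omega)
            have h5 : 1 ≤ G / (8 * K) := (Nat.one_le_div_iff (by omega)).2 hG
            have h6 : 8 * K * (G / (8 * K) + 1) ≤ 16 * K * (G / (8 * K)) := by nlinarith
            omega
      choose L hL1 hL2 hL3 using hex
      have h2 : ∀ z : Fin K → Fin P → Equiv.Perm (Fin G) × (Fin G → Fin B),
          ind (G * B < 2 * K * R.card ∧
            ∀ p g, (p, g) ∈ J k → bl (qe K P G B z) k (finProdFinEquiv (p, g)) ∉ R) ≤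
            ∏ l, (fun (l : Fin K) (y : Fin P → Equiv.Perm (Fin G) × (Fin G → Fin B)) =>
              ind (l = k → ∀ p, ∀ g ∈ L p,
                finProdFinEquiv ((y p).1.symm g, (y p).2 ((y p).1.symm g)) ∉ R)) l (z l) := by
        intro z
        rw [← ind_forall]
        refine ind_mono fun h l hl p g hg => ?_
        subst hl
        have h3 := h.2 p g (hL1 p g hg)
        rw [bl_pair] at h3
        exact h3
      rw [← av_equiv (qe K P G B)]
      refine (av_mono h2).trans ?_
      refine (le_of_eq (av_prod_fun fun (l : Fin K)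
        (y : Fin P → Equiv.Perm (Fin G) × (Fin G → Fin B)) => ind (l = k → ∀ p, ∀ g ∈ L p,
          finProdFinEquiv ((y p).1.symm g, (y p).2 ((y p).1.symm g)) ∉ R))).trans ?_
      rw [prod_eq_single k]
      · have h3 : ∀ y : Fin P → Equiv.Perm (Fin G) × (Fin G → Fin B),
            ind (k = k → ∀ p, ∀ g ∈ L p,
              finProdFinEquiv ((y p).1.symm g, (y p).2 ((y p).1.symm g)) ∉ R) =
            ∏ p, (fun (p : Fin P) (w : Equiv.Perm (Fin G) × (Fin G → Fin B)) =>
              ind (∀ g ∈ L p, finProdFinEquiv (w.1.symm g, w.2 (w.1.symm g)) ∉ R)) p (y p) := by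
          intro y
          rw [← ind_forall]
          exact ind_congr ⟨fun h => h rfl, fun h _ => h⟩
        rw [av_congr h3]
        refine (le_of_eq (av_prod_fun fun (p : Fin P)
          (w : Equiv.Perm (Fin G) × (Fin G → Fin B)) =>
            ind (∀ g ∈ L p, finProdFinEquiv (w.1.symm g, w.2 (w.1.symm g)) ∉ R))).trans ?_
        calc ∏ p, av (fun w : Equiv.Perm (Fin G) × (Fin G → Fin B) =>
              ind (∀ g ∈ L p, finProdFinEquiv (w.1.symm g, w.2 (w.1.symm g)) ∉ R))
            ≤ ∏ p, (1 - 1 / (4 * K : ℝ)) ^ (L p).card :=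
              prod_le_prod (fun p _ => av_nonneg fun w => ind_nonneg _) fun p _ =>
                pos_tail hK hG hB R hR (L p) (hL2 p)
          _ = (1 - 1 / (4 * K : ℝ)) ^ ∑ p, (L p).card := prod_pow_eq_pow_sum _ _ _
          _ ≤ _ := by
              refine pow_le_pow_of_le_one hp0 hp1 ?_
              refine Nat.div_le_of_le_mul ?_
              calc X ≤ (J k).card := hJ k
                _ = ∑ p, (univ.filter fun g => (p, g) ∈ J k).card := by
                    rw [card_eq_sum_card_fiberwise (f := fun z : Fin P × Fin G => z.1)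
                      (t := univ) fun z _ => mem_coe.2 (mem_univ _)]
                    refine sum_congr rfl fun p _ => ?_
                    refine card_bij (fun z _ => z.2) ?_ ?_ ?_
                    · rintro ⟨p', g⟩ hz
                      obtain ⟨hz1, hz2⟩ := mem_filter.1 hz
                      change p' = p at hz2
                      subst hz2
                      exact mem_filter.2 ⟨mem_univ _, hz1⟩
                    · rintro ⟨p', g⟩ hz ⟨p'', g'⟩ hz' h4
                      have h5 : p' = p := (mem_filter.1 hz).2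
                      have h6 : p'' = p := (mem_filter.1 hz').2
                      exact Prod.ext (h5.trans h6.symm) h4
                    · intro g hg
                      exact ⟨(p, g), mem_filter.2 ⟨(mem_filter.1 hg).2, rfl⟩, rfl⟩
                _ ≤ ∑ p, 16 * K * (L p).card := sum_le_sum fun p _ => hL3 p
                _ = 16 * K * ∑ p, (L p).card := (mul_sum _ _ _).symm
      · intro l _ hl
        have hne : Nonempty (Fin P → Equiv.Perm (Fin G) × (Fin G → Fin B)) := inferInstance
        rw [← av_const (α := Fin P → Equiv.Perm (Fin G) × (Fin G → Fin B)) (1 : ℝ)]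
        exact av_congr fun y => ind_of fun h => (hl h).elim
      · intro h
        exact (h (mem_univ k)).elim
    · have hne : Nonempty (QR K P G B) := inferInstance
      rw [av_congr fun q => ind_not fun h => hR h.1, av_const]
      exact pow_nonneg hp0 _
  have h2 : ∀ q : QR K P G B, ind (Bad J q) ≤ ∑ w : Fin K × Finset (Fin (G * B)),
      ind (G * B < 2 * K * w.2.card ∧
        ∀ p g, (p, g) ∈ J w.1 → bl q w.1 (finProdFinEquiv (p, g)) ∉ w.2) := by
    intro q
    by_cases h : Bad J q
    · obtain ⟨k, R, h3⟩ := h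
      rw [ind_of ⟨k, R, h3⟩, ← ind_of h3]
      exact single_le_sum (f := fun w : Fin K × Finset (Fin (G * B)) =>
        ind (G * B < 2 * K * w.2.card ∧
          ∀ p g, (p, g) ∈ J w.1 → bl q w.1 (finProdFinEquiv (p, g)) ∉ w.2))
        (fun w _ => ind_nonneg _) (mem_univ (k, R))
    · rw [ind_not h]
      exact sum_nonneg fun w _ => ind_nonneg _
  refine (av_mono h2).trans ?_
  rw [av_sum]
  refine (sum_le_sum fun w _ => h1 w.1 w.2).trans (le_of_eq ?_)
  rw [sum_const, card_univ, Fintype.card_prod, Fintype.card_fin, Fintype.card_finset,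
    Fintype.card_fin, nsmul_eq_mul]
  push_cast
  ring

end

open Classical in
/-- The letters of the player `k` in `J k` are hidden, the tables `q` are random and visible.  The
set `T q` is closed under stars and all gadgets have the value `false` on it. -/
theorem discR {K P G B : ℕ} (hK : 1 ≤ K) (hG : 8 * K ≤ G) (X : ℕ)
    (J : Fin K → Finset (Fin P × Fin G)) (hJ : ∀ k, X ≤ (J k).card)
    (T : QR K P G B → WR K P G → Prop)
    (hT : ∀ (q : QR K P G B) (u : WR K P G) (v : Fin K → WR K P G), (∀ k l, l ≠ k → v k l = u l) →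
      (∀ k p g, (p, g) ∉ J k → v k k p g = u k p g) → (∀ k, T q (v k)) → T q u)
    (hb : ∀ q x, T q x → ∀ i, valR q x i = false) :
    (((univ.filter fun p : QR K P G B × WR K P G => T p.1 p.2).card : ℝ) /
      Fintype.card (QR K P G B × WR K P G)) ^ 2 ^ (K - 1) ≤
      K * 2 ^ (G * B) * (1 - 1 / (4 * K : ℝ)) ^ (X / (16 * K)) +
        (1 - (1 / 2 : ℝ) ^ (K - 1)) ^ (G * B / 2) := by
  have hK0 : (1 : ℝ) ≤ K := by exact_mod_cast hK
  have hp0 : (0 : ℝ) ≤ 1 - 1 / (4 * K : ℝ) := by
    have h1 : 1 / (4 * K : ℝ) ≤ 1 := by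
      rw [div_le_one (by positivity)]
      linarith
    linarith
  have hg0 : (0 : ℝ) ≤ (1 - (1 / 2 : ℝ) ^ (K - 1)) ^ (G * B / 2) := by
    have h5 : (1 / 2 : ℝ) ^ (K - 1) ≤ 1 := pow_le_one₀ (by norm_num) (by norm_num)
    exact pow_nonneg (by linarith) _
  have hR0 : (0 : ℝ) ≤ K * 2 ^ (G * B) * (1 - 1 / (4 * K : ℝ)) ^ (X / (16 * K)) :=
    mul_nonneg (by positivity) (pow_nonneg hp0 _)
  have h1 : (((univ.filter fun p : QR K P G B × WR K P G => T p.1 p.2).card : ℝ) /
      Fintype.card (QR K P G B × WR K P G)) = av fun q => av fun x => ind (T q x) := by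
    rw [← av_prod fun p : QR K P G B × WR K P G => ind (T p.1 p.2), av]
    congr 1
    rw [← sum_boole]
    refine sum_congr rfl fun p _ => ?_
    by_cases h : T p.1 p.2
    · rw [if_pos h, ind_of h]
    · rw [if_neg h, ind_not h]
  rw [h1]
  by_cases hQ : Nonempty (QR K P G B)
  · have h2 : ∀ q, (av fun x => ind (T q x)) ^ 2 ^ (K - 1) ≤
        ind (Bad J q) + (1 - (1 / 2 : ℝ) ^ (K - 1)) ^ (G * B / 2) := by
      intro q
      by_cases h4 : Bad J q
      · rw [ind_of h4]
        refine le_trans ?_ (le_add_of_nonneg_right hg0)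
        refine pow_le_one₀ (av_nonneg fun x => ind_nonneg _) ?_
        rw [← av_const (α := WR K P G) (1 : ℝ)]
        exact av_mono fun d => ind_le_one _
      · rw [ind_not h4, zero_add]
        exact good hK J q h4 (T q) (hT q) (hb q)
    refine (av_pow (fun q => av_nonneg fun x => ind_nonneg _) _).trans ((av_mono h2).trans ?_)
    rw [av_add, av_const]
    refine add_le_add ?_ le_rfl
    by_cases hB : B = 0
    · have h5 : ∀ q : QR K P G B, ind (Bad J q) = 0 := by
        intro q
        refine ind_not ?_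
        rintro ⟨k, R, h6, -⟩
        have h7 : R.card ≤ G * B := by
          have := card_le_univ R
          rwa [Fintype.card_fin] at this
        have h9 : G * B = 0 := by rw [hB, Nat.mul_zero]
        have h8 : R.card = 0 := by omega
        rw [h8, mul_zero] at h6
        exact Nat.not_lt_zero _ h6
      rw [av_congr h5, av_const]
      exact hR0
    · exact bad hK hG X J hJ (Nat.one_le_iff_ne_zero.2 hB)
  · have h2 : (av fun q => av fun x => ind (T q x)) = 0 := by
      have : IsEmpty (QR K P G B) := not_nonempty_iff.1 hQ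
      rw [av, Fintype.card_eq_zero, Nat.cast_zero, div_zero]
    rw [h2, zero_pow (by positivity)]
    exact add_nonneg hR0 hg0

end Pool.Agent.LS
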