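import Mathlib
import Pool.Agent.Lib.MP_0a1b52_lc_LS.DefsR

/-!
# Reading more than `c log² n` times, module FrameR: frames exist in each large set of edges
-/

set_option autoImplicit false

namespace Pool.Agent.LS

open Finset Pool.Agent.FP

/-! ## A reserved residue class -/

/-- the edge `e` avoids the residue class `r` -/
private def Av {n : ℕ} (r : ℕ) (e : EdgeVar n) : Prop :=
  (e.1.1 : ℕ) % 4 ≠ r ∧ (e.1.2 : ℕ) % 4 ≠ r

open Classical in
private theorem reserve {n : ℕ} (E : Finset (EdgeVar n)) :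
    ∃ r < 4, E.card ≤ 2 * (E.filter fun e => Av r e).card := by
  by_contra hcon
  push Not at hcon
  have h1 : ∑ r ∈ range 4, (E.filter fun e => Av r e).card =
      ∑ e ∈ E, ((range 4).filter fun r => Av r e).card := by
    simp only [card_filter]
    rw [sum_comm]
  have h2 : ∀ e ∈ E, 2 ≤ ((range 4).filter fun r => Av r e).card := by
    intro e _
    have h3 : range 4 \ {(e.1.1 : ℕ) % 4, (e.1.2 : ℕ) % 4} ⊆
        (range 4).filter fun r => Av r e := by
      intro r hr
      rw [mem_sdiff, mem_insert, mem_singleton, not_or] at hr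
      rw [mem_filter]
      exact ⟨hr.1, fun h => hr.2.1 h.symm, fun h => hr.2.2 h.symm⟩
    have h4 := card_le_card h3
    have h5 := le_card_sdiff {(e.1.1 : ℕ) % 4, (e.1.2 : ℕ) % 4} (range 4)
    have h6 : ({(e.1.1 : ℕ) % 4, (e.1.2 : ℕ) % 4} : Finset ℕ).card ≤ 2 := card_le_two
    rw [card_range] at h5
    omega
  have h7 : 2 * E.card ≤ ∑ r ∈ range 4, (E.filter fun e => Av r e).card := by
    rw [h1, mul_comm, ← smul_eq_mul, ← sum_const]
    exact sum_le_sum h2
  have h8 := hcon 0 (by norm_num)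
  have h9 := hcon 1 (by norm_num)
  have h10 := hcon 2 (by norm_num)
  have h11 := hcon 3 (by norm_num)
  rw [sum_range_succ, sum_range_succ, sum_range_succ, sum_range_succ, sum_range_zero] at h7
  omega

private theorem card_res {n r : ℕ} (hr : r < 4) :
    n / 4 ≤ (univ.filter fun v : Fin n => (v : ℕ) % 4 = r).card := by
  have h1 : ∀ i : Fin (n / 4), 4 * (i : ℕ) + r < n := fun i => by
    have := i.2
    omega
  have h2 : (univ : Finset (Fin (n / 4))).card ≤
      (univ.filter fun v : Fin n => (v : ℕ) % 4 = r).card := by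
    refine card_le_card_of_injOn (fun i => ⟨4 * (i : ℕ) + r, h1 i⟩) ?_ ?_
    · intro i _
      simp only [coe_filter, mem_univ, true_and, Set.mem_ofPred_eq]
      omega
    · intro i _ j _ h
      have h3 := congrArg Fin.val h
      simp only at h3
      apply Fin.ext
      omega
  rwa [card_univ, Fintype.card_fin] at h2

/-! ## A star -/

open Classical in
private theorem star {n K P G : ℕ} (hK : 1 ≤ K) (hP : 1 ≤ P) (hG : 1 ≤ G) {r : ℕ} (hr : r < 4)
    (E' : Finset (EdgeVar n)) (hE' : ∀ e ∈ E', Av r e) (c : Fin n)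
    (hc : 2 * (K * P) * G ≤ (E'.filter fun e => e.1.1 = c ∨ e.1.2 = c).card) :
    ∃ (𝒦 : Type) (_ : Fintype 𝒦) (Fr : Frm n K P G 𝒦), Fintype.card 𝒦 ≤ 2 * (K * P) + 1 ∧
      (∀ π g t, Fr.e π g t ∈ E') ∧
      n / 4 ≤ (univ.filter fun v => Fr.cl v = none).card := by
  obtain ⟨S, hS⟩ : ∃ S, S = E'.filter fun e => e.1.1 = c ∨ e.1.2 = c := ⟨_, rfl⟩
  rw [← hS] at hc
  obtain ⟨φ⟩ : Nonempty (((Fin K × Fin P) × Fin G × Bool) ↪ {e // e ∈ S}) := by
    apply Function.Embedding.nonempty_of_card_le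
    rw [Fintype.card_coe]
    simp only [Fintype.card_prod, Fintype.card_fin, Fintype.card_bool]
    refine le_trans (le_of_eq ?_) hc
    ring
  obtain ⟨o, ho⟩ : ∃ o : EdgeVar n → Fin n, o = fun e => if e.1.1 = c then e.1.2 else e.1.1 :=
    ⟨_, rfl⟩
  have hmem : ∀ e ∈ S, e ∈ E' ∧ (e.1.1 = c ∨ e.1.2 = c) := by
    intro e he
    rw [hS, mem_filter] at he
    exact he
  have ho1 : ∀ e ∈ S, (e.1 = (c, o e) ∧ c < o e) ∨ (e.1 = (o e, c) ∧ o e < c) := by
    intro e he
    have h1 := e.2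
    rcases (hmem e he).2 with h2 | h2
    · left
      rw [ho]
      simp only [h2, if_true]
      rw [h2] at h1
      exact ⟨Prod.ext h2 rfl, h1⟩
    · right
      have h3 : e.1.1 ≠ c := by
        intro h4
        rw [h4, h2] at h1
        exact lt_irrefl _ h1
      rw [ho]
      simp only [h3, if_false]
      rw [h2] at h1
      exact ⟨Prod.ext rfl h2, h1⟩
  have ho2 : ∀ e ∈ S, o e ≠ c := by
    intro e he h1
    rcases ho1 e he with ⟨-, h2⟩ | ⟨-, h2⟩
    · rw [h1] at h2
      exact lt_irrefl _ h2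
    · rw [h1] at h2
      exact lt_irrefl _ h2
  have ho3 : ∀ e ∈ S, ∀ e' ∈ S, o e = o e' → e = e' := by
    intro e he e' he' h
    apply Subtype.ext
    rcases ho1 e he with ⟨h1, h2⟩ | ⟨h1, h2⟩ <;> rcases ho1 e' he' with ⟨h3, h4⟩ | ⟨h3, h4⟩
    · rw [h1, h3, h]
    · rw [h] at h2
      exact absurd h2 (not_lt.2 h4.le)
    · rw [h] at h2
      exact absurd h2 (not_lt.2 h4.le)
    · rw [h1, h3, h]
  have ho4 : ∀ e ∈ S, ((o e : Fin n) : ℕ) % 4 ≠ r ∧ (c : ℕ) % 4 ≠ r := by
    intro e he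
    have h1 := hE' e (hmem e he).1
    rcases ho1 e he with ⟨h2, -⟩ | ⟨h2, -⟩
    · have h3 : e.1.1 = c := by rw [h2]
      have h4 : e.1.2 = o e := by rw [h2]
      unfold Av at h1
      rw [h3, h4] at h1
      exact ⟨h1.2, h1.1⟩
    · have h3 : e.1.2 = c := by rw [h2]
      have h4 : e.1.1 = o e := by rw [h2]
      unfold Av at h1
      rw [h3, h4] at h1
      exact ⟨h1.1, h1.2⟩
  obtain ⟨leaf, hleaf⟩ : ∃ leaf : (Fin K × Fin P) × Fin G × Bool → Fin n,
      leaf = fun x => o (φ x).1 := ⟨_, rfl⟩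
  have hl0 : ∀ x, leaf x = o (φ x).1 := fun x => by rw [hleaf]
  have hl1 : ∀ x, leaf x ≠ c := fun x => by
    rw [hl0]
    exact ho2 _ (φ x).2
  have hl2 : ∀ x y, leaf x = leaf y → x = y := by
    intro x y h
    rw [hl0, hl0] at h
    exact φ.injective (Subtype.ext (ho3 _ (φ x).2 _ (φ y).2 h))
  obtain ⟨cl, hcl⟩ : ∃ cl : Fin n → Option (Option (Fin K × Fin P)), cl = fun v =>
      if v = c then some none else
        if h : ∃ x, leaf x = v then some (some h.choose.1) else none := ⟨_, rfl⟩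
  have hcl1 : cl c = some none := by
    rw [hcl]
    simp only [if_true]
  have hcl2 : ∀ x, cl (leaf x) = some (some x.1) := by
    intro x
    have h1 : ∃ y, leaf y = leaf x := ⟨x, rfl⟩
    rw [hcl]
    simp only [hl1 x, if_false]
    rw [dif_pos h1, hl2 _ _ h1.choose_spec]
  let Fr : Frm n K P G (Option (Fin K × Fin P)) :=
    { cl := cl
      F := fun _ => none
      B := fun π => some π
      vF := fun _ _ _ => c
      vB := fun π g t => leaf (π, g, t)
      e := fun π g t => (φ (π, g, t)).1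
      he := by
        intro π g t
        rw [hl0]
        rcases ho1 _ (φ (π, g, t)).2 with ⟨h1, -⟩ | ⟨h1, -⟩
        · exact Or.inl h1
        · exact Or.inr h1
      inj := by
        intro π g t π' g' t' h
        have h1 := φ.injective (Subtype.ext h)
        simp only [Prod.mk.injEq] at h1
        exact h1
      clF := fun _ _ _ => hcl1
      clB := fun π g t => hcl2 (π, g, t)
      FB := fun π π' h => by cases h
      Binj := fun π π' h => Option.some.inj h
      surj := by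
        intro κ
        cases κ with
        | none => exact ⟨(⟨0, hK⟩, ⟨0, hP⟩), Or.inl rfl⟩
        | some π => exact ⟨π, Or.inr rfl⟩
      Bt := by
        intro π g t t' h
        have h1 := hl2 _ _ h
        simp only [Prod.mk.injEq, true_and] at h1
        exact h1
      pin := by
        intro π g g' t t' t'' _ h
        have h1 := hl2 _ _ h
        simp only [Prod.mk.injEq, true_and] at h1
        exact h1
      com := fun _ _ _ _ _ _ _ _ => rfl }
  refine ⟨Option (Fin K × Fin P), inferInstance, Fr, ?_, ?_, ?_⟩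
  · simp only [Fintype.card_option, Fintype.card_prod, Fintype.card_fin]
    omega
  · intro π g t
    exact (hmem _ (φ (π, g, t)).2).1
  · refine (card_res hr).trans (card_le_card ?_)
    intro v hv
    rw [mem_filter] at hv ⊢
    refine ⟨mem_univ _, ?_⟩
    have h1 : v ≠ c := by
      rintro rfl
      exact (ho4 _ (φ ((⟨0, hK⟩, ⟨0, hP⟩), ⟨0, hG⟩, true)).2).2 hv.2
    have h2 : ¬ ∃ x, leaf x = v := by
      rintro ⟨x, rfl⟩
      have h3 := (ho4 _ (φ x).2).1
      rw [← hl0] at h3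
      exact h3 hv.2
    show cl v = none
    rw [hcl]
    simp only [h1, if_false]
    rw [dif_neg h2]

/-! ## A random colouring -/

section rand

variable {n : ℕ} {Γ : Type} [Fintype Γ] [DecidableEq Γ]

/-- the edge has the colours `c0` and `c1` -/
private noncomputable def ind (c0 c1 : Γ) (e : EdgeVar n) (χ : Fin n → Γ) : ℝ :=
  if χ e.1.1 = c0 ∧ χ e.1.2 = c1 then 1 else 0

private theorem ind_nonneg (c0 c1 : Γ) (e : EdgeVar n) (χ : Fin n → Γ) : 0 ≤ ind c0 c1 e χ := by
  unfold ind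
  split_ifs
  · exact zero_le_one
  · exact le_refl _

private theorem ind_le (c0 c1 : Γ) (e : EdgeVar n) (χ : Fin n → Γ) : ind c0 c1 e χ ≤ 1 := by
  unfold ind
  split_ifs
  · exact le_refl _
  · exact zero_le_one

/-- the factor of the vertex `v` -/
private noncomputable def fac (c0 c1 : Γ) (e : EdgeVar n) (v : Fin n) (γ : Γ) : ℝ :=
  (if v = e.1.1 then (if γ = c0 then 1 else 0) else 1) *
    (if v = e.1.2 then (if γ = c1 then 1 else 0) else 1)

private theorem ind_prod (c0 c1 : Γ) (e : EdgeVar n) (χ : Fin n → Γ) :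
    ind c0 c1 e χ = ∏ v, fac c0 c1 e v (χ v) := by
  unfold fac
  rw [prod_mul_distrib, prod_ite_eq' univ e.1.1 (fun v => if χ v = c0 then (1 : ℝ) else 0),
    prod_ite_eq' univ e.1.2 (fun v => if χ v = c1 then (1 : ℝ) else 0), if_pos (mem_univ _),
    if_pos (mem_univ _)]
  unfold ind
  by_cases h1 : χ e.1.1 = c0 <;> by_cases h2 : χ e.1.2 = c1 <;> simp [h1, h2]

private theorem sum_prod (h : Fin n → Γ → ℝ) :
    ∑ χ : Fin n → Γ, ∏ v, h v (χ v) = ∏ v, ∑ γ, h v γ := by
  rw [prod_univ_sum, Fintype.piFinset_univ]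

private theorem sum_ind (c0 c1 : Γ) (hΓ : 0 < Fintype.card Γ) (e : EdgeVar n) :
    ∑ χ : Fin n → Γ, ind c0 c1 e χ =
      (Fintype.card Γ : ℝ) ^ n * (1 / (Fintype.card Γ : ℝ)) ^ 2 := by
  have hne : e.1.1 ≠ e.1.2 := ne_of_lt e.2
  have hC : (Fintype.card Γ : ℝ) ≠ 0 := by
    have : (0 : ℝ) < Fintype.card Γ := by exact_mod_cast hΓ
    exact this.ne'
  rw [sum_congr rfl (fun χ _ => ind_prod c0 c1 e χ), sum_prod]
  have h1 : ∀ v, ∑ γ, fac c0 c1 e v γ = (Fintype.card Γ : ℝ) *
      (if v ∈ ({e.1.1, e.1.2} : Finset (Fin n)) then 1 / (Fintype.card Γ : ℝ) else 1) := by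
    intro v
    unfold fac
    by_cases h2 : v = e.1.1
    · have h3 : v ≠ e.1.2 := fun h => hne (h2.symm.trans h)
      rw [if_pos (by rw [h2]; exact mem_insert_self _ _)]
      simp only [h2, if_true, hne, if_false, mul_one]
      rw [sum_ite_eq' univ c0 (fun _ => (1 : ℝ)), if_pos (mem_univ _), mul_one_div, div_self hC]
    · by_cases h3 : v = e.1.2
      · rw [if_pos (by rw [h3]; exact mem_insert_of_mem (mem_singleton_self _))]
        simp only [h3, if_true, if_false, hne.symm, one_mul]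
        rw [sum_ite_eq' univ c1 (fun _ => (1 : ℝ)), if_pos (mem_univ _), mul_one_div, div_self hC]
      · rw [if_neg (by
          rw [mem_insert, mem_singleton]
          exact fun h => h.elim h2 h3)]
        simp only [h2, h3, if_false, mul_one, sum_const, card_univ, nsmul_eq_mul]
  rw [prod_congr rfl (fun v _ => h1 v), prod_mul_distrib, prod_const, card_univ, Fintype.card_fin,
    prod_ite_mem, univ_inter, prod_const, card_pair hne]

private theorem sum_ind_ind (c0 c1 : Γ) (hΓ : 0 < Fintype.card Γ) (e e' : EdgeVar n)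
    (hd : e.1.1 ≠ e'.1.1 ∧ e.1.1 ≠ e'.1.2 ∧ e.1.2 ≠ e'.1.1 ∧ e.1.2 ≠ e'.1.2) :
    ∑ χ : Fin n → Γ, ind c0 c1 e χ * ind c0 c1 e' χ =
      (Fintype.card Γ : ℝ) ^ n * (1 / (Fintype.card Γ : ℝ)) ^ 4 := by
  have hne : e.1.1 ≠ e.1.2 := ne_of_lt e.2
  have hne' : e'.1.1 ≠ e'.1.2 := ne_of_lt e'.2
  obtain ⟨hd1, hd2, hd3, hd4⟩ := hd
  have hC : (Fintype.card Γ : ℝ) ≠ 0 := by
    have : (0 : ℝ) < Fintype.card Γ := by exact_mod_cast hΓ
    exact this.ne'
  have h0 : ∀ χ : Fin n → Γ, ind c0 c1 e χ * ind c0 c1 e' χ =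
      ∏ v, (fac c0 c1 e v (χ v) * fac c0 c1 e' v (χ v)) := by
    intro χ
    rw [ind_prod, ind_prod, prod_mul_distrib]
  rw [sum_congr rfl (fun χ _ => h0 χ), sum_prod (fun v γ => fac c0 c1 e v γ * fac c0 c1 e' v γ)]
  obtain ⟨T, hT⟩ : ∃ T : Finset (Fin n), T = {e.1.1, e.1.2, e'.1.1, e'.1.2} := ⟨_, rfl⟩
  have hmT : ∀ v, v ∈ T ↔ v = e.1.1 ∨ v = e.1.2 ∨ v = e'.1.1 ∨ v = e'.1.2 := by
    intro v
    rw [hT]
    simp only [mem_insert, mem_singleton]
  have hcT : T.card = 4 := by
    rw [hT, card_insert_of_notMem, card_insert_of_notMem, card_pair hne']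
    · simp only [mem_insert, mem_singleton, not_or]
      exact ⟨hd3, hd4⟩
    · simp only [mem_insert, mem_singleton, not_or]
      exact ⟨hne, hd1, hd2⟩
  have h1 : ∀ v, ∑ γ, fac c0 c1 e v γ * fac c0 c1 e' v γ = (Fintype.card Γ : ℝ) *
      (if v ∈ T then 1 / (Fintype.card Γ : ℝ) else 1) := by
    intro v
    unfold fac
    by_cases h2 : v = e.1.1
    · rw [if_pos ((hmT v).2 (Or.inl h2))]
      simp only [h2, if_true, hne, hd1, hd2, if_false, mul_one]
      rw [sum_ite_eq' univ c0 (fun _ => (1 : ℝ)), if_pos (mem_univ _), mul_one_div, div_self hC]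
    · by_cases h3 : v = e.1.2
      · rw [if_pos ((hmT v).2 (Or.inr (Or.inl h3)))]
        simp only [h3, if_true, hne.symm, hd3, hd4, if_false, mul_one, one_mul]
        rw [sum_ite_eq' univ c1 (fun _ => (1 : ℝ)), if_pos (mem_univ _), mul_one_div, div_self hC]
      · by_cases h4 : v = e'.1.1
        · rw [if_pos ((hmT v).2 (Or.inr (Or.inr (Or.inl h4))))]
          simp only [h4, if_true, hne', hd1.symm, hd3.symm, if_false, mul_one, one_mul]
          rw [sum_ite_eq' univ c0 (fun _ => (1 : ℝ)), if_pos (mem_univ _), mul_one_div,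
            div_self hC]
        · by_cases h5 : v = e'.1.2
          · rw [if_pos ((hmT v).2 (Or.inr (Or.inr (Or.inr h5))))]
            simp only [h5, if_true, hne'.symm, hd2.symm, hd4.symm, if_false, one_mul]
            rw [sum_ite_eq' univ c1 (fun _ => (1 : ℝ)), if_pos (mem_univ _), mul_one_div,
              div_self hC]
          · rw [if_neg (fun h => by
              rcases (hmT v).1 h with h | h | h | h
              · exact h2 h
              · exact h3 h
              · exact h4 h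
              · exact h5 h)]
            simp only [h2, h3, h4, h5, if_false, mul_one, sum_const, card_univ, nsmul_eq_mul]
  rw [prod_congr rfl (fun v _ => h1 v), prod_mul_distrib, prod_const, card_univ, Fintype.card_fin,
    prod_ite_mem, univ_inter, prod_const, hcT]

/-- the second moment -/
private theorem var_ind (c0 c1 : Γ) (hΓ : 0 < Fintype.card Γ) (E' : Finset (EdgeVar n)) (Δ : ℕ)
    (hΔ : ∀ c, (E'.filter fun e => e.1.1 = c ∨ e.1.2 = c).card ≤ Δ) :
    ∑ χ : Fin n → Γ, (∑ e ∈ E', ind c0 c1 e χ -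
      E'.card * (1 / (Fintype.card Γ : ℝ)) ^ 2) ^ 2 ≤
      (Fintype.card Γ : ℝ) ^ n * (E'.card * ((2 * Δ) * (1 / (Fintype.card Γ : ℝ)) ^ 2)) := by
  obtain ⟨C, hC⟩ : ∃ C : ℝ, C = Fintype.card Γ := ⟨_, rfl⟩
  have hC0 : 0 < C := by
    rw [hC]
    exact_mod_cast hΓ
  obtain ⟨p, hp⟩ : ∃ p : ℝ, p = (1 / C) ^ 2 := ⟨_, rfl⟩
  have hp0 : 0 ≤ p := by rw [hp]; positivity
  have hp4 : (1 / C) ^ 4 = p * p := by
    rw [hp]
    ring
  have hM0 : 0 ≤ C ^ n := by positivity
  have hone : ∑ χ : Fin n → Γ, (1 : ℝ) = C ^ n := by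
    rw [sum_const, card_univ, Fintype.card_fun, Fintype.card_fin, nsmul_eq_mul, mul_one, hC]
    push_cast
    rfl
  have hs1 : ∀ e : EdgeVar n, ∑ χ : Fin n → Γ, ind c0 c1 e χ = C ^ n * p := by
    intro e
    rw [sum_ind c0 c1 hΓ e, hp, hC]
  rw [← hC, ← hp]
  have h1 : ∑ χ : Fin n → Γ, ∑ e ∈ E', ind c0 c1 e χ = C ^ n * (E'.card * p) := by
    rw [sum_comm, sum_congr rfl (fun e _ => hs1 e), sum_const, nsmul_eq_mul]
    ring
  have h2 : ∑ χ : Fin n → Γ, (∑ e ∈ E', ind c0 c1 e χ) ^ 2 =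
      ∑ e ∈ E', ∑ e' ∈ E', ∑ χ : Fin n → Γ, ind c0 c1 e χ * ind c0 c1 e' χ := by
    have h3 : ∀ χ : Fin n → Γ, (∑ e ∈ E', ind c0 c1 e χ) ^ 2 =
        ∑ e ∈ E', ∑ e' ∈ E', ind c0 c1 e χ * ind c0 c1 e' χ := by
      intro χ
      rw [pow_two, sum_mul_sum]
    rw [sum_congr rfl (fun χ _ => h3 χ), sum_comm]
    apply sum_congr rfl
    intro e _
    rw [sum_comm]
  have h4 : ∑ χ : Fin n → Γ, (∑ e ∈ E', ind c0 c1 e χ - E'.card * p) ^ 2 =
      (∑ e ∈ E', ∑ e' ∈ E', ∑ χ : Fin n → Γ, ind c0 c1 e χ * ind c0 c1 e' χ) -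
        C ^ n * ((E'.card * p) * (E'.card * p)) := by
    have h5 : ∀ χ : Fin n → Γ, (∑ e ∈ E', ind c0 c1 e χ - E'.card * p) ^ 2 =
        (∑ e ∈ E', ind c0 c1 e χ) ^ 2 - (2 * (E'.card * p)) * (∑ e ∈ E', ind c0 c1 e χ) +
          ((E'.card * p) * (E'.card * p)) * 1 := by
      intro χ
      ring
    rw [sum_congr rfl (fun χ _ => h5 χ), sum_add_distrib, sum_sub_distrib, h2, ← mul_sum, h1,
      ← mul_sum, hone]
    ring
  have h6 : ∀ e ∈ E', ∑ e' ∈ E', ∑ χ : Fin n → Γ, ind c0 c1 e χ * ind c0 c1 e' χ ≤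
      C ^ n * (E'.card * (p * p)) + C ^ n * ((2 * Δ) * p) := by
    intro e _
    have h7 : ∀ e' ∈ E', ∑ χ : Fin n → Γ, ind c0 c1 e χ * ind c0 c1 e' χ ≤
        C ^ n * (p * p) + C ^ n * (p * ((if e'.1.1 = e.1.1 ∨ e'.1.2 = e.1.1 then 1 else 0) +
          (if e'.1.1 = e.1.2 ∨ e'.1.2 = e.1.2 then 1 else 0))) := by
      intro e' _
      by_cases hd : e.1.1 ≠ e'.1.1 ∧ e.1.1 ≠ e'.1.2 ∧ e.1.2 ≠ e'.1.1 ∧ e.1.2 ≠ e'.1.2
      · rw [sum_ind_ind c0 c1 hΓ e e' hd, ← hC, hp4]
        have : 0 ≤ C ^ n * (p * ((if e'.1.1 = e.1.1 ∨ e'.1.2 = e.1.1 then (1 : ℝ) else 0) +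
          (if e'.1.1 = e.1.2 ∨ e'.1.2 = e.1.2 then 1 else 0))) := by
          apply mul_nonneg hM0
          apply mul_nonneg hp0
          apply add_nonneg
          · split_ifs
            · exact zero_le_one
            · exact le_refl _
          · split_ifs
            · exact zero_le_one
            · exact le_refl _
        linarith
      · have h8 : ∑ χ : Fin n → Γ, ind c0 c1 e χ * ind c0 c1 e' χ ≤ C ^ n * p := by
          rw [← hs1 e]
          apply sum_le_sum
          intro χ _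
          exact mul_le_of_le_one_right (ind_nonneg _ _ _ _) (ind_le _ _ _ _)
        have h9 : (1 : ℝ) ≤ (if e'.1.1 = e.1.1 ∨ e'.1.2 = e.1.1 then 1 else 0) +
            (if e'.1.1 = e.1.2 ∨ e'.1.2 = e.1.2 then 1 else 0) := by
          by_cases h10 : e'.1.1 = e.1.1 ∨ e'.1.2 = e.1.1
          · rw [if_pos h10]
            have : (0 : ℝ) ≤ (if e'.1.1 = e.1.2 ∨ e'.1.2 = e.1.2 then 1 else 0) := by
              split_ifs
              · exact zero_le_one
              · exact le_refl _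
            linarith
          · by_cases h11 : e'.1.1 = e.1.2 ∨ e'.1.2 = e.1.2
            · rw [if_neg h10, if_pos h11, zero_add]
            · exfalso
              apply hd
              rw [not_or] at h10 h11
              exact ⟨fun h => h10.1 h.symm, fun h => h10.2 h.symm, fun h => h11.1 h.symm,
                fun h => h11.2 h.symm⟩
        have h12 : C ^ n * (p * 1) ≤ C ^ n * (p * ((if e'.1.1 = e.1.1 ∨ e'.1.2 = e.1.1 then 1
            else 0) + (if e'.1.1 = e.1.2 ∨ e'.1.2 = e.1.2 then 1 else 0))) :=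
          mul_le_mul_of_nonneg_left (mul_le_mul_of_nonneg_left h9 hp0) hM0
        have h13 : 0 ≤ C ^ n * (p * p) := mul_nonneg hM0 (mul_nonneg hp0 hp0)
        rw [mul_one] at h12
        linarith
    refine (sum_le_sum h7).trans ?_
    rw [sum_add_distrib, sum_const, nsmul_eq_mul, ← mul_sum, ← mul_sum, sum_add_distrib]
    have h14 : ∀ c : Fin n, ∑ e' ∈ E', (if e'.1.1 = c ∨ e'.1.2 = c then (1 : ℝ) else 0) ≤ Δ := by
      intro c
      rw [← sum_filter, sum_const, nsmul_eq_mul, mul_one]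
      exact_mod_cast hΔ c
    have h15 := h14 e.1.1
    have h16 := h14 e.1.2
    have h17 : C ^ n * (p * (∑ e' ∈ E', (if e'.1.1 = e.1.1 ∨ e'.1.2 = e.1.1 then (1 : ℝ) else 0) +
        ∑ e' ∈ E', (if e'.1.1 = e.1.2 ∨ e'.1.2 = e.1.2 then (1 : ℝ) else 0))) ≤
        C ^ n * (p * (Δ + Δ)) :=
      mul_le_mul_of_nonneg_left (mul_le_mul_of_nonneg_left (add_le_add h15 h16) hp0) hM0
    have h18 : C ^ n * (p * (Δ + Δ)) = C ^ n * ((2 * Δ) * p) := by ring
    have h19 : (E'.card : ℝ) * (C ^ n * (p * p)) = C ^ n * (E'.card * (p * p)) := by ring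
    rw [h19]
    linarith
  rw [h4]
  have h20 := sum_le_sum h6
  rw [sum_const, nsmul_eq_mul] at h20
  have h21 : (E'.card : ℝ) * (C ^ n * (E'.card * (p * p)) + C ^ n * ((2 * Δ) * p)) =
      C ^ n * ((E'.card * p) * (E'.card * p)) + C ^ n * (E'.card * ((2 * Δ) * p)) := by ring
  rw [h21] at h20
  linarith

end rand

open Classical in
private theorem rand {n K P G : ℕ} (hK : 1 ≤ K) (hP : 1 ≤ P) (hG : 1 ≤ G) {r : ℕ} (hr : r < 4)
    (E' : Finset (EdgeVar n)) (hE' : ∀ e ∈ E', Av r e) (hcard : 1024 * (K * P) ^ 4 * G ≤ E'.card)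
    (hΔ : ∀ c, (E'.filter fun e => e.1.1 = c ∨ e.1.2 = c).card ≤ 2 * (K * P) * G) :
    ∃ (𝒦 : Type) (_ : Fintype 𝒦) (Fr : Frm n K P G 𝒦), Fintype.card 𝒦 ≤ 2 * (K * P) + 1 ∧
      (∀ π g t, Fr.e π g t ∈ E') ∧
      n / 4 ≤ (univ.filter fun v => Fr.cl v = none).card := by
  obtain ⟨M, hM⟩ : ∃ M, M = K * P := ⟨_, rfl⟩
  have hM1 : 1 ≤ M := by
    rw [hM]
    exact Nat.mul_pos hK hP
  -- a good colouring
  have hχ : ∃ χ : Fin n → (Fin K × Fin P) × Bool × Bool, ∀ x : (Fin K × Fin P) × Bool,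
      G ≤ (E'.filter fun e => χ e.1.1 = (x.1, x.2, false) ∧ χ e.1.2 = (x.1, x.2, true)).card := by
    by_contra hcon
    push Not at hcon
    obtain ⟨C, hC⟩ : ∃ C : ℝ, C = Fintype.card ((Fin K × Fin P) × Bool × Bool) := ⟨_, rfl⟩
    have hC' : C = 4 * M := by
      rw [hC, hM]
      simp only [Fintype.card_prod, Fintype.card_fin, Fintype.card_bool]
      push_cast
      ring
    have hMr : (1 : ℝ) ≤ M := by exact_mod_cast hM1
    have hGr : (1 : ℝ) ≤ G := by exact_mod_cast hG
    have hC0 : 0 < C := by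
      rw [hC']
      linarith
    obtain ⟨μ, hμ⟩ : ∃ μ : ℝ, μ = E'.card * (1 / C) ^ 2 := ⟨_, rfl⟩
    have hμ1 : 64 * (M : ℝ) ^ 2 * G ≤ μ := by
      rw [hμ, hC', div_pow, one_pow, mul_one_div, le_div_iff₀ (by positivity)]
      have h1 : ((1024 * (K * P) ^ 4 * G : ℕ) : ℝ) ≤ E'.card := by exact_mod_cast hcard
      rw [← hM] at h1
      push_cast at h1
      refine le_trans (le_of_eq ?_) h1
      ring
    have hN0 : 0 < C ^ n := by positivity
    have hup : ∑ x : (Fin K × Fin P) × Bool, ∑ χ : Fin n → (Fin K × Fin P) × Bool × Bool,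
        (∑ e ∈ E', ind (x.1, x.2, false) (x.1, x.2, true) e χ - μ) ^ 2 ≤
        (2 * M) * (C ^ n * (4 * M * G * μ)) := by
      have h1 : ∀ x : (Fin K × Fin P) × Bool, ∑ χ : Fin n → (Fin K × Fin P) × Bool × Bool,
          (∑ e ∈ E', ind (x.1, x.2, false) (x.1, x.2, true) e χ - μ) ^ 2 ≤
          C ^ n * (4 * M * G * μ) := by
        intro x
        have h2 := var_ind (x.1, x.2, false) (x.1, x.2, true) (by
          rw [Fintype.card_pos_iff]
          exact ⟨((⟨0, hK⟩, ⟨0, hP⟩), true, true)⟩) E' (2 * (K * P) * G) hΔ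
        rw [← hC, ← hμ] at h2
        refine h2.trans (le_of_eq ?_)
        rw [hμ, ← hM]
        push_cast
        ring
      refine (sum_le_sum (fun x _ => h1 x)).trans ?_
      rw [sum_const, card_univ, nsmul_eq_mul]
      simp only [Fintype.card_prod, Fintype.card_fin, Fintype.card_bool]
      rw [← hM]
      push_cast
      refine le_of_eq ?_
      ring
    have hlow : C ^ n * (μ ^ 2 / 4) ≤ ∑ x : (Fin K × Fin P) × Bool,
        ∑ χ : Fin n → (Fin K × Fin P) × Bool × Bool,
        (∑ e ∈ E', ind (x.1, x.2, false) (x.1, x.2, true) e χ - μ) ^ 2 := by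
      rw [sum_comm]
      have h1 : ∀ χ : Fin n → (Fin K × Fin P) × Bool × Bool, μ ^ 2 / 4 ≤
          ∑ x : (Fin K × Fin P) × Bool,
            (∑ e ∈ E', ind (x.1, x.2, false) (x.1, x.2, true) e χ - μ) ^ 2 := by
        intro χ
        obtain ⟨x, hx⟩ := hcon χ
        have h2 := single_le_sum (f := fun x : (Fin K × Fin P) × Bool =>
          (∑ e ∈ E', ind (x.1, x.2, false) (x.1, x.2, true) e χ - μ) ^ 2) (s := univ)
          (fun x _ => sq_nonneg _) (mem_univ x)
        refine le_trans ?_ h2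
        have h3 : ∑ e ∈ E', ind (x.1, x.2, false) (x.1, x.2, true) e χ =
            ((E'.filter fun e => χ e.1.1 = (x.1, x.2, false) ∧
              χ e.1.2 = (x.1, x.2, true)).card : ℝ) := by
          rw [card_filter]
          push_cast
          rfl
        have h4 : ((E'.filter fun e => χ e.1.1 = (x.1, x.2, false) ∧
              χ e.1.2 = (x.1, x.2, true)).card : ℝ) < G := by exact_mod_cast hx
        have h5 : (G : ℝ) ≤ μ / 2 := by
          have hM2 : (1 : ℝ) ≤ (M : ℝ) ^ 2 := one_le_pow₀ hMr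
          have hG2 : (1 : ℝ) * G ≤ (M : ℝ) ^ 2 * G :=
            mul_le_mul_of_nonneg_right hM2 (by linarith)
          linarith
        simp only [h3]
        have h6 : μ / 2 ≤ μ - ((E'.filter fun e => χ e.1.1 = (x.1, x.2, false) ∧
              χ e.1.2 = (x.1, x.2, true)).card : ℝ) := by linarith
        have h7 : 0 ≤ μ / 2 := by linarith
        nlinarith
      have h5 := sum_le_sum
        (s := (univ : Finset (Fin n → (Fin K × Fin P) × Bool × Bool))) (fun χ _ => h1 χ)
      rw [sum_const, card_univ, Fintype.card_fun, Fintype.card_fin, nsmul_eq_mul] at h5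
      rw [hC]
      push_cast at h5
      exact h5
    have h8 := hlow.trans hup
    have h9 : C ^ n * (μ ^ 2 / 4) ≤ C ^ n * ((2 * M) * (4 * M * G * μ)) := by
      refine h8.trans (le_of_eq ?_)
      ring
    have h10 := le_of_mul_le_mul_left h9 hN0
    have hμ0 : 0 < μ := by
      have : (0 : ℝ) < 64 * (M : ℝ) ^ 2 * G := by positivity
      linarith
    have h11 : μ * μ ≤ μ * (32 * (M : ℝ) ^ 2 * G) := by nlinarith
    have h12 := le_of_mul_le_mul_left h11 hμ0
    have h13 : (0 : ℝ) < (M : ℝ) ^ 2 * G := by positivity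
    nlinarith
  obtain ⟨χ, hχ⟩ := hχ
  have hφ : ∀ x : (Fin K × Fin P) × Bool, Nonempty (Fin G ↪
      {e // e ∈ E'.filter fun e => χ e.1.1 = (x.1, x.2, false) ∧ χ e.1.2 = (x.1, x.2, true)}) := by
    intro x
    apply Function.Embedding.nonempty_of_card_le
    rw [Fintype.card_coe, Fintype.card_fin]
    exact hχ x
  obtain ⟨ed, hed⟩ : ∃ ed : (Fin K × Fin P) → Fin G → Bool → EdgeVar n,
      (∀ π g t, ed π g t ∈ E' ∧ χ (ed π g t).1.1 = (π, t, false) ∧
        χ (ed π g t).1.2 = (π, t, true)) ∧ ∀ π t g g', ed π g t = ed π g' t → g = g' := by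
    refine ⟨fun π g t => ((hφ (π, t)).some g).1, ?_, ?_⟩
    · intro π g t
      have h1 := ((hφ (π, t)).some g).2
      rw [mem_filter] at h1
      exact h1
    · intro π t g g' h
      exact (hφ (π, t)).some.injective (Subtype.ext h)
  obtain ⟨hed1, hed2⟩ := hed
  have hinj : ∀ π g t π' g' t', ed π g t = ed π' g' t' → π = π' ∧ g = g' ∧ t = t' := by
    intro π g t π' g' t' h
    have h1 := (hed1 π g t).2.1
    rw [h, (hed1 π' g' t').2.1] at h1
    simp only [Prod.mk.injEq, and_true] at h1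
    obtain ⟨rfl, rfl⟩ := h1
    exact ⟨rfl, hed2 _ _ _ _ h, rfl⟩
  let Fr : Frm n K P G ((Fin K × Fin P) × Bool) :=
    { cl := fun v => if (v : ℕ) % 4 = r then none else some ((χ v).1, (χ v).2.2)
      F := fun π => (π, false)
      B := fun π => (π, true)
      vF := fun π g t => (ed π g t).1.1
      vB := fun π g t => (ed π g t).1.2
      e := ed
      he := fun π g t => Or.inl rfl
      inj := hinj
      clF := by
        intro π g t
        simp only [(hE' _ (hed1 π g t).1).1, if_false, (hed1 π g t).2.1]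
      clB := by
        intro π g t
        simp only [(hE' _ (hed1 π g t).1).2, if_false, (hed1 π g t).2.2]
      FB := by
        intro π π' h
        simp only [Prod.mk.injEq, Bool.false_eq_true, and_false] at h
      Binj := by
        intro π π' h
        simp only [Prod.mk.injEq, and_true] at h
        exact h
      surj := by
        rintro ⟨π, b⟩
        cases b
        · exact ⟨π, Or.inl rfl⟩
        · exact ⟨π, Or.inr rfl⟩
      Bt := by
        intro π g t t' h
        have h1 := (hed1 π g t).2.2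
        rw [h, (hed1 π g t').2.2] at h1
        simp only [Prod.mk.injEq, and_true, true_and] at h1
        exact h1.symm
      pin := by
        intro π g g' t t' t'' h h'
        have h1 := (hed1 π g' t').2.1
        rw [h, (hed1 π g t'').2.1] at h1
        simp only [Prod.mk.injEq, and_true, true_and] at h1
        have h2 := (hed1 π g' t').2.2
        rw [h', (hed1 π g t).2.2] at h2
        simp only [Prod.mk.injEq, and_true, true_and] at h2
        rw [h1] at h
        rw [h2] at h'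
        have h3 : ed π g' t' = ed π g t' := Subtype.ext (Prod.ext h h')
        exact ⟨hed2 _ _ _ _ h3, h2.symm⟩
      com := by
        intro π π' h hne
        simp only [Prod.mk.injEq, and_true] at h
        exact absurd h hne }
  refine ⟨(Fin K × Fin P) × Bool, inferInstance, Fr, ?_, ?_, ?_⟩
  · simp only [Fintype.card_prod, Fintype.card_fin, Fintype.card_bool]
    omega
  · intro π g t
    exact (hed1 π g t).1
  · refine (card_res hr).trans (card_le_card ?_)
    intro v hv
    rw [mem_filter] at hv ⊢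
    refine ⟨mem_univ _, ?_⟩
    show (if (v : ℕ) % 4 = r then none else some ((χ v).1, (χ v).2.2)) = none
    rw [if_pos hv.2]

theorem frameR {n K P G : ℕ} (hK : 1 ≤ K) (hP : 1 ≤ P) (hG : 1 ≤ G) (E : Finset (EdgeVar n))
    (hE : 2048 * (K * P) ^ 4 * G ≤ E.card) :
    ∃ (𝒦 : Type) (_ : Fintype 𝒦) (Fr : Frm n K P G 𝒦), Fintype.card 𝒦 ≤ 2 * (K * P) + 1 ∧
      (∀ π g t, Fr.e π g t ∈ E) ∧
      n / 4 ≤ (univ.filter fun v => Fr.cl v = none).card := by
  classical
  obtain ⟨r, hr, hrE⟩ := reserve E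
  obtain ⟨E', hE'⟩ : ∃ E', E' = E.filter fun e => Av r e := ⟨_, rfl⟩
  rw [← hE'] at hrE
  have h1 : ∀ e ∈ E', Av r e := by
    intro e he
    rw [hE', mem_filter] at he
    exact he.2
  have h2 : ∀ e ∈ E', e ∈ E := by
    intro e he
    rw [hE', mem_filter] at he
    exact he.1
  have h3 : 1024 * (K * P) ^ 4 * G ≤ E'.card := by
    have h4 : 2 * (1024 * (K * P) ^ 4 * G) ≤ 2 * E'.card := by
      refine le_trans (le_of_eq ?_) (hE.trans hrE)
      ring
    omega
  by_cases hst : ∃ c, 2 * (K * P) * G ≤ (E'.filter fun e => e.1.1 = c ∨ e.1.2 = c).card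
  · obtain ⟨c, hc⟩ := hst
    obtain ⟨𝒦, i, Fr, h5, h6, h7⟩ := star hK hP hG hr E' h1 c hc
    exact ⟨𝒦, i, Fr, h5, fun π g t => h2 _ (h6 π g t), h7⟩
  · push Not at hst
    obtain ⟨𝒦, i, Fr, h5, h6, h7⟩ := rand hK hP hG hr E' h1 h3 (fun c => (hst c).le)
    exact ⟨𝒦, i, Fr, h5, fun π g t => h2 _ (h6 π g t), h7⟩

end Pool.Agent.LS
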