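import Mathlib
import Pool.Agent.Lib.MP_0a1b52_lc_LS.DefsR
import Pool.Agent.Lib.MP_0a1b52_lc_LS.Place

/-!
# Reading more than `c log² n` times, module PlaceR: the graph of a frame
-/

set_option autoImplicit false

namespace Pool.Agent.LS

open Finset Pool.Agent.FP

section Sys

variable {n : ℕ} {W Y : Type} [Fintype Y]

private theorem Sys.symm (Z : Sys n W Y) {P : W → W → Prop} (hP : ∀ w w', P w w' → P w' w)
    {x x' : Fin n} (h : Z.Adj P x x') : Z.Adj P x' x := by
  rcases h with h | h | ⟨w, w', h1, h2, h3, h4⟩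
  · exact Or.inr (Or.inl h)
  · exact Or.inl h
  · exact Or.inr (Or.inr ⟨w', w, h1.symm, h3, h2, hP _ _ h4⟩)

private theorem Sys.adj (Z : Sys n W Y) {P : W → W → Prop} (hP : ∀ w w', P w w' → P w' w)
    (x x' : Fin n) (h : x ≠ x') : (graphOf (Z.gr P)).Adj x x' ↔ Z.Adj P x x' := by
  constructor
  · rintro ⟨e, h, h1⟩
    have h2 : Z.Adj P e.1.1 e.1.2 := by simpa [Sys.gr] using h
    rcases h1 with h1 | h1
    · rw [h1] at h2
      exact h2
    · rw [h1] at h2
      exact Z.symm hP h2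
  · intro h2
    rcases lt_or_gt_of_ne h with h1 | h1
    · exact ⟨⟨(x, x'), h1⟩, by simpa [Sys.gr] using h2, Or.inl rfl⟩
    · exact ⟨⟨(x', x), h1⟩, by simpa [Sys.gr] using Z.symm hP h2, Or.inr rfl⟩

private theorem Sys.clq_of (Z : Sys n W Y) {P : W → W → Prop} (hP : ∀ w w', P w w' → P w' w)
    (s : Y → W) (hs : ∀ k, Z.cell (s k) = k) (h : ∀ k k', k ≠ k' → P (s k) (s k')) :
    Clq (Z.gr P) := by
  classical
  have hinj : Function.Injective fun k => Z.u (s k) := fun k k' h => by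
    have h1 := Z.inj h
    rw [← hs k, ← hs k', h1]
  refine ⟨Z.R ∪ univ.image fun k => Z.u (s k), ?_, ?_⟩
  · intro x hx x' hx' hne
    rw [Z.adj hP x x' hne]
    simp only [coe_union, Set.mem_union, mem_coe, mem_image, mem_univ, true_and] at hx hx'
    rcases hx with hx | ⟨k, rfl⟩
    · exact Or.inl hx
    · rcases hx' with hx' | ⟨k', rfl⟩
      · exact Or.inr (Or.inl hx')
      · have hk : k ≠ k' := by
          rintro rfl
          exact hne rfl
        refine Or.inr (Or.inr ⟨s k, s k', ?_, rfl, rfl, h k k' hk⟩)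
        rw [hs, hs]
        exact hk
  · have hdisj : Disjoint Z.R (univ.image fun k => Z.u (s k)) := by
      rw [disjoint_left]
      intro x hx hx'
      obtain ⟨k, -, rfl⟩ := mem_image.1 hx'
      exact Z.hR _ hx
    rw [card_union_of_disjoint hdisj, card_image_of_injective _ hinj, card_univ, Z.card]
    push_cast
    exact Real.real_sqrt_lt_nat_sqrt_succ

private theorem Sys.of_clq (Z : Sys n W Y) {P : W → W → Prop} (hP : ∀ w w', P w w' → P w' w)
    (hK : 2 ≤ Fintype.card Y) (h : Clq (Z.gr P)) :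
    ∃ s : Y → W, (∀ k, Z.cell (s k) = k) ∧ ∀ k k', k ≠ k' → P (s k) (s k') := by
  classical
  obtain ⟨Q, hQ, hcard⟩ := h
  have h1 : Nat.sqrt n + 1 ≤ Q.card := by
    have h2 : ((Nat.sqrt n : ℕ) : ℝ) < Q.card := lt_of_le_of_lt (Real.nat_sqrt_le_real_sqrt) hcard
    exact_mod_cast h2
  have h2 : Fintype.card Y ≤ (Q \ Z.R).card := by
    have h3 := le_card_sdiff Z.R Q
    have h4 := Z.card
    omega
  have hadj : ∀ x ∈ Q \ Z.R, ∀ x' ∈ Q \ Z.R, x ≠ x' →
      ∃ w w', Z.cell w ≠ Z.cell w' ∧ x = Z.u w ∧ x' = Z.u w' ∧ P w w' := by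
    intro x hx x' hx' hne
    obtain ⟨hx1, hx2⟩ := mem_sdiff.1 hx
    obtain ⟨hx3, hx4⟩ := mem_sdiff.1 hx'
    rcases (Z.adj hP x x' hne).1 (hQ (by exact_mod_cast hx1) (by exact_mod_cast hx3) hne) with
      h | h | h
    · exact absurd h hx2
    · exact absurd h hx4
    · exact h
  have hcell : ∀ x : ↥(Q \ Z.R), ∃ w, x.1 = Z.u w := by
    intro x
    obtain ⟨y, hy, hyx⟩ := exists_mem_ne (show 1 < (Q \ Z.R).card by omega) x.1
    obtain ⟨w, w', -, h3, -, -⟩ := hadj x.1 x.2 y hy hyx.symm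
    exact ⟨w, h3⟩
  choose g hg using hcell
  have key : ∀ x x' : ↥(Q \ Z.R), x ≠ x' → Z.cell (g x) ≠ Z.cell (g x') ∧ P (g x) (g x') := by
    intro x x' hne
    have hne2 : x.1 ≠ x'.1 := fun h => hne (Subtype.ext h)
    obtain ⟨w, w', h4, h5, h6, h7⟩ := hadj x.1 x.2 x'.1 x'.2 hne2
    have h8 : g x = w := Z.inj ((hg x).symm.trans h5)
    have h9 : g x' = w' := Z.inj ((hg x').symm.trans h6)
    rw [h8, h9]
    exact ⟨h4, h7⟩
  have hinj : Function.Injective fun x => Z.cell (g x) := by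
    intro x x' h
    by_contra hne
    exact (key x x' hne).1 h
  have hbij : Function.Bijective fun x => Z.cell (g x) := by
    refine (Fintype.bijective_iff_injective_and_card _).2 ⟨hinj, ?_⟩
    refine le_antisymm (Fintype.card_le_of_injective _ hinj) ?_
    rw [Fintype.card_coe]
    exact h2
  choose p hp using hbij.2
  refine ⟨fun k => g (p k), hp, fun k k' hk => (key _ _ ?_).2⟩
  intro h
  apply hk
  rw [← hp k, ← hp k', h]

private theorem Sys.indep (Z : Sys n W Y) (P P' : W → W → Prop) (f : EdgeVar n)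
    (h : Z.gr P f ≠ Z.gr P' f) :
    ∃ w w', Z.cell w ≠ Z.cell w' ∧ f.1 = (Z.u w, Z.u w') ∧ ¬ (P w w' ↔ P' w w') := by
  classical
  have key : ∀ P P' : W → W → Prop, Z.Adj P f.1.1 f.1.2 → ¬ Z.Adj P' f.1.1 f.1.2 →
      ∃ w w', Z.cell w ≠ Z.cell w' ∧ f.1 = (Z.u w, Z.u w') ∧ ¬ (P w w' ↔ P' w w') := by
    intro P P' h1 h2
    rcases h1 with h1 | h1 | ⟨w, w', h3, h4, h5, h6⟩
    · exact (h2 (Or.inl h1)).elim
    · exact (h2 (Or.inr (Or.inl h1))).elim
    · refine ⟨w, w', h3, Prod.ext h4 h5, fun h7 => ?_⟩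
      exact h2 (Or.inr (Or.inr ⟨w, w', h3, h4, h5, h7.1 h6⟩))
  unfold Sys.gr at h
  by_cases h1 : Z.Adj P f.1.1 f.1.2
  · by_cases h2 : Z.Adj P' f.1.1 f.1.2
    · simp [h1, h2] at h
    · exact key P P' h1 h2
  · by_cases h2 : Z.Adj P' f.1.1 f.1.2
    · obtain ⟨w, w', h3, h4, h5⟩ := key P' P h2 h1
      exact ⟨w, w', h3, h4, fun h6 => h5 h6.symm⟩
    · simp [h1, h2] at h

end Sys

/-- places for the nodes and for `R` in the set `D` -/
private theorem restR {n : ℕ} (D : Finset (Fin n)) (N : Type) [Fintype N] (r : ℕ)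
    (h : Fintype.card N + r ≤ D.card) :
    ∃ (p : N → Fin n) (R : Finset (Fin n)), Function.Injective p ∧
      (∀ z, p z ∈ D) ∧ R.card = r ∧ R ⊆ D ∧ ∀ z, p z ∉ R := by
  classical
  obtain ⟨e⟩ := Function.Embedding.nonempty_of_card_le (α := N) (β := ↥D) (by
    rw [Fintype.card_coe]
    omega)
  obtain ⟨R, hR, hr⟩ := exists_subset_card_eq (s := D \ univ.image fun z => (e z).1) (n := r) (by
    have h2 := card_image_le (s := (univ : Finset N)) (f := fun z => (e z).1)
    have h3 := le_card_sdiff (univ.image fun z => (e z).1) D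
    rw [card_univ] at h2
    omega)
  exact ⟨fun z => (e z).1, R, fun z z' h => e.injective (Subtype.ext h), fun z => (e z).2, hr,
    hR.trans sdiff_subset, fun z hz => (mem_sdiff.1 (hR hz)).2 (mem_image.2 ⟨z, mem_univ _, rfl⟩)⟩

section Frame

variable {n K P G S : ℕ} {𝒦 : Type}

/-- two data vertices in different cells are joined -/
private def DD (Fr : Frm n K P G 𝒦) (x : Fin K × Fin P → Fin G → Bool) (y y' : Fin n) : Prop :=
  ∀ π, (Fr.cl y = some (Fr.F π) → Fr.cl y' = some (Fr.B π) →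
      ∃ g, y = Fr.vF π g (x π g) ∧ y' = Fr.vB π g (x π g)) ∧
    (Fr.cl y' = some (Fr.F π) → Fr.cl y = some (Fr.B π) →
      ∃ g, y' = Fr.vF π g (x π g) ∧ y = Fr.vB π g (x π g))

/-- the state `a` of the node `c` of the gadget `i` is joined to the data vertex `y` -/
private def ND (Fr : Frm n K P G 𝒦) (τ : Fin G → Fin K × Fin P → Fin G)
    (C : Fin G → Fin K × Fin P → Bool → Fin S → Bool × Bool → Prop)
    (i : Fin G) (c : Fin S) (a : Bool × Bool) (y : Fin n) : Prop :=
  (∃ π t, y = Fr.vF π (τ i π) t) ∨ ∃ π t, y = Fr.vB π (τ i π) t ∧ C i π t c a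

/-- compatibility -/
private def PR (Fr : Frm n K P G 𝒦) (τ : Fin G → Fin K × Fin P → Fin G)
    (C : Fin G → Fin K × Fin P → Bool → Fin S → Bool × Bool → Prop)
    (D : Fin G → Fin S → Bool × Bool → Fin S → Bool × Bool → Prop)
    (x : Fin K × Fin P → Fin G → Bool) :
    {y : Fin n // (Fr.cl y).isSome = true} ⊕ Fin G × Fin S × (Bool × Bool) →
      {y : Fin n // (Fr.cl y).isSome = true} ⊕ Fin G × Fin S × (Bool × Bool) → Prop
  | .inl y, .inl y' => DD Fr x y.1 y'.1
  | .inl y, .inr z => ND Fr τ C z.1 z.2.1 z.2.2 y.1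
  | .inr z, .inl y => ND Fr τ C z.1 z.2.1 z.2.2 y.1
  | .inr z, .inr z' => z.1 = z'.1 ∧ D z.1 z.2.1 z.2.2 z'.2.1 z'.2.2

private theorem DD.symm {Fr : Frm n K P G 𝒦} {x : Fin K × Fin P → Fin G → Bool} {y y' : Fin n}
    (h : DD Fr x y y') : DD Fr x y' y := fun π => ⟨(h π).2, (h π).1⟩

private theorem DD.diff {Fr : Frm n K P G 𝒦} {x x' : Fin K × Fin P → Fin G → Bool} {y y' : Fin n}
    (h : DD Fr x y y') (h' : ¬ DD Fr x' y y') :
    ∃ π g, x π g ≠ x' π g ∧ ((y = Fr.vF π g (x π g) ∧ y' = Fr.vB π g (x π g)) ∨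
      (y' = Fr.vF π g (x π g) ∧ y = Fr.vB π g (x π g))) := by
  by_contra hc
  apply h'
  intro π
  constructor
  · intro h1 h2
    obtain ⟨g, h3, h4⟩ := (h π).1 h1 h2
    refine ⟨g, ?_⟩
    have h5 : x π g = x' π g := by
      by_contra h6
      exact hc ⟨π, g, h6, Or.inl ⟨h3, h4⟩⟩
    rw [← h5]
    exact ⟨h3, h4⟩
  · intro h1 h2
    obtain ⟨g, h3, h4⟩ := (h π).2 h1 h2
    refine ⟨g, ?_⟩
    have h5 : x π g = x' π g := by
      by_contra h6
      exact hc ⟨π, g, h6, Or.inr ⟨h3, h4⟩⟩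
    rw [← h5]
    exact ⟨h3, h4⟩

private theorem edge_eq (Fr : Frm n K P G 𝒦) (π : Fin K × Fin P) (g : Fin G) (t : Bool)
    (f : EdgeVar n) (h : (f.1 = (Fr.vF π g t, Fr.vB π g t)) ∨ (f.1 = (Fr.vB π g t, Fr.vF π g t))) :
    f = Fr.e π g t := by
  apply Subtype.ext
  have h5 := f.2
  have h7 := (Fr.e π g t).2
  rcases Fr.he π g t with h8 | h8 <;> rcases h with h9 | h9
  · rw [h8, h9]
  · rw [h9] at h5
    rw [h8] at h7
    exact (lt_asymm h5 h7).elim
  · rw [h9] at h5
    rw [h8] at h7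
    exact (lt_asymm h5 h7).elim
  · rw [h8, h9]

end Frame

/-- The gadget `i` reads the letters `τ i π`; it has its own system of constraints on `S` nodes. -/
theorem placeR {n K P G S : ℕ} {𝒦 : Type} [Fintype 𝒦] (hK : 1 ≤ K) (hP : 1 ≤ P) (hS : 1 ≤ S)
    (Fr : Frm n K P G 𝒦) (hs : Fintype.card 𝒦 + S ≤ Nat.sqrt n + 1)
    (hn : 4 * (G * S) + Nat.sqrt n + 1 ≤ (univ.filter fun v => Fr.cl v = none).card)
    (τ : Fin G → Fin K × Fin P → Fin G)
    (C : Fin G → Fin K × Fin P → Bool → Fin S → Bool × Bool → Prop)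
    (D : Fin G → Fin S → Bool × Bool → Fin S → Bool × Bool → Prop)
    (hD : ∀ i c a c' a', D i c a c' a' → D i c' a' c a) :
    ∃ H : (Fin K × Fin P → Fin G → Bool) → EdgeVar n → Bool,
      (∀ x, Clq (H x) ↔ ∃ (i : Fin G) (r : Fin S → Bool × Bool),
        (∀ π c, C i π (x π (τ i π)) c (r c)) ∧ ∀ c c', c ≠ c' → D i c (r c) c' (r c')) ∧
      ∀ x x' f, H x f ≠ H x' f → ∃ π g t, x π g ≠ x' π g ∧ f = Fr.e π g t := by
  classical
  have hc : Fintype.card (Fin G × Fin S × (Bool × Bool)) = 4 * (G * S) := by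
    rw [Fintype.card_prod, Fintype.card_prod, Fintype.card_prod, Fintype.card_bool,
      Fintype.card_fin, Fintype.card_fin]
    ring
  obtain ⟨p, R, hp1, hp2, hR1, hR2, hR3⟩ := restR (univ.filter fun v => Fr.cl v = none)
    (Fin G × Fin S × (Bool × Bool)) (Nat.sqrt n + 1 - (Fintype.card 𝒦 + S)) (by
      rw [hc]
      omega)
  have hp2' : ∀ z, Fr.cl (p z) = none := fun z => (mem_filter.1 (hp2 z)).2
  have hR2' : ∀ v ∈ R, Fr.cl v = none := fun v hv => (mem_filter.1 (hR2 hv)).2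
  have hY : Fintype.card (𝒦 ⊕ Fin S) = Fintype.card 𝒦 + S := by
    rw [Fintype.card_sum, Fintype.card_fin]
  have hY2 : 2 ≤ Fintype.card (𝒦 ⊕ Fin S) := by
    rw [hY]
    have h1 : 1 < Fintype.card 𝒦 := by
      rw [Fintype.one_lt_card_iff]
      exact ⟨_, _, Fr.FB (⟨0, hK⟩, ⟨0, hP⟩) (⟨0, hK⟩, ⟨0, hP⟩)⟩
    omega
  let Z : Sys n ({y : Fin n // (Fr.cl y).isSome = true} ⊕ Fin G × Fin S × (Bool × Bool))
      (𝒦 ⊕ Fin S) :=
    { u := Sum.elim Subtype.val p
      inj := by
        rintro (y | z) (y' | z') h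
        · exact congrArg Sum.inl (Subtype.ext h)
        · have h1 : y.1 = p z' := h
          have h2 := y.2
          rw [h1, hp2'] at h2
          exact (Bool.false_ne_true h2).elim
        · have h1 : p z = y'.1 := h
          have h2 := y'.2
          rw [← h1, hp2'] at h2
          exact (Bool.false_ne_true h2).elim
        · exact congrArg Sum.inr (hp1 h)
      cell := Sum.map (fun y => (Fr.cl y.1).get y.2) fun z => z.2.1
      R := R
      hR := by
        rintro (y | z)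
        · intro h
          have h1 := hR2' y.1 h
          have h2 := y.2
          rw [h1] at h2
          exact Bool.false_ne_true h2
        · exact hR3 z
      card := by
        rw [hR1, hY]
        omega }
  have hcell : ∀ (y : {y : Fin n // (Fr.cl y).isSome = true}) κ, Z.cell (.inl y) = .inl κ →
      Fr.cl y.1 = some κ := by
    intro y κ h
    have h1 : (Fr.cl y.1).get y.2 = κ := Sum.inl_injective h
    rw [← h1]
    exact (Option.some_get y.2).symm
  have hsymm : ∀ x w w', PR Fr τ C D x w w' → PR Fr τ C D x w' w := by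
    rintro x (y | z) (y' | z') h
    · exact DD.symm h
    · exact h
    · exact h
    · obtain ⟨h1, h2⟩ := h
      refine ⟨h1.symm, ?_⟩
      rw [← h1]
      exact hD _ _ _ _ _ h2
  refine ⟨fun x => Z.gr (PR Fr τ C D x), fun x => ⟨fun h => ?_, ?_⟩, ?_⟩
  · obtain ⟨s, hs1, hs2⟩ := Z.of_clq (hsymm x) hY2 h
    have h1 : ∀ c, ∃ i a, s (.inr c) = .inr (i, c, a) := by
      intro c
      have h2 := hs1 (.inr c)
      rcases h3 : s (.inr c) with w | z
      · rw [h3] at h2
        exact (Sum.inl_ne_inr h2).elim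
      · rw [h3] at h2
        have h4 : z.2.1 = c := Sum.inr_injective h2
        exact ⟨z.1, z.2.2, congrArg Sum.inr (Prod.ext rfl (Prod.ext h4 rfl))⟩
    have h2 : ∀ κ, ∃ y, s (.inl κ) = .inl y ∧ Fr.cl y.1 = some κ := by
      intro κ
      have h2 := hs1 (.inl κ)
      rcases h3 : s (.inl κ) with y | z
      · rw [h3] at h2
        exact ⟨y, rfl, hcell y κ h2⟩
      · rw [h3] at h2
        exact (Sum.inr_ne_inl h2).elim
    choose j r hr using h1
    choose v hv1 hv2 using h2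
    let c0 : Fin S := ⟨0, hS⟩
    have hj : ∀ c, j c = j c0 := by
      intro c
      by_cases hc0 : c = c0
      · rw [hc0]
      · have h3 := hs2 (.inr c) (.inr c0) (fun h => hc0 (Sum.inr_injective h))
        rw [hr, hr] at h3
        exact h3.1
    have hnd : ∀ κ c, ND Fr τ C (j c0) c (r c) (v κ).1 := by
      intro κ c
      have h3 := hs2 (.inl κ) (.inr c) Sum.inl_ne_inr
      rw [hv1, hr] at h3
      have h4 : ND Fr τ C (j c) c (r c) (v κ).1 := h3
      rwa [hj] at h4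
    have hB : ∀ π c, ∃ t, (v (Fr.B π)).1 = Fr.vB π (τ (j c0) π) t ∧ C (j c0) π t c (r c) := by
      intro π c
      rcases hnd (Fr.B π) c with ⟨π', t, h3⟩ | ⟨π', t, h3, h4⟩
      · have h5 := hv2 (Fr.B π)
        rw [h3, Fr.clF] at h5
        exact (Fr.FB _ _ (Option.some.inj h5)).elim
      · have h5 := hv2 (Fr.B π)
        rw [h3, Fr.clB] at h5
        have h6 : π' = π := Fr.Binj _ _ (Option.some.inj h5)
        subst h6
        exact ⟨t, h3, h4⟩
    have hF : ∀ π, ∃ t, (v (Fr.F π)).1 = Fr.vF π (τ (j c0) π) t := by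
      intro π
      rcases hnd (Fr.F π) c0 with ⟨π', t, h3⟩ | ⟨π', t, h3, h4⟩
      · have h5 := hv2 (Fr.F π)
        rw [h3, Fr.clF] at h5
        by_cases h6 : π' = π
        · subst h6
          exact ⟨t, h3⟩
        · refine ⟨true, h3.trans ?_⟩
          exact Fr.com _ _ (Option.some.inj h5) h6 _ _ _ _
      · have h5 := hv2 (Fr.F π)
        rw [h3, Fr.clB] at h5
        exact (Fr.FB _ _ (Option.some.inj h5).symm).elim
    have hx : ∀ π t, (v (Fr.B π)).1 = Fr.vB π (τ (j c0) π) t → x π (τ (j c0) π) = t := by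
      intro π t h3
      obtain ⟨t', h4⟩ := hF π
      have h5 := hs2 (.inl (Fr.F π)) (.inl (Fr.B π))
        (fun h => Fr.FB _ _ (Sum.inl_injective h))
      rw [hv1, hv1] at h5
      have h6 : DD Fr x (v (Fr.F π)).1 (v (Fr.B π)).1 := h5
      obtain ⟨g, h7, h8⟩ := (h6 π).1 (hv2 _) (hv2 _)
      obtain ⟨h9, h10⟩ := Fr.pin π (τ (j c0) π) g t (x π g) t' (h7.symm.trans h4)
        (h8.symm.trans h3)
      rw [← h9, h10]
    refine ⟨j c0, r, fun π c => ?_, fun c c' hcc => ?_⟩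
    · obtain ⟨t, h3, h4⟩ := hB π c
      rw [hx π t h3]
      exact h4
    · have h3 := hs2 (.inr c) (.inr c') (fun h => hcc (Sum.inr_injective h))
      rw [hr, hr] at h3
      have h4 : D (j c) c (r c) c' (r c') := h3.2
      rwa [hj] at h4
  · rintro ⟨i, r, hr1, hr2⟩
    have h1 : ∀ κ, ∃ y, (∃ π, κ = Fr.F π ∧ y = Fr.vF π (τ i π) (x π (τ i π))) ∨
        ∃ π, κ = Fr.B π ∧ y = Fr.vB π (τ i π) (x π (τ i π)) := by
      intro κ
      obtain ⟨π, h | h⟩ := Fr.surj κ
      · exact ⟨_, Or.inl ⟨π, h, rfl⟩⟩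
      · exact ⟨_, Or.inr ⟨π, h, rfl⟩⟩
    choose v hv using h1
    have hcl : ∀ κ, Fr.cl (v κ) = some κ := by
      intro κ
      rcases hv κ with ⟨π, h, h'⟩ | ⟨π, h, h'⟩
      · rw [h', Fr.clF, ← h]
      · rw [h', Fr.clB, ← h]
    have hF : ∀ π, v (Fr.F π) = Fr.vF π (τ i π) (x π (τ i π)) := by
      intro π
      rcases hv (Fr.F π) with ⟨π', h, h'⟩ | ⟨π', h, h'⟩
      · by_cases h6 : π = π'
        · subst h6
          exact h'
        · rw [h']
          exact (Fr.com _ _ h h6 _ _ _ _).symm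
      · exact (Fr.FB _ _ h).elim
    have hB : ∀ π, v (Fr.B π) = Fr.vB π (τ i π) (x π (τ i π)) := by
      intro π
      rcases hv (Fr.B π) with ⟨π', h, h'⟩ | ⟨π', h, h'⟩
      · exact (Fr.FB _ _ h.symm).elim
      · have h6 : π = π' := Fr.Binj _ _ h
        subst h6
        exact h'
    have hdd : ∀ κ κ', DD Fr x (v κ) (v κ') := by
      intro κ κ' π
      constructor
      · intro h2 h3
        rw [hcl] at h2 h3
        have h4 := Option.some.inj h2
        have h5 := Option.some.inj h3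
        subst h4
        subst h5
        exact ⟨τ i π, hF π, hB π⟩
      · intro h2 h3
        rw [hcl] at h2 h3
        have h4 := Option.some.inj h2
        have h5 := Option.some.inj h3
        subst h4
        subst h5
        exact ⟨τ i π, hF π, hB π⟩
    have hnd : ∀ κ c, ND Fr τ C i c (r c) (v κ) := by
      intro κ c
      rcases hv κ with ⟨π, h, h'⟩ | ⟨π, h, h'⟩
      · exact Or.inl ⟨π, _, h'⟩
      · exact Or.inr ⟨π, _, h', hr1 π c⟩
    have hsome : ∀ κ, (Fr.cl (v κ)).isSome = true := by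
      intro κ
      rw [hcl]
      rfl
    refine Z.clq_of (hsymm x) (Sum.elim (fun κ => .inl ⟨v κ, hsome κ⟩) fun c => .inr (i, c, r c))
      ?_ ?_
    · rintro (κ | c)
      · change Sum.inl ((Fr.cl (v κ)).get (hsome κ)) = Sum.inl κ
        congr 1
        apply Option.some_injective
        rw [Option.some_get, hcl]
      · rfl
    · rintro (κ | c) (κ' | c') hk
      · exact hdd κ κ'
      · exact hnd κ c'
      · exact hnd κ' c
      · exact ⟨rfl, hr2 _ _ fun h => hk (congrArg Sum.inr h)⟩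
  · intro x x' f h
    obtain ⟨w, w', h1, h2, h3⟩ := Z.indep _ _ f h
    rcases w with y | z <;> rcases w' with y' | z'
    · have h4 : ¬ (DD Fr x y.1 y'.1 ↔ DD Fr x' y.1 y'.1) := h3
      have h5 : f.1 = (y.1, y'.1) := h2
      by_cases h6 : DD Fr x y.1 y'.1
      · have h7 : ¬ DD Fr x' y.1 y'.1 := fun h7 => h4 ⟨fun _ => h7, fun _ => h6⟩
        obtain ⟨π, g, h8, h9⟩ := DD.diff h6 h7
        refine ⟨π, g, x π g, h8, edge_eq Fr π g _ f ?_⟩
        rcases h9 with ⟨h9, h10⟩ | ⟨h9, h10⟩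
        · left
          rw [h5, ← h9, ← h10]
        · right
          rw [h5, ← h9, ← h10]
      · have h7 : DD Fr x' y.1 y'.1 := by
          by_contra h7
          exact h4 ⟨fun h8 => (h6 h8).elim, fun h8 => (h7 h8).elim⟩
        obtain ⟨π, g, h8, h9⟩ := DD.diff h7 h6
        refine ⟨π, g, x' π g, h8.symm, edge_eq Fr π g _ f ?_⟩
        rcases h9 with ⟨h9, h10⟩ | ⟨h9, h10⟩
        · left
          rw [h5, ← h9, ← h10]
        · right
          rw [h5, ← h9, ← h10]
    · exact (h3 Iff.rfl).elim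
    · exact (h3 Iff.rfl).elim
    · exact (h3 Iff.rfl).elim

end Pool.Agent.LS
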