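import Mathlib
import Pool.Agent.Lib.MP_0a1b52_lc_LS.DiscR
import Pool.Agent.Lib.MP_0a1b52_lc_LS.CountR
import Pool.Agent.Lib.MP_0a1b52_lc_LS.FrameR
import Pool.Agent.Lib.MP_0a1b52_lc_LS.PlaceR
import Pool.Agent.Lib.MP_0a1b52_lc_LS.CspQ
import Pool.Agent.Lib.MP_0a1b52_lc_RK.Defs

/-!
# Reading more than `c log² n` times, module FamR: the family of graphs, many gadgets
-/

set_option autoImplicit false

namespace Pool.Agent.LS

open Finset Pool.Agent.FP Pool.Agent.RK

/-- the constraints for one gadget, with exactly `S` nodes -/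
private theorem cspS {K P B : ℕ} (q : Fin K → Fin P → Fin B) :
    ∃ (C : Fin K × Fin P → Bool → Fin (8 * (K + 1) * (P + B + 1)) → Bool × Bool → Prop)
      (D : Fin (8 * (K + 1) * (P + B + 1)) → Bool × Bool → Fin (8 * (K + 1) * (P + B + 1)) →
        Bool × Bool → Prop),
      (∀ c a c' a', D c a c' a' → D c' a' c a) ∧
      ∀ x : Fin K → Fin P → Bool,
        (∃ r : Fin (8 * (K + 1) * (P + B + 1)) → Bool × Bool,
          (∀ i c, C i (x i.1 i.2) c (r c)) ∧ ∀ c c', c ≠ c' → D c (r c) c' (r c')) ↔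
          val (tab q) x = true := by
  classical
  obtain ⟨N, hN, C, D, h1, h2, h3⟩ := cspq q false
  obtain ⟨φ⟩ : Nonempty (N ↪ Fin (8 * (K + 1) * (P + B + 1))) := by
    apply Function.Embedding.nonempty_of_card_le
    rw [Fintype.card_fin]
    exact h1
  refine ⟨fun i t c a => ∀ c₀, φ c₀ = c → C i t c₀ a,
    fun c a c' a' => ∀ c₀ c₁, φ c₀ = c → φ c₁ = c' → D c₀ a c₁ a', ?_, ?_⟩
  · intro c a c' a' h c₀ c₁ h4 h5
    exact h2 _ _ _ _ (h c₁ c₀ h5 h4)
  · intro x
    have h4 : (val (tab q) x != false) = val (tab q) x := by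
      cases val (tab q) x <;> rfl
    rw [← h4, ← h3]
    constructor
    · rintro ⟨r, h5, h6⟩
      exact ⟨fun c => r (φ c), fun i c => h5 i (φ c) c rfl,
        fun c c' hc => h6 (φ c) (φ c') (fun h => hc (φ.injective h)) c c' rfl rfl⟩
    · rintro ⟨r, h5, h6⟩
      have h7 : ∀ c₀, Function.extend φ r (fun _ => (false, false)) (φ c₀) = r c₀ := fun c₀ =>
        φ.injective.extend_apply r _ c₀
      refine ⟨Function.extend φ r fun _ => (false, false), ?_, ?_⟩
      · rintro i c c₀ rfl
        rw [h7]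
        exact h5 i c₀
      · rintro c c' hcc c₀ c₁ rfl rfl
        rw [h7, h7]
        exact h6 c₀ c₁ fun h => hcc (congrArg φ h)

private theorem graphsR (n K P G B : ℕ) (hK : 1 ≤ K) (hP : 1 ≤ P) (hG : 1 ≤ G)
    (hn : 4 * (G * (8 * (K + 1) * (P + B + 1))) + Nat.sqrt n + 1 ≤ n / 4)
    (hs : 2 * (K * P) + 1 + 8 * (K + 1) * (P + B + 1) ≤ Nat.sqrt n + 1)
    (E : Finset (EdgeVar n)) (hE : 2048 * (K * P) ^ 4 * G ≤ E.card) :
    ∃ e : Fin K → Fin P → Fin G → Bool → EdgeVar n, (∀ k p g t, e k p g t ∈ E) ∧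
      (∀ k p g t k' p' g' t', e k p g t = e k' p' g' t' → k = k' ∧ p = p' ∧ g = g' ∧ t = t') ∧
      ∃ H : QR K P G B → WR K P G → EdgeVar n → Bool,
        (∀ q x, Clq (H q x) ↔ ∃ i, valR q x i = true) ∧
        ∀ q x x' f, H q x f ≠ H q x' f → ∃ k p g t, x k p g ≠ x' k p g ∧ f = e k p g t := by
  classical
  obtain ⟨𝒦, hF, Fr, h1, h2, h3⟩ := frameR hK hP hG E hE
  refine ⟨fun k p g t => Fr.e (k, p) g t, fun k p g t => h2 _ _ _, ?_, ?_⟩
  · intro k p g t k' p' g' t' h
    obtain ⟨h4, h5, h6⟩ := Fr.inj _ _ _ _ _ _ h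
    exact ⟨congrArg Prod.fst h4, congrArg Prod.snd h4, h5, h6⟩
  · have key : ∀ q : QR K P G B, ∃ H : WR K P G → EdgeVar n → Bool,
        (∀ x, Clq (H x) ↔ ∃ i, valR q x i = true) ∧
        ∀ x x' f, H x f ≠ H x' f → ∃ k p g t, x k p g ≠ x' k p g ∧ f = Fr.e (k, p) g t := by
      intro q
      choose C D hD hC using fun i : Fin G => cspS (fun k p => q.2 k p i)
      obtain ⟨H, h4, h5⟩ := placeR hK hP (S := 8 * (K + 1) * (P + B + 1))
        (Nat.succ_le_of_lt (by positivity)) Fr
        (by omega) (by omega) (fun i π => q.1 π.1 π.2 i) C D hD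
      refine ⟨fun x => H fun π g => x π.1 π.2 g, fun x => ?_, fun x x' f h => ?_⟩
      · rw [h4]
        refine exists_congr fun i => ?_
        exact hC i fun k p => x k p (q.1 k p i)
      · obtain ⟨π, g, t, h6, h7⟩ := h5 _ _ f h
        exact ⟨π.1, π.2, g, t, h6, h7⟩
    choose H hH1 hH2 using key
    exact ⟨H, hH1, hH2⟩

/-- the family of non-cliques -/
theorem famR (n K P G B : ℕ) (hK : 1 ≤ K) (hP : 1 ≤ P) (hG : 8 * K ≤ G) (hB : 1 ≤ B)
    (hn : 4 * (G * (8 * (K + 1) * (P + B + 1))) + Nat.sqrt n + 1 ≤ n / 4)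
    (hs : 2 * (K * P) + 1 + 8 * (K + 1) * (P + B + 1) ≤ Nat.sqrt n + 1)
    (E : Finset (EdgeVar n)) (hE : 2048 * (K * P) ^ 4 * G ≤ E.card) :
    ∃ e : Fin K → Fin (P * G) → Bool → EdgeVar n, (∀ k j t, e k j t ∈ E) ∧
      (∀ k j t k' j' t', e k j t = e k' j' t' → k = k' ∧ j = j' ∧ t = t') ∧
      ∃ (ι : Type) (_ : Fintype ι) (_ : Nonempty ι) (Q : ι → EdgeVar n → Bool),
        (∀ i, ¬ Clq (Q i)) ∧
        ∀ (X : Fin K → Finset (EdgeVar n)) (J : Fin K → Finset (Fin (P * G))) (Y : ℕ),
          (∀ k, Y ≤ (J k).card) → (∀ k, ∀ j ∈ J k, ∀ t, e k j t ∈ X k) →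
          ∀ T : (EdgeVar n → Bool) → Prop, StarK X T → (∀ x, T x → ¬ Clq x) →
            ((Nat.card {i // T (Q i)} : ℝ) / (2 ^ G * Fintype.card ι)) ^ 2 ^ (K - 1) ≤
              K * 2 ^ (G * B) * (1 - 1 / (4 * K : ℝ)) ^ (Y / (16 * K)) +
                (1 - (1 / 2 : ℝ) ^ (K - 1)) ^ (G * B / 2) := by
  classical
  obtain ⟨e, he1, he2, H, hH1, hH2⟩ := graphsR n K P G B hK hP (by omega) hn hs E hE
  refine ⟨fun k j t => e k (finProdFinEquiv.symm j).1 (finProdFinEquiv.symm j).2 t,
    fun k j t => he1 _ _ _ _, ?_, ?_⟩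
  · intro k j t k' j' t' h
    obtain ⟨h1, h2, h3, h4⟩ := he2 _ _ _ _ _ _ _ _ h
    exact ⟨h1, finProdFinEquiv.symm.injective (Prod.ext h2 h3), h4⟩
  · have hcount : Fintype.card (QR K P G B × WR K P G) ≤ 2 ^ G *
        Fintype.card {p : QR K P G B × WR K P G // ∀ i, valR p.1 p.2 i = false} := by
      have h1 : (univ.filter fun p : QR K P G B × WR K P G => ∀ i, valR p.1 p.2 i = false).card =
          ∑ q : QR K P G B, (univ.filter fun x : WR K P G => ∀ i, valR q x i = false).card := by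
        rw [card_filter, ← univ_product_univ, sum_product]
        refine sum_congr rfl fun q _ => ?_
        rw [card_filter]
      rw [Fintype.card_subtype, h1, mul_sum, Fintype.card_prod, ← smul_eq_mul, ← card_univ,
        ← sum_const]
      exact sum_le_sum fun q _ => countR hK q
    have hpos : 0 < Fintype.card (QR K P G B × WR K P G) :=
      Fintype.card_pos_iff.2
        ⟨((fun _ _ => Equiv.refl _, fun _ _ _ => ⟨0, hB⟩), fun _ _ _ => false)⟩
    have hne : Nonempty {p : QR K P G B × WR K P G // ∀ i, valR p.1 p.2 i = false} := by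
      rw [← Fintype.card_pos_iff]
      by_contra h0
      have h1 : Fintype.card {p : QR K P G B × WR K P G // ∀ i, valR p.1 p.2 i = false} = 0 := by
        omega
      rw [h1, mul_zero] at hcount
      omega
    refine ⟨{p : QR K P G B × WR K P G // ∀ i, valR p.1 p.2 i = false}, inferInstance, hne,
      fun p => H p.1.1 p.1.2, ?_, ?_⟩
    · intro p hp
      obtain ⟨i, hi⟩ := (hH1 _ _).1 hp
      rw [p.2 i] at hi
      exact Bool.noConfusion hi
    · intro X J Y hJ hJX T hT hTn
      have h2 := discR hK hG Y (fun k => (J k).map finProdFinEquiv.symm.toEmbedding)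
        (fun k => by rw [card_map]; exact hJ k) (fun q x => T (H q x)) (by
          intro q u v k1 k2 k3
          refine hT (H q u) (fun k => H q (v k)) ?_ k3
          intro k f hf
          by_contra h4
          obtain ⟨k', p, g, t, h5, h6⟩ := hH2 q (v k) u f h4
          by_cases h7 : k' = k
          · subst h7
            by_cases h8 : (p, g) ∈ (J k').map finProdFinEquiv.symm.toEmbedding
            · obtain ⟨j, hj, h9⟩ := mem_map.1 h8
              refine hf ?_
              have h10 : e k' (finProdFinEquiv.symm j).1 (finProdFinEquiv.symm j).2 t ∈ X k' :=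
                hJX k' j hj t
              have h11 : finProdFinEquiv.symm j = (p, g) := h9
              rw [h11] at h10
              rw [h6]
              exact h10
            · exact h5 (k2 k' p g h8)
          · exact h5 (congrFun (congrFun (k1 k k' h7) p) g)) (by
          intro q x hx i
          by_contra h4
          exact hTn _ hx ((hH1 q x).2 ⟨i, by simpa using h4⟩))
      refine le_trans ?_ h2
      refine pow_le_pow_left₀ (by positivity) ?_ _
      have h3 : Nat.card {i : {p : QR K P G B × WR K P G // ∀ i, valR p.1 p.2 i = false} //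
          T (H i.1.1 i.1.2)} ≤
          (univ.filter fun p : QR K P G B × WR K P G => T (H p.1 p.2)).card := by
        rw [Nat.card_eq_fintype_card, ← Fintype.card_subtype]
        refine Fintype.card_le_of_injective (fun i => ⟨i.1.1, i.2⟩) fun i i' h => ?_
        have h7 := congrArg Subtype.val h
        exact Subtype.ext (Subtype.ext h7)
      have h4 : (0 : ℝ) < Fintype.card (QR K P G B × WR K P G) := by exact_mod_cast hpos
      have h5 : (Fintype.card (QR K P G B × WR K P G) : ℝ) ≤ 2 ^ G *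
          Fintype.card {p : QR K P G B × WR K P G // ∀ i, valR p.1 p.2 i = false} := by
        exact_mod_cast hcount
      have h6 : (Nat.card {i : {p : QR K P G B × WR K P G // ∀ i, valR p.1 p.2 i = false} //
          T (H i.1.1 i.1.2)} : ℝ) ≤
          (univ.filter fun p : QR K P G B × WR K P G => T (H p.1 p.2)).card := by
        exact_mod_cast h3
      exact div_le_div₀ (by positivity) h6 h4 h5

end Pool.Agent.LS
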