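import Mathlib
import Pool.Agent.Lib.MP_0a1b52_lc_LS.MainKS
import Pool.Agent.Lib.MP_0a1b52_lc_LS.MainKT
import Pool.Agent.Lib.MP_0a1b52_lc_LS.FamR
import Pool.Agent.Lib.MP_0a1b52_lc_LS.FamQ
import Pool.Agent.Lib.MP_0a1b52_lc_RT.DefsL
import Pool.Agent.Lib.MP_0a1b52_lc_RT.Dual

/-!
# Reading more than `r` times, module MainU: circuits with free functions of the other variables

The circuits have, besides the variables, `t` further inputs; the further input `w` has on the input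
`x` the value `g w x`, where `g w` is any function of the variables outside `E`.
-/

set_option autoImplicit false

namespace Pool.Agent.LS

open Finset Pool.Agent.FP Pool.Agent.RK Pool.Agent.RT

private theorem lawfulSum (α β : Type) [BEq α] [LawfulBEq α] [BEq β] [LawfulBEq β] :
    LawfulBEq (α ⊕ β) where
  eq_of_beq := by
    rintro (a | b) (a' | b') h
    · exact congrArg Sum.inl (eq_of_beq h)
    · exact absurd h Bool.false_ne_true
    · exact absurd h Bool.false_ne_true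
    · exact congrArg Sum.inr (eq_of_beq h)
  rfl := by
    rintro (a | b)
    · exact (beq_self_eq_true a : (a == a) = true)
    · exact (beq_self_eq_true b : (b == b) = true)

/-- passing from sets of long inputs to sets of inputs -/
private theorem freeK {n t K M : ℕ} (E : Finset (EdgeVar n)) (e : Fin K → Fin M → Bool → EdgeVar n)
    (he : ∀ k j b, e k j b ∈ E) (g : Fin t → (EdgeVar n → Bool) → Bool)
    (hg : ∀ w x y, (∀ f, f ∉ E → x f = y f) → g w x = g w y)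
    (X : Fin K → Finset (EdgeVar n ⊕ Fin t)) (J : Fin K → Finset (Fin M))
    (hJX : ∀ k, ∀ j ∈ J k, ∀ b, Sum.inl (e k j b) ∈ X k) (T : (EdgeVar n ⊕ Fin t → Bool) → Prop)
    (hT : StarK X T) :
    ∃ X' : Fin K → Finset (EdgeVar n), (∀ k, ∀ j ∈ J k, ∀ b, e k j b ∈ X' k) ∧
      StarK X' fun x => T (Sum.elim x fun w => g w x) := by
  classical
  refine ⟨fun k => (J k ×ˢ univ).image fun p => e k p.1 p.2, fun k j hj b =>
    mem_image.2 ⟨(j, b), mem_product.2 ⟨hj, mem_univ _⟩, rfl⟩, ?_⟩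
  intro u v h1 h2
  refine hT _ (fun k => Sum.elim (v k) fun w => g w (v k)) ?_ h2
  rintro k (f | w) hf
  · refine h1 k f fun h3 => ?_
    obtain ⟨⟨j, b⟩, h4, rfl⟩ := mem_image.1 h3
    exact hf (hJX k j (mem_product.1 h4).1 b)
  · refine hg w _ _ fun f hf => h1 k f fun h3 => ?_
    obtain ⟨⟨j, b⟩, h4, rfl⟩ := mem_image.1 h3
    exact hf (he k j b)

open Classical in
/-- the side of the non-cliques, the form with trees -/
theorem mainUS (r m n : ℕ) (hr : 1 ≤ r) (hm : (2 : ℝ) ^ (256 * Real.sqrt r) ≤ m) (hn : m ≤ n)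
    (E : Finset (EdgeVar n)) (hE : m ≤ E.card) :
      ∃ (N : ℕ) (Q : Fin N → EdgeVar n → Bool), 0 < N ∧ (∀ i, ¬ Clq (Q i)) ∧
        ∀ (t : ℕ) (g : Fin t → (EdgeVar n → Bool) → Bool),
          (∀ w x y, (∀ f, f ∉ E → x f = y f) → g w x = g w y) →
        ∀ (s : ℕ) (D : Circuit (EdgeVar n ⊕ Fin t) s),
          (∀ x, Clq x → D.Accepts (Sum.elim x fun w => g w x)) →
          (s : ℝ) ≤ (2 : ℝ) ^ (m / (2 : ℝ) ^ (256 * Real.sqrt r)) →
          (∀ e ∈ E, ∀ L, Tree D D.out L → L.count (Sum.inl e) ≤ r) →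
          ((univ.filter fun i => ¬ D.Accepts (Sum.elim (Q i) fun w => g w (Q i))).card : ℝ) ≤
            N * (2 : ℝ) ^ (-(m / (2 : ℝ) ^ (256 * Real.sqrt r))) := by
  obtain ⟨K, P, G, B, hK, hP, hG, hB, h8, hEc, hcell, hmain⟩ := mainKS r m hr hm
  obtain ⟨h1, h2⟩ := hcell n hn
  obtain ⟨e, he1, he2, ι, hι, hne, Q, hQ1, hQ2⟩ := famR n K P G B hK hP h8 hB h1 h2 E
    (hEc.trans hE)
  obtain ⟨φ⟩ : Nonempty (ι ≃ Fin (Fintype.card ι)) := ⟨Fintype.equivFin _⟩
  refine ⟨Fintype.card ι, fun i => Q (φ.symm i), Fintype.card_pos, fun i => hQ1 _, ?_⟩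
  intro t g hg s D hD hs hcnt
  have h3 := hmain (EdgeVar n ⊕ Fin t) (fun k j b => Sum.inl (e k j b))
    (fun k j b k' j' b' h => he2 k j b k' j' b' (Sum.inl.inj h)) ι
    (fun i => Sum.elim (Q i) fun w => g w (Q i))
    (fun z => ∀ x, z = Sum.elim x (fun w => g w x) → ¬ Clq x) (by
      intro X J Y hJ hJX T hT hTC
      obtain ⟨X', h4, h5⟩ := freeK E e he1 g hg X J hJX T hT
      have h6 := hQ2 X' J Y hJ h4 _ h5 fun x hx => hTC _ hx x rfl
      beta_reduce at h6 ⊢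
      exact h6) s D
    (by
      rintro z hz x rfl hx
      exact hz (hD x hx)) hs (by
    intro k j b L hL
    haveI := lawfulSum (EdgeVar n) (Fin t)
    refine le_trans (le_of_eq ?_) (hcnt _ (he1 k j b) L hL)
    rw [lawful_beq_subsingleton (instBEqOfDecidableEq : BEq (EdgeVar n ⊕ Fin t)) Sum.instBEq])
  refine le_trans (le_of_eq ?_) h3
  rw [Nat.card_eq_fintype_card, Fintype.card_subtype, Nat.cast_inj]
  refine card_bij (fun i _ => φ.symm i) ?_ ?_ ?_
  · intro i hi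
    exact mem_filter.2 ⟨mem_univ _, (mem_filter.1 hi).2⟩
  · intro i _ j _ h
    exact φ.symm.injective h
  · intro i hi
    refine ⟨φ i, mem_filter.2 ⟨mem_univ _, ?_⟩, φ.symm_apply_apply i⟩
    have h2 := (mem_filter.1 hi).2
    simpa only [φ.symm_apply_apply] using h2

open Classical in
/-- the side of the non-cliques, the form with signed leaves -/
theorem mainUL (r m n : ℕ) (hr : 1 ≤ r) (hm : (2 : ℝ) ^ (256 * Real.sqrt r) ≤ m) (hn : m ≤ n)
    (E : Finset (EdgeVar n)) (hE : m ≤ E.card) :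
      ∃ (N : ℕ) (Q : Fin N → EdgeVar n → Bool), 0 < N ∧ (∀ i, ¬ Clq (Q i)) ∧
        ∀ (t : ℕ) (g : Fin t → (EdgeVar n → Bool) → Bool),
          (∀ w x y, (∀ f, f ∉ E → x f = y f) → g w x = g w y) →
        ∀ (s : ℕ) (D : Circuit (EdgeVar n ⊕ Fin t) s),
          (∀ x, Clq x → D.Accepts (Sum.elim x fun w => g w x)) →
          (s : ℝ) ≤ (2 : ℝ) ^ (m / (2 : ℝ) ^ (256 * Real.sqrt r)) →
          (∀ e ∈ E, ∀ L, LTree D D.out L → (L.map Prod.fst).count (Sum.inl e) ≤ r) →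
          ((univ.filter fun i => ¬ D.Accepts (Sum.elim (Q i) fun w => g w (Q i))).card : ℝ) ≤
            N * (2 : ℝ) ^ (-(m / (2 : ℝ) ^ (256 * Real.sqrt r))) := by
  obtain ⟨N, Q, hN, hQ, h⟩ := mainUS r m n hr hm hn E hE
  refine ⟨N, Q, hN, hQ, fun t g hg s D hD hs hcnt => h t g hg s D hD hs fun e he M hM => ?_⟩
  obtain ⟨L, hL, rfl⟩ := (tree_iff D D.out M).1 hM
  exact hcnt e he L hL

open Classical in
/-- both sides, the form with trees -/
theorem mainUT (r m n : ℕ) (hr : 1 ≤ r) (hm : (2 : ℝ) ^ (256 * Real.sqrt r) ≤ m) (hn : m ≤ n)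
    (E : Finset (EdgeVar n)) (hE : m ≤ E.card) (ty : Bool) :
      ∃ (N : ℕ) (Q : Fin N → EdgeVar n → Bool), 0 < N ∧ (∀ i, Clq (Q i) ↔ ty = true) ∧
        ∀ (t : ℕ) (g : Fin t → (EdgeVar n → Bool) → Bool),
          (∀ w x y, (∀ f, f ∉ E → x f = y f) → g w x = g w y) →
        ∀ (s : ℕ) (D : Circuit (EdgeVar n ⊕ Fin t) s),
          (∀ x, ¬ D.Accepts (Sum.elim x fun w => g w x) → (Clq x ↔ ty = true)) →
          (s : ℝ) ≤ (2 : ℝ) ^ Real.sqrt (m / (2 : ℝ) ^ (256 * Real.sqrt r)) →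
          (∀ e ∈ E, ∀ L, Tree D D.out L → L.count (Sum.inl e) ≤ r) →
          ((univ.filter fun i => ¬ D.Accepts (Sum.elim (Q i) fun w => g w (Q i))).card : ℝ) ≤
            N * (2 : ℝ) ^ (-Real.sqrt (m / (2 : ℝ) ^ (256 * Real.sqrt r))) := by
  obtain ⟨K, N₁, N₂, hK, hN, hN2, hcell, hEc, hmain⟩ := mainKT r m hr hm
  obtain ⟨hM1, hM2⟩ := hcell n hn
  obtain ⟨e, he1, he2, hfam⟩ := famQ n K N₁ N₂ hK hN hN2 hM1 hM2 E (hEc.trans hE)
  obtain ⟨Q, hQ1, hQ2⟩ := hfam ty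
  obtain ⟨φ⟩ : Nonempty (TabQ K N₁ N₂ × WdQ K N₁ ≃ Fin (Fintype.card (TabQ K N₁ N₂ × WdQ K N₁))) :=
    ⟨Fintype.equivFin _⟩
  refine ⟨Fintype.card (TabQ K N₁ N₂ × WdQ K N₁), fun i => Q (φ.symm i), ?_, fun i => hQ1 _, ?_⟩
  · exact Fintype.card_pos_iff.2 ⟨(fun _ _ => ⟨0, hN2⟩, fun _ _ => false)⟩
  intro t g hg s D hD hs hcnt
  have h1 := hmain (EdgeVar n ⊕ Fin t) (fun k j b => Sum.inl (e k j b))
    (fun k j b k' j' b' h => he2 k j b k' j' b' (Sum.inl.inj h)) (TabQ K N₁ N₂ × WdQ K N₁)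
    (fun i => Sum.elim (Q i) fun w => g w (Q i))
    (fun z => ∀ x, z = Sum.elim x (fun w => g w x) → (Clq x ↔ ty = true)) (by
      intro X J Y hJ hJX T hT hTC
      obtain ⟨X', h4, h5⟩ := freeK E e he1 g hg X J hJX T hT
      have h6 := hQ2 X' J Y hJ h4 _ h5 fun x hx => hTC _ hx x rfl
      beta_reduce at h6 ⊢
      exact h6) s D
    (by
      rintro z hz x rfl
      exact hD x hz) hs (by
    intro k j b L hL
    haveI := lawfulSum (EdgeVar n) (Fin t)
    refine le_trans (le_of_eq ?_) (hcnt _ (he1 k j b) L hL)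
    rw [lawful_beq_subsingleton (instBEqOfDecidableEq : BEq (EdgeVar n ⊕ Fin t)) Sum.instBEq])
  refine le_trans (le_of_eq ?_) h1
  rw [Nat.card_eq_fintype_card, Fintype.card_subtype, Nat.cast_inj]
  refine card_bij (fun i _ => φ.symm i) ?_ ?_ ?_
  · intro i hi
    exact mem_filter.2 ⟨mem_univ _, (mem_filter.1 hi).2⟩
  · intro i _ j _ h
    exact φ.symm.injective h
  · intro i hi
    refine ⟨φ i, mem_filter.2 ⟨mem_univ _, ?_⟩, φ.symm_apply_apply i⟩
    have h2 := (mem_filter.1 hi).2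
    simpa only [φ.symm_apply_apply] using h2

open Classical in
/-- the side of the cliques -/
theorem mainUA (r m n : ℕ) (hr : 1 ≤ r) (hm : (2 : ℝ) ^ (256 * Real.sqrt r) ≤ m) (hn : m ≤ n)
    (E : Finset (EdgeVar n)) (hE : m ≤ E.card) :
      ∃ (N : ℕ) (P : Fin N → EdgeVar n → Bool), 0 < N ∧ (∀ i, Clq (P i)) ∧
        ∀ (t : ℕ) (g : Fin t → (EdgeVar n → Bool) → Bool),
          (∀ w x y, (∀ f, f ∉ E → x f = y f) → g w x = g w y) →
        ∀ (s : ℕ) (D : Circuit (EdgeVar n ⊕ Fin t) s),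
          (∀ x, ¬ Clq x → ¬ D.Accepts (Sum.elim x fun w => g w x)) →
          (s : ℝ) ≤ (2 : ℝ) ^ Real.sqrt (m / (2 : ℝ) ^ (256 * Real.sqrt r)) →
          (∀ e ∈ E, ∀ L, ATree D D.out L → L.count (Sum.inl e) ≤ r) →
          ((univ.filter fun i => D.Accepts (Sum.elim (P i) fun w => g w (P i))).card : ℝ) ≤
            N * (2 : ℝ) ^ (-Real.sqrt (m / (2 : ℝ) ^ (256 * Real.sqrt r))) := by
  obtain ⟨N, Q, hN, hQ, h⟩ := mainUT r m n hr hm hn E hE true
  refine ⟨N, Q, hN, fun i => (hQ i).2 rfl, fun t g hg s D hD hs hcnt => ?_⟩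
  have h3 := h t g hg s (dual D) (fun x hx => by
      rw [dual_accepts, not_not] at hx
      refine ⟨fun _ => rfl, fun _ => ?_⟩
      by_contra hc
      exact hD x hc hx) hs (fun e he L hL => hcnt e he L (tree_dual hL))
  have h4 : (univ.filter fun i => ¬ (dual D).Accepts (Sum.elim (Q i) fun w => g w (Q i))) =
      univ.filter fun i => D.Accepts (Sum.elim (Q i) fun w => g w (Q i)) := by
    ext i
    rw [mem_filter, mem_filter, dual_accepts, not_not]
  rw [h4] at h3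
  exact h3

end Pool.Agent.LS
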