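import Mathlib
import Pool.Agent.Lib.MP_0a1b52_lc_LS.Defs

/-!
# Reading more than `c log² n` times, module Disc: star-closed sets on which `val A` is constant
-/

set_option autoImplicit false

namespace Pool.Agent.LS

open Finset
open scoped BigOperators

/-! ## Signs and parities -/

private def sgn (b : Bool) : ℝ := if b then -1 else 1

private theorem sgn_xor (a b : Bool) : sgn (xor a b) = sgn a * sgn b := by
  cases a <;> cases b <;> simp [sgn]

private theorem sgn_par {n : ℕ} (f : Fin n → Bool) : sgn (par f) = ∏ i, sgn (f i) := by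
  have h1 : ∏ i, sgn (f i) = (-1 : ℝ) ^ (univ.filter fun i => f i = true).card := by
    unfold sgn
    rw [prod_ite]
    simp
  rw [h1, par, sgn]
  rcases Nat.even_or_odd (univ.filter fun i => f i = true).card with h | h
  · rw [h.neg_one_pow]
    have h2 := Nat.even_iff.1 h
    simp [h2]
  · rw [h.neg_one_pow]
    have h2 := Nat.odd_iff.1 h
    simp [h2]

private theorem sgn_inj {a b : Bool} (h : sgn a = sgn b) : a = b := by
  cases a <;> cases b <;> simp [sgn] at h ⊢ <;> norm_num at h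

private theorem sgn_sq (a : Bool) : sgn a * sgn a = 1 := by
  cases a <;> simp [sgn]

private theorem abs_sgn (a : Bool) : |sgn a| = 1 := by
  cases a <;> simp [sgn]

/-- the letters of `d` outside `J` are erased -/
private def mk {N : ℕ} (J : Finset (Fin N)) (d : Fin N → Bool) : Fin N → Bool :=
  fun j => decide (j ∈ J) && d j

/-- the letters in `J` are changed by `d` -/
private def sh {N : ℕ} (J : Finset (Fin N)) (x d : Fin N → Bool) : Fin N → Bool :=
  fun j => xor (x j) (decide (j ∈ J) && d j)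

private theorem sh_sh {N : ℕ} (J : Finset (Fin N)) (x d : Fin N → Bool) :
    sh J (sh J x d) d = x := by
  funext j
  simp [sh]

private theorem sh_sh' {N : ℕ} (J : Finset (Fin N)) (x d d' : Fin N → Bool) :
    sh J (sh J x d) d' = sh J x fun j => xor (d j) (d' j) := by
  funext j
  simp only [sh]
  cases decide (j ∈ J) <;> simp

/-- the inner product of two words -/
private def ip {N : ℕ} (a x : Fin N → Bool) : Bool := par fun j => a j && x j

private theorem ip_sh {N : ℕ} (J : Finset (Fin N)) (a x d : Fin N → Bool) :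
    ip a (sh J x d) = xor (ip a x) (ip a (mk J d)) := by
  refine sgn_inj ?_
  rw [sgn_xor, ip, ip, ip, sgn_par, sgn_par, sgn_par, ← prod_mul_distrib]
  refine prod_congr rfl fun j _ => ?_
  rw [← sgn_xor]
  congr 1
  simp only [sh, mk]
  cases a j <;> simp

/-! ## The signed generalised inner product -/

private def S {K N₁ N₂ : ℕ} (b : Fin N₂ → Bool) (A : Fin K → Fin N₂ → Fin N₁ → Bool)
    (x : Fin K → Fin N₁ → Bool) : ℝ :=
  ∏ i, sgn (b i && decide (∀ k, ip (A k i) (x k) = true))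

private theorem S_val {K N₁ N₂ : ℕ} (A : Fin K → Fin N₂ → Fin N₁ → Bool)
    (x : Fin K → Fin N₁ → Bool) : S (fun _ => true) A x = sgn (val A x) := by
  rw [val, sgn_par, S]
  refine prod_congr rfl fun i _ => ?_
  congr 1

private theorem abs_S {K N₁ N₂ : ℕ} (b : Fin N₂ → Bool) (A : Fin K → Fin N₂ → Fin N₁ → Bool)
    (x : Fin K → Fin N₁ → Bool) : |S b A x| = 1 := by
  rw [S, abs_prod]
  exact prod_eq_one fun i _ => abs_sgn _

private theorem S_step {K N₁ N₂ : ℕ} (b : Fin N₂ → Bool) (A₀ : Fin N₂ → Fin N₁ → Bool)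
    (A : Fin K → Fin N₂ → Fin N₁ → Bool) (J : Finset (Fin N₁)) (x₀ d : Fin N₁ → Bool)
    (x : Fin K → Fin N₁ → Bool) :
    S b (Fin.cons A₀ A : Fin (K + 1) → Fin N₂ → Fin N₁ → Bool)
        (Fin.cons x₀ x : Fin (K + 1) → Fin N₁ → Bool) *
      S b (Fin.cons A₀ A : Fin (K + 1) → Fin N₂ → Fin N₁ → Bool)
        (Fin.cons (sh J x₀ d) x : Fin (K + 1) → Fin N₁ → Bool) =
      S (fun i => b i && ip (A₀ i) (mk J d)) A x := by
  rw [S, S, S, ← prod_mul_distrib]
  refine prod_congr rfl fun i _ => ?_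
  rw [← sgn_xor]
  congr 1
  simp only [Fin.forall_fin_succ, Fin.cons_zero, Fin.cons_succ, ip_sh]
  by_cases h : ∀ k, ip (A k i) (x k) = true
  · simp only [h, and_true, implies_true]
    cases b i <;> cases ip (A₀ i) x₀ <;> cases ip (A₀ i) (mk J d) <;> simp
  · simp [h]

/-! ## Means -/

private theorem jensen {Ω : Type} [Fintype Ω] [Nonempty Ω] (g : Ω → ℝ) (K : ℕ) :
    |𝔼 p, g p| ^ 2 ^ K ≤ 𝔼 p, |g p| ^ 2 ^ K := by
  induction K with
  | zero => simpa using abs_expect_le univ g
  | succ K ih =>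
    have h1 := expect_mul_sq_le_sq_mul_sq univ (fun p => |g p| ^ 2 ^ K) fun _ => (1 : ℝ)
    simp only [mul_one, one_pow] at h1
    rw [expect_const univ_nonempty, mul_one] at h1
    calc |𝔼 p, g p| ^ 2 ^ (K + 1) = (|𝔼 p, g p| ^ 2 ^ K) ^ 2 := by rw [← pow_mul, pow_succ]
      _ ≤ (𝔼 p, |g p| ^ 2 ^ K) ^ 2 := pow_le_pow_left₀ (by positivity) ih 2
      _ ≤ 𝔼 p, (|g p| ^ 2 ^ K) ^ 2 := h1
      _ = _ := by
          refine expect_congr rfl fun p _ => ?_
          rw [← pow_mul, pow_succ]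

private theorem vdc {Ω : Type} [Fintype Ω] [Nonempty Ω] {N : ℕ} (τ : (Fin N → Bool) → Ω → Ω)
    (h1 : ∀ d p, τ d (τ d p) = p)
    (h2 : ∀ d d' p, τ d' (τ d p) = τ (fun j => xor (d j) (d' j)) p) (φ F : Ω → ℝ)
    (hφ : ∀ p, |φ p| ≤ 1) (hφ' : ∀ d p, φ (τ d p) = φ p) :
    (𝔼 p, φ p * F p) ^ 2 ≤ 𝔼 p, 𝔼 d, F p * F (τ d p) := by
  have hτ : ∀ (d : Fin N → Bool) (f : Ω → ℝ), 𝔼 p, f (τ d p) = 𝔼 p, f p := by
    intro d f
    exact Fintype.expect_equiv ⟨τ d, τ d, h1 d, h1 d⟩ _ _ fun p => rfl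
  have e1 : 𝔼 p, φ p * F p = 𝔼 p, φ p * 𝔼 d, F (τ d p) := by
    have h3 : ∀ d : Fin N → Bool, 𝔼 p, φ p * F p = 𝔼 p, φ p * F (τ d p) := by
      intro d
      rw [← hτ d fun p => φ p * F p]
      refine expect_congr rfl fun p _ => ?_
      rw [hφ']
    calc 𝔼 p, φ p * F p = 𝔼 _d : Fin N → Bool, 𝔼 p, φ p * F p := (Fintype.expect_const _).symm
      _ = 𝔼 d : Fin N → Bool, 𝔼 p, φ p * F (τ d p) := expect_congr rfl fun d _ => h3 d
      _ = 𝔼 p, 𝔼 d, φ p * F (τ d p) := expect_comm _ _ _
      _ = _ := expect_congr rfl fun p _ => (mul_expect _ _ _).symm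
  have e2 : 𝔼 p, (𝔼 d, F (τ d p)) ^ 2 = 𝔼 p, 𝔼 d, F p * F (τ d p) := by
    calc 𝔼 p, (𝔼 d, F (τ d p)) ^ 2 = 𝔼 p, 𝔼 d, 𝔼 d', F (τ d p) * F (τ d' p) := by
          refine expect_congr rfl fun p _ => ?_
          rw [sq, expect_mul_expect]
      _ = 𝔼 d, 𝔼 p, 𝔼 d', F (τ d p) * F (τ d' p) := expect_comm _ _ _
      _ = 𝔼 d : Fin N → Bool, 𝔼 p, 𝔼 d', F p * F (τ d' p) := by
          refine expect_congr rfl fun d _ => ?_
          rw [← hτ d fun p => 𝔼 d', F p * F (τ d' p)]
          refine expect_congr rfl fun p _ => ?_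
          refine Fintype.expect_equiv ⟨fun d' j => xor (d j) (d' j), fun d' j => xor (d j) (d' j),
            fun d' => by funext j; simp, fun d' => by funext j; simp⟩ _ _ fun d' => ?_
          dsimp only [Equiv.coe_fn_mk]
          rw [h2]
          congr 3
          funext j
          simp
      _ = _ := Fintype.expect_const _
  rw [e1]
  refine (expect_mul_sq_le_sq_mul_sq univ _ _).trans ?_
  rw [e2]
  have h4 : 𝔼 p, φ p ^ 2 ≤ 1 := by
    refine expect_le univ_nonempty fun p _ => ?_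
    rw [sq_le_one_iff_abs_le_one]
    exact hφ p
  have h5 : 0 ≤ 𝔼 p, 𝔼 d, F p * F (τ d p) := by
    rw [← e2]
    exact expect_nonneg fun p _ => sq_nonneg _
  calc (𝔼 p, φ p ^ 2) * 𝔼 p, 𝔼 d, F p * F (τ d p) ≤ 1 * 𝔼 p, 𝔼 d, F p * F (τ d p) :=
        mul_le_mul_of_nonneg_right h4 h5
    _ = _ := one_mul _

private theorem expect_pair {α β : Type} [Fintype α] [Fintype β] (f : α × β → ℝ) :
    𝔼 z, f z = 𝔼 a, 𝔼 b, f (a, b) := by
  rw [← univ_product_univ, expect_product]

private theorem expect_cons {α : Type} [Fintype α] (n : ℕ) (f : (Fin (n + 1) → α) → ℝ) :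
    𝔼 g, f g = 𝔼 a : α, 𝔼 g : Fin n → α, f (Fin.cons a g) := by
  have h1 : 𝔼 g, f g = 𝔼 p : α × (Fin n → α), f (Fin.cons p.1 p.2) :=
    (Fintype.expect_equiv (Fin.consEquiv fun _ : Fin (n + 1) => α) _ _ fun p => rfl).symm
  rw [h1, ← univ_product_univ, expect_product]

/-! ## Counting -/

/-- a random word is `0` on `J` with probability at most `2 ^ (-X)` -/
private theorem count_zero {N X : ℕ} (J : Finset (Fin N)) (hJ : X ≤ J.card) :
    𝔼 d : Fin N → Bool, (if mk J d = (fun _ => false) then (1 : ℝ) else 0) ≤ (1 / 2) ^ X := by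
  classical
  have h1 : (univ.filter fun d : Fin N → Bool => mk J d = fun _ => false).card * 2 ^ J.card ≤
      Fintype.card (Fin N → Bool) := by
    have h2 : Fintype.card ({d : Fin N → Bool // mk J d = fun _ => false} × (↥J → Bool)) ≤
        Fintype.card (Fin N → Bool) := by
      refine Fintype.card_le_of_injective
        (fun q j => if h : j ∈ J then q.2 ⟨j, h⟩ else q.1.1 j) ?_
      rintro ⟨⟨d, hd⟩, c⟩ ⟨⟨d', hd'⟩, c'⟩ h
      have h3 : c = c' := by
        funext j
        have h4 := congrFun h j.1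
        simpa using h4
      have h5 : d = d' := by
        funext j
        by_cases hj : j ∈ J
        · have h6 := congrFun hd j
          have h7 := congrFun hd' j
          simp only [mk, hj, decide_true, Bool.true_and] at h6 h7
          rw [h6, h7]
        · have h4 := congrFun h j
          simpa [hj] using h4
      subst h3
      subst h5
      rfl
    rw [Fintype.card_prod, Fintype.card_fun, Fintype.card_bool, Fintype.card_coe,
      Fintype.card_subtype] at h2
    exact h2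
  rw [Fintype.expect_eq_sum_div_card, sum_ite, sum_const_zero, add_zero, sum_const, nsmul_eq_mul,
    mul_one, div_le_iff₀ (by exact_mod_cast Fintype.card_pos)]
  have h3 : (((univ.filter fun d : Fin N → Bool => mk J d = fun _ => false).card : ℝ)) *
      2 ^ J.card ≤ Fintype.card (Fin N → Bool) := by exact_mod_cast h1
  have h4 : (2 : ℝ) ^ X ≤ 2 ^ J.card := pow_le_pow_right₀ (by norm_num) hJ
  have h5 : (((univ.filter fun d : Fin N → Bool => mk J d = fun _ => false).card : ℝ)) *
      2 ^ X ≤ Fintype.card (Fin N → Bool) :=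
    (mul_le_mul_of_nonneg_left h4 (Nat.cast_nonneg _)).trans h3
  rw [one_div, inv_pow, ← div_eq_inv_mul, le_div_iff₀ (by positivity)]
  exact h5

/-- half of the words have the inner product `1` with a word which is not `0` -/
private theorem count_half {N : ℕ} (e : Fin N → Bool) (he : e ≠ fun _ => false) (r s : ℝ) :
    𝔼 a : Fin N → Bool, (if ip a e then r else s) = (r + s) / 2 := by
  classical
  obtain ⟨j, hj⟩ := Function.ne_iff.1 he
  have hj : e j = true := by simpa using hj
  have hinv : ∀ a : Fin N → Bool, Function.update (Function.update a j (!(a j))) j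
      (!(Function.update a j (!(a j)) j)) = a := by
    intro a
    simp
  have hflip : ∀ a : Fin N → Bool, ip (Function.update a j (!(a j))) e = !(ip a e) := by
    intro a
    have h1 : (!(ip a e)) = xor (ip a e) true := by simp
    rw [h1]
    refine sgn_inj ?_
    rw [sgn_xor, ip, ip, sgn_par, sgn_par, ← mul_prod_erase univ _ (mem_univ j),
      ← mul_prod_erase univ (fun i => sgn (a i && e i)) (mem_univ j)]
    have h2 : ∏ x ∈ univ.erase j, sgn (Function.update a j (!(a j)) x && e x) =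
        ∏ x ∈ univ.erase j, sgn (a x && e x) := by
      refine prod_congr rfl fun x hx => ?_
      rw [Function.update_of_ne (ne_of_mem_erase hx)]
    rw [h2, Function.update_self, hj]
    cases a j <;> simp [sgn]
  have h1 : 𝔼 a : Fin N → Bool, (if ip a e then r else s) =
      𝔼 a : Fin N → Bool, (if ip a e then s else r) := by
    let fl : (Fin N → Bool) → Fin N → Bool := fun a => Function.update a j (!(a j))
    refine Fintype.expect_equiv ⟨fl, fl, hinv, hinv⟩ _ _ fun a => ?_
    show _ = if ip (Function.update a j (!(a j))) e = true then s else r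
    rw [hflip]
    cases ip a e <;> simp
  have h2 : 𝔼 a : Fin N → Bool, (if ip a e then r else s) +
      𝔼 a : Fin N → Bool, (if ip a e then s else r) = r + s := by
    rw [← expect_add_distrib]
    have h3 : ∀ a : Fin N → Bool,
        (if ip a e then r else s) + (if ip a e then s else r) = r + s := by
      intro a
      split_ifs
      · rfl
      · exact add_comm _ _
    rw [expect_congr rfl fun a _ => h3 a]
    exact Fintype.expect_const _
  linarith

/-- the weight of `b` -/
private def wt {N₂ : ℕ} (q : ℝ) (b : Fin N₂ → Bool) : ℝ := ∏ i, if b i then 1 - q else 1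

private theorem wt_nonneg {N₂ : ℕ} {q : ℝ} (hq : q ≤ 1) (b : Fin N₂ → Bool) : 0 ≤ wt q b := by
  refine prod_nonneg fun i _ => ?_
  split_ifs <;> linarith

private theorem wt_le {N₂ : ℕ} {q : ℝ} (hq : q ≤ 1) (hq0 : 0 ≤ q) (b : Fin N₂ → Bool) :
    wt q b ≤ 1 := by
  refine prod_le_one (fun i _ => ?_) fun i _ => ?_ <;> split_ifs <;> linarith

private theorem expect_prod {N₁ N₂ : ℕ} (f : Fin N₂ → (Fin N₁ → Bool) → ℝ) :
    𝔼 A : Fin N₂ → Fin N₁ → Bool, ∏ i, f i (A i) = ∏ i, 𝔼 a, f i a := by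
  rw [Fintype.expect_eq_sum_div_card]
  have h1 : ∀ i, 𝔼 a, f i a = (∑ a, f i a) / Fintype.card (Fin N₁ → Bool) := fun i =>
    Fintype.expect_eq_sum_div_card _
  simp only [h1]
  rw [prod_div_distrib, prod_const, card_univ, Fintype.card_fin, Finset.prod_univ_sum,
    Fintype.piFinset_univ, Fintype.card_fun, Fintype.card_fin]
  push_cast
  rfl

/-- the mean weight after one step -/
private theorem wt_step {N₁ N₂ X : ℕ} (J : Finset (Fin N₁)) (hJ : X ≤ J.card) (q : ℝ)
    (hq0 : 0 ≤ q) (hq : q ≤ 1) (b : Fin N₂ → Bool) :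
    𝔼 A₀ : Fin N₂ → Fin N₁ → Bool, 𝔼 d : Fin N₁ → Bool,
      wt q (fun i => b i && ip (A₀ i) (mk J d)) ≤ (1 / 2) ^ X + wt (q / 2) b := by
  classical
  rw [expect_comm]
  have h1 : ∀ d : Fin N₁ → Bool, 𝔼 A₀ : Fin N₂ → Fin N₁ → Bool,
      wt q (fun i => b i && ip (A₀ i) (mk J d)) ≤
      (if mk J d = (fun _ => false) then (1 : ℝ) else 0) + wt (q / 2) b := by
    intro d
    by_cases hd : mk J d = fun _ => false
    · rw [if_pos hd]
      have h2 : 𝔼 A₀ : Fin N₂ → Fin N₁ → Bool, wt q (fun i => b i && ip (A₀ i) (mk J d)) ≤ 1 :=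
        expect_le univ_nonempty fun A₀ _ => wt_le hq hq0 _
      have h3 := wt_nonneg (q := q / 2) (by linarith) b
      linarith
    · rw [if_neg hd, zero_add]
      refine le_of_eq ?_
      unfold wt
      rw [expect_prod fun i a => if (b i && ip a (mk J d)) = true then 1 - q else 1]
      refine prod_congr rfl fun i _ => ?_
      cases hb : b i with
      | false => simp
      | true =>
        simp only [Bool.true_and, if_true]
        rw [count_half _ hd]
        ring
  refine (expect_le_expect fun d _ => h1 d).trans ?_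
  rw [expect_add_distrib]
  refine add_le_add (count_zero J hJ) (le_of_eq ?_)
  exact Fintype.expect_const _

/-! ## The bound for several players -/

/-- one player -/
private theorem base {N₁ N₂ X : ℕ} (J : Finset (Fin N₁)) (hJ : X ≤ J.card) (b : Fin N₂ → Bool)
    (φ : (Fin 1 → Fin N₂ → Fin N₁ → Bool) → (Fin 1 → Fin N₁ → Bool) → ℝ)
    (hφ1 : ∀ A x, |φ A x| ≤ 1)
    (hφ2 : ∀ A x d, φ A (Function.update x 0 (sh J (x 0) d)) = φ A x) :
    |𝔼 p : (Fin 1 → Fin N₂ → Fin N₁ → Bool) × (Fin 1 → Fin N₁ → Bool), S b p.1 p.2 * φ p.1 p.2| ≤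
      (1 / 2) ^ X + wt 1 b := by
  classical
  by_cases hb : ∃ i, b i = true
  · obtain ⟨i₀, hi₀⟩ := hb
    have hw : wt 1 b = 0 := prod_eq_zero (mem_univ i₀) (by simp [hi₀])
    rw [hw, add_zero, ← univ_product_univ, expect_product]
    -- the sum of the rows
    let r : (Fin 1 → Fin N₂ → Fin N₁ → Bool) → Fin N₁ → Bool := fun A j =>
      par fun i => b i && A 0 i j
    have hS : ∀ (A : Fin 1 → Fin N₂ → Fin N₁ → Bool) (x : Fin 1 → Fin N₁ → Bool)
        (d : Fin N₁ → Bool), S b A (Function.update x 0 (sh J (x 0) d)) =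
        S b A x * ∏ i, sgn (b i && ip (A 0 i) (mk J d)) := by
      intro A x d
      rw [S, S, ← prod_mul_distrib]
      refine prod_congr rfl fun i _ => ?_
      rw [← sgn_xor]
      congr 1
      simp only [Fin.forall_fin_one, Function.update_self, ip_sh]
      cases b i <;> cases ip (A 0 i) (x 0) <;> cases ip (A 0 i) (mk J d) <;> simp
    have hone : ∀ (A : Fin 1 → Fin N₂ → Fin N₁ → Bool) (j : Fin N₁), j ∈ J →
        ∏ i, sgn (b i && ip (A 0 i) (mk J (Pi.single j true))) = sgn (r A j) := by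
      intro A j hj
      rw [sgn_par]
      refine prod_congr rfl fun i _ => ?_
      congr 2
      refine sgn_inj ?_
      rw [ip, sgn_par, prod_eq_single j]
      · simp [mk, hj]
      · intro k _ hk
        simp [mk, Pi.single_eq_of_ne hk, sgn]
      · intro h
        exact absurd (mem_univ j) h
    have hA : ∀ A : Fin 1 → Fin N₂ → Fin N₁ → Bool, |𝔼 x, S b A x * φ A x| ≤
        if mk J (r A) = (fun _ => false) then (1 : ℝ) else 0 := by
      intro A
      by_cases hr : mk J (r A) = fun _ => false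
      · rw [if_pos hr]
        refine (abs_expect_le _ _).trans (expect_le univ_nonempty fun x _ => ?_)
        rw [abs_mul, abs_S, one_mul]
        exact hφ1 A x
      · rw [if_neg hr]
        obtain ⟨j, hj⟩ := Function.ne_iff.1 hr
        have hjJ : j ∈ J := by
          by_contra h
          simp [mk, h] at hj
        have hrj : r A j = true := by simpa [mk, hjJ] using hj
        have h1 : 𝔼 x, S b A x * φ A x = 𝔼 x, -(S b A x * φ A x) := by
          let fl : (Fin 1 → Fin N₁ → Bool) → (Fin 1 → Fin N₁ → Bool) := fun x =>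
            Function.update x 0 (sh J (x 0) (Pi.single j true))
          have hfl : ∀ x, fl (fl x) = x := by
            intro x
            simp only [fl, Function.update_self, Function.update_idem, sh_sh]
            exact Function.update_eq_self 0 x
          refine Fintype.expect_equiv ⟨fl, fl, hfl, hfl⟩ _ _ fun x => ?_
          show _ = -(S b A (Function.update x 0 (sh J (x 0) (Pi.single j true))) *
            φ A (Function.update x 0 (sh J (x 0) (Pi.single j true))))
          rw [hφ2, hS, hone A j hjJ, hrj]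
          simp [sgn]
        rw [expect_neg_distrib] at h1
        have h2 : 𝔼 x, S b A x * φ A x = 0 := by linarith
        rw [h2, abs_zero]
    refine (abs_expect_le _ _).trans ((expect_le_expect fun A _ => hA A).trans ?_)
    -- the rows are independent
    rw [expect_cons 0 fun A => if mk J (r A) = (fun _ => false) then (1 : ℝ) else 0]
    have h3 : ∀ A₀ : Fin N₂ → Fin N₁ → Bool, 𝔼 A : Fin 0 → Fin N₂ → Fin N₁ → Bool,
        (if mk J (r (Fin.cons A₀ A)) = (fun _ => false) then (1 : ℝ) else 0) =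
        if mk J (fun j => par fun i => b i && A₀ i j) = (fun _ => false) then (1 : ℝ) else 0 := by
      intro A₀
      exact Fintype.expect_const _
    rw [expect_congr rfl fun A₀ _ => h3 A₀]
    let f : (Fin N₁ → Bool) → (Fin N₂ → Fin N₁ → Bool) → (Fin N₂ → Fin N₁ → Bool) :=
      fun c A₀ => Function.update A₀ i₀ fun j => xor (A₀ i₀ j) (c j)
    have hf : ∀ c A₀, f c (f c A₀) = A₀ := by
      intro c A₀
      simp [f]
    have hfr : ∀ c A₀ j, (par fun i => b i && f c A₀ i j) =
        xor (par fun i => b i && A₀ i j) (c j) := by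
      intro c A₀ j
      refine sgn_inj ?_
      rw [sgn_xor, sgn_par, sgn_par, ← mul_prod_erase univ _ (mem_univ i₀),
        ← mul_prod_erase univ (fun i => sgn (b i && A₀ i j)) (mem_univ i₀)]
      have h2 : ∏ x ∈ univ.erase i₀, sgn (b x && f c A₀ x j) =
          ∏ x ∈ univ.erase i₀, sgn (b x && A₀ x j) := by
        refine prod_congr rfl fun x hx => ?_
        simp only [f]
        rw [Function.update_of_ne (ne_of_mem_erase hx)]
      rw [h2]
      simp only [f, Function.update_self, hi₀, Bool.true_and, sgn_xor]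
      ring
    calc 𝔼 A₀ : Fin N₂ → Fin N₁ → Bool,
          (if mk J (fun j => par fun i => b i && A₀ i j) = (fun _ => false) then (1 : ℝ) else 0)
        = 𝔼 c : Fin N₁ → Bool, 𝔼 A₀ : Fin N₂ → Fin N₁ → Bool,
          (if mk J (fun j => xor (par fun i => b i && A₀ i j) (c j)) = (fun _ => false)
            then (1 : ℝ) else 0) := by
          rw [← Fintype.expect_const (ι := Fin N₁ → Bool) (𝔼 A₀ : Fin N₂ → Fin N₁ → Bool,
            (if mk J (fun j => par fun i => b i && A₀ i j) = (fun _ => false) then (1 : ℝ)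
              else 0))]
          refine expect_congr rfl fun c _ => ?_
          refine Fintype.expect_equiv ⟨f c, f c, hf c, hf c⟩ _ _ fun A₀ => ?_
          show _ = if mk J (fun j => xor (par fun i => b i && f c A₀ i j) (c j)) =
            (fun _ => false) then (1 : ℝ) else 0
          simp only [hfr]
          simp
      _ = 𝔼 A₀ : Fin N₂ → Fin N₁ → Bool, 𝔼 c : Fin N₁ → Bool,
          (if mk J (fun j => xor (par fun i => b i && A₀ i j) (c j)) = (fun _ => false)
            then (1 : ℝ) else 0) := expect_comm _ _ _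
      _ = 𝔼 A₀ : Fin N₂ → Fin N₁ → Bool, 𝔼 c : Fin N₁ → Bool,
          (if mk J c = (fun _ => false) then (1 : ℝ) else 0) := by
          refine expect_congr rfl fun A₀ _ => ?_
          let fl : (Fin N₁ → Bool) → Fin N₁ → Bool := fun c j =>
            xor (par fun i => b i && A₀ i j) (c j)
          have hfl : ∀ c, fl (fl c) = c := by
            intro c
            funext j
            simp [fl]
          refine Fintype.expect_equiv ⟨fl, fl, hfl, hfl⟩ _ _ fun c => rfl
      _ = 𝔼 c : Fin N₁ → Bool, (if mk J c = (fun _ => false) then (1 : ℝ) else 0) :=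
          Fintype.expect_const _
      _ ≤ (1 / 2) ^ X := count_zero J hJ
  · have hw : wt 1 b = 1 := prod_eq_one fun i _ => by
      rw [if_neg]
      exact fun h => hb ⟨i, h⟩
    rw [hw]
    refine (abs_expect_le _ _).trans ?_
    have h1 : 𝔼 p : (Fin 1 → Fin N₂ → Fin N₁ → Bool) × (Fin 1 → Fin N₁ → Bool),
        |S b p.1 p.2 * φ p.1 p.2| ≤ 1 := by
      refine expect_le univ_nonempty fun p _ => ?_
      rw [abs_mul, abs_S, one_mul]
      exact hφ1 _ _
    have h2 : (0 : ℝ) ≤ (1 / 2) ^ X := by positivity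
    linarith

/-- several players -/
private theorem bns {N₁ N₂ X : ℕ} (K : ℕ) : ∀ (J : Fin (K + 1) → Finset (Fin N₁))
    (_ : ∀ k, X ≤ (J k).card) (b : Fin N₂ → Bool)
    (φ : Fin (K + 1) → (Fin (K + 1) → Fin N₂ → Fin N₁ → Bool) →
      (Fin (K + 1) → Fin N₁ → Bool) → ℝ)
    (_ : ∀ k A x, |φ k A x| ≤ 1)
    (_ : ∀ k A x d, φ k A (Function.update x k (sh (J k) (x k) d)) = φ k A x),
    |𝔼 p : (Fin (K + 1) → Fin N₂ → Fin N₁ → Bool) × (Fin (K + 1) → Fin N₁ → Bool),
      S b p.1 p.2 * ∏ k, φ k p.1 p.2| ^ 2 ^ K ≤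
      (K + 1 : ℝ) * (1 / 2) ^ X + wt ((1 / 2) ^ K) b := by
  induction K with
  | zero =>
    intro J hJ b φ h1 h2
    have h := base (J 0) (hJ 0) b (φ 0) (h1 0) (h2 0)
    simpa using h
  | succ K ih =>
    intro J hJ b φ h1 h2
    let τ : (Fin N₁ → Bool) →
        (Fin (K + 2) → Fin N₂ → Fin N₁ → Bool) × (Fin (K + 2) → Fin N₁ → Bool) →
        (Fin (K + 2) → Fin N₂ → Fin N₁ → Bool) × (Fin (K + 2) → Fin N₁ → Bool) :=
      fun d p => (p.1, Function.update p.2 0 (sh (J 0) (p.2 0) d))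
    let F : (Fin (K + 2) → Fin N₂ → Fin N₁ → Bool) × (Fin (K + 2) → Fin N₁ → Bool) → ℝ :=
      fun p => S b p.1 p.2 * ∏ k : Fin (K + 1), φ k.succ p.1 p.2
    have hv := vdc τ (fun d p => by
        simp only [τ, Function.update_self, Function.update_idem, sh_sh]
        rw [Function.update_eq_self])
      (fun d d' p => by
        simp only [τ, Function.update_self, Function.update_idem, sh_sh'])
      (fun p => φ 0 p.1 p.2) F (fun p => h1 0 _ _) (fun d p => h2 0 _ _ _)
    let φ' : (Fin N₂ → Fin N₁ → Bool) × (Fin N₁ → Bool) × (Fin N₁ → Bool) → Fin (K + 1) →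
        (Fin (K + 1) → Fin N₂ → Fin N₁ → Bool) → (Fin (K + 1) → Fin N₁ → Bool) → ℝ :=
      fun q k A x => φ k.succ (Fin.cons q.1 A) (Fin.cons q.2.1 x) *
        φ k.succ (Fin.cons q.1 A) (Fin.cons (sh (J 0) q.2.1 q.2.2) x)
    let b' : (Fin N₂ → Fin N₁ → Bool) × (Fin N₁ → Bool) × (Fin N₁ → Bool) → Fin N₂ → Bool :=
      fun q i => b i && ip (q.1 i) (mk (J 0) q.2.2)
    let g : (Fin N₂ → Fin N₁ → Bool) × (Fin N₁ → Bool) × (Fin N₁ → Bool) → ℝ := fun q =>
      𝔼 p : (Fin (K + 1) → Fin N₂ → Fin N₁ → Bool) × (Fin (K + 1) → Fin N₁ → Bool),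
        S (b' q) p.1 p.2 * ∏ k, φ' q k p.1 p.2
    have hg : 𝔼 p, 𝔼 d, F p * F (τ d p) = 𝔼 q, g q := by
      have e1 : 𝔼 p, 𝔼 d, F p * F (τ d p) =
          𝔼 z : ((Fin (K + 2) → Fin N₂ → Fin N₁ → Bool) × (Fin (K + 2) → Fin N₁ → Bool)) ×
            (Fin N₁ → Bool), F z.1 * F (τ z.2 z.1) :=
        (expect_pair fun z : ((Fin (K + 2) → Fin N₂ → Fin N₁ → Bool) ×
          (Fin (K + 2) → Fin N₁ → Bool)) × (Fin N₁ → Bool) => F z.1 * F (τ z.2 z.1)).symm
      have e2 : 𝔼 q, g q = 𝔼 z : ((Fin N₂ → Fin N₁ → Bool) × (Fin N₁ → Bool) × (Fin N₁ → Bool)) ×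
          ((Fin (K + 1) → Fin N₂ → Fin N₁ → Bool) × (Fin (K + 1) → Fin N₁ → Bool)),
          S (b' z.1) z.2.1 z.2.2 * ∏ k, φ' z.1 k z.2.1 z.2.2 :=
        (expect_pair fun z : ((Fin N₂ → Fin N₁ → Bool) × (Fin N₁ → Bool) × (Fin N₁ → Bool)) ×
          ((Fin (K + 1) → Fin N₂ → Fin N₁ → Bool) × (Fin (K + 1) → Fin N₁ → Bool)) =>
          S (b' z.1) z.2.1 z.2.2 * ∏ k, φ' z.1 k z.2.1 z.2.2).symm
      rw [e1, e2]
      refine (Fintype.expect_equiv
        ⟨fun z => ((Fin.cons z.1.1 z.2.1, Fin.cons z.1.2.1 z.2.2), z.1.2.2),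
        fun z => ((z.1.1 0, z.1.2 0, z.2), (Fin.tail z.1.1, Fin.tail z.1.2)),
        fun z => by simp, fun z => by simp⟩ _ _ fun z => ?_).symm
      obtain ⟨⟨A₀, x₀, d⟩, A, x⟩ := z
      dsimp only [Equiv.coe_fn_mk]
      simp only [F, τ, b', φ', Fin.cons_zero, Fin.update_cons_zero]
      rw [← S_step, prod_mul_distrib]
      ring
    have hle : ∀ q, |g q| ^ 2 ^ K ≤ (K + 1 : ℝ) * (1 / 2) ^ X + wt ((1 / 2) ^ K) (b' q) := by
      intro q
      refine ih (fun k => J k.succ) (fun k => hJ k.succ) (b' q) (φ' q) ?_ ?_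
      · intro k A x
        simp only [φ', abs_mul]
        exact mul_le_one₀ (h1 _ _ _) (abs_nonneg _) (h1 _ _ _)
      · intro k A x d
        simp only [φ']
        have e1 : ∀ x₀ : Fin N₁ → Bool,
            (Fin.cons x₀ (Function.update x k (sh (J k.succ) (x k) d)) :
              Fin (K + 2) → Fin N₁ → Bool) =
            Function.update (Fin.cons x₀ x : Fin (K + 2) → Fin N₁ → Bool) k.succ
              (sh (J k.succ) ((Fin.cons x₀ x : Fin (K + 2) → Fin N₁ → Bool) k.succ) d) := by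
          intro x₀
          rw [Fin.cons_succ, Fin.cons_update]
        rw [e1, e1, h2, h2]
    have hfin : 𝔼 q, wt ((1 / 2) ^ K) (b' q) ≤ (1 / 2) ^ X + wt ((1 / 2) ^ (K + 1)) b := by
      have e1 : 𝔼 q, wt ((1 / 2) ^ K) (b' q) = 𝔼 A₀ : Fin N₂ → Fin N₁ → Bool,
          𝔼 d : Fin N₁ → Bool, wt ((1 / 2) ^ K) (fun i => b i && ip (A₀ i) (mk (J 0) d)) := by
        rw [expect_pair]
        refine expect_congr rfl fun A₀ _ => ?_
        rw [expect_pair]
        exact Fintype.expect_const (ι := Fin N₁ → Bool) (𝔼 d : Fin N₁ → Bool,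
          wt ((1 / 2) ^ K) (fun i => b i && ip (A₀ i) (mk (J 0) d)))
      rw [e1]
      refine (wt_step (J 0) (hJ 0) ((1 / 2) ^ K) (by positivity)
        (pow_le_one₀ (by norm_num) (by norm_num)) b).trans (le_of_eq ?_)
      rw [pow_succ]
      congr 2
      ring
    have e3 : 𝔼 p : (Fin (K + 2) → Fin N₂ → Fin N₁ → Bool) × (Fin (K + 2) → Fin N₁ → Bool),
        S b p.1 p.2 * ∏ k, φ k p.1 p.2 = 𝔼 p, φ 0 p.1 p.2 * F p := by
      refine expect_congr rfl fun p _ => ?_
      rw [Fin.prod_univ_succ]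
      simp only [F]
      ring
    rw [e3]
    calc |𝔼 p, φ 0 p.1 p.2 * F p| ^ 2 ^ (K + 1) = ((𝔼 p, φ 0 p.1 p.2 * F p) ^ 2) ^ 2 ^ K := by
          rw [← sq_abs, ← pow_mul, pow_succ, mul_comm]
      _ ≤ |𝔼 q, g q| ^ 2 ^ K := by
          refine pow_le_pow_left₀ (sq_nonneg _) ?_ _
          rw [← hg]
          exact hv.trans (le_abs_self _)
      _ ≤ 𝔼 q, |g q| ^ 2 ^ K := jensen g K
      _ ≤ 𝔼 q, ((K + 1 : ℝ) * (1 / 2) ^ X + wt ((1 / 2) ^ K) (b' q)) :=
          expect_le_expect fun q _ => hle q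
      _ = (K + 1 : ℝ) * (1 / 2) ^ X + 𝔼 q, wt ((1 / 2) ^ K) (b' q) := by
          rw [expect_add_distrib, Fintype.expect_const]
      _ ≤ (K + 1 : ℝ) * (1 / 2) ^ X + ((1 / 2) ^ X + wt ((1 / 2) ^ (K + 1)) b) :=
          add_le_add le_rfl hfin
      _ = _ := by
          push_cast
          ring

open Classical in
/-- The players `k` have the words `x k`, of which the letters in `J k` are hidden; the tables `A`
are random and visible.  The set `T A` is closed under stars and `val A` is constant on it. -/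
theorem disc {K N₁ N₂ : ℕ} (hK : 1 ≤ K) (X : ℕ) (J : Fin K → Finset (Fin N₁))
    (hJ : ∀ k, X ≤ (J k).card)
    (T : (Fin K → Fin N₂ → Fin N₁ → Bool) → (Fin K → Fin N₁ → Bool) → Prop)
    (hT : ∀ (A : Fin K → Fin N₂ → Fin N₁ → Bool) (u : Fin K → Fin N₁ → Bool)
      (v : Fin K → Fin K → Fin N₁ → Bool), (∀ k l, l ≠ k → v k l = u l) →
      (∀ k j, j ∉ J k → v k k j = u k j) → (∀ k, T A (v k)) → T A u)
    (b : Bool) (hb : ∀ A x, T A x → val A x = b) :
    (((univ.filter fun p : (Fin K → Fin N₂ → Fin N₁ → Bool) × (Fin K → Fin N₁ → Bool) =>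
        T p.1 p.2).card : ℝ) /
      Fintype.card ((Fin K → Fin N₂ → Fin N₁ → Bool) × (Fin K → Fin N₁ → Bool))) ^ 2 ^ (K - 1) ≤
      K * (1 / 2 : ℝ) ^ X + (1 - (1 / 2 : ℝ) ^ (K - 1)) ^ N₂ := by
  obtain ⟨K, rfl⟩ : ∃ K', K = K' + 1 := ⟨K - 1, by omega⟩
  let φ : Fin (K + 1) → (Fin (K + 1) → Fin N₂ → Fin N₁ → Bool) →
      (Fin (K + 1) → Fin N₁ → Bool) → ℝ := fun k A x =>
    if ∃ v : Fin (K + 1) → Fin N₁ → Bool, (∀ l, l ≠ k → v l = x l) ∧ (∀ j, j ∉ J k →
      v k j = x k j) ∧ T A v then 1 else 0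
  have hprod : ∀ A x, ∏ k, φ k A x = if T A x then 1 else 0 := by
    intro A x
    by_cases h : T A x
    · rw [if_pos h]
      refine prod_eq_one fun k _ => if_pos ⟨x, fun _ _ => rfl, fun _ _ => rfl, h⟩
    · rw [if_neg h]
      by_contra hne
      refine h ?_
      have h1 : ∀ k, ∃ v : Fin (K + 1) → Fin N₁ → Bool, (∀ l, l ≠ k → v l = x l) ∧
          (∀ j, j ∉ J k → v k j = x k j) ∧ T A v := by
        intro k
        by_contra hk
        exact hne (prod_eq_zero (mem_univ k) (if_neg hk))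
      choose v hv1 hv2 hv3 using h1
      exact hT A x v hv1 hv2 hv3
  have h := bns (X := X) K J hJ (fun _ : Fin N₂ => true) φ (fun k A x => by
      simp only [φ]
      split_ifs <;> simp) (fun k A x d => by
      simp only [φ]
      congr 1
      refine propext (exists_congr fun v => and_congr ?_ (and_congr ?_ Iff.rfl))
      · refine forall_congr' fun l => imp_congr_right fun hl => ?_
        rw [Function.update_of_ne hl]
      · refine forall_congr' fun j => imp_congr_right fun hj => ?_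
        rw [Function.update_self]
        simp [sh, hj])
  have hw : wt ((1 / 2 : ℝ) ^ K) (fun _ : Fin N₂ => true) = (1 - (1 / 2 : ℝ) ^ K) ^ N₂ := by
    simp [wt]
  have he : |𝔼 p : (Fin (K + 1) → Fin N₂ → Fin N₁ → Bool) × (Fin (K + 1) → Fin N₁ → Bool),
      S (fun _ => true) p.1 p.2 * ∏ k, φ k p.1 p.2| =
      ((univ.filter fun p : (Fin (K + 1) → Fin N₂ → Fin N₁ → Bool) ×
        (Fin (K + 1) → Fin N₁ → Bool) => T p.1 p.2).card : ℝ) /
      Fintype.card ((Fin (K + 1) → Fin N₂ → Fin N₁ → Bool) × (Fin (K + 1) → Fin N₁ → Bool)) := by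
    have h1 : ∀ p : (Fin (K + 1) → Fin N₂ → Fin N₁ → Bool) × (Fin (K + 1) → Fin N₁ → Bool),
        S (fun _ => true) p.1 p.2 * ∏ k, φ k p.1 p.2 = sgn b * if T p.1 p.2 then 1 else 0 := by
      intro p
      rw [hprod, S_val]
      by_cases h : T p.1 p.2
      · rw [hb _ _ h]
      · simp [h]
    rw [expect_congr rfl fun p _ => h1 p, ← mul_expect, abs_mul, abs_sgn, one_mul,
      Fintype.expect_eq_sum_div_card, sum_boole, abs_of_nonneg (by positivity)]
  rw [he, hw] at h
  simpa using h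

end Pool.Agent.LS
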