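import Mathlib

/-!
# Reading more than `c log² n` times, module ParQ: the parameters for tables given by
partitions
-/

set_option autoImplicit false

namespace Pool.Agent.LS

open Finset

private theorem thetaQ (K m : ℕ) (hK : 2 ≤ K) :
    K ^ (2 * m) ≤ 8 ^ (2 * m / K + 1) * (K - 1) ^ (2 * m) := by
  obtain ⟨j, rfl⟩ : ∃ j, K = j + 1 := ⟨K - 1, by omega⟩
  have hj : 1 ≤ j := by omega
  obtain ⟨q, hq⟩ : ∃ q, q = 2 * m / (j + 1) + 1 := ⟨_, rfl⟩
  rw [← hq]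
  have h1 : 2 * m ≤ q * (j + 1) := by
    have := Nat.lt_mul_div_succ (2 * m) (show 0 < j + 1 by omega)
    rw [hq]
    exact this.le.trans (le_of_eq (mul_comm _ _))
  have hj1 : (1 : ℝ) ≤ j := by exact_mod_cast hj
  have hj0 : (0 : ℝ) < j := by linarith
  have h2 : ((j + 1 : ℕ) : ℝ) ≤ j * Real.exp (1 / j) := by
    have := Real.add_one_le_exp (1 / (j : ℝ))
    calc ((j + 1 : ℕ) : ℝ) = j * (1 / j + 1) := by
          push_cast
          field_simp
          ring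
      _ ≤ _ := mul_le_mul_of_nonneg_left this hj0.le
  have h3 : Real.exp (1 / j) ^ (2 * m) ≤ 8 ^ q := by
    rw [← Real.exp_nat_mul]
    calc Real.exp (((2 * m : ℕ) : ℝ) * (1 / (j : ℝ))) ≤ Real.exp (q * (2 * 1)) := by
          apply Real.exp_le_exp.2
          rw [mul_one_div, div_le_iff₀ hj0]
          have h5 : ((2 * m : ℕ) : ℝ) ≤ ((q * (j + 1) : ℕ) : ℝ) := Nat.cast_le.2 h1
          push_cast at h5 ⊢
          have hq0 : (0 : ℝ) ≤ q := Nat.cast_nonneg _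
          nlinarith
      _ = (Real.exp 1 ^ 2) ^ q := by
          rw [Real.exp_nat_mul]
          congr 1
          rw [← Real.exp_nat_mul]
          norm_num
      _ ≤ 8 ^ q := by
          apply pow_le_pow_left₀ (by positivity)
          have h6 := Real.exp_one_lt_d9
          nlinarith [Real.exp_pos 1]
  have h4 : (((j + 1) ^ (2 * m) : ℕ) : ℝ) ≤ ((8 ^ q * (j + 1 - 1) ^ (2 * m) : ℕ) : ℝ) := by
    calc (((j + 1) ^ (2 * m) : ℕ) : ℝ) = ((j + 1 : ℕ) : ℝ) ^ (2 * m) := by push_cast; ring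
      _ ≤ (j * Real.exp (1 / j)) ^ (2 * m) := by gcongr
      _ = j ^ (2 * m) * Real.exp (1 / j) ^ (2 * m) := mul_pow _ _ _
      _ ≤ j ^ (2 * m) * 8 ^ q := by gcongr
      _ = _ := by
          rw [Nat.add_sub_cancel]
          push_cast
          ring
  exact_mod_cast h4

private theorem evQ (a : ℝ) (ha : 0 < a) : ∀ᶠ n : ℕ in Filter.atTop,
    2 ^ 20 * Real.logb 2 n ^ 6 ≤ (n : ℝ) ^ (a / 32) ∧ (2 : ℝ) ^ 20 ≤ (n : ℝ) ^ (a / 32) ∧
      64 / a ≤ Real.logb 2 n ∧ 1 ≤ Real.logb 2 n ∧ (1 : ℝ) ≤ n ∧ (64 : ℝ) ≤ n := by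
  have hcast := tendsto_natCast_atTop_atTop (R := ℝ)
  have hl : 0 < Real.log 2 := Real.log_pos (by norm_num)
  have h1 := (isLittleO_log_rpow_atTop (by positivity : 0 < a / 192)).bound
    (show 0 < Real.log 2 / 2 ^ 20 by positivity)
  have h2 := ((tendsto_rpow_atTop (by positivity : 0 < a / 32)).comp hcast).eventually_ge_atTop
    (2 ^ 20)
  have h3 := (Real.tendsto_log_atTop.comp hcast).eventually_ge_atTop
    (max (64 / a) 1 * Real.log 2)
  filter_upwards [hcast.eventually h1, h2, h3, Filter.eventually_ge_atTop 64] with n k1 k2 k3 k4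
  have hn64 : (64 : ℝ) ≤ n := by exact_mod_cast k4
  have hn : (1 : ℝ) ≤ n := by linarith
  have hn0 : (0 : ℝ) < n := by linarith
  have hlog : max (64 / a) 1 ≤ Real.logb 2 n := by
    rw [Real.logb, le_div_iff₀ hl]
    exact k3
  have h5 : 1 ≤ Real.logb 2 n := (le_max_right _ _).trans hlog
  refine ⟨?_, k2, (le_max_left _ _).trans hlog, h5, hn, hn64⟩
  rw [Real.norm_of_nonneg (Real.log_nonneg hn), Real.norm_of_nonneg (by positivity)] at k1
  have h6 : 2 ^ 20 * Real.logb 2 n ≤ (n : ℝ) ^ (a / 192) := by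
    rw [Real.logb]
    rw [div_mul_eq_mul_div, le_div_iff₀ (by positivity)] at k1
    rw [← mul_div_assoc, div_le_iff₀ hl]
    linarith
  calc 2 ^ 20 * Real.logb 2 n ^ 6 ≤ (2 ^ 20) ^ 6 * Real.logb 2 n ^ 6 := by
        apply mul_le_mul_of_nonneg_right (by norm_num) (by positivity)
    _ = (2 ^ 20 * Real.logb 2 n) ^ 6 := by rw [mul_pow]
    _ ≤ ((n : ℝ) ^ (a / 192)) ^ 6 := by gcongr
    _ = (n : ℝ) ^ (a / 32) := by
        rw [← Real.rpow_natCast, ← Real.rpow_mul hn0.le]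
        congr 1
        push_cast
        ring

private theorem fourQ (A B : ℕ) : 4 * A + 4 * B ≤ 4 * (2 * A + B) := by omega

/-- the part of the parameters which depends on `n` only -/
theorem paramsQ (γ ε : ℝ) (hγ : 0 ≤ γ) (hγ2 : γ < 1 / 2) (hε : 0 < ε) : ∃ c : ℝ, 0 < c ∧
    ∃ n₀ : ℕ, ∀ n ≥ n₀, ∃ K N₁ N₂ m τ R Θ : ℕ, 2 ≤ K ∧ 1 ≤ N₁ ∧ 1 ≤ N₂ ∧
      4 * (K * N₁) + 4 * (8 * (K + 1) * (N₁ + N₂ + 1)) + Nat.sqrt n + 1 ≤ n ∧
      2 * (K * N₁) + 8 * (K + 1) * (N₁ + N₂ + 1) ≤ Nat.sqrt n ∧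
      ((8 * (K * N₁) ^ 2 : ℕ) : ℝ) ≤ (n : ℝ) ^ (2 * γ + ε) ∧
      c * Real.logb 2 n ^ 2 ≤ m ∧ 1 ≤ τ ∧ 8 * (m * (K * N₁)) ≤ R * (τ + 1) ∧ 1 ≤ R ∧
      K ^ (2 * m) ≤ Θ * (K - 1) ^ (2 * m) ∧ 4 * K * (2 * m) * τ * Θ < N₁ ∧ 1 ≤ Θ ∧
      ∃ z : ℝ, K * 2 ^ N₂ * (1 - 1 / (2 * K : ℝ)) ^ (N₁ / (2 * Θ)) +
          (1 - (1 / 2 : ℝ) ^ (K - 1)) ^ (N₂ / 2) ≤ (2 : ℝ) ^ (-(z * 2 ^ (K - 1))) ∧
        ∀ s : ℕ, 1 ≤ s → (s : ℝ) ≤ (2 : ℝ) ^ ((n : ℝ) ^ γ) →
          (((s * (s + 1) + 1) ^ R * (K * s) ^ (R + 1) : ℕ) : ℝ) * (2 * (2 : ℝ) ^ (-z)) ≤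
            (2 : ℝ) ^ (-((n : ℝ) ^ γ)) := by
  set a := min (ε / 2) (1 / 2 - γ) with ha
  have ha0 : 0 < a := lt_min (by linarith) (by linarith)
  have ha1 : a ≤ ε / 2 := min_le_left _ _
  have ha2 : a ≤ 1 / 2 - γ := min_le_right _ _
  have ha3 : a ≤ 1 / 2 := by linarith
  obtain ⟨n₁, h₁⟩ := Filter.eventually_atTop.1 (evQ a ha0)
  refine ⟨a / 32 * (a / 384), by positivity, n₁, fun n hn => ?_⟩
  obtain ⟨e1, e2, e3, e4, e5, e6⟩ := h₁ n hn
  have hn0 : (0 : ℝ) < n := by linarith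
  set ℓ := Real.logb 2 n with hℓ
  set u := (n : ℝ) ^ (a / 32) with hu
  set y := (n : ℝ) ^ γ with hy
  have hu0 : 0 < u := by positivity
  have hu1 : 1 ≤ u := le_trans (by norm_num) e2
  have hy1 : 1 ≤ y := Real.one_le_rpow e5 hγ
  have hℓ6 : ℓ ≤ ℓ ^ 6 := by
    calc ℓ = ℓ ^ 1 := (pow_one _).symm
      _ ≤ ℓ ^ 6 := pow_le_pow_right₀ e4 (by norm_num)
  have hℓu : 2 ^ 20 * ℓ ≤ u := le_trans (by linarith) e1
  have hup : ∀ i : ℕ, u ^ i = (n : ℝ) ^ (i * (a / 32)) := by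
    intro i
    rw [hu, ← Real.rpow_natCast, ← Real.rpow_mul hn0.le, mul_comm]
  -- the number of the classes
  have hκ : (2 : ℝ) ≤ a / 32 * ℓ := by
    rw [div_le_iff₀ ha0] at e3
    linarith
  set K := ⌊a / 32 * ℓ⌋₊ with hKd
  have hK2 : 2 ≤ K := Nat.le_floor (by exact_mod_cast hκ)
  have hKle : (K : ℝ) ≤ a / 32 * ℓ := Nat.floor_le (by linarith)
  have hKge : a / 64 * ℓ ≤ K := by
    have := Nat.lt_floor_add_one (a / 32 * ℓ)
    rw [← hKd] at this
    linarith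
  have hKℓ : (K : ℝ) ≤ ℓ := by
    have h1 : a / 32 * ℓ ≤ 1 * ℓ :=
      mul_le_mul_of_nonneg_right (by linarith only [ha3]) (by linarith only [e4])
    linarith only [h1, hKle]
  have hK0 : (0 : ℝ) < K := by
    have : 0 < K := by omega
    exact_mod_cast this
  have hKu : (2 : ℝ) ^ K ≤ u := by
    calc (2 : ℝ) ^ K = (2 : ℝ) ^ (K : ℝ) := (Real.rpow_natCast _ _).symm
      _ ≤ (2 : ℝ) ^ (a / 32 * ℓ) := Real.rpow_le_rpow_of_exponent_le (by norm_num) hKle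
      _ = ((2 : ℝ) ^ ℓ) ^ (a / 32) := by
          rw [← Real.rpow_mul (by norm_num), mul_comm]
      _ = u := by rw [hℓ, Real.rpow_logb (by norm_num) (by norm_num) hn0]
  -- the number of the reads
  set m := ⌊a / 32 * (a / 384) * ℓ ^ 2⌋₊ + 1 with hm
  have hm0 : 0 ≤ a / 32 * (a / 384) * ℓ ^ 2 := by positivity
  have hmge : a / 32 * (a / 384) * ℓ ^ 2 ≤ m := by
    rw [hm]
    push_cast
    exact (Nat.lt_floor_add_one _).le
  have hmle : (m : ℝ) ≤ a / 32 * (a / 384) * ℓ ^ 2 + 1 := by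
    rw [hm]
    push_cast
    linarith [Nat.floor_le hm0]
  have hm1 : 1 ≤ m := by omega
  have hm2 : (m : ℝ) ≤ 2 * ℓ ^ 2 := by
    have h1 : a / 32 * (a / 384) ≤ 1 * 1 :=
      mul_le_mul (by linarith only [ha3]) (by linarith only [ha3]) (by positivity) one_pos.le
    have h2 : 1 ≤ ℓ ^ 2 := one_le_pow₀ e4
    have h3 : a / 32 * (a / 384) * ℓ ^ 2 ≤ 1 * 1 * ℓ ^ 2 :=
      mul_le_mul_of_nonneg_right h1 (by positivity)
    linarith only [h2, h3, hmle]
  -- the factor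
  obtain ⟨Θ, hΘ⟩ : ∃ Θ, Θ = 8 ^ (2 * m / K + 1) := ⟨_, rfl⟩
  have hΘ1 : 1 ≤ Θ := by
    rw [hΘ]
    exact Nat.one_le_pow _ _ (by norm_num)
  have hΘu : (Θ : ℝ) ≤ 512 * u := by
    have h1 : ((2 * m / K : ℕ) : ℝ) ≤ a / 96 * ℓ + 2 := by
      have h2 : ((2 * m / K : ℕ) : ℝ) ≤ ((2 * m : ℕ) : ℝ) / K := Nat.cast_div_le
      refine h2.trans ?_
      rw [div_le_iff₀ hK0]
      push_cast
      have h3 : (a / 96 * ℓ + 2) * (a / 64 * ℓ) ≤ (a / 96 * ℓ + 2) * K :=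
        mul_le_mul_of_nonneg_left hKge (by positivity)
      have h4 : 2 * (m : ℝ) ≤ (a / 96 * ℓ + 2) * (a / 64 * ℓ) := by
        have h5 : (2 : ℝ) ≤ 2 * (a / 64 * ℓ) := by linarith
        have h6 : 2 * (a / 32 * (a / 384) * ℓ ^ 2) = a / 96 * ℓ * (a / 64 * ℓ) := by ring
        have h7 : (a / 96 * ℓ + 2) * (a / 64 * ℓ) =
            a / 96 * ℓ * (a / 64 * ℓ) + 2 * (a / 64 * ℓ) := by ring
        rw [h7, ← h6]
        linarith only [h5, hmle]
      exact h4.trans h3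
    calc (Θ : ℝ) = (2 : ℝ) ^ (3 * (((2 * m / K : ℕ) : ℝ) + 1)) := by
          rw [hΘ]
          push_cast
          rw [Real.rpow_mul (by norm_num), show ((2 : ℝ) ^ (3 : ℝ)) = 8 by norm_num]
          rw [← Real.rpow_natCast]
          push_cast
          ring_nf
      _ ≤ (2 : ℝ) ^ (9 + a / 32 * ℓ) :=
          Real.rpow_le_rpow_of_exponent_le (by norm_num) (by linarith)
      _ = 512 * u := by
          rw [Real.rpow_add (by norm_num)]
          congr 1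
          · norm_num
          · calc (2 : ℝ) ^ (a / 32 * ℓ) = ((2 : ℝ) ^ ℓ) ^ (a / 32) := by
                  rw [← Real.rpow_mul (by norm_num), mul_comm]
              _ = u := by rw [hℓ, Real.rpow_logb (by norm_num) (by norm_num) hn0]
  have hΘ0 : (0 : ℝ) < Θ := by exact_mod_cast hΘ1
  -- the length of the words
  set P := ⌊y * u ^ 16⌋₊ with hP
  have hp1 : 1 ≤ y * u ^ 16 := by
    have : 1 ≤ u ^ 16 := one_le_pow₀ hu1
    exact one_le_mul_of_one_le_of_one_le hy1 this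
  have hPle : (P : ℝ) ≤ y * u ^ 16 := Nat.floor_le (by positivity)
  have hPge : y * u ^ 16 / 2 ≤ P := by
    have h1 := Nat.lt_floor_add_one (y * u ^ 16)
    rw [← hP] at h1
    have h2 : 2 ≤ y * u ^ 16 := by
      have h3 : u ≤ u ^ 16 := by
        calc u = u ^ 1 := (pow_one _).symm
          _ ≤ u ^ 16 := pow_le_pow_right₀ hu1 (by norm_num)
      have h4 : u ^ 16 ≤ y * u ^ 16 := le_mul_of_one_le_left (by positivity) hy1
      have h5 : (2 : ℝ) ≤ 2 ^ 20 := by norm_num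
      linarith
    linarith
  -- powers
  have hpow : ∀ i j : ℕ, i < j → 2 ^ 20 * u ^ i ≤ u ^ j := by
    intro i j hij
    calc 2 ^ 20 * u ^ i ≤ u * u ^ i := mul_le_mul_of_nonneg_right e2 (by positivity)
      _ = u ^ (i + 1) := by ring
      _ ≤ u ^ j := pow_le_pow_right₀ hu1 hij
  have hmK : (m : ℝ) * K ≤ 2 * ℓ ^ 3 := by
    calc (m : ℝ) * K ≤ 2 * ℓ ^ 2 * ℓ := by gcongr
      _ = _ := by ring
  have hℓ3 : ℓ ^ 3 ≤ ℓ ^ 6 := pow_le_pow_right₀ e4 (by norm_num)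
  have hP1 : 8 * K * m * Θ ≤ P - 1 := by
    have h1 : ((8 * K * m * Θ + 1 : ℕ) : ℝ) ≤ P := by
      refine le_trans ?_ hPge
      push_cast
      have h2 : 8 * (K : ℝ) * m * Θ ≤ u ^ 2 := by
        calc 8 * (K : ℝ) * m * Θ = 8 * (m * K) * Θ := by ring
          _ ≤ 8 * (2 * ℓ ^ 3) * (512 * u) := by gcongr
          _ = (2 ^ 13 * ℓ ^ 3) * u := by ring
          _ ≤ u * u := by
              apply mul_le_mul_of_nonneg_right _ hu0.le
              linarith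
          _ = u ^ 2 := by ring
      have h3 := hpow 2 16 (by norm_num)
      have h4 : u ^ 16 ≤ y * u ^ 16 := le_mul_of_one_le_left (by positivity) hy1
      have h5 : 1 ≤ u ^ 2 := one_le_pow₀ hu1
      linarith
    have h2 : 8 * K * m * Θ + 1 ≤ P := by exact_mod_cast h1
    omega
  have hP0 : 1 ≤ P := by
    have h1 : (0 : ℝ) < P := lt_of_lt_of_le (by positivity) hPge
    have h2 : 0 < P := by exact_mod_cast h1
    exact h2
  have hden : 0 < 8 * K * m * Θ := by positivity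
  set τ := (P - 1) / (8 * K * m * Θ) with hτ
  have hτ1 : 1 ≤ τ := (Nat.one_le_div_iff hden).2 hP1
  have hτ2 : 8 * K * m * Θ * τ ≤ P - 1 := Nat.mul_div_le _ _
  have hτ3 : P - 1 < 8 * K * m * Θ * (τ + 1) := Nat.lt_mul_div_succ _ hden
  have hR : 8 * (m * (K * P)) ≤ 64 * m ^ 2 * K ^ 2 * Θ * (τ + 1) := by
    have h1 : P ≤ 8 * K * m * Θ * (τ + 1) := by omega
    calc 8 * (m * (K * P)) ≤ 8 * (m * (K * (8 * K * m * Θ * (τ + 1)))) :=
          Nat.mul_le_mul_left _ (Nat.mul_le_mul_left _ (Nat.mul_le_mul_left _ h1))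
      _ = _ := by ring
  have hR1 : 1 ≤ 64 * m ^ 2 * K ^ 2 * Θ := Nat.succ_le_of_lt (by positivity)
  obtain ⟨R, hRd⟩ : ∃ R, R = 64 * m ^ 2 * K ^ 2 * Θ := ⟨_, rfl⟩
  have hRu : (R : ℝ) ≤ u ^ 2 / 8 := by
    rw [hRd]
    push_cast
    calc 64 * (m : ℝ) ^ 2 * K ^ 2 * Θ = 64 * (m * K) ^ 2 * Θ := by ring
      _ ≤ 64 * (2 * ℓ ^ 3) ^ 2 * (512 * u) := by gcongr
      _ = (2 ^ 20 * ℓ ^ 6) * u / 8 := by ring
      _ ≤ u * u / 8 := by gcongr
      _ = _ := by ring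
  -- the number of the blocks
  set P₂ := ⌊y * u ^ 12⌋₊ with hP₂
  have hp2 : 2 ^ 20 ≤ y * u ^ 12 := by
    have h1 := hpow 0 12 (by norm_num)
    rw [pow_zero] at h1
    have h2 : u ^ 12 ≤ y * u ^ 12 := le_mul_of_one_le_left (by positivity) hy1
    linarith
  have hP2le : (P₂ : ℝ) ≤ y * u ^ 12 := Nat.floor_le (by positivity)
  have hP2ge : y * u ^ 12 < P₂ + 1 := Nat.lt_floor_add_one _
  have hP20 : 1 ≤ P₂ := Nat.le_floor (by push_cast; linarith)
  -- the sizes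
  have hbig : y * u ^ 17 ≤ (n : ℝ) ^ (1 / 2 : ℝ) := by
    rw [hup, hy, ← Real.rpow_add hn0]
    apply Real.rpow_le_rpow_of_exponent_le e5
    push_cast
    linarith
  have hsz : 2 * ((K : ℝ) * P) + 8 * (K + 1) * (P + P₂ + 1) ≤ y * u ^ 17 / 2 := by
    have h1 : (P : ℝ) + P₂ + 1 ≤ 3 * (y * u ^ 16) := by
      have h2 : y * u ^ 12 ≤ y * u ^ 16 :=
        mul_le_mul_of_nonneg_left (pow_le_pow_right₀ hu1 (by norm_num)) (by linarith)
      linarith
    have h2 : (K : ℝ) + 1 ≤ 2 * ℓ := by linarith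
    calc 2 * ((K : ℝ) * P) + 8 * (K + 1) * (P + P₂ + 1)
        ≤ 2 * (ℓ * (y * u ^ 16)) + 8 * (2 * ℓ) * (3 * (y * u ^ 16)) := by gcongr
      _ = 100 * ℓ * (y * u ^ 16) / 2 := by ring
      _ ≤ u * (y * u ^ 16) / 2 := by
          have : 100 * ℓ ≤ u := by linarith
          gcongr
      _ = _ := by ring
  have hsqrt : y * u ^ 17 / 2 ≤ (Nat.sqrt n : ℝ) := by
    have h1 : Real.sqrt n < (Nat.sqrt n : ℝ) + 1 := by
      have := Real.real_sqrt_lt_nat_sqrt_succ (a := n)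
      exact_mod_cast this
    rw [Real.sqrt_eq_rpow] at h1
    have h2 : 2 ≤ y * u ^ 17 := by
      have h3 := hpow 0 17 (by norm_num)
      have h4 : u ^ 17 ≤ y * u ^ 17 := le_mul_of_one_le_left (by positivity) hy1
      rw [pow_zero] at h3
      linarith
    linarith
  have hM2 : 2 * (K * P) + 8 * (K + 1) * (P + P₂ + 1) ≤ Nat.sqrt n := by
    have h1 : ((2 * (K * P) + 8 * (K + 1) * (P + P₂ + 1) : ℕ) : ℝ) ≤ (Nat.sqrt n : ℝ) := by
      push_cast
      linarith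
    exact_mod_cast h1
  have hs8 : 8 ≤ Nat.sqrt n := by
    rw [Nat.le_sqrt']
    have : (64 : ℝ) ≤ n := e6
    exact_mod_cast this
  have hM1 : 4 * (K * P) + 4 * (8 * (K + 1) * (P + P₂ + 1)) + Nat.sqrt n + 1 ≤ n := by
    have h1 := Nat.sqrt_le' n
    have h2 : 8 * Nat.sqrt n ≤ Nat.sqrt n ^ 2 := by
      rw [sq]
      exact Nat.mul_le_mul_right _ hs8
    have h3 := fourQ (K * P) (8 * (K + 1) * (P + P₂ + 1))
    have h4 := Nat.mul_le_mul_left 4 hM2
    calc 4 * (K * P) + 4 * (8 * (K + 1) * (P + P₂ + 1)) + Nat.sqrt n + 1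
        ≤ 4 * Nat.sqrt n + Nat.sqrt n + 1 :=
          Nat.add_le_add_right (Nat.add_le_add_right (h3.trans h4) _) _
      _ ≤ 8 * Nat.sqrt n := by linarith only [hs8]
      _ ≤ n := h2.trans h1
  have hEc : ((8 * (K * P) ^ 2 : ℕ) : ℝ) ≤ (n : ℝ) ^ (2 * γ + ε) := by
    calc ((8 * (K * P) ^ 2 : ℕ) : ℝ) = 8 * ((K : ℝ) * P) ^ 2 := by push_cast; ring
      _ ≤ 8 * (ℓ * (y * u ^ 16)) ^ 2 := by gcongr
      _ = y ^ 2 * (8 * ℓ ^ 2 * u ^ 32) := by ring
      _ ≤ y ^ 2 * (u * u ^ 32) := by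
          have h1 : ℓ ^ 2 ≤ ℓ ^ 6 := pow_le_pow_right₀ e4 (by norm_num)
          have h2 : 8 * ℓ ^ 2 ≤ u := by
            have : 0 ≤ ℓ ^ 6 := by positivity
            linarith
          gcongr
      _ = y ^ 2 * u ^ 33 := by ring
      _ ≤ (n : ℝ) ^ (2 * γ + ε) := by
          rw [hup, hy, ← Real.rpow_natCast, ← Real.rpow_mul hn0.le, ← Real.rpow_add hn0]
          apply Real.rpow_le_rpow_of_exponent_le e5
          push_cast
          linarith
  -- the measure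
  have hw0 : (0 : ℝ) ≤ y * u ^ 9 := by positivity
  have hKK : (2 : ℝ) ^ (K - 1) ≤ u :=
    (pow_le_pow_right₀ (by norm_num) (Nat.sub_le _ _)).trans hKu
  have hY : 3 * (y * u ^ 14) ≤ ((P / (2 * Θ) : ℕ) : ℝ) := by
    have h1 : P < 2 * Θ * (P / (2 * Θ) + 1) := Nat.lt_mul_div_succ _ (by positivity)
    have h2 : (P : ℝ) < 2 * Θ * (((P / (2 * Θ) : ℕ) : ℝ) + 1) := by exact_mod_cast h1
    have h3 : y * u ^ 16 / 2 < 1024 * u * (((P / (2 * Θ) : ℕ) : ℝ) + 1) := by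
      refine lt_of_le_of_lt hPge (lt_of_lt_of_le h2 ?_)
      apply mul_le_mul_of_nonneg_right _ (by positivity)
      linarith
    have h4 : y * u ^ 15 / 2048 < ((P / (2 * Θ) : ℕ) : ℝ) + 1 := by
      have h5 : 1024 * u * (y * u ^ 15 / 2048) < 1024 * u * (((P / (2 * Θ) : ℕ) : ℝ) + 1) := by
        calc 1024 * u * (y * u ^ 15 / 2048) = y * u ^ 16 / 2 := by ring
          _ < _ := h3
      exact lt_of_mul_lt_mul_left h5 (by positivity)
    have h6 : 4 * (y * u ^ 14) ≤ y * u ^ 15 / 2048 := by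
      have h7 := hpow 14 15 (by norm_num)
      have h8 : y * (2 ^ 20 * u ^ 14) ≤ y * u ^ 15 := mul_le_mul_of_nonneg_left h7 (by linarith)
      have h9 : 0 ≤ y * u ^ 14 := by positivity
      linarith
    have h10 : 1 ≤ y * u ^ 14 := by
      have : 1 ≤ u ^ 14 := one_le_pow₀ hu1
      exact one_le_mul_of_one_le_of_one_le hy1 this
    linarith
  have hN2 : y * u ^ 9 + 1 ≤ (1 / 2 : ℝ) ^ (K - 1) * ((P₂ / 2 : ℕ) : ℝ) := by
    have h1 : 1 / u ≤ (1 / 2 : ℝ) ^ (K - 1) := by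
      rw [one_div_pow]
      exact one_div_le_one_div_of_le (by positivity) hKK
    have h0 : y * u ^ 12 / 4 ≤ ((P₂ / 2 : ℕ) : ℝ) := by
      have h2 : P₂ < 2 * (P₂ / 2 + 1) := Nat.lt_mul_div_succ _ (by norm_num)
      have h3 : (P₂ : ℝ) < 2 * (((P₂ / 2 : ℕ) : ℝ) + 1) := by exact_mod_cast h2
      linarith
    calc y * u ^ 9 + 1 ≤ 1 / u * (y * u ^ 12 / 4) := by
          have h2 : 1 / u * (y * u ^ 12 / 4) = y * u ^ 11 / 4 := by
            field_simp
          rw [h2]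
          have h3 := hpow 9 11 (by norm_num)
          have h4 : y * (2 ^ 20 * u ^ 9) ≤ y * u ^ 11 :=
            mul_le_mul_of_nonneg_left h3 (by linarith)
          have h5 : 1 ≤ y * u ^ 9 := by
            have : 1 ≤ u ^ 9 := one_le_pow₀ hu1
            exact one_le_mul_of_one_le_of_one_le hy1 this
          linarith
      _ ≤ _ := by gcongr
  have hexp2 : ∀ t w : ℝ, 0 ≤ w → w ≤ t → Real.exp (-t) ≤ (2 : ℝ) ^ (-w) := by
    intro t w hw htw
    rw [Real.rpow_def_of_pos (by norm_num)]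
    apply Real.exp_le_exp.2
    have h5 : Real.log 2 ≤ 1 := by
      have := Real.log_two_lt_d9
      linarith only [this]
    have h6 := mul_le_mul_of_nonneg_right h5 hw
    linarith only [h6, htw]
  have hρ : (K : ℝ) * 2 ^ P₂ * (1 - 1 / (2 * K : ℝ)) ^ (P / (2 * Θ)) +
      (1 - (1 / 2 : ℝ) ^ (K - 1)) ^ (P₂ / 2) ≤ (2 : ℝ) ^ (-(y * u ^ 8 * 2 ^ (K - 1))) := by
    have h1 : (K : ℝ) * 2 ^ P₂ * (1 - 1 / (2 * K : ℝ)) ^ (P / (2 * Θ)) ≤
        (2 : ℝ) ^ (-(y * u ^ 9 + 1)) := by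
      have h2 : (K : ℝ) ≤ (2 : ℝ) ^ (K : ℝ) := by
        rw [Real.rpow_natCast]
        exact_mod_cast Nat.lt_two_pow_self.le
      have hK1 : (1 : ℝ) ≤ K := by
        have : 1 ≤ K := by omega
        exact_mod_cast this
      have h6 : (0 : ℝ) ≤ 1 - 1 / (2 * K : ℝ) := by
        have : 1 / (2 * K : ℝ) ≤ 1 := by
          rw [div_le_one (by positivity)]
          linarith
        linarith
      have h7 : (1 - 1 / (2 * K : ℝ)) ^ (P / (2 * Θ)) ≤
          (2 : ℝ) ^ (-((K : ℝ) + P₂ + (y * u ^ 9 + 1))) := by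
        calc (1 - 1 / (2 * K : ℝ)) ^ (P / (2 * Θ))
            ≤ Real.exp (-(1 / (2 * K : ℝ))) ^ (P / (2 * Θ)) := by
              apply pow_le_pow_left₀ h6
              have := Real.add_one_le_exp (-(1 / (2 * K : ℝ)))
              linarith
          _ = Real.exp (-(((P / (2 * Θ) : ℕ) : ℝ) / (2 * K))) := by
              rw [← Real.exp_nat_mul]
              congr 1
              ring
          _ ≤ _ := by
              apply hexp2 _ _ (by positivity)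
              rw [le_div_iff₀ (by positivity)]
              refine le_trans ?_ hY
              have k1 : (K : ℝ) ≤ y * u ^ 12 := by
                calc (K : ℝ) ≤ ℓ := hKℓ
                  _ ≤ u := by linarith
                  _ = u ^ 1 := (pow_one _).symm
                  _ ≤ u ^ 12 := pow_le_pow_right₀ hu1 (by norm_num)
                  _ ≤ _ := le_mul_of_one_le_left (by positivity) hy1
              have k2 : y * u ^ 9 ≤ y * u ^ 12 :=
                mul_le_mul_of_nonneg_left (pow_le_pow_right₀ hu1 (by norm_num)) (by linarith)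
              have k3 : (K : ℝ) + P₂ + (y * u ^ 9 + 1) ≤ 4 * (y * u ^ 12) := by linarith
              calc ((K : ℝ) + P₂ + (y * u ^ 9 + 1)) * (2 * K)
                  ≤ 4 * (y * u ^ 12) * (2 * ℓ) := by gcongr
                _ = 8 * ℓ * (y * u ^ 12) := by ring
                _ ≤ u * (y * u ^ 12) := by
                    have : 8 * ℓ ≤ u := by linarith
                    gcongr
                _ = y * u ^ 13 := by ring
                _ ≤ y * u ^ 14 :=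
                    mul_le_mul_of_nonneg_left (pow_le_pow_right₀ hu1 (by norm_num)) (by linarith)
                _ ≤ 3 * (y * u ^ 14) := by
                    have : 0 ≤ y * u ^ 14 := by positivity
                    linarith
      calc (K : ℝ) * 2 ^ P₂ * (1 - 1 / (2 * K : ℝ)) ^ (P / (2 * Θ))
          ≤ (2 : ℝ) ^ (K : ℝ) * (2 : ℝ) ^ (P₂ : ℝ) *
              (2 : ℝ) ^ (-((K : ℝ) + P₂ + (y * u ^ 9 + 1))) := by
            rw [Real.rpow_natCast 2 P₂]
            gcongr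
        _ = (2 : ℝ) ^ (-(y * u ^ 9 + 1)) := by
            rw [← Real.rpow_add (by norm_num), ← Real.rpow_add (by norm_num)]
            congr 1
            ring
    have h3 : (1 - (1 / 2 : ℝ) ^ (K - 1)) ^ (P₂ / 2) ≤ (2 : ℝ) ^ (-(y * u ^ 9 + 1)) := by
      have h4 : (1 / 2 : ℝ) ^ (K - 1) ≤ 1 := pow_le_one₀ (by norm_num) (by norm_num)
      calc (1 - (1 / 2 : ℝ) ^ (K - 1)) ^ (P₂ / 2)
          ≤ Real.exp (-(1 / 2 : ℝ) ^ (K - 1)) ^ (P₂ / 2) := by
            apply pow_le_pow_left₀ (by linarith)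
            have := Real.add_one_le_exp (-(1 / 2 : ℝ) ^ (K - 1))
            linarith
        _ = Real.exp (-((1 / 2 : ℝ) ^ (K - 1) * ((P₂ / 2 : ℕ) : ℝ))) := by
            rw [← Real.exp_nat_mul]
            congr 1
            ring
        _ ≤ _ := hexp2 _ _ (by linarith) hN2
    calc (K : ℝ) * 2 ^ P₂ * (1 - 1 / (2 * K : ℝ)) ^ (P / (2 * Θ)) +
          (1 - (1 / 2 : ℝ) ^ (K - 1)) ^ (P₂ / 2)
        ≤ 2 * (2 : ℝ) ^ (-(y * u ^ 9 + 1)) := by linarith
      _ = (2 : ℝ) ^ (-(y * u ^ 9)) := by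
          rw [neg_add, Real.rpow_add (by norm_num), Real.rpow_neg_one]
          ring
      _ ≤ _ := by
          apply Real.rpow_le_rpow_of_exponent_le (by norm_num)
          have h5 : y * u ^ 8 * 2 ^ (K - 1) ≤ y * u ^ 8 * u := by gcongr
          have h6 : y * u ^ 8 * u = y * u ^ 9 := by ring
          linarith
  refine ⟨K, P, P₂, m, τ, R, Θ, hK2, hP0, hP20, hM1, hM2, hEc, hmge, hτ1, by rw [hRd]; exact hR,
    by rw [hRd]; exact hR1, by rw [hΘ]; exact thetaQ K m hK2, ?_, hΘ1, y * u ^ 8, hρ, ?_⟩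
  · have h1 : 4 * K * (2 * m) * τ * Θ = 8 * K * m * Θ * τ := by ring
    omega
  · intro s hs1 hs
    have hs0 : (1 : ℝ) ≤ s := by exact_mod_cast hs1
    have hy0 : (0 : ℝ) ≤ y := by linarith
    have q1 : ((s * (s + 1) + 1 : ℕ) : ℝ) ≤ (2 : ℝ) ^ (2 + 2 * y) := by
      have h0 : (s : ℝ) ≤ (s : ℝ) * s := le_mul_of_one_le_left (by linarith only [hs0]) hs0
      have : (s : ℝ) * (s + 1) + 1 ≤ 4 * ((s : ℝ) * s) := by linarith only [h0, hs0]
      calc ((s * (s + 1) + 1 : ℕ) : ℝ) = (s : ℝ) * (s + 1) + 1 := by push_cast; ring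
        _ ≤ 4 * ((s : ℝ) * s) := this
        _ ≤ 4 * ((2 : ℝ) ^ y * (2 : ℝ) ^ y) := by gcongr
        _ = (2 : ℝ) ^ (2 + 2 * y) := by
            rw [← Real.rpow_add (by norm_num), show (4 : ℝ) = (2 : ℝ) ^ (2 : ℝ) by norm_num,
              ← Real.rpow_add (by norm_num)]
            congr 1
            ring
    have q2 : ((K * s : ℕ) : ℝ) ≤ (2 : ℝ) ^ (u + y) := by
      calc ((K * s : ℕ) : ℝ) = K * s := by push_cast; ring
        _ ≤ (2 : ℝ) ^ u * (2 : ℝ) ^ y := by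
            apply mul_le_mul _ hs (by positivity) (by positivity)
            calc (K : ℝ) ≤ (2 : ℝ) ^ (K : ℝ) := by
                  rw [Real.rpow_natCast]
                  exact_mod_cast Nat.lt_two_pow_self.le
              _ ≤ (2 : ℝ) ^ u :=
                  Real.rpow_le_rpow_of_exponent_le (by norm_num) (by linarith)
        _ = (2 : ℝ) ^ (u + y) := by
            rw [Real.rpow_add (by norm_num)]
    have hexp : (2 + 2 * y) * R + (u + y) * (R + 1) + 1 + y ≤ y * u ^ 8 := by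
      have hR0 : (0 : ℝ) ≤ R := Nat.cast_nonneg _
      have k1 : (2 + 2 * y) * R ≤ 4 * y * (u ^ 2 / 8) := by gcongr; linarith
      have k2 : (u + y) * (R + 1) ≤ 2 * (y * u) * (u ^ 2) := by
        apply mul_le_mul _ _ (by positivity) (by positivity)
        · have t1 : u ≤ y * u := le_mul_of_one_le_left hu0.le hy1
          have t2 : y ≤ y * u := le_mul_of_one_le_right hy0 hu1
          linarith only [t1, t2]
        · have : 1 ≤ u ^ 2 := one_le_pow₀ hu1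
          have h5 : (2 : ℝ) ≤ u ^ 2 := by
            have := hpow 0 2 (by norm_num)
            rw [pow_zero] at this
            linarith
          linarith
      have k3 : y * (u ^ 2) ≤ y * u ^ 3 :=
        mul_le_mul_of_nonneg_left (pow_le_pow_right₀ hu1 (by norm_num)) hy0
      have k4 : y * (2 ^ 20 * u ^ 3) ≤ y * u ^ 8 :=
        mul_le_mul_of_nonneg_left (hpow 3 8 (by norm_num)) hy0
      have k5 : y ≤ y * u ^ 3 := le_mul_of_one_le_right hy0 (one_le_pow₀ hu1)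
      have k6 : 2 * (y * u) * (u ^ 2) = 2 * (y * u ^ 3) := by ring
      rw [k6] at k2
      have k7 : 0 ≤ y * u ^ 3 := by positivity
      linarith only [k1, k2, k3, k4, k5, k7, hy1]
    calc (((s * (s + 1) + 1) ^ R * (K * s) ^ (R + 1) : ℕ) : ℝ) * (2 * (2 : ℝ) ^ (-(y * u ^ 8)))
        = ((s * (s + 1) + 1 : ℕ) : ℝ) ^ R * ((K * s : ℕ) : ℝ) ^ (R + 1) *
            (2 * (2 : ℝ) ^ (-(y * u ^ 8))) := by push_cast; ring
      _ ≤ ((2 : ℝ) ^ (2 + 2 * y)) ^ R * ((2 : ℝ) ^ (u + y)) ^ (R + 1) *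
            (2 * (2 : ℝ) ^ (-(y * u ^ 8))) := by gcongr
      _ = (2 : ℝ) ^ ((2 + 2 * y) * R + (u + y) * (R + 1) + 1 + -(y * u ^ 8)) := by
          rw [← Real.rpow_mul_natCast (by norm_num), ← Real.rpow_mul_natCast (by norm_num),
            Real.rpow_add (by norm_num : (0 : ℝ) < 2) ((2 + 2 * y) * R + (u + y) * (R + 1) + 1),
            Real.rpow_add (by norm_num : (0 : ℝ) < 2) ((2 + 2 * y) * R + (u + y) * (R + 1)),
            Real.rpow_add (by norm_num : (0 : ℝ) < 2) ((2 + 2 * y) * R), Real.rpow_one]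
          push_cast
          ring
      _ ≤ (2 : ℝ) ^ (-y) := by
          apply Real.rpow_le_rpow_of_exponent_le (by norm_num)
          linarith

end Pool.Agent.LS
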