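import Mathlib

/-!
# Reading more than `c log² n` times, module ParR: the parameters for many gadgets
-/

set_option autoImplicit false

namespace Pool.Agent.LS

open Finset

private theorem thetaR (K m : ℕ) (hK : 2 ≤ K) :
    K ^ (2 * m) ≤ 8 ^ (2 * m / K + 1) * (K - 1) ^ (2 * m) := by
  obtain ⟨j, rfl⟩ : ∃ j, K = j + 1 := ⟨K - 1, by omega⟩
  have hj : 1 ≤ j := by omega
  obtain ⟨q, hq⟩ : ∃ q, q = 2 * m / (j + 1) + 1 := ⟨_, rfl⟩
  rw [← hq]
  have h1 : 2 * m ≤ q * (j + 1) := by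
    have := Nat.lt_mul_div_succ (2 * m) (show 0 < j + 1 by omega)
    rw [hq]
    exact this.le.trans (le_of_eq (mul_comm _ _))
  have hj1 : (1 : ℝ) ≤ j := by exact_mod_cast hj
  have hj0 : (0 : ℝ) < j := by linarith
  have h2 : ((j + 1 : ℕ) : ℝ) ≤ j * Real.exp (1 / j) := by
    have := Real.add_one_le_exp (1 / (j : ℝ))
    calc ((j + 1 : ℕ) : ℝ) = j * (1 / j + 1) := by
          push_cast
          field_simp
          ring
      _ ≤ _ := mul_le_mul_of_nonneg_left this hj0.le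
  have h3 : Real.exp (1 / j) ^ (2 * m) ≤ 8 ^ q := by
    rw [← Real.exp_nat_mul]
    calc Real.exp (((2 * m : ℕ) : ℝ) * (1 / (j : ℝ))) ≤ Real.exp (q * (2 * 1)) := by
          apply Real.exp_le_exp.2
          rw [mul_one_div, div_le_iff₀ hj0]
          have h5 : ((2 * m : ℕ) : ℝ) ≤ ((q * (j + 1) : ℕ) : ℝ) := Nat.cast_le.2 h1
          push_cast at h5 ⊢
          have hq0 : (0 : ℝ) ≤ q := Nat.cast_nonneg _
          nlinarith
      _ = (Real.exp 1 ^ 2) ^ q := by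
          rw [Real.exp_nat_mul]
          congr 1
          rw [← Real.exp_nat_mul]
          norm_num
      _ ≤ 8 ^ q := by
          apply pow_le_pow_left₀ (by positivity)
          have h6 := Real.exp_one_lt_d9
          nlinarith [Real.exp_pos 1]
  have h4 : (((j + 1) ^ (2 * m) : ℕ) : ℝ) ≤ ((8 ^ q * (j + 1 - 1) ^ (2 * m) : ℕ) : ℝ) := by
    calc (((j + 1) ^ (2 * m) : ℕ) : ℝ) = ((j + 1 : ℕ) : ℝ) ^ (2 * m) := by push_cast; ring
      _ ≤ (j * Real.exp (1 / j)) ^ (2 * m) := by gcongr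
      _ = j ^ (2 * m) * Real.exp (1 / j) ^ (2 * m) := mul_pow _ _ _
      _ ≤ j ^ (2 * m) * 8 ^ q := by gcongr
      _ = _ := by
          rw [Nat.add_sub_cancel]
          push_cast
          ring
  exact_mod_cast h4

private theorem evR (a : ℝ) (ha : 0 < a) : ∀ᶠ n : ℕ in Filter.atTop,
    2 ^ 20 * Real.logb 2 n ^ 6 ≤ (n : ℝ) ^ (a / 32) ∧ (2 : ℝ) ^ 20 ≤ (n : ℝ) ^ (a / 32) ∧
      64 / a ≤ Real.logb 2 n ∧ 1 ≤ Real.logb 2 n ∧ (1 : ℝ) ≤ n ∧ (64 : ℝ) ≤ n := by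
  have hcast := tendsto_natCast_atTop_atTop (R := ℝ)
  have hl : 0 < Real.log 2 := Real.log_pos (by norm_num)
  have h1 := (isLittleO_log_rpow_atTop (by positivity : 0 < a / 192)).bound
    (show 0 < Real.log 2 / 2 ^ 20 by positivity)
  have h2 := ((tendsto_rpow_atTop (by positivity : 0 < a / 32)).comp hcast).eventually_ge_atTop
    (2 ^ 20)
  have h3 := (Real.tendsto_log_atTop.comp hcast).eventually_ge_atTop
    (max (64 / a) 1 * Real.log 2)
  filter_upwards [hcast.eventually h1, h2, h3, Filter.eventually_ge_atTop 64] with n k1 k2 k3 k4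
  have hn64 : (64 : ℝ) ≤ n := by exact_mod_cast k4
  have hn : (1 : ℝ) ≤ n := by linarith
  have hn0 : (0 : ℝ) < n := by linarith
  have hlog : max (64 / a) 1 ≤ Real.logb 2 n := by
    rw [Real.logb, le_div_iff₀ hl]
    exact k3
  have h5 : 1 ≤ Real.logb 2 n := (le_max_right _ _).trans hlog
  refine ⟨?_, k2, (le_max_left _ _).trans hlog, h5, hn, hn64⟩
  rw [Real.norm_of_nonneg (Real.log_nonneg hn), Real.norm_of_nonneg (by positivity)] at k1
  have h6 : 2 ^ 20 * Real.logb 2 n ≤ (n : ℝ) ^ (a / 192) := by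
    rw [Real.logb]
    rw [div_mul_eq_mul_div, le_div_iff₀ (by positivity)] at k1
    rw [← mul_div_assoc, div_le_iff₀ hl]
    linarith
  calc 2 ^ 20 * Real.logb 2 n ^ 6 ≤ (2 ^ 20) ^ 6 * Real.logb 2 n ^ 6 := by
        apply mul_le_mul_of_nonneg_right (by norm_num) (by positivity)
    _ = (2 ^ 20 * Real.logb 2 n) ^ 6 := by rw [mul_pow]
    _ ≤ ((n : ℝ) ^ (a / 192)) ^ 6 := by gcongr
    _ = (n : ℝ) ^ (a / 32) := by
        rw [← Real.rpow_natCast, ← Real.rpow_mul hn0.le]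
        congr 1
        push_cast
        ring

/-- the part of the parameters which depends on the number `m` of the variables only -/
theorem paramsR (ε : ℝ) (hε : 0 < ε) (hε1 : ε < 1) : ∃ c : ℝ, 0 < c ∧
    ∃ m₀ : ℕ, ∀ m ≥ m₀, ∃ K P G B r τ R Θ : ℕ, 2 ≤ K ∧ 1 ≤ P ∧ 1 ≤ G ∧ 1 ≤ B ∧ 8 * K ≤ G ∧
      2048 * (K * P) ^ 4 * G ≤ m ∧
      (∀ n ≥ m, 4 * (G * (8 * (K + 1) * (P + B + 1))) + Nat.sqrt n + 1 ≤ n / 4 ∧
        2 * (K * P) + 1 + 8 * (K + 1) * (P + B + 1) ≤ Nat.sqrt n + 1) ∧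
      c * Real.logb 2 m ^ 2 ≤ r ∧ 1 ≤ τ ∧ 8 * (r * (K * (P * G))) ≤ R * (τ + 1) ∧ 1 ≤ R ∧
      K ^ (2 * r) ≤ Θ * (K - 1) ^ (2 * r) ∧ 4 * K * (2 * r) * τ * Θ < P * G ∧ 1 ≤ Θ ∧
      ∃ z : ℝ, K * 2 ^ (G * B) * (1 - 1 / (4 * K : ℝ)) ^ (P * G / (2 * Θ) / (16 * K)) +
          (1 - (1 / 2 : ℝ) ^ (K - 1)) ^ (G * B / 2) ≤ (2 : ℝ) ^ (-(z * 2 ^ (K - 1))) ∧
        ∀ s : ℕ, 1 ≤ s → (s : ℝ) ≤ (2 : ℝ) ^ ((m : ℝ) ^ (1 - ε)) →
          (((s * (s + 1) + 1) ^ R * (K * s) ^ (R + 1) : ℕ) : ℝ) * (2 ^ G * (2 : ℝ) ^ (-z)) ≤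
            (2 : ℝ) ^ (-((m : ℝ) ^ (1 - ε))) := by
  set a := min (ε / 2) (1 / 4) with ha
  have ha0 : 0 < a := lt_min (by linarith) (by norm_num)
  have ha1 : a ≤ ε / 2 := min_le_left _ _
  have ha2 : a ≤ 1 / 4 := min_le_right _ _
  obtain ⟨n₁, h₁⟩ := Filter.eventually_atTop.1 (evR a ha0)
  refine ⟨a / 32 * (a / 384), by positivity, n₁, fun m hm => ?_⟩
  obtain ⟨e1, e2, e3, e4, e5, e6⟩ := h₁ m hm
  have hn0 : (0 : ℝ) < m := by linarith
  set ℓ := Real.logb 2 m with hℓ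
  set u := (m : ℝ) ^ (a / 32) with hu
  set y := (m : ℝ) ^ (1 - ε) with hy
  have hu0 : 0 < u := by positivity
  have hu1 : 1 ≤ u := le_trans (by norm_num) e2
  have hy1 : 1 ≤ y := Real.one_le_rpow e5 (by linarith)
  have hℓ6 : ℓ ≤ ℓ ^ 6 := by
    calc ℓ = ℓ ^ 1 := (pow_one _).symm
      _ ≤ ℓ ^ 6 := pow_le_pow_right₀ e4 (by norm_num)
  have hℓu : 2 ^ 20 * ℓ ≤ u := le_trans (by linarith) e1
  have hℓ0 : (0 : ℝ) < ℓ := by linarith
  have hup : ∀ i : ℕ, u ^ i = (m : ℝ) ^ (i * (a / 32)) := by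
    intro i
    rw [hu, ← Real.rpow_natCast, ← Real.rpow_mul hn0.le, mul_comm]
  -- the number of the classes
  have hκ : (2 : ℝ) ≤ a / 32 * ℓ := by
    rw [div_le_iff₀ ha0] at e3
    linarith
  set K := ⌊a / 32 * ℓ⌋₊ with hKd
  have hK2 : 2 ≤ K := Nat.le_floor (by exact_mod_cast hκ)
  have hKle : (K : ℝ) ≤ a / 32 * ℓ := Nat.floor_le (by linarith)
  have hKge : a / 64 * ℓ ≤ K := by
    have := Nat.lt_floor_add_one (a / 32 * ℓ)
    rw [← hKd] at this
    linarith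
  have hKℓ : (K : ℝ) ≤ ℓ := by nlinarith
  have hK0 : (0 : ℝ) < K := by
    have : 0 < K := by omega
    exact_mod_cast this
  have hKu : (2 : ℝ) ^ K ≤ u := by
    calc (2 : ℝ) ^ K = (2 : ℝ) ^ (K : ℝ) := (Real.rpow_natCast _ _).symm
      _ ≤ (2 : ℝ) ^ (a / 32 * ℓ) := Real.rpow_le_rpow_of_exponent_le (by norm_num) hKle
      _ = ((2 : ℝ) ^ ℓ) ^ (a / 32) := by
          rw [← Real.rpow_mul (by norm_num), mul_comm]
      _ = u := by rw [hℓ, Real.rpow_logb (by norm_num) (by norm_num) hn0]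
  -- the number of the reads
  set r := ⌊a / 32 * (a / 384) * ℓ ^ 2⌋₊ + 1 with hr
  have hr0 : 0 ≤ a / 32 * (a / 384) * ℓ ^ 2 := by positivity
  have hrge : a / 32 * (a / 384) * ℓ ^ 2 ≤ r := by
    rw [hr]
    push_cast
    exact (Nat.lt_floor_add_one _).le
  have hrle : (r : ℝ) ≤ a / 32 * (a / 384) * ℓ ^ 2 + 1 := by
    rw [hr]
    push_cast
    linarith [Nat.floor_le hr0]
  have hr1 : 1 ≤ r := by omega
  have hr2 : (r : ℝ) ≤ 2 * ℓ ^ 2 := by
    have h1 : a / 32 * (a / 384) ≤ 1 := by nlinarith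
    have h2 : 1 ≤ ℓ ^ 2 := one_le_pow₀ e4
    nlinarith
  -- the factor
  obtain ⟨Θ, hΘ⟩ : ∃ Θ, Θ = 8 ^ (2 * r / K + 1) := ⟨_, rfl⟩
  have hΘ1 : 1 ≤ Θ := by
    rw [hΘ]
    exact Nat.one_le_pow _ _ (by norm_num)
  have hΘu : (Θ : ℝ) ≤ 512 * u := by
    have h1 : ((2 * r / K : ℕ) : ℝ) ≤ a / 96 * ℓ + 2 := by
      have h2 : ((2 * r / K : ℕ) : ℝ) ≤ ((2 * r : ℕ) : ℝ) / K := Nat.cast_div_le
      refine h2.trans ?_
      rw [div_le_iff₀ hK0]
      push_cast
      have h3 : (a / 96 * ℓ + 2) * (a / 64 * ℓ) ≤ (a / 96 * ℓ + 2) * K :=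
        mul_le_mul_of_nonneg_left hKge (by positivity)
      have h4 : 2 * (r : ℝ) ≤ (a / 96 * ℓ + 2) * (a / 64 * ℓ) := by
        have h5 : (2 : ℝ) ≤ 2 * (a / 64 * ℓ) := by linarith
        have h6 : 2 * (a / 32 * (a / 384) * ℓ ^ 2) = a / 96 * ℓ * (a / 64 * ℓ) := by ring
        nlinarith
      exact h4.trans h3
    calc (Θ : ℝ) = (2 : ℝ) ^ (3 * (((2 * r / K : ℕ) : ℝ) + 1)) := by
          rw [hΘ]
          push_cast
          rw [Real.rpow_mul (by norm_num), show ((2 : ℝ) ^ (3 : ℝ)) = 8 by norm_num]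
          rw [← Real.rpow_natCast]
          push_cast
          ring_nf
      _ ≤ (2 : ℝ) ^ (9 + a / 32 * ℓ) :=
          Real.rpow_le_rpow_of_exponent_le (by norm_num) (by linarith)
      _ = 512 * u := by
          rw [Real.rpow_add (by norm_num)]
          congr 1
          · norm_num
          · calc (2 : ℝ) ^ (a / 32 * ℓ) = ((2 : ℝ) ^ ℓ) ^ (a / 32) := by
                  rw [← Real.rpow_mul (by norm_num), mul_comm]
              _ = u := by rw [hℓ, Real.rpow_logb (by norm_num) (by norm_num) hn0]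
  have hΘ0 : (0 : ℝ) < Θ := by exact_mod_cast hΘ1
  -- powers
  have hpow : ∀ i j : ℕ, i < j → 2 ^ 20 * u ^ i ≤ u ^ j := by
    intro i j hij
    calc 2 ^ 20 * u ^ i ≤ u * u ^ i := mul_le_mul_of_nonneg_right e2 (by positivity)
      _ = u ^ (i + 1) := by ring
      _ ≤ u ^ j := pow_le_pow_right₀ hu1 hij
  have hbig : u ^ 128 ≤ m := by
    calc u ^ 128 = (m : ℝ) ^ (4 * a) := by
          rw [hup]
          congr 1
          push_cast
          ring
      _ ≤ (m : ℝ) ^ (1 : ℝ) := Real.rpow_le_rpow_of_exponent_le e5 (by linarith)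
      _ = (m : ℝ) := Real.rpow_one _
  have hyu : y * u ^ 64 ≤ m := by
    calc y * u ^ 64 = (m : ℝ) ^ ((1 - ε) + 2 * a) := by
          rw [hup, hy, ← Real.rpow_add hn0]
          congr 1
          push_cast
          ring
      _ ≤ (m : ℝ) ^ (1 : ℝ) := Real.rpow_le_rpow_of_exponent_le e5 (by linarith)
      _ = (m : ℝ) := Real.rpow_one _
  have hu8 : 2 ≤ u ^ 8 := by
    have := hpow 0 8 (by norm_num)
    rw [pow_zero] at this
    linarith
  have hu4 : 2 ≤ u ^ 4 := by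
    have := hpow 0 4 (by norm_num)
    rw [pow_zero] at this
    linarith
  -- the sizes
  obtain ⟨P, hP1, hPle, hPge⟩ : ∃ P : ℕ, 1 ≤ P ∧ (P : ℝ) ≤ u ^ 8 ∧ u ^ 8 / 2 ≤ P := by
    refine ⟨⌊u ^ 8⌋₊, Nat.le_floor (by push_cast; linarith), Nat.floor_le (by positivity), ?_⟩
    have := Nat.lt_floor_add_one (u ^ 8)
    linarith
  obtain ⟨B, hB1, hBle, hBge⟩ : ∃ B : ℕ, 1 ≤ B ∧ (B : ℝ) ≤ u ^ 4 ∧ u ^ 4 / 2 ≤ B := by
    refine ⟨⌊u ^ 4⌋₊, Nat.le_floor (by push_cast; linarith), Nat.floor_le (by positivity), ?_⟩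
    have := Nat.lt_floor_add_one (u ^ 4)
    linarith
  have hmu : u ^ 94 ≤ m / u ^ 34 := by
    rw [le_div_iff₀ (by positivity)]
    calc u ^ 94 * u ^ 34 = u ^ 128 := by ring
      _ ≤ (m : ℝ) := hbig
  have hu94 : 2 ^ 20 * u ^ 1 ≤ u ^ 94 := hpow 1 94 (by norm_num)
  obtain ⟨G, hGle, hGge⟩ : ∃ G : ℕ, (G : ℝ) ≤ m / u ^ 34 ∧ m / u ^ 34 / 2 ≤ G := by
    refine ⟨⌊m / u ^ 34⌋₊, Nat.floor_le (by positivity), ?_⟩
    have := Nat.lt_floor_add_one ((m : ℝ) / u ^ 34)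
    have h2 : 2 ≤ (m : ℝ) / u ^ 34 := by linarith [pow_one u]
    linarith
  have hGu : u ≤ G := by
    rw [pow_one] at hu94
    linarith
  have hG0 : (0 : ℝ) < G := by linarith
  have hG1 : 1 ≤ G := by
    have h2 : 0 < G := by exact_mod_cast hG0
    exact h2
  have hGmul : (G : ℝ) * u ^ 34 ≤ m := by
    rw [← le_div_iff₀ (by positivity)]
    exact hGle
  have hGy : y * u ^ 30 / 2 ≤ G := by
    refine le_trans ?_ hGge
    have h2 : y * u ^ 30 ≤ m / u ^ 34 := by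
      rw [le_div_iff₀ (by positivity)]
      calc y * u ^ 30 * u ^ 34 = y * u ^ 64 := by ring
        _ ≤ (m : ℝ) := hyu
    linarith
  have h8K : 8 * K ≤ G := by
    have h2 : ((8 * K : ℕ) : ℝ) ≤ G := by
      push_cast
      linarith
    exact_mod_cast h2
  have hEc : 2048 * (K * P) ^ 4 * G ≤ m := by
    have h2 : ((2048 * (K * P) ^ 4 * G : ℕ) : ℝ) ≤ m := by
      push_cast
      calc 2048 * ((K : ℝ) * P) ^ 4 * G ≤ 2048 * (ℓ * u ^ 8) ^ 4 * G := by gcongr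
        _ = (2048 * ℓ ^ 4) * u ^ 32 * G := by ring
        _ ≤ u * u ^ 32 * G := by
            have h3 : ℓ ^ 4 ≤ ℓ ^ 6 := pow_le_pow_right₀ e4 (by norm_num)
            have h4 : 0 ≤ ℓ ^ 6 := by positivity
            have h5 : 2048 * ℓ ^ 4 ≤ u := by linarith
            gcongr
        _ ≤ u ^ 2 * u ^ 32 * G := by
            have h3 : u ≤ u ^ 2 := by nlinarith
            gcongr
        _ = G * u ^ 34 := by ring
        _ ≤ (m : ℝ) := hGmul
    exact_mod_cast h2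
  have hS : 8 * ((K : ℝ) + 1) * (P + B + 1) ≤ 48 * ℓ * u ^ 8 := by
    have h1 : (K : ℝ) + 1 ≤ 2 * ℓ := by linarith
    have h2 : (P : ℝ) + B + 1 ≤ 3 * u ^ 8 := by
      have h3 : u ^ 4 ≤ u ^ 8 := pow_le_pow_right₀ hu1 (by norm_num)
      linarith
    calc 8 * ((K : ℝ) + 1) * (P + B + 1) ≤ 8 * (2 * ℓ) * (3 * u ^ 8) := by gcongr
      _ = _ := by ring
  have hℓu9 : 48 * ℓ * u ^ 8 ≤ u ^ 9 / 4 := by
    have h1 : 192 * ℓ ≤ u := by linarith
    calc 48 * ℓ * u ^ 8 = 192 * ℓ * u ^ 8 / 4 := by ring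
      _ ≤ u * u ^ 8 / 4 := by gcongr
      _ = _ := by ring
  have hcells : ∀ n ≥ m, 4 * (G * (8 * (K + 1) * (P + B + 1))) + Nat.sqrt n + 1 ≤ n / 4 ∧
      2 * (K * P) + 1 + 8 * (K + 1) * (P + B + 1) ≤ Nat.sqrt n + 1 := by
    intro n hn
    have hnm : (m : ℝ) ≤ n := by exact_mod_cast hn
    have hn1 : u ^ 128 ≤ n := hbig.trans hnm
    have hsq : u ^ 64 ≤ (Nat.sqrt n : ℝ) + 1 := by
      have h1 : Real.sqrt n < (Nat.sqrt n : ℝ) + 1 := by
        have := Real.real_sqrt_lt_nat_sqrt_succ (a := n)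
        exact_mod_cast this
      have h2 : u ^ 64 ≤ Real.sqrt n := by
        apply Real.le_sqrt_of_sq_le
        calc (u ^ 64) ^ 2 = u ^ 128 := by ring
          _ ≤ (n : ℝ) := hn1
      linarith
    have hs64 : 64 ≤ Nat.sqrt n := by
      have h1 : (64 : ℝ) ≤ Nat.sqrt n := by
        have h2 := hpow 0 64 (by norm_num)
        rw [pow_zero] at h2
        linarith
      exact_mod_cast h1
    have hs2 : Nat.sqrt n * Nat.sqrt n ≤ n := Nat.sqrt_le n
    constructor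
    · have h1 : ((4 * (G * (8 * (K + 1) * (P + B + 1))) : ℕ) : ℝ) ≤ (n : ℝ) / 8 - 1 := by
        push_cast
        calc 4 * ((G : ℝ) * (8 * (K + 1) * (P + B + 1))) ≤ 4 * (G * (u ^ 9 / 4)) := by
              have := hS.trans hℓu9
              gcongr
          _ = G * u ^ 9 := by ring
          _ ≤ (n : ℝ) / 8 - 1 := by
              have h2 := hpow 9 34 (by norm_num)
              have h3 : (G : ℝ) * (2 ^ 20 * u ^ 9) ≤ G * u ^ 34 :=
                mul_le_mul_of_nonneg_left h2 hG0.le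
              have h4 := hpow 0 128 (by norm_num)
              rw [pow_zero] at h4
              have h5 : 0 ≤ (G : ℝ) * u ^ 9 := by positivity
              linarith
      have h2 : 8 * (4 * (G * (8 * (K + 1) * (P + B + 1)))) + 8 ≤ n := by
        have h3 : ((8 * (4 * (G * (8 * (K + 1) * (P + B + 1)))) + 8 : ℕ) : ℝ) ≤ n := by
          rw [Nat.cast_add, Nat.cast_mul]
          push_cast at h1 ⊢
          linarith
        exact_mod_cast h3
      have h3 : 64 * Nat.sqrt n ≤ n := le_trans (Nat.mul_le_mul_right _ hs64) hs2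
      omega
    · have h1 : ((2 * (K * P) + 1 + 8 * (K + 1) * (P + B + 1) : ℕ) : ℝ) ≤
          (Nat.sqrt n : ℝ) + 1 := by
        refine le_trans ?_ hsq
        push_cast
        have h2 : (K : ℝ) * P ≤ ℓ * u ^ 8 := by gcongr
        have h3 : 2 * (ℓ * u ^ 8) ≤ 48 * ℓ * u ^ 8 := by
          have : 0 ≤ ℓ * u ^ 8 := by positivity
          linarith
        have h4 := hpow 9 64 (by norm_num)
        have h5 : 1 ≤ u ^ 9 := one_le_pow₀ hu1
        linarith
      exact_mod_cast h1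
  have hrK : (r : ℝ) * K ≤ 2 * ℓ ^ 3 := by
    calc (r : ℝ) * K ≤ 2 * ℓ ^ 2 * ℓ := by gcongr
      _ = _ := by ring
  have hℓ3 : ℓ ^ 3 ≤ ℓ ^ 6 := pow_le_pow_right₀ e4 (by norm_num)
  have hPG : u ^ 8 / 2 * G ≤ ((P * G : ℕ) : ℝ) := by
    push_cast
    gcongr
  have hP1' : 8 * K * r * Θ ≤ P * G - 1 := by
    have h1 : ((8 * K * r * Θ + 1 : ℕ) : ℝ) ≤ ((P * G : ℕ) : ℝ) := by
      refine le_trans ?_ hPG
      push_cast
      have h2 : 8 * (K : ℝ) * r * Θ ≤ u ^ 2 := by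
        calc 8 * (K : ℝ) * r * Θ = 8 * (r * K) * Θ := by ring
          _ ≤ 8 * (2 * ℓ ^ 3) * (512 * u) := by gcongr
          _ = (2 ^ 13 * ℓ ^ 3) * u := by ring
          _ ≤ u * u := by
              apply mul_le_mul_of_nonneg_right _ hu0.le
              linarith
          _ = u ^ 2 := by ring
      have h3 := hpow 2 8 (by norm_num)
      have h4 : u ^ 8 ≤ u ^ 8 * G := le_mul_of_one_le_right (by positivity) (by linarith)
      have h5 : 1 ≤ u ^ 2 := one_le_pow₀ hu1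
      linarith
    have h2 : 8 * K * r * Θ + 1 ≤ P * G := by exact_mod_cast h1
    omega
  have hPG0 : 1 ≤ P * G := Nat.mul_pos hP1 hG1
  have hden : 0 < 8 * K * r * Θ := by positivity
  set τ := (P * G - 1) / (8 * K * r * Θ) with hτ
  have hτ1 : 1 ≤ τ := (Nat.one_le_div_iff hden).2 hP1'
  have hτ2 : 8 * K * r * Θ * τ ≤ P * G - 1 := Nat.mul_div_le _ _
  have hτ3 : P * G - 1 < 8 * K * r * Θ * (τ + 1) := Nat.lt_mul_div_succ _ hden
  have hR : 8 * (r * (K * (P * G))) ≤ 64 * r ^ 2 * K ^ 2 * Θ * (τ + 1) := by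
    have h1 : P * G ≤ 8 * K * r * Θ * (τ + 1) := by omega
    calc 8 * (r * (K * (P * G))) ≤ 8 * (r * (K * (8 * K * r * Θ * (τ + 1)))) := by gcongr
      _ = _ := by ring
  have hR1 : 1 ≤ 64 * r ^ 2 * K ^ 2 * Θ := Nat.succ_le_of_lt (by positivity)
  obtain ⟨R, hRd⟩ : ∃ R, R = 64 * r ^ 2 * K ^ 2 * Θ := ⟨_, rfl⟩
  have hRu : (R : ℝ) ≤ u ^ 2 / 8 := by
    rw [hRd]
    push_cast
    calc 64 * (r : ℝ) ^ 2 * K ^ 2 * Θ = 64 * (r * K) ^ 2 * Θ := by ring
      _ ≤ 64 * (2 * ℓ ^ 3) ^ 2 * (512 * u) := by gcongr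
      _ = (2 ^ 20 * ℓ ^ 6) * u / 8 := by ring
      _ ≤ u * u / 8 := by gcongr
      _ = _ := by ring
  -- the measure
  have hKK : (2 : ℝ) ^ (K - 1) ≤ u :=
    (pow_le_pow_right₀ (by norm_num) (Nat.sub_le _ _)).trans hKu
  have hX : 4 * (u ^ 6 * G) ≤ ((P * G / (2 * Θ) : ℕ) : ℝ) := by
    have h1 : P * G < 2 * Θ * (P * G / (2 * Θ) + 1) := Nat.lt_mul_div_succ _ (by positivity)
    have h2 : ((P * G : ℕ) : ℝ) < 2 * Θ * (((P * G / (2 * Θ) : ℕ) : ℝ) + 1) := by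
      exact_mod_cast h1
    have h3 : u ^ 8 / 2 * G < 1024 * u * (((P * G / (2 * Θ) : ℕ) : ℝ) + 1) := by
      refine lt_of_le_of_lt hPG (lt_of_lt_of_le h2 ?_)
      apply mul_le_mul_of_nonneg_right _ (by positivity)
      linarith
    have h4 : u ^ 7 * G / 2048 < ((P * G / (2 * Θ) : ℕ) : ℝ) + 1 := by
      have h5 : 1024 * u * (u ^ 7 * G / 2048) < 1024 * u * (((P * G / (2 * Θ) : ℕ) : ℝ) + 1) := by
        calc 1024 * u * (u ^ 7 * G / 2048) = u ^ 8 / 2 * G := by ring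
          _ < _ := h3
      exact lt_of_mul_lt_mul_left h5 (by positivity)
    have h6 : (2 ^ 20 * u ^ 6) * (G : ℝ) ≤ u ^ 7 * G :=
      mul_le_mul_of_nonneg_right (hpow 6 7 (by norm_num)) hG0.le
    have h7 : 1 ≤ u ^ 6 * G := by
      have h8 : 1 ≤ u ^ 6 := one_le_pow₀ hu1
      have h9 : (1 : ℝ) ≤ G := by linarith
      nlinarith
    linarith
  have hX2 : 4 * (u ^ 5 * G) ≤ ((P * G / (2 * Θ) / (16 * K) : ℕ) : ℝ) := by
    have h1 : P * G / (2 * Θ) < 16 * K * (P * G / (2 * Θ) / (16 * K) + 1) :=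
      Nat.lt_mul_div_succ _ (by positivity)
    have h2 : ((P * G / (2 * Θ) : ℕ) : ℝ) <
        16 * K * (((P * G / (2 * Θ) / (16 * K) : ℕ) : ℝ) + 1) := by exact_mod_cast h1
    have h3 : 4 * (u ^ 6 * G) < u * (((P * G / (2 * Θ) / (16 * K) : ℕ) : ℝ) + 1) / 2 := by
      refine lt_of_le_of_lt hX (lt_of_lt_of_le h2 ?_)
      have h4 : 16 * (K : ℝ) ≤ u / 2 := by linarith
      calc 16 * (K : ℝ) * (((P * G / (2 * Θ) / (16 * K) : ℕ) : ℝ) + 1)
          ≤ u / 2 * (((P * G / (2 * Θ) / (16 * K) : ℕ) : ℝ) + 1) := by gcongr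
        _ = _ := by ring
    have h5 : 8 * (u ^ 5 * G) < ((P * G / (2 * Θ) / (16 * K) : ℕ) : ℝ) + 1 := by
      have h6 : u * (8 * (u ^ 5 * G)) < u * (((P * G / (2 * Θ) / (16 * K) : ℕ) : ℝ) + 1) := by
        calc u * (8 * (u ^ 5 * G)) = 2 * (4 * (u ^ 6 * G)) := by ring
          _ < _ := by linarith
      exact lt_of_mul_lt_mul_left h6 hu0.le
    have h7 : 1 ≤ u ^ 5 * G := by
      have h8 : 1 ≤ u ^ 5 := one_le_pow₀ hu1
      have h9 : (1 : ℝ) ≤ G := by linarith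
      nlinarith
    linarith
  have hexp2 : ∀ t w : ℝ, 0 ≤ w → w ≤ t → Real.exp (-t) ≤ (2 : ℝ) ^ (-w) := by
    intro t w hw htw
    rw [Real.rpow_def_of_pos (by norm_num)]
    apply Real.exp_le_exp.2
    have h5 : Real.log 2 ≤ 1 := by
      have := Real.log_two_lt_d9
      linarith
    nlinarith
  have hGB : ((G * B : ℕ) : ℝ) ≤ G * u ^ 4 := by
    push_cast
    gcongr
  have hGB2 : G * u ^ 4 / 8 ≤ ((G * B / 2 : ℕ) : ℝ) := by
    have h1 : G * B < 2 * (G * B / 2 + 1) := Nat.lt_mul_div_succ _ (by norm_num)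
    have h2 : ((G * B : ℕ) : ℝ) < 2 * (((G * B / 2 : ℕ) : ℝ) + 1) := by exact_mod_cast h1
    have h3 : (G : ℝ) * (u ^ 4 / 2) ≤ ((G * B : ℕ) : ℝ) := by
      push_cast
      gcongr
    have h4 : 8 ≤ (G : ℝ) * u ^ 4 := by
      have h5 := hpow 0 4 (by norm_num)
      rw [pow_zero] at h5
      have h6 : u ^ 4 ≤ G * u ^ 4 := le_mul_of_one_le_left (by positivity) (by linarith)
      linarith
    linarith
  have hρ : (K : ℝ) * 2 ^ (G * B) * (1 - 1 / (4 * K : ℝ)) ^ (P * G / (2 * Θ) / (16 * K)) +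
      (1 - (1 / 2 : ℝ) ^ (K - 1)) ^ (G * B / 2) ≤ (2 : ℝ) ^ (-(G * u * 2 ^ (K - 1))) := by
    have h1 : (K : ℝ) * 2 ^ (G * B) * (1 - 1 / (4 * K : ℝ)) ^ (P * G / (2 * Θ) / (16 * K)) ≤
        (2 : ℝ) ^ (-(G * u ^ 2 + 1)) := by
      have h2 : (K : ℝ) ≤ (2 : ℝ) ^ (K : ℝ) := by
        rw [Real.rpow_natCast]
        exact_mod_cast Nat.lt_two_pow_self.le
      have hK1 : (1 : ℝ) ≤ K := by
        have : 1 ≤ K := by omega
        exact_mod_cast this
      have h6 : (0 : ℝ) ≤ 1 - 1 / (4 * K : ℝ) := by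
        have : 1 / (4 * K : ℝ) ≤ 1 := by
          rw [div_le_one (by positivity)]
          linarith
        linarith
      have h7 : (1 - 1 / (4 * K : ℝ)) ^ (P * G / (2 * Θ) / (16 * K)) ≤
          (2 : ℝ) ^ (-((K : ℝ) + ((G * B : ℕ) : ℝ) + (G * u ^ 2 + 1))) := by
        calc (1 - 1 / (4 * K : ℝ)) ^ (P * G / (2 * Θ) / (16 * K))
            ≤ Real.exp (-(1 / (4 * K : ℝ))) ^ (P * G / (2 * Θ) / (16 * K)) := by
              apply pow_le_pow_left₀ h6
              have := Real.add_one_le_exp (-(1 / (4 * K : ℝ)))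
              linarith
          _ = Real.exp (-(((P * G / (2 * Θ) / (16 * K) : ℕ) : ℝ) / (4 * K))) := by
              rw [← Real.exp_nat_mul]
              congr 1
              ring
          _ ≤ _ := by
              apply hexp2 _ _ (by positivity)
              rw [le_div_iff₀ (by positivity)]
              refine le_trans ?_ hX2
              have k1 : (K : ℝ) ≤ G * u ^ 4 := by
                have k4 : u ^ 4 ≤ G * u ^ 4 := le_mul_of_one_le_left (by positivity) (by linarith)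
                have k5 : u ≤ u ^ 4 := by
                  calc u = u ^ 1 := (pow_one _).symm
                    _ ≤ u ^ 4 := pow_le_pow_right₀ hu1 (by norm_num)
                linarith
              have k2 : (G : ℝ) * u ^ 2 ≤ G * u ^ 4 :=
                mul_le_mul_of_nonneg_left (pow_le_pow_right₀ hu1 (by norm_num)) hG0.le
              have k6 : 1 ≤ (G : ℝ) * u ^ 4 := by
                have k4 : u ^ 4 ≤ G * u ^ 4 := le_mul_of_one_le_left (by positivity) (by linarith)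
                linarith
              have k3 : (K : ℝ) + ((G * B : ℕ) : ℝ) + (G * u ^ 2 + 1) ≤ 4 * (G * u ^ 4) := by
                linarith
              calc ((K : ℝ) + ((G * B : ℕ) : ℝ) + (G * u ^ 2 + 1)) * (4 * K)
                  ≤ 4 * (G * u ^ 4) * (4 * ℓ) := by gcongr
                _ = 16 * ℓ * (G * u ^ 4) := by ring
                _ ≤ 4 * u * (G * u ^ 4) := by
                    have : 16 * ℓ ≤ 4 * u := by linarith
                    gcongr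
                _ = 4 * (u ^ 5 * G) := by ring
      calc (K : ℝ) * 2 ^ (G * B) * (1 - 1 / (4 * K : ℝ)) ^ (P * G / (2 * Θ) / (16 * K))
          ≤ (2 : ℝ) ^ (K : ℝ) * (2 : ℝ) ^ ((G * B : ℕ) : ℝ) *
              (2 : ℝ) ^ (-((K : ℝ) + ((G * B : ℕ) : ℝ) + (G * u ^ 2 + 1))) := by
            rw [Real.rpow_natCast 2 (G * B)]
            gcongr
        _ = (2 : ℝ) ^ (-(G * u ^ 2 + 1)) := by
            rw [← Real.rpow_add (by norm_num), ← Real.rpow_add (by norm_num)]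
            congr 1
            ring
    have h3 : (1 - (1 / 2 : ℝ) ^ (K - 1)) ^ (G * B / 2) ≤ (2 : ℝ) ^ (-(G * u ^ 2 + 1)) := by
      have h4 : (1 / 2 : ℝ) ^ (K - 1) ≤ 1 := pow_le_one₀ (by norm_num) (by norm_num)
      have h5 : G * u ^ 2 + 1 ≤ (1 / 2 : ℝ) ^ (K - 1) * ((G * B / 2 : ℕ) : ℝ) := by
        have k1 : 1 / u ≤ (1 / 2 : ℝ) ^ (K - 1) := by
          rw [one_div_pow]
          exact one_div_le_one_div_of_le (by positivity) hKK
        calc G * u ^ 2 + 1 ≤ 1 / u * (G * u ^ 4 / 8) := by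
              have k2 : 1 / u * (G * u ^ 4 / 8) = G * u ^ 3 / 8 := by
                field_simp
              rw [k2]
              have k3 : (G : ℝ) * (2 ^ 20 * u ^ 2) ≤ G * u ^ 3 :=
                mul_le_mul_of_nonneg_left (hpow 2 3 (by norm_num)) hG0.le
              have k5 : 1 ≤ (G : ℝ) * u ^ 2 := by
                have k6 : 1 ≤ u ^ 2 := one_le_pow₀ hu1
                have k7 : (1 : ℝ) ≤ G := by linarith
                nlinarith
              linarith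
          _ ≤ _ := by gcongr
      calc (1 - (1 / 2 : ℝ) ^ (K - 1)) ^ (G * B / 2)
          ≤ Real.exp (-(1 / 2 : ℝ) ^ (K - 1)) ^ (G * B / 2) := by
            apply pow_le_pow_left₀ (by linarith)
            have := Real.add_one_le_exp (-(1 / 2 : ℝ) ^ (K - 1))
            linarith
        _ = Real.exp (-((1 / 2 : ℝ) ^ (K - 1) * ((G * B / 2 : ℕ) : ℝ))) := by
            rw [← Real.exp_nat_mul]
            congr 1
            ring
        _ ≤ _ := hexp2 _ _ (by positivity) h5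
    calc (K : ℝ) * 2 ^ (G * B) * (1 - 1 / (4 * K : ℝ)) ^ (P * G / (2 * Θ) / (16 * K)) +
          (1 - (1 / 2 : ℝ) ^ (K - 1)) ^ (G * B / 2)
        ≤ 2 * (2 : ℝ) ^ (-(G * u ^ 2 + 1)) := by linarith
      _ = (2 : ℝ) ^ (-(G * u ^ 2)) := by
          rw [neg_add, Real.rpow_add (by norm_num), Real.rpow_neg_one]
          ring
      _ ≤ _ := by
          apply Real.rpow_le_rpow_of_exponent_le (by norm_num)
          have h5 : G * u * 2 ^ (K - 1) ≤ G * u * u := by gcongr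
          have h6 : G * u * u = G * u ^ 2 := by ring
          linarith
  refine ⟨K, P, G, B, r, τ, R, Θ, hK2, hP1, hG1, hB1, h8K, hEc, hcells, hrge, hτ1,
    by rw [hRd]; exact hR, by rw [hRd]; exact hR1, by rw [hΘ]; exact thetaR K r hK2, ?_, hΘ1,
    G * u, hρ, ?_⟩
  · have h1 : 4 * K * (2 * r) * τ * Θ = 8 * K * r * Θ * τ := by ring
    omega
  · intro s hs1 hs
    have hs0 : (1 : ℝ) ≤ s := by exact_mod_cast hs1
    have hy0 : (0 : ℝ) ≤ y := by linarith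
    have q1 : ((s * (s + 1) + 1 : ℕ) : ℝ) ≤ (2 : ℝ) ^ (2 + 2 * y) := by
      have : (s : ℝ) * (s + 1) + 1 ≤ 4 * ((s : ℝ) * s) := by nlinarith
      calc ((s * (s + 1) + 1 : ℕ) : ℝ) = (s : ℝ) * (s + 1) + 1 := by push_cast; ring
        _ ≤ 4 * ((s : ℝ) * s) := this
        _ ≤ 4 * ((2 : ℝ) ^ y * (2 : ℝ) ^ y) := by gcongr
        _ = (2 : ℝ) ^ (2 + 2 * y) := by
            rw [← Real.rpow_add (by norm_num), show (4 : ℝ) = (2 : ℝ) ^ (2 : ℝ) by norm_num,
              ← Real.rpow_add (by norm_num)]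
            congr 1
            ring
    have q2 : ((K * s : ℕ) : ℝ) ≤ (2 : ℝ) ^ (u + y) := by
      calc ((K * s : ℕ) : ℝ) = K * s := by push_cast; ring
        _ ≤ (2 : ℝ) ^ u * (2 : ℝ) ^ y := by
            apply mul_le_mul _ hs (by positivity) (by positivity)
            calc (K : ℝ) ≤ (2 : ℝ) ^ (K : ℝ) := by
                  rw [Real.rpow_natCast]
                  exact_mod_cast Nat.lt_two_pow_self.le
              _ ≤ (2 : ℝ) ^ u :=
                  Real.rpow_le_rpow_of_exponent_le (by norm_num) (by linarith)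
        _ = (2 : ℝ) ^ (u + y) := by
            rw [Real.rpow_add (by norm_num)]
    have hexp : (2 + 2 * y) * R + (u + y) * (R + 1) + G + y ≤ G * u := by
      have hR0 : (0 : ℝ) ≤ R := Nat.cast_nonneg _
      have k1 : (2 + 2 * y) * R ≤ 4 * y * (u ^ 2 / 8) := by gcongr; linarith
      have k2 : (u + y) * (R + 1) ≤ 2 * (y * u) * (u ^ 2) := by
        apply mul_le_mul _ _ (by positivity) (by positivity)
        · nlinarith
        · have h5 : (2 : ℝ) ≤ u ^ 2 := by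
            have := hpow 0 2 (by norm_num)
            rw [pow_zero] at this
            linarith
          linarith
      have k3 : y * (u ^ 2) ≤ y * u ^ 3 :=
        mul_le_mul_of_nonneg_left (pow_le_pow_right₀ hu1 (by norm_num)) hy0
      have k4 : y * (2 ^ 20 * u ^ 3) ≤ y * u ^ 30 :=
        mul_le_mul_of_nonneg_left (hpow 3 30 (by norm_num)) hy0
      have k5 : y ≤ y * u ^ 3 := le_mul_of_one_le_right hy0 (one_le_pow₀ hu1)
      have k6 : 2 * (y * u) * (u ^ 2) = 2 * (y * u ^ 3) := by ring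
      rw [k6] at k2
      have k7 : (G : ℝ) * 2 ≤ G * u := by
        have : (2 : ℝ) ≤ u := by linarith
        gcongr
      linarith
    calc (((s * (s + 1) + 1) ^ R * (K * s) ^ (R + 1) : ℕ) : ℝ) *
          (2 ^ G * (2 : ℝ) ^ (-(G * u)))
        = ((s * (s + 1) + 1 : ℕ) : ℝ) ^ R * ((K * s : ℕ) : ℝ) ^ (R + 1) *
            (2 ^ G * (2 : ℝ) ^ (-(G * u))) := by push_cast; ring
      _ ≤ ((2 : ℝ) ^ (2 + 2 * y)) ^ R * ((2 : ℝ) ^ (u + y)) ^ (R + 1) *
            (2 ^ G * (2 : ℝ) ^ (-(G * u))) := by gcongr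
      _ = (2 : ℝ) ^ ((2 + 2 * y) * R + (u + y) * (R + 1) + G + -(G * u)) := by
          rw [← Real.rpow_mul_natCast (by norm_num), ← Real.rpow_mul_natCast (by norm_num),
            Real.rpow_add (by norm_num : (0 : ℝ) < 2) ((2 + 2 * y) * R + (u + y) * (R + 1) + G),
            Real.rpow_add (by norm_num : (0 : ℝ) < 2) ((2 + 2 * y) * R + (u + y) * (R + 1)),
            Real.rpow_add (by norm_num : (0 : ℝ) < 2) ((2 + 2 * y) * R), Real.rpow_natCast 2 G]
          push_cast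
          ring
      _ ≤ (2 : ℝ) ^ (-y) := by
          apply Real.rpow_le_rpow_of_exponent_le (by norm_num)
          linarith

end Pool.Agent.LS
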