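import Mathlib
import Pool.Agent.Lib.MP_0a1b52_lc_LS.ParR
import Pool.Agent.Lib.MP_0a1b52_lc_LS.CoreK

/-!
# Reading more than `c log² n` times, module MainKR: the circuit side, many gadgets
-/

set_option autoImplicit false

namespace Pool.Agent.LS

open Finset Pool.Agent.FP Pool.Agent.RK Pool.Agent.RT

theorem mainKR (ε : ℝ) (hε : 0 < ε) (hε1 : ε < 1) : ∃ c : ℝ, 0 < c ∧
    ∃ m₀ : ℕ, ∀ m ≥ m₀, ∃ K P G B : ℕ, 1 ≤ K ∧ 1 ≤ P ∧ 1 ≤ G ∧ 1 ≤ B ∧ 8 * K ≤ G ∧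
      2048 * (K * P) ^ 4 * G ≤ m ∧
      (∀ n ≥ m, 4 * (G * (8 * (K + 1) * (P + B + 1))) + Nat.sqrt n + 1 ≤ n / 4 ∧
        2 * (K * P) + 1 + 8 * (K + 1) * (P + B + 1) ≤ Nat.sqrt n + 1) ∧
      ∀ (V : Type) [Fintype V] [DecidableEq V] (e : Fin K → Fin (P * G) → Bool → V),
        (∀ k j t k' j' t', e k j t = e k' j' t' → k = k' ∧ j = j' ∧ t = t') →
        ∀ (ι : Type) [Fintype ι] (Q : ι → V → Bool) (C : (V → Bool) → Prop),
          (∀ (X : Fin K → Finset V) (J : Fin K → Finset (Fin (P * G))) (Y : ℕ),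
            (∀ k, Y ≤ (J k).card) → (∀ k, ∀ j ∈ J k, ∀ t, e k j t ∈ X k) →
            ∀ T : (V → Bool) → Prop, StarK X T → (∀ x, T x → C x) →
              ((Nat.card {i // T (Q i)} : ℝ) / (2 ^ G * Fintype.card ι)) ^ 2 ^ (K - 1) ≤
                K * 2 ^ (G * B) * (1 - 1 / (4 * K : ℝ)) ^ (Y / (16 * K)) +
                  (1 - (1 / 2 : ℝ) ^ (K - 1)) ^ (G * B / 2)) →
          ∀ (s : ℕ) (D : Circuit V s), (∀ x, ¬ D.Accepts x → C x) →
            (s : ℝ) ≤ (2 : ℝ) ^ ((m : ℝ) ^ (1 - ε)) →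
            (∀ k j t L, Tree D D.out L → (L.count (e k j t) : ℝ) ≤ c * Real.logb 2 m ^ 2) →
            (Nat.card {i // ¬ D.Accepts (Q i)} : ℝ) ≤
              Fintype.card ι * (2 : ℝ) ^ (-((m : ℝ) ^ (1 - ε))) := by
  obtain ⟨c, hc, m₀, h₀⟩ := paramsR ε hε hε1
  refine ⟨c, hc, m₀, fun m hm => ?_⟩
  obtain ⟨K, P, G, B, r, τ, R, Θ, hK, hP, hG, hB, h8, hEc, hcell, hr, hτ, hR, hR1, hΘ, h3, hΘ1, z,
    hz, hfin⟩ := h₀ m hm
  refine ⟨K, P, G, B, by omega, hP, hG, hB, h8, hEc, hcell, ?_⟩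
  intro V _ _ e he ι _ Q C hfam s D hD hs hcnt
  have hs1 : 1 ≤ s := by
    have := D.out.2
    omega
  rcases Nat.eq_zero_or_pos (Fintype.card ι) with h0 | h0
  · have h1 : Nat.card {i // ¬ D.Accepts (Q i)} = 0 := by
      have : IsEmpty ι := Fintype.card_eq_zero_iff.1 h0
      exact Nat.card_of_isEmpty
    rw [h1, h0]
    simp
  have h0' : (0 : ℝ) < Fintype.card ι := by exact_mod_cast h0
  have hb := core_boundK hK D e he r τ R Θ hτ
    (fun k j t L hL => by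
      have := (hcnt k j t L hL).trans hr
      exact_mod_cast this) hR hR1 hΘ h3 Q (Fintype.card ι * (2 ^ G * (2 : ℝ) ^ (-z)))
    (by positivity) (by
      intro X J hJ hJX T hT1 hT2
      have h1 := (hfam X J (P * G / (2 * Θ)) (fun k => Nat.div_le_of_le_mul (hJ k)) hJX T hT1
        fun x hx => hD x (hT2 x hx)).trans hz
      have h2 : (2 : ℝ) ^ (-(z * 2 ^ (K - 1))) = ((2 : ℝ) ^ (-z)) ^ 2 ^ (K - 1) := by
        rw [← Real.rpow_mul_natCast (by norm_num)]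
        congr 1
        push_cast
        ring
      rw [h2] at h1
      have h4 := le_of_pow_le_pow_left₀ (by positivity) (by positivity) h1
      rw [div_le_iff₀ (by positivity)] at h4
      linarith)
  refine hb.trans ?_
  have h5 := mul_le_mul_of_nonneg_left (hfin s hs1 hs) h0'.le
  calc (((s * (s + 1) + 1) ^ R * (K * s) ^ (R + 1) : ℕ) : ℝ) *
        (Fintype.card ι * (2 ^ G * (2 : ℝ) ^ (-z)))
      = Fintype.card ι * ((((s * (s + 1) + 1) ^ R * (K * s) ^ (R + 1) : ℕ) : ℝ) *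
        (2 ^ G * (2 : ℝ) ^ (-z))) := by ring
    _ ≤ _ := h5

end Pool.Agent.LS
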