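import Mathlib
import Pool.Agent.Lib.MP_0a1b52_lc_LS.MainKR
import Pool.Agent.Lib.MP_0a1b52_lc_LS.FamR
import Pool.Agent.Lib.MP_0a1b52_lc_RT.DefsL

/-!
# Reading more than `c log² m` times, module MainR: the theorem with the sharp exponent
-/

set_option autoImplicit false

namespace Pool.Agent.LS

open Finset Pool.Agent.FP Pool.Agent.RK Pool.Agent.RT

open Classical in
/-- the form with trees -/
theorem mainTR (ε : ℝ) (hε : 0 < ε) (hε1 : ε < 1) : ∃ c : ℝ, 0 < c ∧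
    ∃ m₀ : ℕ, ∀ m ≥ m₀, ∀ n ≥ m, ∀ E : Finset (EdgeVar n), m ≤ E.card →
      ∃ (N : ℕ) (Q : Fin N → EdgeVar n → Bool), 0 < N ∧ (∀ i, ¬ Clq (Q i)) ∧
        ∀ (s : ℕ) (D : Circuit (EdgeVar n) s), (∀ x, Clq x → D.Accepts x) →
          (s : ℝ) ≤ (2 : ℝ) ^ ((m : ℝ) ^ (1 - ε)) →
          (∀ e ∈ E, ∀ L, Tree D D.out L → (L.count e : ℝ) ≤ c * Real.logb 2 m ^ 2) →
          ((univ.filter fun i => ¬ D.Accepts (Q i)).card : ℝ) ≤
            N * (2 : ℝ) ^ (-((m : ℝ) ^ (1 - ε))) := by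
  obtain ⟨c, hc, m₀, h₀⟩ := mainKR ε hε hε1
  refine ⟨c, hc, m₀, fun m hm n hn E hE => ?_⟩
  obtain ⟨K, P, G, B, hK, hP, hG, hB, h8, hEc, hcell, hmain⟩ := h₀ m hm
  obtain ⟨h1, h2⟩ := hcell n hn
  obtain ⟨e, he1, he2, ι, hι, hne, Q, hQ1, hQ2⟩ := famR n K P G B hK hP h8 hB h1 h2 E
    (hEc.trans hE)
  obtain ⟨φ⟩ : Nonempty (ι ≃ Fin (Fintype.card ι)) := ⟨Fintype.equivFin _⟩
  refine ⟨Fintype.card ι, fun i => Q (φ.symm i), Fintype.card_pos, fun i => hQ1 _, ?_⟩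
  intro s D hD hs hcnt
  have h3 := hmain (EdgeVar n) e he2 ι Q (fun x => ¬ Clq x) hQ2 s D
    (fun x hx hx2 => hx (hD x hx2)) hs (by
    intro k j t L hL
    refine le_trans (le_of_eq ?_) (hcnt _ (he1 k j t) L hL)
    rw [lawful_beq_subsingleton (instBEqOfDecidableEq : BEq (EdgeVar n)) Subtype.instBEq])
  refine le_trans (le_of_eq ?_) h3
  rw [Nat.card_eq_fintype_card, Fintype.card_subtype, Nat.cast_inj]
  refine card_bij (fun i _ => φ.symm i) ?_ ?_ ?_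
  · intro i hi
    exact mem_filter.2 ⟨mem_univ _, (mem_filter.1 hi).2⟩
  · intro i _ j _ h
    exact φ.symm.injective h
  · intro i hi
    refine ⟨φ i, mem_filter.2 ⟨mem_univ _, ?_⟩, φ.symm_apply_apply i⟩
    have h2 := (mem_filter.1 hi).2
    simpa only [φ.symm_apply_apply] using h2

open Classical in
/-- the form with signed leaves -/
theorem mainLR (ε : ℝ) (hε : 0 < ε) (hε1 : ε < 1) : ∃ c : ℝ, 0 < c ∧
    ∃ m₀ : ℕ, ∀ m ≥ m₀, ∀ n ≥ m, ∀ E : Finset (EdgeVar n), m ≤ E.card →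
      ∃ (N : ℕ) (Q : Fin N → EdgeVar n → Bool), 0 < N ∧ (∀ i, ¬ Clq (Q i)) ∧
        ∀ (s : ℕ) (D : Circuit (EdgeVar n) s), (∀ x, Clq x → D.Accepts x) →
          (s : ℝ) ≤ (2 : ℝ) ^ ((m : ℝ) ^ (1 - ε)) →
          (∀ e ∈ E, ∀ L, LTree D D.out L →
            ((L.map Prod.fst).count e : ℝ) ≤ c * Real.logb 2 m ^ 2) →
          ((univ.filter fun i => ¬ D.Accepts (Q i)).card : ℝ) ≤
            N * (2 : ℝ) ^ (-((m : ℝ) ^ (1 - ε))) := by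
  obtain ⟨c, hc, m₀, h₀⟩ := mainTR ε hε hε1
  refine ⟨c, hc, m₀, fun m hm n hn E hE => ?_⟩
  obtain ⟨N, Q, hN, hQ, h⟩ := h₀ m hm n hn E hE
  refine ⟨N, Q, hN, hQ, fun s D hD hs hcnt => h s D hD hs fun e he M hM => ?_⟩
  obtain ⟨L, hL, rfl⟩ := (tree_iff D D.out M).1 hM
  exact hcnt e he L hL

end Pool.Agent.LS
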