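import Mathlib
import Pool.Agent.Lib.MP_0a1b52_lc_LS.MainKT
import Pool.Agent.Lib.MP_0a1b52_lc_LS.FamQ
import Pool.Agent.Lib.MP_0a1b52_lc_RT.DefsL
import Pool.Agent.Lib.MP_0a1b52_lc_RT.Dual

/-!
# Reading more than `r` times, module MainT: both sides with one gadget, explicit form
-/

set_option autoImplicit false

namespace Pool.Agent.LS

open Finset Pool.Agent.FP Pool.Agent.RK Pool.Agent.RT

open Classical in
/-- both sides: `ty = false` for the non-cliques, `ty = true` for the cliques -/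
theorem mainTT (r m n : ℕ) (hr : 1 ≤ r) (hm : (2 : ℝ) ^ (256 * Real.sqrt r) ≤ m) (hn : m ≤ n)
    (E : Finset (EdgeVar n)) (hE : m ≤ E.card) (ty : Bool) :
      ∃ (N : ℕ) (Q : Fin N → EdgeVar n → Bool), 0 < N ∧ (∀ i, Clq (Q i) ↔ ty = true) ∧
        ∀ (s : ℕ) (D : Circuit (EdgeVar n) s), (∀ x, ¬ D.Accepts x → (Clq x ↔ ty = true)) →
          (s : ℝ) ≤ (2 : ℝ) ^ Real.sqrt (m / (2 : ℝ) ^ (256 * Real.sqrt r)) →
          (∀ e ∈ E, ∀ L, Tree D D.out L → L.count e ≤ r) →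
          ((univ.filter fun i => ¬ D.Accepts (Q i)).card : ℝ) ≤
            N * (2 : ℝ) ^ (-Real.sqrt (m / (2 : ℝ) ^ (256 * Real.sqrt r))) := by
  obtain ⟨K, N₁, N₂, hK, hN, hN2, hcell, hEc, hmain⟩ := mainKT r m hr hm
  obtain ⟨hM1, hM2⟩ := hcell n hn
  obtain ⟨e, he1, he2, hfam⟩ := famQ n K N₁ N₂ hK hN hN2 hM1 hM2 E (hEc.trans hE)
  obtain ⟨Q, hQ1, hQ2⟩ := hfam ty
  obtain ⟨φ⟩ : Nonempty (TabQ K N₁ N₂ × WdQ K N₁ ≃ Fin (Fintype.card (TabQ K N₁ N₂ × WdQ K N₁))) :=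
    ⟨Fintype.equivFin _⟩
  refine ⟨Fintype.card (TabQ K N₁ N₂ × WdQ K N₁), fun i => Q (φ.symm i), ?_, fun i => hQ1 _, ?_⟩
  · exact Fintype.card_pos_iff.2 ⟨(fun _ _ => ⟨0, hN2⟩, fun _ _ => false)⟩
  intro s D hD hs hcnt
  have h1 := hmain (EdgeVar n) e he2 (TabQ K N₁ N₂ × WdQ K N₁) Q (fun x => Clq x ↔ ty = true) hQ2 s
    D hD hs (by
    intro k j t L hL
    refine le_trans (le_of_eq ?_) (hcnt _ (he1 k j t) L hL)
    rw [lawful_beq_subsingleton (instBEqOfDecidableEq : BEq (EdgeVar n)) Subtype.instBEq])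
  refine le_trans (le_of_eq ?_) h1
  rw [Nat.card_eq_fintype_card, Fintype.card_subtype, Nat.cast_inj]
  refine card_bij (fun i _ => φ.symm i) ?_ ?_ ?_
  · intro i hi
    exact mem_filter.2 ⟨mem_univ _, (mem_filter.1 hi).2⟩
  · intro i _ j _ h
    exact φ.symm.injective h
  · intro i hi
    refine ⟨φ i, mem_filter.2 ⟨mem_univ _, ?_⟩, φ.symm_apply_apply i⟩
    have h2 := (mem_filter.1 hi).2
    simpa only [φ.symm_apply_apply] using h2

open Classical in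
/-- the side of the cliques -/
theorem mainAT (r m n : ℕ) (hr : 1 ≤ r) (hm : (2 : ℝ) ^ (256 * Real.sqrt r) ≤ m) (hn : m ≤ n)
    (E : Finset (EdgeVar n)) (hE : m ≤ E.card) :
      ∃ (N : ℕ) (P : Fin N → EdgeVar n → Bool), 0 < N ∧ (∀ i, Clq (P i)) ∧
        ∀ (s : ℕ) (D : Circuit (EdgeVar n) s), (∀ x, ¬ Clq x → ¬ D.Accepts x) →
          (s : ℝ) ≤ (2 : ℝ) ^ Real.sqrt (m / (2 : ℝ) ^ (256 * Real.sqrt r)) →
          (∀ e ∈ E, ∀ L, ATree D D.out L → L.count e ≤ r) →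
          ((univ.filter fun i => D.Accepts (P i)).card : ℝ) ≤
            N * (2 : ℝ) ^ (-Real.sqrt (m / (2 : ℝ) ^ (256 * Real.sqrt r))) := by
  obtain ⟨N, Q, hN, hQ, h⟩ := mainTT r m n hr hm hn E hE true
  refine ⟨N, Q, hN, fun i => (hQ i).2 rfl, fun s D hD hs hcnt => ?_⟩
  have h3 := h s (dual D) (fun x hx => by
      rw [dual_accepts, not_not] at hx
      refine ⟨fun _ => rfl, fun _ => ?_⟩
      by_contra hc
      exact hD x hc hx) hs (fun e he L hL => hcnt e he L (tree_dual hL))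
  have h4 : (univ.filter fun i => ¬ (dual D).Accepts (Q i)) =
      univ.filter fun i => D.Accepts (Q i) := by
    ext i
    rw [mem_filter, mem_filter, dual_accepts, not_not]
  rw [h4] at h3
  exact h3

end Pool.Agent.LS
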