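import Mathlib

/-!
# Reading more than `c log² n` times, module TailQ: most partitions have many complete blocks
-/

set_option autoImplicit false

namespace Pool.Agent.LS

open Finset
open scoped BigOperators

namespace TailQ

variable {K N₁ N₂ : ℕ}

open Classical in
theorem card_avoid (k : Fin K) (S : Finset (Fin N₁)) (M : Finset (Fin N₂)) (hN : 0 < N₂) :
    ((univ.filter fun q : Fin K → Fin N₁ → Fin N₂ => ∀ j ∈ S, q k j ∉ M).card : ℝ) =
      Fintype.card (Fin K → Fin N₁ → Fin N₂) * (1 - (M.card : ℝ) / N₂) ^ S.card := by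
  have h1 : (univ.filter fun q : Fin K → Fin N₁ → Fin N₂ => ∀ j ∈ S, q k j ∉ M) =
      Fintype.piFinset (fun k' => Fintype.piFinset
        (fun j => if k' = k ∧ j ∈ S then Mᶜ else univ)) := by
    ext q
    simp only [mem_filter, mem_univ, true_and, Fintype.mem_piFinset]
    constructor
    · intro h k' j
      split_ifs with h1
      · obtain ⟨rfl, h2⟩ := h1
        exact mem_compl.2 (h j h2)
      · exact mem_univ _
    · intro h j hj
      have := h k j
      rw [if_pos ⟨rfl, hj⟩] at this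
      exact mem_compl.1 this
  rw [h1, Fintype.card_piFinset]
  simp only [Fintype.card_piFinset]
  push_cast
  have hN' : (N₂ : ℝ) ≠ 0 := by positivity
  have h2 : ∀ (k' : Fin K) (j : Fin N₁),
      (((if k' = k ∧ j ∈ S then Mᶜ else univ : Finset (Fin N₂)).card : ℕ) : ℝ) =
      N₂ * (if k' = k ∧ j ∈ S then (1 - (M.card : ℝ) / N₂) else 1) := by
    intro k' j
    split_ifs
    · have h3 : M.card ≤ N₂ := by simpa using card_le_univ M
      rw [card_compl, Fintype.card_fin, Nat.cast_sub h3]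
      field_simp
    · simp
  simp only [h2, prod_mul_distrib, prod_const, card_univ, Fintype.card_fin]
  have h3 : ∏ k' : Fin K, ∏ j : Fin N₁,
      (if k' = k ∧ j ∈ S then (1 - (M.card : ℝ) / N₂) else 1) =
        (1 - (M.card : ℝ) / N₂) ^ S.card := by
    rw [prod_eq_single k]
    · simp only [true_and]
      rw [prod_ite, prod_const, prod_const_one, mul_one]
      congr 2
      ext j
      simp
    · intro b _ hb
      simp [hb]
    · simp
  rw [h3]
  simp

open Classical in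
theorem bad_ex (hK : 1 ≤ K) (J : Fin K → Finset (Fin N₁)) (q : Fin K → Fin N₁ → Fin N₂)
    (h : (univ.filter fun i : Fin N₂ => ∀ k, ∃ j ∈ J k, q k j = i).card < N₂ / 2) :
    ∃ k, ∃ M : Finset (Fin N₂), N₂ < 2 * K * M.card ∧ ∀ j ∈ J k, q k j ∉ M := by
  by_contra hc
  push Not at hc
  have h1 : ∀ k, 2 * K * (univ.filter fun i : Fin N₂ => ∀ j ∈ J k, q k j ≠ i).card ≤ N₂ := by
    intro k
    by_contra h2
    obtain ⟨j, hj, hj2⟩ := hc k _ (not_le.1 h2)
    exact (mem_filter.1 hj2).2 j hj rfl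
  have h2 : (univ.filter fun i : Fin N₂ => ¬ ∀ k, ∃ j ∈ J k, q k j = i) ⊆
      univ.biUnion fun k => univ.filter fun i : Fin N₂ => ∀ j ∈ J k, q k j ≠ i := by
    intro i hi
    have hi2 := (mem_filter.1 hi).2
    push Not at hi2
    obtain ⟨k, hk⟩ := hi2
    exact mem_biUnion.2 ⟨k, mem_univ _, mem_filter.2 ⟨mem_univ _, hk⟩⟩
  have h3 := (card_le_card h2).trans card_biUnion_le
  have h4 := card_filter_add_card_filter_not (s := (univ : Finset (Fin N₂)))
    (fun i : Fin N₂ => ∀ k, ∃ j ∈ J k, q k j = i)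
  rw [card_univ, Fintype.card_fin] at h4
  have h5 : 2 * K * ∑ k : Fin K, (univ.filter fun i : Fin N₂ => ∀ j ∈ J k, q k j ≠ i).card ≤
      K * N₂ := by
    rw [mul_sum]
    calc _ ≤ ∑ _k : Fin K, N₂ := sum_le_sum fun k _ => h1 k
      _ = K * N₂ := by simp
  have h6 : 2 * K * (univ.filter fun i : Fin N₂ => ¬ ∀ k, ∃ j ∈ J k, q k j = i).card ≤ K * N₂ :=
    (Nat.mul_le_mul_left _ h3).trans h5
  have h7 : 2 * (univ.filter fun i : Fin N₂ => ¬ ∀ k, ∃ j ∈ J k, q k j = i).card ≤ N₂ := by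
    have h8 : K * (2 * (univ.filter fun i : Fin N₂ => ¬ ∀ k, ∃ j ∈ J k, q k j = i).card) ≤
        K * N₂ := by
      calc _ = 2 * K * (univ.filter fun i : Fin N₂ => ¬ ∀ k, ∃ j ∈ J k, q k j = i).card := by ring
        _ ≤ _ := h6
    exact Nat.le_of_mul_le_mul_left h8 hK
  omega

end TailQ

open Classical in
open TailQ in
/-- For all but a small part of the partitions `q`, half of the blocks `i` are complete: for each
`k` some letter in `J k` lies in the block `i` of the word `k`. -/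
theorem tailQ {K N₁ N₂ : ℕ} (hK : 1 ≤ K) (X : ℕ) (J : Fin K → Finset (Fin N₁))
    (hJ : ∀ k, X ≤ (J k).card) :
    ((univ.filter fun q : Fin K → Fin N₁ → Fin N₂ =>
      (univ.filter fun i : Fin N₂ => ∀ k, ∃ j ∈ J k, q k j = i).card < N₂ / 2).card : ℝ) ≤
      Fintype.card (Fin K → Fin N₁ → Fin N₂) *
        (K * 2 ^ N₂ * (1 - 1 / (2 * K : ℝ)) ^ X) := by
  have hK' : (1 : ℝ) ≤ K := by exact_mod_cast hK
  have hb0 : (0 : ℝ) ≤ 1 - 1 / (2 * K : ℝ) := by
    have : 1 / (2 * K : ℝ) ≤ 1 := by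
      rw [div_le_one (by positivity)]
      linarith
    linarith
  have hb1 : 1 - 1 / (2 * K : ℝ) ≤ 1 := by
    have : (0 : ℝ) ≤ 1 / (2 * K : ℝ) := by positivity
    linarith
  rcases Nat.eq_zero_or_pos N₂ with hN | hN
  · subst hN
    have : (univ.filter fun q : Fin K → Fin N₁ → Fin 0 =>
      (univ.filter fun i : Fin 0 => ∀ k, ∃ j ∈ J k, q k j = i).card < 0 / 2) = ∅ := by
      ext q
      simp
    rw [this, card_empty, Nat.cast_zero]
    positivity
  · have hN' : (0 : ℝ) < N₂ := by exact_mod_cast hN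
    set Ms : Finset (Finset (Fin N₂)) := univ.filter fun M => N₂ < 2 * K * M.card with hMs
    have h1 : (univ.filter fun q : Fin K → Fin N₁ → Fin N₂ =>
        (univ.filter fun i : Fin N₂ => ∀ k, ∃ j ∈ J k, q k j = i).card < N₂ / 2) ⊆
        (univ ×ˢ Ms : Finset (Fin K × Finset (Fin N₂))).biUnion fun p =>
          univ.filter fun q : Fin K → Fin N₁ → Fin N₂ => ∀ j ∈ J p.1, q p.1 j ∉ p.2 := by
      intro q hq
      obtain ⟨k, M, h2, h3⟩ := bad_ex hK J q (mem_filter.1 hq).2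
      exact mem_biUnion.2 ⟨(k, M), mem_product.2 ⟨mem_univ _, mem_filter.2 ⟨mem_univ _, h2⟩⟩,
        mem_filter.2 ⟨mem_univ _, h3⟩⟩
    have h2 := (card_le_card h1).trans card_biUnion_le
    have h3 : ((univ.filter fun q : Fin K → Fin N₁ → Fin N₂ =>
        (univ.filter fun i : Fin N₂ => ∀ k, ∃ j ∈ J k, q k j = i).card < N₂ / 2).card : ℝ) ≤
        ∑ p ∈ (univ ×ˢ Ms : Finset (Fin K × Finset (Fin N₂))),
          ((univ.filter fun q : Fin K → Fin N₁ → Fin N₂ =>
            ∀ j ∈ J p.1, q p.1 j ∉ p.2).card : ℝ) := by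
      exact_mod_cast h2
    refine h3.trans ?_
    have h4 : ∀ p ∈ (univ ×ˢ Ms : Finset (Fin K × Finset (Fin N₂))),
        ((univ.filter fun q : Fin K → Fin N₁ → Fin N₂ =>
            ∀ j ∈ J p.1, q p.1 j ∉ p.2).card : ℝ) ≤
          Fintype.card (Fin K → Fin N₁ → Fin N₂) * (1 - 1 / (2 * K : ℝ)) ^ X := by
      intro p hp
      rw [card_avoid p.1 (J p.1) p.2 hN]
      have h5 : N₂ < 2 * K * p.2.card := (mem_filter.1 (mem_product.1 hp).2).2
      have h6 : (N₂ : ℝ) < 2 * K * p.2.card := by exact_mod_cast h5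
      have h7 : p.2.card ≤ N₂ := by simpa using card_le_univ p.2
      have h7' : (p.2.card : ℝ) ≤ N₂ := by exact_mod_cast h7
      have h8 : 0 ≤ 1 - (p.2.card : ℝ) / N₂ := by
        have : (p.2.card : ℝ) / N₂ ≤ 1 := by
          rw [div_le_one hN']
          exact h7'
        linarith
      have h9 : 1 - (p.2.card : ℝ) / N₂ ≤ 1 - 1 / (2 * K : ℝ) := by
        have : 1 / (2 * K : ℝ) ≤ (p.2.card : ℝ) / N₂ := by
          rw [div_le_div_iff₀ (by positivity) hN']
          linarith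
        linarith
      refine mul_le_mul_of_nonneg_left ?_ (Nat.cast_nonneg _)
      calc (1 - (p.2.card : ℝ) / N₂) ^ (J p.1).card
          ≤ (1 - 1 / (2 * K : ℝ)) ^ (J p.1).card := pow_le_pow_left₀ h8 h9 _
        _ ≤ (1 - 1 / (2 * K : ℝ)) ^ X := pow_le_pow_of_le_one hb0 hb1 (hJ p.1)
    refine (sum_le_card_nsmul _ _ _ h4).trans ?_
    rw [card_product, card_univ, Fintype.card_fin, nsmul_eq_mul]
    have h10 : Ms.card ≤ 2 ^ N₂ := by
      refine (card_le_univ _).trans ?_
      rw [Fintype.card_finset, Fintype.card_fin]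
    have h11 : ((K * Ms.card : ℕ) : ℝ) ≤ K * 2 ^ N₂ := by
      push_cast
      refine mul_le_mul_of_nonneg_left ?_ (Nat.cast_nonneg _)
      exact_mod_cast h10
    calc ((K * Ms.card : ℕ) : ℝ) *
          (Fintype.card (Fin K → Fin N₁ → Fin N₂) * (1 - 1 / (2 * K : ℝ)) ^ X)
        ≤ (K * 2 ^ N₂) * (Fintype.card (Fin K → Fin N₁ → Fin N₂) * (1 - 1 / (2 * K : ℝ)) ^ X) :=
          mul_le_mul_of_nonneg_right h11 (by positivity)
      _ = _ := by ring

end Pool.Agent.LS
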